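import Mathlib

set_option autoImplicit false
open MeasureTheory

namespace Pool.Agent.Helper23.Bose

/-- three-dimensional space -/
abbrev E3 := EuclideanSpace ℝ (Fin 3)

/-- the smoothness exponent `∞` -/
abbrev cinf : WithTop ℕ∞ := ((⊤ : ℕ∞) : WithTop ℕ∞)

/-- unit vectors -/
noncomputable abbrev ek (k : Fin 3) : E3 := EuclideanSpace.single k (1 : ℝ)

/-- `|∇φ|²` on `ℝ³` -/
noncomputable def grad2 (φ : E3 → ℂ) (y : E3) : ℝ := ∑ k : Fin 3, ‖fderiv ℝ φ y (ek k)‖ ^ 2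

/-- `2|𝓜∇φ|² = |∇₁φ|² + |∇₂φ|² + |(∇₁+∇₂)φ|²` on `ℝ³ × ℝ³` -/
noncomputable def form3 (φ : E3 × E3 → ℂ) (p : E3 × E3) : ℝ :=
  ∑ k : Fin 3, (‖fderiv ℝ φ p (ek k, 0)‖ ^ 2 + ‖fderiv ℝ φ p (0, ek k)‖ ^ 2
    + ‖fderiv ℝ φ p (ek k, ek k)‖ ^ 2)

/-- two-body scattering energy -/
noncomputable def bW (W : E3 → ℝ) : ℝ :=
  sInf {B : ℝ | ∃ φ : E3 → ℂ, ContDiff ℝ cinf φ ∧ HasCompactSupport φ ∧
    B = ∫ y, (2 * grad2 φ y + W y * ‖1 - φ y‖ ^ 2)}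

/-- three-body scattering energy -/
noncomputable def bM (V : E3 × E3 → ℝ) : ℝ :=
  sInf {B : ℝ | ∃ φ : E3 × E3 → ℂ, ContDiff ℝ cinf φ ∧ HasCompactSupport φ ∧
    B = ∫ p, (form3 φ p + V p * ‖1 - φ p‖ ^ 2)}

/-- `|∇_i ψ|²` -/
noncomputable def gradi {N : ℕ} (ψ : (Fin N → E3) → ℂ) (i : Fin N) (x : Fin N → E3) : ℝ :=
  ∑ k : Fin 3, ‖fderiv ℝ ψ x (Pi.single i (ek k))‖ ^ 2

/-- the two-body interaction -/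
noncomputable def pot2 (W : E3 → ℝ) (N : ℕ) (x : Fin N → E3) : ℝ :=
  ∑ i : Fin N, ∑ j ∈ Finset.Ioi i, (N : ℝ) ^ 2 * W ((N : ℝ) • (x i - x j))

/-- the three-body interaction -/
noncomputable def pot3 (V : E3 × E3 → ℝ) (N : ℕ) (x : Fin N → E3) : ℝ :=
  ∑ i : Fin N, ∑ j ∈ Finset.Ioi i, ∑ k ∈ Finset.Ioi j,
    (N : ℝ) * V (Real.sqrt N • (x i - x j), Real.sqrt N • (x i - x k))

/-- the `N`-body energy -/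
noncomputable def QN (Vext W : E3 → ℝ) (V : E3 × E3 → ℝ) (N : ℕ) (ψ : (Fin N → E3) → ℂ) : ℝ :=
  ∫ x, (∑ i : Fin N, gradi ψ i x + (∑ i : Fin N, Vext (x i)) * ‖ψ x‖ ^ 2
    + pot2 W N x * ‖ψ x‖ ^ 2 + pot3 V N x * ‖ψ x‖ ^ 2)

/-- admissible `N`-body wave functions -/
def AdmN (N : ℕ) (ψ : (Fin N → E3) → ℂ) : Prop :=
  ContDiff ℝ cinf ψ ∧ HasCompactSupport ψ ∧
    (∀ σ : Equiv.Perm (Fin N), ∀ x, ψ (x ∘ σ) = ψ x) ∧ ∫ x, ‖ψ x‖ ^ 2 = 1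

/-- the `N`-body ground state energy -/
noncomputable def EN (Vext W : E3 → ℝ) (V : E3 × E3 → ℝ) (N : ℕ) : ℝ :=
  sInf {E : ℝ | ∃ ψ : (Fin N → E3) → ℂ, AdmN N ψ ∧ E = QN Vext W V N ψ}

/-- admissible one-body functions -/
def Adm1 (u : E3 → ℂ) : Prop := ContDiff ℝ cinf u ∧ HasCompactSupport u ∧ ∫ x, ‖u x‖ ^ 2 = 1

/-- Gross–Pitaevskii functional -/
noncomputable def GPf (Vext : E3 → ℝ) (b₁ b₂ : ℝ) (u : E3 → ℂ) : ℝ :=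
  ∫ x, (grad2 u x + Vext x * ‖u x‖ ^ 2 + b₁ / 2 * ‖u x‖ ^ 4 + b₂ / 6 * ‖u x‖ ^ 6)

/-- Gross–Pitaevskii energy -/
noncomputable def eGP (Vext : E3 → ℝ) (b₁ b₂ : ℝ) : ℝ :=
  sInf {E : ℝ | ∃ u : E3 → ℂ, Adm1 u ∧ E = GPf Vext b₁ b₂ u}

/-- standing assumptions -/
structure Hyp (Vext W : E3 → ℝ) (V : E3 × E3 → ℝ) : Prop where
  vm : Measurable Vext
  vloc : ∀ K : Set E3, IsCompact K → ∃ M : ℝ, ∀ x ∈ K, |Vext x| ≤ M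
  vgrow : ∃ C α : ℝ, 0 < C ∧ 0 < α ∧ ∀ x, C * ‖x‖ ^ α ≤ Vext x
  wm : Measurable W
  weven : ∀ x, W (-x) = W x
  wnn : ∀ x, 0 ≤ W x
  wbd : ∃ M : ℝ, ∀ x, W x ≤ M
  wsupp : HasCompactSupport W
  Vm : Measurable V
  Vnn : ∀ p, 0 ≤ V p
  Vbd : ∃ M : ℝ, ∀ p, V p ≤ M
  Vsupp : HasCompactSupport V
  Vsymm : ∀ x y, V (x, y) = V (y, x)
  Vperm : ∀ x y z, V (x - y, x - z) = V (y - x, y - z) ∧ V (x - y, x - z) = V (z - y, z - x)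

end Pool.Agent.Helper23.Bose
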