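import Mathlib
import Pool.Agent.Helper23.Bose.Defs

set_option autoImplicit false
open MeasureTheory

namespace Pool.Agent.Helper23.Bose

/-- box label -/
noncomputable def lab (l : ℝ) (x : E3) : Fin 3 → ℤ := fun k => ⌊x k / l⌋

/-- half-open box -/
def Box (l : ℝ) (b : Fin 3 → ℤ) : Set E3 := {x | ∀ k, l * b k ≤ x k ∧ x k < l * (b k + 1)}

/-- shrunk box -/
def SBox (l η : ℝ) (b : Fin 3 → ℤ) : Set E3 :=
  {x | ∀ k, l * b k + η ≤ x k ∧ x k ≤ l * (b k + 1) - η}

theorem mem_Box_iff {l : ℝ} (hl : 0 < l) {b : Fin 3 → ℤ} {x : E3} : x ∈ Box l b ↔ lab l x = b := by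
  simp only [Box, Set.mem_ofPred_eq, lab, funext_iff]
  refine forall_congr' fun k => ?_
  rw [Int.floor_eq_iff, le_div_iff₀ hl, div_lt_iff₀ hl, mul_comm l, mul_comm l]

theorem mem_Box_lab {l : ℝ} (hl : 0 < l) (x : E3) : x ∈ Box l (lab l x) :=
  (mem_Box_iff hl).mpr rfl

theorem continuous_coord (k : Fin 3) : Continuous (fun x : E3 => x k) := by fun_prop

theorem measurable_coord (k : Fin 3) : Measurable (fun x : E3 => x k) :=
  (continuous_coord k).measurable

theorem measurableSet_Box (l : ℝ) (b : Fin 3 → ℤ) : MeasurableSet (Box l b) := by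
  have : Box l b = ⋂ k, {x : E3 | l * b k ≤ x k ∧ x k < l * (b k + 1)} := by
    ext x; simp [Box]
  rw [this]
  refine MeasurableSet.iInter fun k => ?_
  exact (measurableSet_le measurable_const (measurable_coord k)).inter
    (measurableSet_lt (measurable_coord k) measurable_const)

theorem measurableSet_SBox (l η : ℝ) (b : Fin 3 → ℤ) : MeasurableSet (SBox l η b) := by
  have : SBox l η b = ⋂ k, {x : E3 | l * b k + η ≤ x k ∧ x k ≤ l * (b k + 1) - η} := by
    ext x; simp [SBox]
  rw [this]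
  refine MeasurableSet.iInter fun k => ?_
  exact (measurableSet_le measurable_const (measurable_coord k)).inter
    (measurableSet_le (measurable_coord k) measurable_const)

theorem convex_Box (l : ℝ) (b : Fin 3 → ℤ) : Convex ℝ (Box l b) := by
  intro x hx y hy s t hs ht hst k
  have h1 := hx k
  have h2 := hy k
  have e : (s • x + t • y) k = s * x k + t * y k := by simp
  rw [e]
  have e1 : l * b k = s * (l * b k) + t * (l * b k) := by rw [← add_mul, hst, one_mul]
  have e2 : l * (b k + 1) = s * (l * (b k + 1)) + t * (l * (b k + 1)) := by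
    rw [← add_mul, hst, one_mul]
  constructor
  · rw [e1]
    have := mul_le_mul_of_nonneg_left h1.1 hs
    have := mul_le_mul_of_nonneg_left h2.1 ht
    linarith
  · rw [e2]
    rcases hs.eq_or_lt with h0 | h0
    · have ht1 : 0 < t := by linarith
      have := mul_lt_mul_of_pos_left h2.2 ht1
      have := mul_le_mul_of_nonneg_left h1.2.le hs
      linarith
    · have := mul_lt_mul_of_pos_left h1.2 h0
      have := mul_le_mul_of_nonneg_left h2.2.le ht
      linarith

theorem volume_Box {l : ℝ} (hl : 0 < l) (b : Fin 3 → ℤ) :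
    volume (Box l b) = ENNReal.ofReal (l ^ 3) := by
  have h1 : Box l b = (WithLp.ofLp : E3 → (Fin 3 → ℝ)) ⁻¹'
      (Set.pi Set.univ fun k => Set.Ico (l * b k) (l * (b k + 1))) := by
    ext x
    simp [Box, Set.mem_pi]
  rw [h1, (PiLp.volume_preserving_ofLp (Fin 3)).measure_preimage
    (MeasurableSet.univ_pi fun k => measurableSet_Ico).nullMeasurableSet, Real.volume_pi_Ico]
  have : ∀ k : Fin 3, l * ((b k : ℝ) + 1) - l * b k = l := fun k => by ring
  simp_rw [this]
  rw [Finset.prod_const, ← ENNReal.ofReal_pow hl.le]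
  simp

theorem volume_SBox {l η : ℝ} (hη : 2 * η ≤ l) (b : Fin 3 → ℤ) :
    volume (SBox l η b) = ENNReal.ofReal ((l - 2 * η) ^ 3) := by
  have h1 : SBox l η b = (WithLp.ofLp : E3 → (Fin 3 → ℝ)) ⁻¹'
      (Set.pi Set.univ fun k => Set.Icc (l * b k + η) (l * (b k + 1) - η)) := by
    ext x
    simp only [SBox, Set.mem_ofPred_eq, Set.mem_preimage, Set.mem_pi, Set.mem_univ, true_implies,
      Set.mem_Icc]
  rw [h1, (PiLp.volume_preserving_ofLp (Fin 3)).measure_preimage
    (MeasurableSet.univ_pi fun k => measurableSet_Icc).nullMeasurableSet, volume_pi_pi]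
  have : ∀ k : Fin 3, l * ((b k : ℝ) + 1) - η - (l * b k + η) = l - 2 * η := fun k => by ring
  simp_rw [Real.volume_Icc, this]
  rw [Finset.prod_const, ← ENNReal.ofReal_pow (by linarith)]
  simp

theorem abs_coord_le (x : E3) (k : Fin 3) : |x k| ≤ ‖x‖ := by
  have := PiLp.norm_apply_le x k
  simpa using this

theorem SBox_add_mem {l η : ℝ} {b : Fin 3 → ℤ} {x y : E3} (hx : x ∈ SBox l η b) (hy : ‖y‖ < η) :
    x + y ∈ Box l b := by
  intro k
  have h1 := hx k
  have h2 := abs_coord_le y k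
  have h3 := abs_le.mp h2
  have e : (x + y) k = x k + y k := rfl
  rw [e]
  constructor <;> linarith [h1.1, h1.2, h3.1, h3.2]

theorem SBox_mono {l η η' : ℝ} {b : Fin 3 → ℤ} (h : η' ≤ η) : SBox l η b ⊆ SBox l η' b := by
  intro x hx k
  have := hx k
  constructor <;> linarith [this.1, this.2]

theorem SBox_add_mem' {l η η' : ℝ} {b : Fin 3 → ℤ} {x y : E3} (hx : x ∈ SBox l η b)
    (hy : ‖y‖ ≤ η - η') : x + y ∈ SBox l η' b := by
  intro k
  have h1 := hx k
  have h2 := abs_coord_le y k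
  have h3 := abs_le.mp h2
  have e : (x + y) k = x k + y k := rfl
  rw [e]
  constructor <;> linarith [h1.1, h1.2, h3.1, h3.2]

theorem SBox_subset_Box {l η : ℝ} (hη : 0 < η) {b : Fin 3 → ℤ} : SBox l η b ⊆ Box l b := by
  intro x hx
  have := SBox_add_mem (y := 0) hx (by simpa using hη)
  simpa using this

theorem Box_dist {l : ℝ} (hl : 0 < l) {b : Fin 3 → ℤ} {x y : E3} (hx : x ∈ Box l b)
    (hy : y ∈ Box l b) : ‖x - y‖ ≤ 2 * l := by
  rw [EuclideanSpace.norm_eq]
  have h : ∀ k, ‖(x - y) k‖ ^ 2 ≤ l ^ 2 := by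
    intro k
    have h1 := hx k
    have h2 := hy k
    have e : (x - y) k = x k - y k := rfl
    rw [e, Real.norm_eq_abs, sq_abs]
    have h3 : |x k - y k| ≤ l := by
      rw [abs_le]
      constructor <;> linarith [h1.1, h1.2, h2.1, h2.2]
    rw [← sq_abs]
    have := abs_nonneg (x k - y k)
    gcongr
  have h2 : ∑ k : Fin 3, ‖(x - y) k‖ ^ 2 ≤ (2 * l) ^ 2 := by
    rw [Fin.sum_univ_three]
    nlinarith [h 0, h 1, h 2, sq_nonneg l]
  calc Real.sqrt (∑ k : Fin 3, ‖(x - y) k‖ ^ 2) ≤ Real.sqrt ((2 * l) ^ 2) := Real.sqrt_le_sqrt h2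
    _ = 2 * l := Real.sqrt_sq (by linarith)

theorem Box_disjoint {l : ℝ} (hl : 0 < l) {b b' : Fin 3 → ℤ} (h : b ≠ b') :
    Disjoint (Box l b) (Box l b') := by
  rw [Set.disjoint_left]
  intro x hx hx'
  exact h (((mem_Box_iff hl).mp hx).symm.trans ((mem_Box_iff hl).mp hx'))

theorem isBounded_Box {l : ℝ} (hl : 0 < l) (b : Fin 3 → ℤ) : Bornology.IsBounded (Box l b) := by
  by_cases hne : (Box l b).Nonempty
  · obtain ⟨p0, hp0⟩ := hne
    refine (Metric.isBounded_iff_subset_closedBall p0).mpr ⟨2 * l, fun p hp => ?_⟩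
    rw [Metric.mem_closedBall, dist_eq_norm]
    exact Box_dist hl hp hp0
  · rw [Set.not_nonempty_iff_eq_empty] at hne
    rw [hne]; exact Bornology.isBounded_empty

end Pool.Agent.Helper23.Bose
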