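import Mathlib
import Pool.Agent.Helper23.Bose.Defs

set_option autoImplicit false
open MeasureTheory

namespace Pool.Agent.Helper23.Bose

/-- general quadratic form of a gradient: `∑ₐ |∂_{wₐ} φ|²` -/
noncomputable def formw {F ι : Type} [NormedAddCommGroup F] [NormedSpace ℝ F] [Fintype ι]
    (w : ι → F) (φ : F → ℂ) (r : F) : ℝ := ∑ a, ‖fderiv ℝ φ r (w a)‖ ^ 2

/-- general capacity-type scattering energy -/
noncomputable def bcap {F ι : Type} [NormedAddCommGroup F] [NormedSpace ℝ F] [MeasureSpace F]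
    [Fintype ι] (w : ι → F) (v : F → ℝ) : ℝ :=
  sInf {B : ℝ | ∃ φ : F → ℂ, ContDiff ℝ cinf φ ∧ HasCompactSupport φ ∧
    B = ∫ r, (formw w φ r + v r * ‖1 - φ r‖ ^ 2)}

/-- the directions of the two-body form -/
noncomputable def wpair : Fin 2 × Fin 3 → E3 := fun a => ek a.2

/-- the directions of the three-body form -/
noncomputable def wtrip : Fin 3 × Fin 3 → E3 × E3 := fun a =>
  match a.1 with
  | 0 => (ek a.2, 0)
  | 1 => (0, ek a.2)
  | 2 => (ek a.2, ek a.2)

theorem formw_wpair (φ : E3 → ℂ) (r : E3) : formw wpair φ r = 2 * grad2 φ r := by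
  simp [formw, wpair, grad2, Fintype.sum_prod_type]
  try ring

theorem formw_wtrip (φ : E3 × E3 → ℂ) (r : E3 × E3) : formw wtrip φ r = form3 φ r := by
  simp only [formw, wtrip, form3, Fintype.sum_prod_type, Fin.sum_univ_three, Fin.isValue]
  ring

theorem bcap_wpair (W : E3 → ℝ) : bcap wpair W = bW W := by
  simp only [bcap, bW, formw_wpair]

theorem bcap_wtrip (V : E3 × E3 → ℝ) : bcap wtrip V = bM V := by
  simp only [bcap, bM, formw_wtrip]

end Pool.Agent.Helper23.Bose
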