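import Mathlib
import Pool.Agent.Helper23.Bose.Defs

set_option autoImplicit false
open MeasureTheory Module

namespace Pool.Agent.Helper23.Bose

theorem hcs_norm_sq {X E : Type*} [TopologicalSpace X] [NormedAddCommGroup E] {f : X → E}
    (hf : HasCompactSupport f) : HasCompactSupport (fun x => ‖f x‖ ^ 2) := by
  refine hf.mono (fun x hx => ?_)
  simp only [Function.mem_support, ne_eq] at hx ⊢
  intro h
  apply hx
  simp [h]

section Hardy

variable {F : Type*} [NormedAddCommGroup F] [NormedSpace ℝ F] [FiniteDimensional ℝ F]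
  [MeasurableSpace F] [BorelSpace F] (μ : Measure F) [μ.IsAddHaarMeasure]

/-- `∫ Du(x) x dx = - d ∫ u` -/
theorem integral_fderiv_self {u : F → ℝ} (hu : ContDiff ℝ 1 u) (hc : HasCompactSupport u) :
    ∫ x, fderiv ℝ u x x ∂μ = - (finrank ℝ F : ℝ) * ∫ x, u x ∂μ := by
  classical
  let b := Module.finBasis ℝ F
  have hdu : Continuous (fderiv ℝ u) := hu.continuous_fderiv (by norm_num)
  have hcu : HasCompactSupport (fderiv ℝ u) := hc.fderiv ℝ
  have hexp : ∀ x, fderiv ℝ u x x = ∑ k, b.coord k x * fderiv ℝ u x (b k) := by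
    intro x
    have h1 : x = ∑ k, b.coord k x • b k := by
      simp
    calc fderiv ℝ u x x = fderiv ℝ u x (∑ k, b.coord k x • b k) := by rw [← h1]
      _ = _ := by simp only [map_sum, map_smul, smul_eq_mul]
  have hint : ∀ k, Integrable (fun x => b.coord k x * fderiv ℝ u x (b k)) μ := by
    intro k
    let ck : F →L[ℝ] ℝ := LinearMap.toContinuousLinearMap (b.coord k)
    have hcont : Continuous (fun x => ck x * fderiv ℝ u x (b k)) :=
      ck.continuous.mul (hdu.clm_apply continuous_const)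
    refine hcont.integrable_of_hasCompactSupport ?_
    refine HasCompactSupport.mul_left ?_
    refine hcu.mono (fun x hx => ?_)
    simp only [Function.mem_support, ne_eq] at hx ⊢
    intro h
    apply hx
    simp [h]
  have hk : ∀ k, ∫ x, b.coord k x * fderiv ℝ u x (b k) ∂μ = - ∫ x, u x ∂μ := by
    intro k
    let ck : F →L[ℝ] ℝ := LinearMap.toContinuousLinearMap (b.coord k)
    have hck : ∀ x, fderiv ℝ (fun x => ck x) x (b k) = 1 := by
      intro x
      change fderiv ℝ ck x (b k) = 1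
      rw [ck.fderiv]
      simp [ck]
    have hui : Integrable u μ := hu.continuous.integrable_of_hasCompactSupport hc
    have h0 : (fun x => fderiv ℝ (fun x => ck x) x (b k) * u x) = u := by
      ext x
      rw [hck x, one_mul]
    have := integral_mul_fderiv_eq_neg_fderiv_mul_of_integrable (μ := μ) (f := fun x => ck x)
      (g := u) (v := b k) (by rw [h0]; exact hui) (hint k)
      ((ck.continuous.mul hu.continuous).integrable_of_hasCompactSupport
        (HasCompactSupport.mul_left hc))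
      (fun x _ => ck.differentiableAt) (fun x _ => (hu.differentiable (by norm_num)).differentiableAt)
    rw [h0] at this
    exact this
  simp_rw [hexp]
  rw [integral_finsetSum _ (fun k _ => hint k)]
  simp_rw [hk]
  simp [Finset.sum_const]

end Hardy

section Quad

variable {F : Type*} [NormedAddCommGroup F] [NormedSpace ℝ F] [FiniteDimensional ℝ F]

/-- `toEuclidean` as a continuous linear map -/
noncomputable def eF (F : Type*) [NormedAddCommGroup F] [NormedSpace ℝ F]
    [FiniteDimensional ℝ F] : F →L[ℝ] EuclideanSpace ℝ (Fin (finrank ℝ F)) :=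
  (toEuclidean (E := F)).toContinuousLinearMap

/-- the quadratic form `q(x) = |toEuclidean x|²` -/
noncomputable def qf (x : F) : ℝ := ‖eF F x‖ ^ 2

theorem qf_nonneg (x : F) : 0 ≤ qf x := by unfold qf; positivity

theorem contDiff_qf {n : WithTop ℕ∞} : ContDiff ℝ n (qf : F → ℝ) :=
  ((eF F).contDiff).norm_sq ℝ

theorem fderiv_qf_self (x : F) : fderiv ℝ (qf : F → ℝ) x x = 2 * qf x := by
  have h : HasFDerivAt (qf : F → ℝ) (2 • (innerSL ℝ (eF F x)).comp (eF F)) x :=
    ((eF F).hasFDerivAt (x := x)).norm_sq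
  rw [h.fderiv]
  simp [qf]

/-- comparison constant: `‖x‖² ≤ cL² q(x)` -/
noncomputable def cL (F : Type*) [NormedAddCommGroup F] [NormedSpace ℝ F]
    [FiniteDimensional ℝ F] : ℝ :=
  ‖(toEuclidean (E := F)).symm.toContinuousLinearMap‖ + 1

theorem cL_pos : 0 < cL F := by unfold cL; positivity

theorem norm_le_cL (x : F) : ‖x‖ ≤ cL F * Real.sqrt (qf x) := by
  have h1 : (toEuclidean (E := F)).symm.toContinuousLinearMap (eF F x) = x :=
    (toEuclidean (E := F)).symm_apply_apply x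
  have h2 : Real.sqrt (qf x) = ‖eF F x‖ := by
    unfold qf
    exact Real.sqrt_sq (norm_nonneg _)
  rw [h2]
  have h3 := ContinuousLinearMap.le_opNorm
    (toEuclidean (E := F)).symm.toContinuousLinearMap (eF F x)
  rw [h1] at h3
  refine h3.trans ?_
  unfold cL
  have := norm_nonneg (eF F x)
  gcongr
  linarith

/-- comparison constant: `q(x) ≤ cU² ‖x‖²` -/
noncomputable def cU (F : Type*) [NormedAddCommGroup F] [NormedSpace ℝ F]
    [FiniteDimensional ℝ F] : ℝ :=
  ‖eF F‖ + 1

theorem cU_pos : 0 < cU F := by unfold cU; positivity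

theorem qf_le_cU (x : F) : qf x ≤ (cU F * ‖x‖) ^ 2 := by
  unfold qf
  have : ‖eF F x‖ ≤ cU F * ‖x‖ := by
    have h3 := ContinuousLinearMap.le_opNorm (eF F) x
    refine h3.trans ?_
    unfold cU
    have := norm_nonneg x
    gcongr
    linarith
  gcongr

end Quad

section Hardy2

variable {F : Type*} [NormedAddCommGroup F] [NormedSpace ℝ F] [FiniteDimensional ℝ F]
  [MeasurableSpace F] [BorelSpace F] (μ : Measure F) [μ.IsAddHaarMeasure]

/-- scalar inequality used in Hardy's inequality -/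
theorem hardy_scalar {H G S q I : ℝ} (hS : 0 < S) (hq : q ≤ S ^ 2)
    (hI : |I| ≤ H * (G * S)) :
    -((2 * I - H ^ 2 / S ^ 2 * (2 * q)) / S ^ 2) ≤ (5 / 2) * (H ^ 2 / S ^ 2) + 2 * G ^ 2 := by
  have hS2 : 0 < S ^ 2 := by positivity
  have h1 : -(2 * I) ≤ 2 * (H * (G * S)) := by
    have := (abs_le.mp hI).1
    linarith
  have h2 : H ^ 2 / S ^ 2 * (2 * q) ≤ 2 * H ^ 2 := by
    have : H ^ 2 / S ^ 2 * (2 * q) ≤ H ^ 2 / S ^ 2 * (2 * S ^ 2) := by gcongr
    have h3 : H ^ 2 / S ^ 2 * (2 * S ^ 2) = 2 * H ^ 2 := by field_simp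
    linarith
  have h3 : 2 * (H * (G * S)) ≤ (1 / 2) * H ^ 2 + 2 * G ^ 2 * S ^ 2 := by
    nlinarith [sq_nonneg (H - 2 * (G * S))]
  rw [← neg_div, div_le_iff₀ hS2]
  have h4 : (5 / 2 * (H ^ 2 / S ^ 2) + 2 * G ^ 2) * S ^ 2 = 5 / 2 * H ^ 2 + 2 * G ^ 2 * S ^ 2 := by
    field_simp
  rw [h4]
  linarith

/-- Hardy inequality with the smooth weight `1/(q+s²)`. -/
theorem hardy {h : F → ℂ} (hh : ContDiff ℝ 1 h) (hc : HasCompactSupport h)
    (hd : 3 ≤ finrank ℝ F) {s : ℝ} (hs : 0 < s) :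
    ∫ x, ‖h x‖ ^ 2 / (qf x + s ^ 2) ∂μ ≤ 4 * cL F ^ 2 * ∫ x, ‖fderiv ℝ h x‖ ^ 2 ∂μ := by
  have hpos : ∀ x : F, 0 < qf x + s ^ 2 := fun x => by
    have := qf_nonneg x
    positivity
  have hucd : ContDiff ℝ 1 (fun x => ‖h x‖ ^ 2 / (qf x + s ^ 2)) := by
    apply ContDiff.div (hh.norm_sq ℝ) (contDiff_qf.add contDiff_const)
    intro x
    exact (hpos x).ne'
  have huc : HasCompactSupport (fun x => ‖h x‖ ^ 2 / (qf x + s ^ 2)) := by
    simp only [div_eq_mul_inv]
    exact (hcs_norm_sq hc).mul_right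
  obtain ⟨u, hu_def⟩ : ∃ u : F → ℝ, u = (fun x => ‖h x‖ ^ 2 / (qf x + s ^ 2)) := ⟨_, rfl⟩
  rw [← hu_def] at hucd huc
  rw [← hu_def]
  have hdh : Continuous (fderiv ℝ h) := hh.continuous_fderiv (by norm_num)
  have hui : Integrable u μ := hucd.continuous.integrable_of_hasCompactSupport huc
  have hDi : Integrable (fun x => ‖fderiv ℝ h x‖ ^ 2) μ := by
    exact (hdh.norm.pow 2).integrable_of_hasCompactSupport (hcs_norm_sq (hc.fderiv ℝ))
  -- pointwise derivative bound
  have hptw : ∀ x, -(fderiv ℝ u x x) ≤ (5 / 2) * u x + 2 * (cL F * ‖fderiv ℝ h x‖) ^ 2 := by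
    intro x
    have hA : HasFDerivAt (fun x => ‖h x‖ ^ 2) (2 • (innerSL ℝ (h x)).comp (fderiv ℝ h x)) x :=
      ((hh.differentiable (by norm_num)) x).hasFDerivAt.norm_sq
    have hB : HasFDerivAt (fun x : F => qf x + s ^ 2) (fderiv ℝ (qf : F → ℝ) x) x :=
      ((contDiff_qf (n := 1)).differentiable (by norm_num) x).hasFDerivAt.add_const _
    have hU : HasFDerivAt u (fderiv ℝ u x) x := ((hucd.differentiable (by norm_num)) x).hasFDerivAt
    have hM := hU.mul hB
    have hAB : (fun x => ‖h x‖ ^ 2) = (fun x => u x * (qf x + s ^ 2)) := by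
      ext y
      rw [hu_def]
      have := (hpos y).ne'
      field_simp
    rw [hAB] at hA
    have hE := congrArg (fun A : F →L[ℝ] ℝ => A x) (hA.unique hM)
    simp only [smul_apply, add_apply, smul_eq_mul,
      ContinuousLinearMap.comp_apply, innerSL_apply_apply, fderiv_qf_self, nsmul_eq_mul,
      Nat.cast_ofNat] at hE
    have hp := hpos x
    have hux : u x = ‖h x‖ ^ 2 / (qf x + s ^ 2) := by rw [hu_def]
    have hq := qf_nonneg x
    have hsq : Real.sqrt (qf x + s ^ 2) ^ 2 = qf x + s ^ 2 := Real.sq_sqrt hp.le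
    have hsp : 0 < Real.sqrt (qf x + s ^ 2) := Real.sqrt_pos.mpr hp
    have h1 : |inner ℝ (h x) (fderiv ℝ h x x)| ≤
        ‖h x‖ * ((cL F * ‖fderiv ℝ h x‖) * Real.sqrt (qf x + s ^ 2)) := by
      refine (abs_real_inner_le_norm _ _).trans ?_
      have hb : ‖fderiv ℝ h x x‖ ≤ (cL F * ‖fderiv ℝ h x‖) * Real.sqrt (qf x + s ^ 2) := by
        refine ((fderiv ℝ h x).le_opNorm x).trans ?_
        have hb1 : ‖x‖ ≤ cL F * Real.sqrt (qf x + s ^ 2) := by
          refine (norm_le_cL x).trans ?_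
          have := (cL_pos (F := F)).le
          gcongr
          linarith [sq_nonneg s]
        calc ‖fderiv ℝ h x‖ * ‖x‖ ≤ ‖fderiv ℝ h x‖ * (cL F * Real.sqrt (qf x + s ^ 2)) := by gcongr
          _ = _ := by ring
      gcongr
    obtain ⟨S, hS⟩ : ∃ S, S = Real.sqrt (qf x + s ^ 2) := ⟨_, rfl⟩
    rw [← hS] at hsq hsp h1
    rw [← hsq] at hE hux
    have hval : fderiv ℝ u x x = (2 * inner ℝ (h x) (fderiv ℝ h x x) - ‖h x‖ ^ 2 / S ^ 2 * (2 * qf x)) / S ^ 2 := by
      rw [← hux]
      rw [eq_div_iff (by positivity)]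
      linarith
    rw [hval, hux]
    exact hardy_scalar hsp (by rw [hsq]; linarith [sq_nonneg s]) h1
  have hfi : Integrable (fun x => fderiv ℝ u x x) μ := by
    have hdu : Continuous (fderiv ℝ u) := hucd.continuous_fderiv (by norm_num)
    apply (hdu.clm_apply continuous_id).integrable_of_hasCompactSupport
    have := huc.fderiv ℝ
    refine HasCompactSupport.intro this.isCompact (fun x hx => ?_)
    have : fderiv ℝ u x = 0 := image_eq_zero_of_notMem_tsupport hx
    simp [this]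
  have hkey := integral_fderiv_self μ hucd huc
  have hDi2 : Integrable (fun x => (cL F * ‖fderiv ℝ h x‖) ^ 2) μ := by
    simp only [mul_pow]
    exact hDi.const_mul _
  have hineq : -∫ x, fderiv ℝ u x x ∂μ ≤
      (5 / 2) * ∫ x, u x ∂μ + 2 * (cL F ^ 2 * ∫ x, ‖fderiv ℝ h x‖ ^ 2 ∂μ) := by
    have e1 : cL F ^ 2 * ∫ x, ‖fderiv ℝ h x‖ ^ 2 ∂μ = ∫ x, (cL F * ‖fderiv ℝ h x‖) ^ 2 ∂μ := by
      rw [← integral_const_mul]
      simp only [mul_pow]
    rw [e1, ← integral_neg, ← integral_const_mul, ← integral_const_mul,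
      ← integral_add (hui.const_mul _) (hDi2.const_mul _)]
    exact integral_mono hfi.neg ((hui.const_mul _).add (hDi2.const_mul _)) hptw
  rw [hkey] at hineq
  have hunn : 0 ≤ ∫ x, u x ∂μ := integral_nonneg fun x => by
    have := (hpos x).le
    rw [hu_def]
    simp only [Pi.zero_apply]
    positivity
  have hd' : (3 : ℝ) ≤ finrank ℝ F := by exact_mod_cast hd
  have : 3 * ∫ x, u x ∂μ ≤ finrank ℝ F * ∫ x, u x ∂μ := by gcongr
  linarith

end Hardy2

end Pool.Agent.Helper23.Bose
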