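import Mathlib
import Pool.Agent.Helper23.Bose.Defs
import Pool.Agent.Helper23.Bose.Hardy

set_option autoImplicit false
open MeasureTheory Module

namespace Pool.Agent.Helper23.Bose

section Cut

variable {F : Type*} [NormedAddCommGroup F] [NormedSpace ℝ F] [FiniteDimensional ℝ F]

/-- plain cut-offs at scale `ρ` -/
theorem exists_cutoff (F : Type*) [NormedAddCommGroup F] [NormedSpace ℝ F]
    [FiniteDimensional ℝ F] : ∃ C : ℝ, 0 < C ∧ ∀ ρ : ℝ, 0 < ρ → ∃ χ : F → ℝ,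
    ContDiff ℝ cinf χ ∧ HasCompactSupport χ ∧ (∀ x, 0 ≤ χ x) ∧ (∀ x, χ x ≤ 1) ∧
    (∀ x, ‖x‖ ≤ ρ / 2 → χ x = 1) ∧ (∀ x, ρ ≤ ‖x‖ → χ x = 0) ∧
    (∀ x, ρ ≤ ‖x‖ → fderiv ℝ χ x = 0) ∧ (∀ x, ‖fderiv ℝ χ x‖ ≤ C / ρ) := by
  let f : ContDiffBump (0 : F) := ⟨1 / 2, 3 / 4, by norm_num, by norm_num⟩
  have hf : ContDiff ℝ cinf f := f.contDiff
  have hfc : HasCompactSupport f := f.hasCompactSupport
  have hdc : Continuous (fderiv ℝ f) := hf.continuous_fderiv (by simp [cinf])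
  obtain ⟨C, hC⟩ := (hfc.fderiv ℝ).exists_bound_of_continuous hdc
  refine ⟨|C| + 1, by positivity, fun ρ hρ => ?_⟩
  let L : F →L[ℝ] F := ρ⁻¹ • ContinuousLinearMap.id ℝ F
  have hL : ∀ x, L x = ρ⁻¹ • x := fun x => by simp [L]
  have hnorm : ∀ x : F, ‖ρ⁻¹ • x‖ = ‖x‖ / ρ := by
    intro x
    rw [norm_smul, Real.norm_eq_abs, abs_of_pos (inv_pos.mpr hρ)]
    field_simp
  have hder : ∀ x, fderiv ℝ (fun x => f (ρ⁻¹ • x)) x = (fderiv ℝ f (ρ⁻¹ • x)).comp L := by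
    intro x
    have h1 : HasFDerivAt f (fderiv ℝ f (L x)) (L x) :=
      ((hf.differentiable (by simp [cinf])) _).hasFDerivAt
    have h2 := h1.comp x (L.hasFDerivAt)
    have h3 : (fun x => f (ρ⁻¹ • x)) = f ∘ L := by
      ext y
      simp [hL]
    rw [h3, h2.fderiv, hL]
  refine ⟨fun x => f (ρ⁻¹ • x), ?_, ?_, fun x => f.nonneg, fun x => f.le_one, ?_, ?_, ?_, ?_⟩
  · exact hf.comp (contDiff_const.smul contDiff_id)
  · refine HasCompactSupport.intro (isCompact_closedBall (0 : F) ρ) (fun x hx => ?_)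
    apply f.zero_of_le_dist
    rw [dist_zero_right, hnorm]
    rw [Metric.mem_closedBall, dist_zero_right, not_le] at hx
    change (3 / 4 : ℝ) ≤ ‖x‖ / ρ
    rw [le_div_iff₀ hρ]
    linarith
  · intro x hx
    apply f.one_of_mem_closedBall
    rw [Metric.mem_closedBall, dist_zero_right, hnorm]
    change ‖x‖ / ρ ≤ (1 / 2 : ℝ)
    rw [div_le_iff₀ hρ]
    linarith
  · intro x hx
    apply f.zero_of_le_dist
    rw [dist_zero_right, hnorm]
    change (3 / 4 : ℝ) ≤ ‖x‖ / ρ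
    rw [le_div_iff₀ hρ]
    linarith
  · intro x hx
    rw [hder]
    have hns : ρ⁻¹ • x ∉ tsupport f := by
      rw [f.tsupport_eq, Metric.mem_closedBall, dist_zero_right, hnorm, not_le]
      change (3 / 4 : ℝ) < ‖x‖ / ρ
      rw [lt_div_iff₀ hρ]
      linarith
    have : fderiv ℝ f (ρ⁻¹ • x) = 0 := fderiv_of_notMem_tsupport ℝ hns
    rw [this]
    simp
  · intro x
    rw [hder]
    have hLn : ‖L‖ ≤ ρ⁻¹ := by
      refine L.opNorm_le_bound (by positivity) (fun y => ?_)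
      rw [hL, norm_smul, Real.norm_eq_abs, abs_of_pos (inv_pos.mpr hρ)]
    calc ‖(fderiv ℝ f (ρ⁻¹ • x)).comp L‖ ≤ ‖fderiv ℝ f (ρ⁻¹ • x)‖ * ‖L‖ :=
          ContinuousLinearMap.opNorm_comp_le _ _
      _ ≤ (|C| + 1) * ρ⁻¹ := by
          gcongr
          have := hC (ρ⁻¹ • x)
          have := le_abs_self C
          linarith
      _ = (|C| + 1) / ρ := by rw [div_eq_mul_inv]

end Cut

section Enorm

theorem enorm_sq_eq {E : Type*} [NormedAddCommGroup E] (z : E) :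
    ‖z‖ₑ ^ 2 = ENNReal.ofReal (‖z‖ ^ 2) := by
  rw [← ofReal_norm, ENNReal.ofReal_pow (norm_nonneg _)]

end Enorm

section HB

variable {F : Type*} [NormedAddCommGroup F] [NormedSpace ℝ F] [FiniteDimensional ℝ F]
  [MeasurableSpace F] [BorelSpace F] (μ : Measure F) [μ.IsAddHaarMeasure]

theorem hardy_lintegral {h : F → ℂ} (hh : ContDiff ℝ 1 h) (hc : HasCompactSupport h)
    (hd : 3 ≤ finrank ℝ F) {s : ℝ} (hs : 0 < s) :
    ∫⁻ x, ENNReal.ofReal (‖h x‖ ^ 2 / (qf x + s ^ 2)) ∂μ ≤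
      ENNReal.ofReal (4 * cL F ^ 2) * ∫⁻ x, ‖fderiv ℝ h x‖ₑ ^ 2 ∂μ := by
  have hpos : ∀ x : F, 0 < qf x + s ^ 2 := fun x => by
    have := qf_nonneg x
    positivity
  have hucd : Continuous (fun x => ‖h x‖ ^ 2 / (qf x + s ^ 2)) := by
    have : ContDiff ℝ 1 (fun x => ‖h x‖ ^ 2 / (qf x + s ^ 2)) := by
      apply ContDiff.div (hh.norm_sq ℝ) (contDiff_qf.add contDiff_const)
      intro x
      exact (hpos x).ne'
    exact this.continuous
  have huc : HasCompactSupport (fun x => ‖h x‖ ^ 2 / (qf x + s ^ 2)) := by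
    simp only [div_eq_mul_inv]
    exact (hcs_norm_sq hc).mul_right
  have hui : Integrable (fun x => ‖h x‖ ^ 2 / (qf x + s ^ 2)) μ :=
    hucd.integrable_of_hasCompactSupport huc
  have hdh : Continuous (fderiv ℝ h) := hh.continuous_fderiv (by norm_num)
  have hDi : Integrable (fun x => ‖fderiv ℝ h x‖ ^ 2) μ :=
    (hdh.norm.pow 2).integrable_of_hasCompactSupport (hcs_norm_sq (hc.fderiv ℝ))
  simp only [enorm_sq_eq]
  rw [← ofReal_integral_eq_lintegral_ofReal hui (Filter.Eventually.of_forall fun x => by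
      have := (hpos x).le
      simp only [Pi.zero_apply]
      positivity),
    ← ofReal_integral_eq_lintegral_ofReal hDi (Filter.Eventually.of_forall fun x => by
      simp only [Pi.zero_apply]; positivity),
    ← ENNReal.ofReal_mul (by positivity)]
  exact ENNReal.ofReal_le_ofReal (hardy μ hh hc hd hs)

/-- product with a cut-off -/
theorem enorm_fderiv_mul_sq_le {χ : F → ℝ} {g : F → ℂ} (hχ : Differentiable ℝ χ)
    (hg : Differentiable ℝ g) (hχ0 : ∀ x, 0 ≤ χ x) (hχ1 : ∀ x, χ x ≤ 1) (x : F) :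
    ‖fderiv ℝ (fun x => (χ x : ℂ) * g x) x‖ ≤ ‖fderiv ℝ g x‖ + ‖fderiv ℝ χ x‖ * ‖g x‖ := by
  have h1 : HasFDerivAt χ (fderiv ℝ χ x) x := (hχ x).hasFDerivAt
  have h2 : HasFDerivAt g (fderiv ℝ g x) x := (hg x).hasFDerivAt
  have h3 : HasFDerivAt (fun x => χ x • g x)
      (χ x • fderiv ℝ g x + (fderiv ℝ χ x).smulRight (g x)) x := h1.smul h2
  have h4 : (fun x => (χ x : ℂ) * g x) = (fun x => χ x • g x) := by
    ext y
    simp
  rw [h4, h3.fderiv]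
  refine (norm_add_le _ _).trans ?_
  gcongr
  · rw [norm_smul, Real.norm_eq_abs, abs_of_nonneg (hχ0 x)]
    exact mul_le_of_le_one_left (norm_nonneg _) (hχ1 x)
  · exact (ContinuousLinearMap.norm_smulRight_apply _ _).le

/-- energy of a function multiplied by a plain cut-off -/
theorem cutoff_energy {C0 ρ : ℝ} {χ : F → ℝ} (hρ0 : 0 < ρ) (hχs : ContDiff ℝ cinf χ)
    (hχ0 : ∀ x, 0 ≤ χ x) (hχ1 : ∀ x, χ x ≤ 1)
    (hχout : ∀ x, ρ ≤ ‖x‖ → χ x = 0) (hχd : ∀ x, ρ ≤ ‖x‖ → fderiv ℝ χ x = 0)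
    (hχb : ∀ x, ‖fderiv ℝ χ x‖ ≤ C0 / ρ) {g : F → ℂ} (hg : ContDiff ℝ 1 g) :
    ∫⁻ x, ‖fderiv ℝ (fun x => (χ x : ℂ) * g x) x‖ₑ ^ 2 ∂μ ≤ ENNReal.ofReal (2 * (1 + C0 ^ 2)) *
      (∫⁻ r in Metric.ball 0 ρ, ‖fderiv ℝ g r‖ₑ ^ 2 ∂μ
          + ENNReal.ofReal ((ρ ^ 2)⁻¹) * ∫⁻ r in Metric.ball 0 ρ, ‖g r‖ₑ ^ 2 ∂μ) := by
  have hχs1 : ContDiff ℝ 1 χ := hχs.of_le (by simp [cinf])
  set h : F → ℂ := fun x => (χ x : ℂ) * g x with hh_def
  rw [← lintegral_const_mul' _ _ ENNReal.ofReal_ne_top, ← lintegral_add_left' ?_,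
    ← lintegral_const_mul' _ _ ENNReal.ofReal_ne_top, ← lintegral_indicator Metric.isOpen_ball.measurableSet]
  · apply lintegral_mono
    intro x
    simp only
    by_cases hx : x ∈ Metric.ball (0 : F) ρ
    · rw [Set.indicator_of_mem hx, enorm_sq_eq, enorm_sq_eq, enorm_sq_eq,
        ← ENNReal.ofReal_mul (by positivity), ← ENNReal.ofReal_add (by positivity) (by positivity),
        ← ENNReal.ofReal_mul (by positivity)]
      apply ENNReal.ofReal_le_ofReal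
      have h3 := enorm_fderiv_mul_sq_le (hχs1.differentiable (by norm_num))
        (hg.differentiable (by norm_num)) hχ0 hχ1 x
      have h4 : ‖fderiv ℝ h x‖ ≤ ‖fderiv ℝ g x‖ + (C0 / ρ) * ‖g x‖ := by
        refine h3.trans ?_
        gcongr
        exact hχb x
      calc ‖fderiv ℝ h x‖ ^ 2 ≤ (‖fderiv ℝ g x‖ + (C0 / ρ) * ‖g x‖) ^ 2 := by gcongr
        _ ≤ 2 * ‖fderiv ℝ g x‖ ^ 2 + 2 * (C0 ^ 2 * ((ρ ^ 2)⁻¹ * ‖g x‖ ^ 2)) := by
            have e : (C0 / ρ * ‖g x‖) ^ 2 = C0 ^ 2 * ((ρ ^ 2)⁻¹ * ‖g x‖ ^ 2) := by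
              rw [mul_pow, div_pow]; ring
            nlinarith [sq_nonneg (‖fderiv ℝ g x‖ - C0 / ρ * ‖g x‖)]
        _ ≤ 2 * (1 + C0 ^ 2) * (‖fderiv ℝ g x‖ ^ 2 + (ρ ^ 2)⁻¹ * ‖g x‖ ^ 2) := by
            have e1 : 0 ≤ (ρ ^ 2)⁻¹ * ‖g x‖ ^ 2 := by positivity
            have e2 : 0 ≤ C0 ^ 2 * ‖fderiv ℝ g x‖ ^ 2 := by positivity
            nlinarith
    · rw [Set.indicator_of_notMem hx]
      rw [Metric.mem_ball, dist_zero_right, not_lt] at hx
      have h3 := enorm_fderiv_mul_sq_le (hχs1.differentiable (by norm_num))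
        (hg.differentiable (by norm_num)) hχ0 hχ1 x
      have hd0 : fderiv ℝ h x = 0 := by
        have a1 : HasFDerivAt χ (fderiv ℝ χ x) x :=
          ((hχs1.differentiable (by norm_num)) x).hasFDerivAt
        have a2 : HasFDerivAt g (fderiv ℝ g x) x :=
          ((hg.differentiable (by norm_num)) x).hasFDerivAt
        have a3 : HasFDerivAt (fun x => χ x • g x)
            (χ x • fderiv ℝ g x + (fderiv ℝ χ x).smulRight (g x)) x := a1.smul a2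
        have a4 : h = (fun x => χ x • g x) := by
          ext y
          simp [hh_def]
        rw [a4, a3.fderiv, hχout x hx, hχd x hx]
        ext y
        simp
      rw [hd0, enorm_sq_eq]
      simp
  · exact ((hg.continuous_fderiv (by norm_num)).enorm.measurable.pow_const 2).aemeasurable

theorem hardy_ball0 (hd : 3 ≤ finrank ℝ F) :
    ∃ C : ℝ, 0 < C ∧ ∀ (R ρ : ℝ), 0 < R → 2 * R ≤ ρ → ∀ g : F → ℂ, ContDiff ℝ 1 g →
      ∫⁻ r in Metric.ball 0 R, ‖g r‖ₑ ^ 2 ∂μ ≤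
        ENNReal.ofReal (C * R ^ 2) * (∫⁻ r in Metric.ball 0 ρ, ‖fderiv ℝ g r‖ₑ ^ 2 ∂μ
          + ENNReal.ofReal ((ρ ^ 2)⁻¹) * ∫⁻ r in Metric.ball 0 ρ, ‖g r‖ₑ ^ 2 ∂μ) := by
  obtain ⟨C0, hC0, hcut⟩ := exists_cutoff F
  have hcU := cU_pos (F := F)
  have hcL := cL_pos (F := F)
  refine ⟨(cU F ^ 2 + 1) * (4 * cL F ^ 2) * (2 * (1 + C0 ^ 2)), by positivity, fun R ρ hR hρ g hg => ?_⟩
  have hρ0 : 0 < ρ := by linarith
  obtain ⟨χ, hχs, hχc, hχ0, hχ1, hχin, hχout, hχd, hχb⟩ := hcut ρ hρ0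
  have hχs1 : ContDiff ℝ 1 χ := hχs.of_le (by simp [cinf])
  set h : F → ℂ := fun x => (χ x : ℂ) * g x with hh_def
  have hofR : ContDiff ℝ 1 (fun x => (χ x : ℂ)) := by
    have : ContDiff ℝ 1 (fun y : ℝ => (y : ℂ)) := Complex.ofRealCLM.contDiff
    exact this.comp hχs1
  have hh : ContDiff ℝ 1 h := hofR.mul hg
  have hhc : HasCompactSupport h := by
    refine hχc.mono (fun x hx => ?_)
    simp only [Function.mem_support, ne_eq, hh_def] at hx ⊢
    intro h0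
    apply hx
    simp [h0]
  have hH := hardy_lintegral μ hh hhc hd hR
  -- step 1
  have h1 : ∫⁻ r in Metric.ball 0 R, ‖g r‖ₑ ^ 2 ∂μ ≤
      ENNReal.ofReal ((cU F ^ 2 + 1) * R ^ 2) * ∫⁻ x, ENNReal.ofReal (‖h x‖ ^ 2 / (qf x + R ^ 2)) ∂μ := by
    rw [← lintegral_const_mul' _ _ ENNReal.ofReal_ne_top, ← lintegral_indicator Metric.isOpen_ball.measurableSet]
    apply lintegral_mono
    intro x
    simp only
    rw [← ENNReal.ofReal_mul (by positivity)]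
    by_cases hx : x ∈ Metric.ball (0 : F) R
    · rw [Set.indicator_of_mem hx, enorm_sq_eq]
      apply ENNReal.ofReal_le_ofReal
      rw [Metric.mem_ball, dist_zero_right] at hx
      have hχx : χ x = 1 := hχin x (by linarith)
      have hhx : h x = g x := by simp [hh_def, hχx]
      rw [hhx]
      have hq := qf_nonneg x
      have hq2 : qf x ≤ cU F ^ 2 * R ^ 2 := by
        refine (qf_le_cU x).trans ?_
        rw [← mul_pow]
        gcongr
      rw [mul_div_assoc', le_div_iff₀ (by positivity)]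
      have : qf x + R ^ 2 ≤ (cU F ^ 2 + 1) * R ^ 2 := by linarith
      nlinarith [sq_nonneg ‖g x‖]
    · rw [Set.indicator_of_notMem hx]
      exact zero_le
  have h2 := cutoff_energy μ hρ0 hχs hχ0 hχ1 hχout hχd hχb hg
  calc ∫⁻ r in Metric.ball 0 R, ‖g r‖ₑ ^ 2 ∂μ
      ≤ ENNReal.ofReal ((cU F ^ 2 + 1) * R ^ 2) * ∫⁻ x, ENNReal.ofReal (‖h x‖ ^ 2 / (qf x + R ^ 2)) ∂μ := h1
    _ ≤ ENNReal.ofReal ((cU F ^ 2 + 1) * R ^ 2) * (ENNReal.ofReal (4 * cL F ^ 2) * (ENNReal.ofReal (2 * (1 + C0 ^ 2)) *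
      (∫⁻ r in Metric.ball 0 ρ, ‖fderiv ℝ g r‖ₑ ^ 2 ∂μ
          + ENNReal.ofReal ((ρ ^ 2)⁻¹) * ∫⁻ r in Metric.ball 0 ρ, ‖g r‖ₑ ^ 2 ∂μ))) := by
        gcongr
        exact hH.trans (by gcongr)
    _ = _ := by
        rw [← mul_assoc, ← mul_assoc, ← ENNReal.ofReal_mul (by positivity), ← ENNReal.ofReal_mul (by positivity)]
        congr 2
        ring

/-- Hardy inequality on balls -/
theorem hardy_ball' (hd : 3 ≤ finrank ℝ F) :
    ∃ C : ℝ, 0 < C ∧ ∀ (z : F) (R ρ : ℝ), 0 < R → 2 * R ≤ ρ → ∀ g : F → ℂ, ContDiff ℝ 1 g →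
      ∫⁻ r in Metric.ball z R, ‖g r‖ₑ ^ 2 ∂μ ≤
        ENNReal.ofReal (C * R ^ 2) * (∫⁻ r in Metric.ball z ρ, ‖fderiv ℝ g r‖ₑ ^ 2 ∂μ
          + ENNReal.ofReal ((ρ ^ 2)⁻¹) * ∫⁻ r in Metric.ball z ρ, ‖g r‖ₑ ^ 2 ∂μ) := by
  obtain ⟨C, hC, h⟩ := hardy_ball0 μ hd
  refine ⟨C, hC, fun z R ρ hR hρ g hg => ?_⟩
  have hg' : ContDiff ℝ 1 (fun x => g (x + z)) := hg.comp (contDiff_id.add contDiff_const)
  have key := h R ρ hR hρ (fun x => g (x + z)) hg'
  have htr : ∀ (f : F → ENNReal) (t : ℝ), ∫⁻ r in Metric.ball 0 t, f (r + z) ∂μ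
      = ∫⁻ r in Metric.ball z t, f r ∂μ := by
    intro f t
    rw [← lintegral_indicator Metric.isOpen_ball.measurableSet,
      ← lintegral_indicator Metric.isOpen_ball.measurableSet,
      ← lintegral_add_right_eq_self (fun r => (Metric.ball z t).indicator f r) z]
    congr 1
    ext x
    by_cases hx : x ∈ Metric.ball (0 : F) t
    · have hx' : x + z ∈ Metric.ball z t := by
        rw [Metric.mem_ball, dist_eq_norm] at hx ⊢
        simpa using hx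
      rw [Set.indicator_of_mem hx, Set.indicator_of_mem hx']
    · have hx' : x + z ∉ Metric.ball z t := by
        rw [Metric.mem_ball, dist_eq_norm] at hx ⊢
        simpa using hx
      rw [Set.indicator_of_notMem hx, Set.indicator_of_notMem hx']
  have hfd : ∀ x, fderiv ℝ (fun x => g (x + z)) x = fderiv ℝ g (x + z) := by
    intro x
    exact fderiv_comp_add_right z
  simp only [hfd] at key
  rw [htr (fun r => ‖g r‖ₑ ^ 2) R, htr (fun r => ‖fderiv ℝ g r‖ₑ ^ 2) ρ, htr (fun r => ‖g r‖ₑ ^ 2) ρ] at key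
  exact key

end HB

end Pool.Agent.Helper23.Bose
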