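import Mathlib
import Pool.Agent.Helper23.Bose.Defs
import Pool.Agent.Helper23.Bose.HardyBall

set_option autoImplicit false
open MeasureTheory Module

namespace Pool.Agent.Helper23.Bose

section Jensen

/-- `(∫ f)² ≤ μ(univ) ∫ f²` -/
theorem sq_integral_le {α : Type*} [MeasurableSpace α] (μ : Measure α) [IsFiniteMeasure μ]
    {f : α → ℝ} (hf : Integrable f μ) (hf2 : Integrable (fun x => f x ^ 2) μ) :
    (∫ x, f x ∂μ) ^ 2 ≤ μ.real Set.univ * ∫ x, f x ^ 2 ∂μ := by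
  have key : ∀ c : ℝ, 0 ≤ ∫ x, f x ^ 2 ∂μ - 2 * c * ∫ x, f x ∂μ + c ^ 2 * μ.real Set.univ := by
    intro c
    have h1 : ∫ x, (f x - c) ^ 2 ∂μ =
        ∫ x, f x ^ 2 ∂μ - 2 * c * ∫ x, f x ∂μ + c ^ 2 * μ.real Set.univ := by
      have e : ∀ x, (f x - c) ^ 2 = f x ^ 2 - 2 * c * f x + c ^ 2 := fun x => by ring
      simp_rw [e]
      have i1 : Integrable (fun x => 2 * c * f x) μ := hf.const_mul _
      have i2 : Integrable (fun x => f x ^ 2 - 2 * c * f x) μ := hf2.sub i1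
      rw [integral_add i2 (integrable_const _), integral_sub hf2 i1, integral_const_mul,
        integral_const]
      simp [smul_eq_mul, mul_comm]
    rw [← h1]
    exact integral_nonneg fun x => by positivity
  have hM : 0 ≤ μ.real Set.univ := measureReal_nonneg
  rcases hM.eq_or_lt with h0 | h0
  · rw [← h0]
    have : μ = 0 := by
      have h2 : μ Set.univ = 0 := by
        rw [Measure.real, eq_comm, ENNReal.toReal_eq_zero_iff] at h0
        rcases h0 with h0 | h0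
        · exact h0
        · exact absurd h0 (measure_ne_top μ _)
      exact Measure.measure_univ_eq_zero.mp h2
    simp [this]
  · have h1 := key ((∫ x, f x ∂μ) / μ.real Set.univ)
    set M := μ.real Set.univ
    set I := ∫ x, f x ∂μ
    set J := ∫ x, f x ^ 2 ∂μ
    have h2 : J - 2 * (I / M) * I + (I / M) ^ 2 * M = J - I ^ 2 / M := by
      field_simp
      ring
    rw [h2] at h1
    have h3 : I ^ 2 / M ≤ J := by linarith
    rw [div_le_iff₀ h0] at h3
    linarith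

end Jensen

section Segment

variable {E : Type*} [NormedAddCommGroup E] [NormedSpace ℝ E]

theorem seg_bound {g : E → ℂ} (hg : ContDiff ℝ 1 g) (p q : E) :
    ‖g q - g p‖ ^ 2 ≤ ‖q - p‖ ^ 2 * ∫ t in (0:ℝ)..1, ‖fderiv ℝ g (p + t • (q - p))‖ ^ 2 := by
  have hdg : Continuous (fderiv ℝ g) := hg.continuous_fderiv (by norm_num)
  have hpath : Continuous (fun t : ℝ => p + t • (q - p)) := by fun_prop
  have hcont : Continuous (fun t : ℝ => fderiv ℝ g (p + t • (q - p))) := hdg.comp hpath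
  have hderiv : ∀ t : ℝ, HasDerivAt (fun t : ℝ => g (p + t • (q - p)))
      (fderiv ℝ g (p + t • (q - p)) (q - p)) t := by
    intro t
    have h1 : HasFDerivAt g (fderiv ℝ g (p + t • (q - p))) (p + t • (q - p)) :=
      ((hg.differentiable (by norm_num)) _).hasFDerivAt
    have h2 : HasDerivAt (fun t : ℝ => p + t • (q - p)) (q - p) t := by
      have := ((hasDerivAt_id t).smul_const (q - p)).const_add p
      simpa using this
    exact h1.comp_hasDerivAt t h2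
  have hftc : ∫ t in (0:ℝ)..1, fderiv ℝ g (p + t • (q - p)) (q - p) = g q - g p := by
    have := intervalIntegral.integral_eq_sub_of_hasDerivAt (a := 0) (b := 1)
      (f := fun t : ℝ => g (p + t • (q - p))) (fun t _ => hderiv t)
      ((hcont.clm_apply continuous_const).intervalIntegrable _ _)
    rw [this]
    simp
  rw [← hftc]
  have h1 : ‖∫ t in (0:ℝ)..1, fderiv ℝ g (p + t • (q - p)) (q - p)‖ ≤
      ∫ t in (0:ℝ)..1, ‖q - p‖ * ‖fderiv ℝ g (p + t • (q - p))‖ := by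
    refine intervalIntegral.norm_integral_le_of_norm_le (by norm_num) ?_
      ((continuous_const.mul hcont.norm).intervalIntegrable _ _)
    refine Filter.Eventually.of_forall (fun t _ => ?_)
    rw [mul_comm]
    exact ContinuousLinearMap.le_opNorm _ _
  have h2 : (∫ t in (0:ℝ)..1, ‖fderiv ℝ g (p + t • (q - p))‖) ^ 2 ≤
      ∫ t in (0:ℝ)..1, ‖fderiv ℝ g (p + t • (q - p))‖ ^ 2 := by
    rw [intervalIntegral.integral_of_le (by norm_num), intervalIntegral.integral_of_le (by norm_num)]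
    have h3 := sq_integral_le (volume.restrict (Set.Ioc (0:ℝ) 1))
      (f := fun t => ‖fderiv ℝ g (p + t • (q - p))‖)
      ((hcont.norm.intervalIntegrable 0 1).1) (((hcont.norm.pow 2).intervalIntegrable 0 1).1)
    refine h3.trans ?_
    simp
  rw [intervalIntegral.integral_const_mul] at h1
  calc ‖∫ t in (0:ℝ)..1, fderiv ℝ g (p + t • (q - p)) (q - p)‖ ^ 2
      ≤ (‖q - p‖ * ∫ t in (0:ℝ)..1, ‖fderiv ℝ g (p + t • (q - p))‖) ^ 2 := by gcongr
    _ = ‖q - p‖ ^ 2 * (∫ t in (0:ℝ)..1, ‖fderiv ℝ g (p + t • (q - p))‖) ^ 2 := by rw [mul_pow]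
    _ ≤ _ := by gcongr

theorem seg_bound_lintegral {g : E → ℂ} (hg : ContDiff ℝ 1 g) (p q : E) {D : ℝ}
    (hD : ‖p - q‖ ≤ D) :
    ‖g p - g q‖ₑ ^ 2 ≤ ENNReal.ofReal (D ^ 2) *
      ∫⁻ t in Set.Ioc (0:ℝ) 1, ‖fderiv ℝ g (p + t • (q - p))‖ₑ ^ 2 := by
  have hdg : Continuous (fderiv ℝ g) := hg.continuous_fderiv (by norm_num)
  have hpath : Continuous (fun t : ℝ => p + t • (q - p)) := by fun_prop
  have hcont : Continuous (fun t : ℝ => fderiv ℝ g (p + t • (q - p))) := hdg.comp hpath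
  have h := seg_bound hg p q
  simp only [enorm_sq_eq]
  rw [intervalIntegral.integral_of_le (by norm_num)] at h
  have hii : Integrable (fun t : ℝ => ‖fderiv ℝ g (p + t • (q - p))‖ ^ 2)
      (volume.restrict (Set.Ioc (0:ℝ) 1)) := ((hcont.norm.pow 2).intervalIntegrable 0 1).1
  rw [← ofReal_integral_eq_lintegral_ofReal hii
    (Filter.Eventually.of_forall fun t => by simp only [Pi.zero_apply]; positivity),
    ← ENNReal.ofReal_mul (by positivity)]
  apply ENNReal.ofReal_le_ofReal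
  rw [norm_sub_rev]
  refine h.trans ?_
  have h0 : 0 ≤ ∫ t in Set.Ioc (0:ℝ) 1, ‖fderiv ℝ g (p + t • (q - p))‖ ^ 2 :=
    integral_nonneg fun t => by positivity
  rw [norm_sub_rev] at hD
  gcongr

end Segment

section Poincare

variable {E : Type*} [NormedAddCommGroup E] [NormedSpace ℝ E] [FiniteDimensional ℝ E]
  [MeasurableSpace E] [BorelSpace E] (μ : Measure E) [μ.IsAddHaarMeasure]

theorem lintegral_affine (f : E → ENNReal) {c : ℝ} (hc : 0 < c) (y : E) :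
    ∫⁻ x, f (c • x + y) ∂μ = ENNReal.ofReal ((c ^ finrank ℝ E)⁻¹) * ∫⁻ x, f x ∂μ := by
  have h1 : ∫⁻ x, f (c • x + y) ∂μ = ∫⁻ z, f (z + y) ∂(Measure.map (fun x => c • x) μ) := by
    exact (lintegral_map_equiv (μ := μ) (fun z => f (z + y)) (MeasurableEquiv.smul₀ c hc.ne' : E ≃ᵐ E)).symm
  rw [h1, Measure.map_addHaar_smul μ hc.ne', lintegral_smul_measure, lintegral_add_right_eq_self,
    smul_eq_mul, abs_of_pos (by positivity)]

theorem poincare_double {K : Set E} (hK : Convex ℝ K) (hKm : MeasurableSet K) {D : ℝ}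
    (hD : ∀ p ∈ K, ∀ q ∈ K, ‖p - q‖ ≤ D) {g : E → ℂ} (hg : ContDiff ℝ 1 g) :
    ∫⁻ p in K, ∫⁻ q in K, ‖g p - g q‖ₑ ^ 2 ∂μ ∂μ ≤
      ENNReal.ofReal (2 ^ finrank ℝ E * D ^ 2) * (μ K * ∫⁻ x in K, ‖fderiv ℝ g x‖ₑ ^ 2 ∂μ) := by
  have hdg : Continuous (fderiv ℝ g) := hg.continuous_fderiv (by norm_num)
  set Φ : E → ENNReal := K.indicator (fun x => ‖fderiv ℝ g x‖ₑ ^ 2) with hΦ
  have hΦm : Measurable Φ := (hdg.enorm.measurable.pow_const 2).indicator hKm
  have hmem : ∀ p ∈ K, ∀ q ∈ K, ∀ t ∈ Set.Ioc (0:ℝ) 1, p + t • (q - p) ∈ K := by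
    intro p hp q hq t ht
    have := hK hp hq (a := 1 - t) (b := t) (by linarith [ht.2]) ht.1.le (by ring)
    have e : p + t • (q - p) = (1 - t) • p + t • q := by
      rw [smul_sub, sub_smul, one_smul]; abel
    rw [e]; exact this
  -- pointwise
  have h1 : ∀ p ∈ K, ∀ q ∈ K, ‖g p - g q‖ₑ ^ 2 ≤
      ENNReal.ofReal (D ^ 2) * ∫⁻ t in Set.Ioc (0:ℝ) 1, Φ (p + t • (q - p)) := by
    intro p hp q hq
    refine (seg_bound_lintegral hg p q (hD p hp q hq)).trans ?_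
    gcongr 1
    apply lintegral_mono_ae
    rw [ae_restrict_iff' measurableSet_Ioc]
    refine Filter.Eventually.of_forall (fun t ht => ?_)
    rw [hΦ, Set.indicator_of_mem (hmem p hp q hq t ht)]
  have hmeas3 : Measurable (fun z : (E × E) × ℝ => Φ (z.1.1 + z.2 • (z.1.2 - z.1.1))) :=
    hΦm.comp (by fun_prop)
  have h2 : ∫⁻ p in K, ∫⁻ q in K, ‖g p - g q‖ₑ ^ 2 ∂μ ∂μ ≤
      ∫⁻ p in K, ∫⁻ q in K, ENNReal.ofReal (D ^ 2) * ∫⁻ t in Set.Ioc (0:ℝ) 1, Φ (p + t • (q - p)) ∂volume ∂μ ∂μ := by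
    apply lintegral_mono_ae
    rw [ae_restrict_iff' hKm]
    refine Filter.Eventually.of_forall (fun p hp => ?_)
    apply lintegral_mono_ae
    rw [ae_restrict_iff' hKm]
    exact Filter.Eventually.of_forall (fun q hq => h1 p hp q hq)
  refine h2.trans ?_
  simp_rw [lintegral_const_mul' _ _ ENNReal.ofReal_ne_top]
  -- swap the t-integral to the outside
  have h3 : ∫⁻ p in K, ∫⁻ q in K, ∫⁻ t in Set.Ioc (0:ℝ) 1, Φ (p + t • (q - p)) ∂volume ∂μ ∂μ =
      ∫⁻ t in Set.Ioc (0:ℝ) 1, ∫⁻ p in K, ∫⁻ q in K, Φ (p + t • (q - p)) ∂μ ∂μ ∂volume := by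
    have a1 : ∀ p, ∫⁻ q in K, ∫⁻ t in Set.Ioc (0:ℝ) 1, Φ (p + t • (q - p)) ∂volume ∂μ =
        ∫⁻ t in Set.Ioc (0:ℝ) 1, ∫⁻ q in K, Φ (p + t • (q - p)) ∂μ ∂volume := by
      intro p
      apply lintegral_lintegral_swap
      have : Measurable (fun z : E × ℝ => Φ (p + z.2 • (z.1 - p))) := hΦm.comp (by fun_prop)
      exact this.aemeasurable
    simp_rw [a1]
    apply lintegral_lintegral_swap
    have : Measurable (fun z : E × ℝ => ∫⁻ q in K, Φ (z.1 + z.2 • (q - z.1)) ∂μ) := by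
      apply Measurable.lintegral_prod_right'
        (f := fun z : (E × ℝ) × E => Φ (z.1.1 + z.1.2 • (z.2 - z.1.1)))
      exact hΦm.comp (by fun_prop)
    exact this.aemeasurable
  rw [h3]
  have h4 : ∀ t ∈ Set.Ioc (0:ℝ) 1, ∫⁻ p in K, ∫⁻ q in K, Φ (p + t • (q - p)) ∂μ ∂μ ≤
      ENNReal.ofReal (2 ^ finrank ℝ E) * (μ K * ∫⁻ x, Φ x ∂μ) := by
    intro t ht
    by_cases ht2 : t ≤ 1 / 2
    · have hsw : ∫⁻ p in K, ∫⁻ q in K, Φ (p + t • (q - p)) ∂μ ∂μ =
          ∫⁻ q in K, ∫⁻ p in K, Φ (p + t • (q - p)) ∂μ ∂μ := by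
        apply lintegral_lintegral_swap
        have : Measurable (fun z : E × E => Φ (z.1 + t • (z.2 - z.1))) := hΦm.comp (by fun_prop)
        exact this.aemeasurable
      rw [hsw]
      have hb : ∀ q, ∫⁻ p in K, Φ (p + t • (q - p)) ∂μ ≤
          ENNReal.ofReal (2 ^ finrank ℝ E) * ∫⁻ x, Φ x ∂μ := by
        intro q
        have e : ∀ p, p + t • (q - p) = (1 - t) • p + t • q := by
          intro p
          rw [smul_sub, sub_smul, one_smul]; abel
        calc ∫⁻ p in K, Φ (p + t • (q - p)) ∂μ ≤ ∫⁻ p, Φ (p + t • (q - p)) ∂μ :=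
              setLIntegral_le_lintegral _ _
          _ = ∫⁻ p, Φ ((1 - t) • p + t • q) ∂μ := by simp_rw [e]
          _ = ENNReal.ofReal (((1 - t) ^ finrank ℝ E)⁻¹) * ∫⁻ x, Φ x ∂μ :=
              lintegral_affine μ Φ (by linarith) _
          _ ≤ _ := by
              gcongr
              rw [← inv_pow]
              gcongr
              · rw [inv_nonneg]; linarith
              · rw [inv_le_comm₀ (by linarith) (by norm_num)]
                linarith
      calc ∫⁻ q in K, ∫⁻ p in K, Φ (p + t • (q - p)) ∂μ ∂μ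
          ≤ ∫⁻ q in K, ENNReal.ofReal (2 ^ finrank ℝ E) * ∫⁻ x, Φ x ∂μ ∂μ := lintegral_mono hb
        _ = _ := by
          rw [lintegral_const, Measure.restrict_apply MeasurableSet.univ, Set.univ_inter]
          ring
    · rw [not_le] at ht2
      have ht0 : 0 < t := ht.1
      have hb : ∀ p, ∫⁻ q in K, Φ (p + t • (q - p)) ∂μ ≤
          ENNReal.ofReal (2 ^ finrank ℝ E) * ∫⁻ x, Φ x ∂μ := by
        intro p
        have e : ∀ q, p + t • (q - p) = t • q + (1 - t) • p := by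
          intro q
          rw [smul_sub, sub_smul, one_smul]; abel
        calc ∫⁻ q in K, Φ (p + t • (q - p)) ∂μ ≤ ∫⁻ q, Φ (p + t • (q - p)) ∂μ :=
              setLIntegral_le_lintegral _ _
          _ = ∫⁻ q, Φ (t • q + (1 - t) • p) ∂μ := by simp_rw [e]
          _ = ENNReal.ofReal ((t ^ finrank ℝ E)⁻¹) * ∫⁻ x, Φ x ∂μ :=
              lintegral_affine μ Φ ht0 _
          _ ≤ _ := by
              gcongr
              rw [← inv_pow]
              gcongr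
              rw [inv_le_comm₀ ht0 (by norm_num)]
              linarith
      calc ∫⁻ p in K, ∫⁻ q in K, Φ (p + t • (q - p)) ∂μ ∂μ
          ≤ ∫⁻ p in K, ENNReal.ofReal (2 ^ finrank ℝ E) * ∫⁻ x, Φ x ∂μ ∂μ := lintegral_mono hb
        _ = _ := by
          rw [lintegral_const, Measure.restrict_apply MeasurableSet.univ, Set.univ_inter]
          ring
  have h5 : ∫⁻ t in Set.Ioc (0:ℝ) 1, ∫⁻ p in K, ∫⁻ q in K, Φ (p + t • (q - p)) ∂μ ∂μ ≤
      ENNReal.ofReal (2 ^ finrank ℝ E) * (μ K * ∫⁻ x, Φ x ∂μ) := by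
    calc ∫⁻ t in Set.Ioc (0:ℝ) 1, ∫⁻ p in K, ∫⁻ q in K, Φ (p + t • (q - p)) ∂μ ∂μ
        ≤ ∫⁻ t in Set.Ioc (0:ℝ) 1, ENNReal.ofReal (2 ^ finrank ℝ E) * (μ K * ∫⁻ x, Φ x ∂μ) := by
          apply lintegral_mono_ae
          rw [ae_restrict_iff' measurableSet_Ioc]
          exact Filter.Eventually.of_forall (fun t ht => h4 t ht)
      _ = _ := by
          rw [lintegral_const, Measure.restrict_apply MeasurableSet.univ, Set.univ_inter,
            Real.volume_Ioc]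
          simp
  have h6 : ∫⁻ x, Φ x ∂μ = ∫⁻ x in K, ‖fderiv ℝ g x‖ₑ ^ 2 ∂μ := lintegral_indicator hKm _
  rw [h6] at h5
  calc ENNReal.ofReal (D ^ 2) * ∫⁻ t in Set.Ioc (0:ℝ) 1, ∫⁻ p in K, ∫⁻ q in K, Φ (p + t • (q - p)) ∂μ ∂μ
      ≤ ENNReal.ofReal (D ^ 2) * (ENNReal.ofReal (2 ^ finrank ℝ E) * (μ K * ∫⁻ x in K, ‖fderiv ℝ g x‖ₑ ^ 2 ∂μ)) := by
        gcongr
    _ = _ := by
        rw [← mul_assoc, ← ENNReal.ofReal_mul (by positivity), mul_comm (D ^ 2)]

/-- average over a set -/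
noncomputable def avg (μ : Measure E) (K : Set E) (g : E → ℂ) : ℂ :=
  ((μ K).toReal⁻¹ : ℝ) • ∫ x in K, g x ∂μ

theorem norm_integral_sq_le {α : Type*} [MeasurableSpace α] (μ : Measure α) [IsFiniteMeasure μ]
    {f : α → ℂ} (hf : Integrable f μ) (hf2 : Integrable (fun x => ‖f x‖ ^ 2) μ) :
    ‖∫ x, f x ∂μ‖ ^ 2 ≤ μ.real Set.univ * ∫ x, ‖f x‖ ^ 2 ∂μ := by
  have h1 : ‖∫ x, f x ∂μ‖ ≤ ∫ x, ‖f x‖ ∂μ := norm_integral_le_integral_norm _
  have h2 := sq_integral_le μ hf.norm hf2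
  refine le_trans ?_ h2
  gcongr

theorem poincare {K : Set E} (hK : Convex ℝ K) (hKm : MeasurableSet K) (hKb : Bornology.IsBounded K)
    {D : ℝ} (hD : ∀ p ∈ K, ∀ q ∈ K, ‖p - q‖ ≤ D) {g : E → ℂ} (hg : ContDiff ℝ 1 g) :
    ∫⁻ p in K, ‖g p - avg μ K g‖ₑ ^ 2 ∂μ ≤
      ENNReal.ofReal (2 ^ finrank ℝ E * D ^ 2) * ∫⁻ x in K, ‖fderiv ℝ g x‖ₑ ^ 2 ∂μ := by
  have hfin : μ K < ⊤ := hKb.measure_lt_top
  by_cases h0 : μ K = 0
  · rw [Measure.restrict_eq_zero.mpr h0]; simp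
  have : IsFiniteMeasure (μ.restrict K) := ⟨by rwa [Measure.restrict_apply_univ]⟩
  obtain ⟨M, hM⟩ : ∃ M, ∀ x ∈ K, ‖g x‖ ≤ M := by
    have hcomp : IsCompact (closure K) := hKb.isCompact_closure
    obtain ⟨M, hM⟩ := hcomp.exists_bound_of_continuousOn hg.continuous.continuousOn
    exact ⟨M, fun x hx => hM x (subset_closure hx)⟩
  have hgm : AEStronglyMeasurable g (μ.restrict K) := hg.continuous.aestronglyMeasurable
  have hint : Integrable g (μ.restrict K) := by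
    refine Integrable.of_bound hgm M ?_
    rw [ae_restrict_iff' hKm]
    exact Filter.Eventually.of_forall hM
  have hpt : ∀ p ∈ K, ‖g p - avg μ K g‖ₑ ^ 2 ≤ (μ K)⁻¹ * ∫⁻ q in K, ‖g p - g q‖ₑ ^ 2 ∂μ := by
    intro p hp
    have hK0 : 0 < (μ K).toReal := ENNReal.toReal_pos h0 hfin.ne
    have hi1 : Integrable (fun q => g p - g q) (μ.restrict K) := (integrable_const _).sub hint
    have hb1 : ∀ q ∈ K, ‖g p - g q‖ ≤ 2 * M := by
      intro q hq
      refine (norm_sub_le _ _).trans ?_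
      linarith [hM p hp, hM q hq]
    have hi2 : Integrable (fun q => ‖g p - g q‖ ^ 2) (μ.restrict K) := by
      refine Integrable.of_bound (((aestronglyMeasurable_const.sub hgm).norm).pow 2) ((2 * M) ^ 2) ?_
      rw [ae_restrict_iff' hKm]
      refine Filter.Eventually.of_forall (fun q hq => ?_)
      rw [Real.norm_eq_abs, abs_of_nonneg (by positivity)]
      have := hb1 q hq
      gcongr
    have h1 := norm_integral_sq_le (μ.restrict K) hi1 hi2
    have h2 : g p - avg μ K g = ((μ K).toReal⁻¹ : ℝ) • ∫ q in K, (g p - g q) ∂μ := by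
      rw [integral_sub (integrable_const _) hint, smul_sub, integral_const]
      simp only [avg, Measure.real, Measure.restrict_apply_univ]
      rw [← smul_assoc, smul_eq_mul, inv_mul_cancel₀ hK0.ne', one_smul]
    have h3 : ‖g p - avg μ K g‖ ^ 2 ≤ (μ K).toReal⁻¹ * ∫ q in K, ‖g p - g q‖ ^ 2 ∂μ := by
      rw [h2, norm_smul, mul_pow, Real.norm_eq_abs, abs_of_pos (inv_pos.mpr hK0)]
      have hr : (μ.restrict K).real Set.univ = (μ K).toReal := by
        simp [Measure.real]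
      rw [hr] at h1
      calc (μ K).toReal⁻¹ ^ 2 * ‖∫ q in K, (g p - g q) ∂μ‖ ^ 2
          ≤ (μ K).toReal⁻¹ ^ 2 * ((μ K).toReal * ∫ q in K, ‖g p - g q‖ ^ 2 ∂μ) := by gcongr
        _ = _ := by field_simp
    rw [enorm_sq_eq]
    calc ENNReal.ofReal (‖g p - avg μ K g‖ ^ 2)
        ≤ ENNReal.ofReal ((μ K).toReal⁻¹ * ∫ q in K, ‖g p - g q‖ ^ 2 ∂μ) := ENNReal.ofReal_le_ofReal h3
      _ = (μ K)⁻¹ * ∫⁻ q in K, ‖g p - g q‖ₑ ^ 2 ∂μ := by
        rw [ENNReal.ofReal_mul (by positivity),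
          ofReal_integral_eq_lintegral_ofReal hi2 (Filter.Eventually.of_forall fun q => by
            simp only [Pi.zero_apply]; positivity),
          ENNReal.ofReal_inv_of_pos hK0, ENNReal.ofReal_toReal hfin.ne]
        simp only [enorm_sq_eq]
  calc ∫⁻ p in K, ‖g p - avg μ K g‖ₑ ^ 2 ∂μ
      ≤ ∫⁻ p in K, (μ K)⁻¹ * ∫⁻ q in K, ‖g p - g q‖ₑ ^ 2 ∂μ ∂μ := by
        apply lintegral_mono_ae
        rw [ae_restrict_iff' hKm]
        exact Filter.Eventually.of_forall hpt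
    _ = (μ K)⁻¹ * ∫⁻ p in K, ∫⁻ q in K, ‖g p - g q‖ₑ ^ 2 ∂μ ∂μ := by
        rw [lintegral_const_mul' _ _ (ENNReal.inv_ne_top.mpr h0)]
    _ ≤ (μ K)⁻¹ * (ENNReal.ofReal (2 ^ finrank ℝ E * D ^ 2) * (μ K * ∫⁻ x in K, ‖fderiv ℝ g x‖ₑ ^ 2 ∂μ)) := by
        gcongr
        exact poincare_double μ hK hKm hD hg
    _ = ((μ K)⁻¹ * μ K) * (ENNReal.ofReal (2 ^ finrank ℝ E * D ^ 2) * ∫⁻ x in K, ‖fderiv ℝ g x‖ₑ ^ 2 ∂μ) := by
        ring
    _ = _ := by
        rw [ENNReal.inv_mul_cancel h0 hfin.ne, one_mul]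

end Poincare

end Pool.Agent.Helper23.Bose
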