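import Mathlib
import Pool.Agent.Helper23.Bose.Defs
import Pool.Agent.Helper23.Bose.Poincare

set_option autoImplicit false
open MeasureTheory Module

namespace Pool.Agent.Helper23.Bose

/-- a smooth step: `1` on `(-∞,1/3]`, `0` on `[2/3,∞)` -/
noncomputable def stepF (t : ℝ) : ℝ := Real.smoothTransition (2 - 3 * t)

theorem stepF_contDiff {n : ℕ∞} : ContDiff ℝ n stepF :=
  Real.smoothTransition.contDiff.comp (contDiff_const.sub (contDiff_const.mul contDiff_id))

theorem stepF_nonneg (t : ℝ) : 0 ≤ stepF t := Real.smoothTransition.nonneg _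
theorem stepF_le_one (t : ℝ) : stepF t ≤ 1 := Real.smoothTransition.le_one _
theorem stepF_one {t : ℝ} (h : t ≤ 1 / 3) : stepF t = 1 :=
  Real.smoothTransition.one_of_one_le (by linarith)
theorem stepF_zero {t : ℝ} (h : 2 / 3 ≤ t) : stepF t = 0 :=
  Real.smoothTransition.zero_of_nonpos (by linarith)

theorem stepF_deriv_bound : ∃ C : ℝ, 0 < C ∧ ∀ t, |deriv stepF t| ≤ C := by
  have hc : Continuous (deriv stepF) := (stepF_contDiff (n := 1)).continuous_deriv (by norm_num)
  obtain ⟨C, hC⟩ := (isCompact_Icc (a := (0:ℝ)) (b := 1)).exists_bound_of_continuousOn hc.continuousOn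
  refine ⟨|C| + 1, by positivity, fun t => ?_⟩
  by_cases h1 : t < 1 / 3
  · have : deriv stepF t = 0 := by
      have he : stepF =ᶠ[nhds t] (fun _ => (1:ℝ)) := by
        filter_upwards [Iio_mem_nhds h1] with s hs
        exact stepF_one (le_of_lt hs)
      rw [he.deriv_eq]
      simp
    rw [this]
    simp only [abs_zero]
    positivity
  · by_cases h2 : 2 / 3 < t
    · have : deriv stepF t = 0 := by
        have he : stepF =ᶠ[nhds t] (fun _ => (0:ℝ)) := by
          filter_upwards [Ioi_mem_nhds h2] with s hs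
          exact stepF_zero (le_of_lt hs)
        rw [he.deriv_eq]
        simp
      rw [this]
      simp only [abs_zero]
      positivity
    · have := hC t ⟨by linarith, by linarith⟩
      rw [Real.norm_eq_abs] at this
      have h3 := le_abs_self C
      linarith

section LogCut

variable {F : Type*} [NormedAddCommGroup F] [NormedSpace ℝ F] [FiniteDimensional ℝ F]

theorem cL_ge_one : 1 ≤ cL F := by
  unfold cL
  have := norm_nonneg (toEuclidean (E := F)).symm.toContinuousLinearMap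
  linarith

/-- logarithmic cut-offs: `|∇χ|² ≤ η/(1+q)` -/
theorem exists_logcut (F : Type*) [NormedAddCommGroup F] [NormedSpace ℝ F]
    [FiniteDimensional ℝ F] (S : ℝ) {η : ℝ} (hη : 0 < η) :
    ∃ R0 : ℝ, 0 < R0 ∧ ∀ R : ℝ, R0 ≤ R → ∃ χ : F → ℝ,
    ContDiff ℝ cinf χ ∧ HasCompactSupport χ ∧ (∀ x, 0 ≤ χ x) ∧ (∀ x, χ x ≤ 1) ∧
    (∀ x, ‖x‖ ≤ S → χ x = 1) ∧ (∀ x, R / 2 ≤ ‖x‖ → χ x = 0) ∧
    (∀ x, R / 2 ≤ ‖x‖ → fderiv ℝ χ x = 0) ∧
    (∀ x, ‖fderiv ℝ χ x‖ ^ 2 ≤ η / (1 + qf x)) := by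
  obtain ⟨C, hC, hCb⟩ := stepF_deriv_bound
  have hcL1 := cL_ge_one (F := F)
  have hcL := cL_pos (F := F)
  have hcU := cU_pos (F := F)
  set T0 : ℝ := 3 * Real.log (1 + cU F ^ 2 * S ^ 2) + 3 * Real.log (16 * cL F ^ 2) +
    2 * C * cU F / Real.sqrt η + 1 with hT0
  have hl1 : 0 ≤ Real.log (1 + cU F ^ 2 * S ^ 2) := Real.log_nonneg (by nlinarith [sq_nonneg (cU F * S)])
  have hl2 : 0 ≤ Real.log (16 * cL F ^ 2) := Real.log_nonneg (by nlinarith)
  have hl3 : 0 ≤ 2 * C * cU F / Real.sqrt η := by positivity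
  have hT0pos : 0 < T0 := by rw [hT0]; linarith
  refine ⟨Real.exp T0, Real.exp_pos _, fun R hR => ?_⟩
  have hR1 : 1 ≤ R := le_trans (by
    have := Real.add_one_le_exp T0
    linarith) hR
  set T : ℝ := Real.log (1 + R ^ 2) with hT
  have hTT : T0 ≤ T := by
    rw [hT, Real.le_log_iff_exp_le (by positivity)]
    nlinarith
  have hTpos : 0 < T := by linarith
  have hq1 : ∀ x : F, 0 < 1 + qf x := fun x => by linarith [qf_nonneg x]
  have hlogcd : ContDiff ℝ cinf (fun x : F => Real.log (1 + qf x) / T) := by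
    refine ContDiff.div_const ?_ _
    exact (contDiff_const.add contDiff_qf).log (fun x => (hq1 x).ne')
  have hχcd : ContDiff ℝ cinf (fun x : F => stepF (Real.log (1 + qf x) / T)) :=
    (stepF_contDiff (n := ⊤)).comp hlogcd
  have hout : ∀ x : F, R / 4 < ‖x‖ → 2 / 3 < Real.log (1 + qf x) / T := by
    intro x hx
    rw [lt_div_iff₀ hTpos]
    have h1 := norm_le_cL x
    have h2 : (R / 4) ^ 2 < cL F ^ 2 * qf x := by
      have h3 : R / 4 < cL F * Real.sqrt (qf x) := lt_of_lt_of_le hx h1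
      have h4 : (R / 4) ^ 2 < (cL F * Real.sqrt (qf x)) ^ 2 := by gcongr
      rwa [mul_pow, Real.sq_sqrt (qf_nonneg x)] at h4
    have h3 : (1 + R ^ 2) / (16 * cL F ^ 2) < 1 + qf x := by
      rw [div_lt_iff₀ (by positivity)]
      nlinarith
    have h4 : Real.log ((1 + R ^ 2) / (16 * cL F ^ 2)) < Real.log (1 + qf x) :=
      Real.log_lt_log (by positivity) h3
    rw [Real.log_div (by positivity) (by positivity)] at h4
    have : T - Real.log (16 * cL F ^ 2) < Real.log (1 + qf x) := h4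
    linarith
  refine ⟨fun x => stepF (Real.log (1 + qf x) / T), hχcd, ?_, fun x => stepF_nonneg _,
    fun x => stepF_le_one _, ?_, ?_, ?_, ?_⟩
  · refine HasCompactSupport.intro (isCompact_closedBall (0 : F) (R / 4)) (fun x hx => ?_)
    rw [Metric.mem_closedBall, dist_zero_right, not_le] at hx
    exact stepF_zero (hout x hx).le
  · intro x hx
    apply stepF_one
    rw [div_le_iff₀ hTpos]
    have h1 : qf x ≤ cU F ^ 2 * S ^ 2 := by
      refine (qf_le_cU x).trans ?_
      rw [← mul_pow]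
      have := norm_nonneg x
      gcongr
    have h2 : Real.log (1 + qf x) ≤ Real.log (1 + cU F ^ 2 * S ^ 2) :=
      Real.log_le_log (hq1 x) (by linarith)
    linarith
  · intro x hx
    exact stepF_zero (hout x (by linarith)).le
  · intro x hx
    have he : (fun x : F => stepF (Real.log (1 + qf x) / T)) =ᶠ[nhds x] (fun _ => (0:ℝ)) := by
      have hopen : IsOpen {y : F | R / 4 < ‖y‖} := isOpen_lt continuous_const continuous_norm
      filter_upwards [hopen.mem_nhds (by simp only [Set.mem_ofPred_eq]; linarith)] with y hy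
      exact stepF_zero (hout y hy).le
    rw [he.fderiv_eq]
    simp
  · intro x
    have hqd : HasFDerivAt (fun x : F => 1 + qf x) (2 • (innerSL ℝ (eF F x)).comp (eF F)) x :=
      (((eF F).hasFDerivAt (x := x)).norm_sq).const_add 1
    have hld : HasFDerivAt (fun x : F => Real.log (1 + qf x) / T)
        (T⁻¹ • ((1 + qf x)⁻¹ • (2 • (innerSL ℝ (eF F x)).comp (eF F)))) x := by
      have := (hqd.log (hq1 x).ne').const_mul T⁻¹
      have e : (fun x : F => Real.log (1 + qf x) / T) = fun x => T⁻¹ * Real.log (1 + qf x) := by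
        ext y; rw [div_eq_mul_inv, mul_comm]
      rw [e]
      exact this
    have hsd : HasDerivAt stepF (deriv stepF (Real.log (1 + qf x) / T)) (Real.log (1 + qf x) / T) :=
      ((stepF_contDiff (n := 1)).differentiable (by norm_num) _).hasDerivAt
    have hall := hsd.comp_hasFDerivAt x hld
    have hfd : fderiv ℝ (fun x : F => stepF (Real.log (1 + qf x) / T)) x =
        deriv stepF (Real.log (1 + qf x) / T) •
        (T⁻¹ • ((1 + qf x)⁻¹ • (2 • (innerSL ℝ (eF F x)).comp (eF F)))) := hall.fderiv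
    rw [hfd]
    have hq := qf_nonneg x
    have hnorm2 : ‖(2 • (innerSL ℝ (eF F x)).comp (eF F) : F →L[ℝ] ℝ)‖ ≤ 2 * (Real.sqrt (1 + qf x) * cU F) := by
      have h1 : ‖(innerSL ℝ (eF F x)).comp (eF F)‖ ≤ ‖eF F x‖ * ‖eF F‖ := by
        refine (ContinuousLinearMap.opNorm_comp_le _ _).trans ?_
        rw [innerSL_apply_norm]
      have h2 : ‖eF F x‖ = Real.sqrt (qf x) := by
        unfold qf; rw [Real.sqrt_sq (norm_nonneg _)]
      have h3 : ‖eF F‖ ≤ cU F := by unfold cU; linarith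
      calc ‖(2 • (innerSL ℝ (eF F x)).comp (eF F) : F →L[ℝ] ℝ)‖
          ≤ 2 * ‖(innerSL ℝ (eF F x)).comp (eF F)‖ := by
            refine (norm_nsmul_le (n := 2)).trans ?_
            norm_num
        _ ≤ 2 * (Real.sqrt (1 + qf x) * cU F) := by
            gcongr
            refine h1.trans ?_
            rw [h2]
            gcongr
            linarith
    have hbig : ‖deriv stepF (Real.log (1 + qf x) / T) •
        (T⁻¹ • ((1 + qf x)⁻¹ • (2 • (innerSL ℝ (eF F x)).comp (eF F) : F →L[ℝ] ℝ)))‖ ≤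
        C * (T⁻¹ * ((1 + qf x)⁻¹ * (2 * (Real.sqrt (1 + qf x) * cU F)))) := by
      rw [norm_smul, norm_smul, norm_smul, Real.norm_eq_abs, Real.norm_eq_abs, Real.norm_eq_abs,
        abs_of_pos (inv_pos.mpr hTpos), abs_of_pos (inv_pos.mpr (hq1 x))]
      have := hCb (Real.log (1 + qf x) / T)
      have h0 : 0 ≤ (1 + qf x)⁻¹ := (inv_pos.mpr (hq1 x)).le
      gcongr
    have hS : Real.sqrt (1 + qf x) ^ 2 = 1 + qf x := Real.sq_sqrt (hq1 x).le
    have hSp : 0 < Real.sqrt (1 + qf x) := Real.sqrt_pos.mpr (hq1 x)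
    have hTη : 2 * C * cU F / T ≤ Real.sqrt η := by
      rw [div_le_iff₀ hTpos]
      have h1 : 2 * C * cU F / Real.sqrt η ≤ T := by linarith
      rw [div_le_iff₀ (Real.sqrt_pos.mpr hη)] at h1
      linarith
    have hfin : C * (T⁻¹ * ((1 + qf x)⁻¹ * (2 * (Real.sqrt (1 + qf x) * cU F)))) =
        (2 * C * cU F / T) / Real.sqrt (1 + qf x) := by
      rw [← hS]
      field_simp
      rw [Real.sqrt_sq hSp.le]
    rw [hfin] at hbig
    calc _ ≤ ((2 * C * cU F / T) / Real.sqrt (1 + qf x)) ^ 2 := by gcongr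
      _ ≤ (Real.sqrt η / Real.sqrt (1 + qf x)) ^ 2 := by gcongr
      _ = η / (1 + qf x) := by rw [div_pow, Real.sq_sqrt hη.le, hS]

end LogCut

end Pool.Agent.Helper23.Bose
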