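import Mathlib
import Pool.Agent.Helper23.Bose.Defs
import Pool.Agent.Helper23.Bose.Gen
import Pool.Agent.Helper23.Bose.LogCut

set_option autoImplicit false
open MeasureTheory Module

namespace Pool.Agent.Helper23.Bose

section HP

variable {F : Type*} [NormedAddCommGroup F] [NormedSpace ℝ F] [FiniteDimensional ℝ F]
  [MeasurableSpace F] [BorelSpace F] (μ : Measure F) [μ.IsAddHaarMeasure]

/-- Hardy inequality for functions of zero average on a ball -/
theorem hardy_poincare (hd : 3 ≤ finrank ℝ F) :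
    ∃ C : ℝ, 0 < C ∧ ∀ R : ℝ, 0 < R → ∀ h : F → ℂ, ContDiff ℝ 1 h →
      avg μ (Metric.ball 0 R) h = 0 →
      ∫⁻ x in Metric.ball 0 (R / 2), ENNReal.ofReal (‖h x‖ ^ 2 / (qf x + 1)) ∂μ ≤
        ENNReal.ofReal C * ∫⁻ x in Metric.ball 0 R, ‖fderiv ℝ h x‖ₑ ^ 2 ∂μ := by
  obtain ⟨C0, hC0, hcut⟩ := exists_cutoff F
  have hcL := cL_pos (F := F)
  refine ⟨(4 * cL F ^ 2) * (2 * (1 + C0 ^ 2) * (1 + 2 ^ finrank ℝ F * 4)), by positivity,
    fun R hR h hh havg => ?_⟩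
  obtain ⟨χ, hχs, hχc, hχ0, hχ1, hχin, hχout, hχd, hχb⟩ := hcut R hR
  have hχs1 : ContDiff ℝ 1 χ := hχs.of_le (by simp [cinf])
  have hofR : ContDiff ℝ 1 (fun x => (χ x : ℂ)) := by
    have : ContDiff ℝ 1 (fun y : ℝ => (y : ℂ)) := Complex.ofRealCLM.contDiff
    exact this.comp hχs1
  have hχh : ContDiff ℝ 1 (fun x => (χ x : ℂ) * h x) := hofR.mul hh
  have hχhc : HasCompactSupport (fun x => (χ x : ℂ) * h x) := by
    refine hχc.mono (fun x hx => ?_)
    simp only [Function.mem_support, ne_eq] at hx ⊢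
    intro h0
    apply hx
    simp [h0]
  have h1 := hardy_lintegral μ hχh hχhc hd (s := 1) one_pos
  have h2 := cutoff_energy μ hR hχs hχ0 hχ1 hχout hχd hχb hh
  have h3 : ∫⁻ p in Metric.ball 0 R, ‖h p‖ₑ ^ 2 ∂μ ≤
      ENNReal.ofReal (2 ^ finrank ℝ F * (2 * R) ^ 2) * ∫⁻ x in Metric.ball 0 R, ‖fderiv ℝ h x‖ₑ ^ 2 ∂μ := by
    have := poincare μ (K := Metric.ball (0:F) R) (convex_ball 0 R) Metric.isOpen_ball.measurableSet
      Metric.isBounded_ball (D := 2 * R) (fun p hp q hq => by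
        rw [Metric.mem_ball, dist_zero_right] at hp hq
        refine (norm_sub_le _ _).trans ?_
        linarith) hh
    rw [havg] at this
    simpa using this
  have h4 : ∫⁻ x in Metric.ball 0 (R / 2), ENNReal.ofReal (‖h x‖ ^ 2 / (qf x + 1)) ∂μ ≤
      ∫⁻ x, ENNReal.ofReal (‖(χ x : ℂ) * h x‖ ^ 2 / (qf x + 1 ^ 2)) ∂μ := by
    rw [← lintegral_indicator Metric.isOpen_ball.measurableSet]
    apply lintegral_mono
    intro x
    by_cases hx : x ∈ Metric.ball (0 : F) (R / 2)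
    · rw [Set.indicator_of_mem hx]
      rw [Metric.mem_ball, dist_zero_right] at hx
      simp only
      rw [hχin x hx.le]
      simp
    · rw [Set.indicator_of_notMem hx]
      exact zero_le
  set A := ∫⁻ x in Metric.ball 0 R, ‖fderiv ℝ h x‖ₑ ^ 2 ∂μ with hA
  have h5 : A + ENNReal.ofReal ((R ^ 2)⁻¹) * ∫⁻ r in Metric.ball 0 R, ‖h r‖ₑ ^ 2 ∂μ ≤
      ENNReal.ofReal (1 + 2 ^ finrank ℝ F * 4) * A := by
    rw [ENNReal.ofReal_add (by norm_num) (by positivity), add_mul]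
    simp only [ENNReal.ofReal_one, one_mul]
    refine add_le_add le_rfl ?_
    calc ENNReal.ofReal ((R ^ 2)⁻¹) * ∫⁻ r in Metric.ball 0 R, ‖h r‖ₑ ^ 2 ∂μ
        ≤ ENNReal.ofReal ((R ^ 2)⁻¹) * (ENNReal.ofReal (2 ^ finrank ℝ F * (2 * R) ^ 2) * A) := by
          gcongr
      _ = ENNReal.ofReal (2 ^ finrank ℝ F * 4) * A := by
          rw [← mul_assoc, ← ENNReal.ofReal_mul (by positivity)]
          congr 2
          field_simp
          ring
  calc ∫⁻ x in Metric.ball 0 (R / 2), ENNReal.ofReal (‖h x‖ ^ 2 / (qf x + 1)) ∂μ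
      ≤ _ := h4
    _ ≤ _ := h1
    _ ≤ ENNReal.ofReal (4 * cL F ^ 2) * (ENNReal.ofReal (2 * (1 + C0 ^ 2)) *
        (ENNReal.ofReal (1 + 2 ^ finrank ℝ F * 4) * A)) := by
        gcongr
        exact h2.trans (by gcongr)
    _ = _ := by
        rw [← mul_assoc, ← mul_assoc, ← ENNReal.ofReal_mul (by positivity),
          ← ENNReal.ofReal_mul (by positivity)]
        congr 2
        ring

end HP

theorem young_sq {a b : ℂ} {θ : ℝ} (hθ : 0 < θ) :
    ‖a + b‖ ^ 2 ≤ (1 + θ) * ‖a‖ ^ 2 + (1 + θ⁻¹) * ‖b‖ ^ 2 := by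
  have h1 : ‖a + b‖ ≤ ‖a‖ + ‖b‖ := norm_add_le _ _
  have h2 : ‖a + b‖ ^ 2 ≤ (‖a‖ + ‖b‖) ^ 2 := by gcongr
  have h3 : 2 * (‖a‖ * ‖b‖) ≤ θ * ‖a‖ ^ 2 + θ⁻¹ * ‖b‖ ^ 2 := by
    have h4 : 0 ≤ θ⁻¹ * (θ * ‖a‖ - ‖b‖) ^ 2 := by positivity
    have h5 : θ⁻¹ * (θ * ‖a‖ - ‖b‖) ^ 2 = θ * ‖a‖ ^ 2 - 2 * (‖a‖ * ‖b‖) + θ⁻¹ * ‖b‖ ^ 2 := by
      field_simp
      ring
    linarith
  nlinarith

section Cap

variable {F ι : Type} [NormedAddCommGroup F] [NormedSpace ℝ F] [Fintype ι]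

theorem formw_nonneg (w : ι → F) (φ : F → ℂ) (r : F) : 0 ≤ formw w φ r := by
  unfold formw
  positivity

theorem continuous_formw (w : ι → F) {φ : F → ℂ} (hφ : ContDiff ℝ 1 φ) :
    Continuous (formw w φ) := by
  have hd : Continuous (fderiv ℝ φ) := hφ.continuous_fderiv (by norm_num)
  unfold formw
  exact continuous_finsetSum _ fun a _ => (hd.clm_apply continuous_const).norm.pow 2

theorem hcs_formw (w : ι → F) {φ : F → ℂ} (hc : HasCompactSupport φ) :
    HasCompactSupport (formw w φ) := by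
  refine (hc.fderiv ℝ).mono (fun x hx => ?_)
  simp only [Function.mem_support, ne_eq] at hx ⊢
  intro h
  apply hx
  simp [formw, h]

/-- `∑‖wₐ‖²` -/
noncomputable def cw (w : ι → F) : ℝ := ∑ a, ‖w a‖ ^ 2

theorem cw_nonneg (w : ι → F) : 0 ≤ cw w := by unfold cw; positivity

theorem formw_cut_le (w : ι → F) {χ : F → ℝ} {h : F → ℂ} (hχ : Differentiable ℝ χ)
    (hh : Differentiable ℝ h) {θ : ℝ} (hθ : 0 < θ) (x : F) :
    formw w (fun x => (χ x : ℂ) * h x) x ≤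
      (1 + θ) * χ x ^ 2 * formw w h x + (1 + θ⁻¹) * cw w * ‖fderiv ℝ χ x‖ ^ 2 * ‖h x‖ ^ 2 := by
  have h1 : HasFDerivAt χ (fderiv ℝ χ x) x := (hχ x).hasFDerivAt
  have h2 : HasFDerivAt h (fderiv ℝ h x) x := (hh x).hasFDerivAt
  have h3 : HasFDerivAt (fun x => χ x • h x)
      (χ x • fderiv ℝ h x + (fderiv ℝ χ x).smulRight (h x)) x := h1.smul h2
  have h4 : (fun x => (χ x : ℂ) * h x) = (fun x => χ x • h x) := by
    ext y
    simp
  unfold formw cw
  rw [h4, h3.fderiv, Finset.mul_sum, Finset.mul_sum, Finset.sum_mul, Finset.sum_mul,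
    ← Finset.sum_add_distrib]
  apply Finset.sum_le_sum
  intro a _
  have e : (χ x • fderiv ℝ h x + (fderiv ℝ χ x).smulRight (h x)) (w a) =
      χ x • fderiv ℝ h x (w a) + (fderiv ℝ χ x (w a)) • h x := by simp
  rw [e]
  refine (young_sq hθ).trans ?_
  have e1 : ‖χ x • fderiv ℝ h x (w a)‖ ^ 2 = χ x ^ 2 * ‖fderiv ℝ h x (w a)‖ ^ 2 := by
    rw [norm_smul, mul_pow, Real.norm_eq_abs, sq_abs]
  have e2 : ‖(fderiv ℝ χ x (w a)) • h x‖ ^ 2 ≤ ‖w a‖ ^ 2 * ‖fderiv ℝ χ x‖ ^ 2 * ‖h x‖ ^ 2 := by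
    rw [norm_smul, mul_pow]
    have : ‖fderiv ℝ χ x (w a)‖ ≤ ‖fderiv ℝ χ x‖ * ‖w a‖ := ContinuousLinearMap.le_opNorm _ _
    calc ‖fderiv ℝ χ x (w a)‖ ^ 2 * ‖h x‖ ^ 2 ≤ (‖fderiv ℝ χ x‖ * ‖w a‖) ^ 2 * ‖h x‖ ^ 2 := by gcongr
      _ = _ := by ring
  rw [e1]
  have hθ' : 0 ≤ 1 + θ⁻¹ := by positivity
  calc (1 + θ) * (χ x ^ 2 * ‖fderiv ℝ h x (w a)‖ ^ 2) + (1 + θ⁻¹) * ‖(fderiv ℝ χ x (w a)) • h x‖ ^ 2
      ≤ (1 + θ) * (χ x ^ 2 * ‖fderiv ℝ h x (w a)‖ ^ 2) + (1 + θ⁻¹) * (‖w a‖ ^ 2 * ‖fderiv ℝ χ x‖ ^ 2 * ‖h x‖ ^ 2) := by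
        gcongr
    _ = _ := by ring

variable [MeasureSpace F]

theorem bcap_nonneg (w : ι → F) {v : F → ℝ} (hv0 : ∀ r, 0 ≤ v r) : 0 ≤ bcap w v := by
  apply Real.sInf_nonneg
  rintro _ ⟨φ, _, _, rfl⟩
  apply integral_nonneg
  intro x
  have := formw_nonneg w φ x
  have := hv0 x
  simp only [Pi.zero_apply]
  positivity

variable [FiniteDimensional ℝ F] [BorelSpace F] [(volume : Measure F).IsAddHaarMeasure]

theorem bcap_le_lintegral (w : ι → F) {v : F → ℝ} (hvm : Measurable v) (hv0 : ∀ r, 0 ≤ v r)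
    (hvb : ∃ M, ∀ r, v r ≤ M) (hvs : HasCompactSupport v) {φ : F → ℂ} (hφ : ContDiff ℝ cinf φ)
    (hc : HasCompactSupport φ) :
    ENNReal.ofReal (bcap w v) ≤ ∫⁻ r, ENNReal.ofReal (formw w φ r + v r * ‖1 - φ r‖ ^ 2) := by
  have hφ1 : ContDiff ℝ 1 φ := hφ.of_le (by simp [cinf])
  have hbdd : BddBelow {B : ℝ | ∃ φ : F → ℂ, ContDiff ℝ cinf φ ∧ HasCompactSupport φ ∧
      B = ∫ r, (formw w φ r + v r * ‖1 - φ r‖ ^ 2)} := by
    refine ⟨0, ?_⟩
    rintro _ ⟨ψ, _, _, rfl⟩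
    apply integral_nonneg
    intro x
    have := formw_nonneg w ψ x
    have := hv0 x
    simp only [Pi.zero_apply]
    positivity
  have h1 : bcap w v ≤ ∫ r, (formw w φ r + v r * ‖1 - φ r‖ ^ 2) :=
    csInf_le hbdd ⟨φ, hφ, hc, rfl⟩
  have hi1 : Integrable (formw w φ) volume :=
    (continuous_formw w hφ1).integrable_of_hasCompactSupport (hcs_formw w hc)
  have hi2 : Integrable (fun r => v r * ‖1 - φ r‖ ^ 2) volume := by
    obtain ⟨M, hM⟩ := hvb
    have hcont : Continuous (fun r => ‖1 - φ r‖ ^ 2) := (continuous_const.sub hφ.continuous).norm.pow 2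
    obtain ⟨M2, hM2⟩ := hvs.isCompact.exists_bound_of_continuousOn hcont.continuousOn
    have hint : IntegrableOn (fun r => v r * ‖1 - φ r‖ ^ 2) (tsupport v) volume := by
      refine Measure.integrableOn_of_bounded (M := M * M2) hvs.isCompact.measure_lt_top.ne
        ((hvm.mul hcont.measurable).aestronglyMeasurable) ?_
      rw [ae_restrict_iff' (isClosed_tsupport v).measurableSet]
      refine Filter.Eventually.of_forall (fun r hr => ?_)
      rw [norm_mul, Real.norm_eq_abs, abs_of_nonneg (hv0 r)]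
      have h3 := hM2 r hr
      have h4 := hM r
      have h5 := hv0 r
      exact mul_le_mul h4 h3 (norm_nonneg _) (h5.trans h4)
    rw [integrableOn_iff_integrable_of_support_subset] at hint
    · exact hint
    · intro r hr
      apply subset_tsupport
      simp only [Function.mem_support, ne_eq] at hr ⊢
      intro h0
      apply hr
      simp [h0]
  have h2 : ENNReal.ofReal (∫ r, (formw w φ r + v r * ‖1 - φ r‖ ^ 2)) =
      ∫⁻ r, ENNReal.ofReal (formw w φ r + v r * ‖1 - φ r‖ ^ 2) :=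
    ofReal_integral_eq_lintegral_ofReal (hi1.add hi2) (Filter.Eventually.of_forall fun x => by
      have := formw_nonneg w φ x
      have := hv0 x
      simp only [Pi.zero_apply]
      positivity)
  rw [← h2]
  exact ENNReal.ofReal_le_ofReal h1

theorem formw_smul (w : ι → F) (f : F → ℂ) (hf : Differentiable ℝ f) (c : ℂ) (r : F) :
    formw w (fun x => 1 - c * f x) r = ‖c‖ ^ 2 * formw w f r := by
  unfold formw
  have h1 : HasFDerivAt (fun x => 1 - c * f x) (-(c • fderiv ℝ f r)) r :=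
    ((hf r).hasFDerivAt.const_mul c).const_sub 1
  rw [h1.fderiv, Finset.mul_sum]
  refine Finset.sum_congr rfl fun a _ => ?_
  simp [mul_pow]

/-- **Capacity lemma.** -/
theorem cap_lemma (w : ι → F) (hd : 3 ≤ finrank ℝ F) {c0 : ℝ} (hc0 : 0 < c0)
    (hw : ∀ A : F →L[ℝ] ℂ, c0 * ‖A‖ ^ 2 ≤ ∑ a, ‖A (w a)‖ ^ 2)
    {v : F → ℝ} (hvm : Measurable v) (hv0 : ∀ r, 0 ≤ v r)
    (hvb : ∃ M, ∀ r, v r ≤ M) (hvs : HasCompactSupport v) {ε : ℝ} (hε : 0 < ε) (hε1 : ε < 1) :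
    ∃ R0 : ℝ, 0 < R0 ∧ ∀ R : ℝ, R0 ≤ R → ∀ f : F → ℂ, ContDiff ℝ cinf f →
      ENNReal.ofReal ((1 - ε) * bcap w v * ‖avg volume (Metric.ball 0 R) f‖ ^ 2) ≤
        ∫⁻ r in Metric.ball 0 R, ENNReal.ofReal (formw w f r + v r * ‖f r‖ ^ 2) := by
  obtain ⟨CH, hCH, hHP⟩ := hardy_poincare (volume : Measure F) hd
  obtain ⟨θ, hθdef⟩ : ∃ θ, θ = ε / 2 := ⟨_, rfl⟩
  have hθ : 0 < θ := by rw [hθdef]; linarith
  have hcw := cw_nonneg w
  have hη : 0 < θ * c0 / ((1 + θ⁻¹) * (cw w + 1) * CH) := by positivity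
  obtain ⟨S, hS⟩ : ∃ S : ℝ, ∀ r ∈ tsupport v, ‖r‖ ≤ S := by
    obtain ⟨S, hS⟩ := hvs.isCompact.isBounded.exists_norm_le
    exact ⟨S, hS⟩
  obtain ⟨R0, hR0, hcut⟩ := exists_logcut F S hη
  refine ⟨R0, hR0, fun R hR f hf => ?_⟩
  have hRpos : 0 < R := lt_of_lt_of_le hR0 hR
  obtain ⟨χ, hχs, hχc, hχ0, hχ1, hχin, hχout, hχd, hχb⟩ := hcut R hR
  obtain ⟨η, hηdef⟩ : ∃ η, η = θ * c0 / ((1 + θ⁻¹) * (cw w + 1) * CH) := ⟨_, rfl⟩
  rw [← hηdef] at hχb hη
  have hχs1 : ContDiff ℝ 1 χ := hχs.of_le (by simp [cinf])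
  have hf1 : ContDiff ℝ 1 f := hf.of_le (by simp [cinf])
  obtain ⟨c, hc⟩ : ∃ c, c = avg volume (Metric.ball (0:F) R) f := ⟨_, rfl⟩
  rw [← hc]
  by_cases hc0' : c = 0
  · rw [hc0']; simp
  have hcn : 0 < ‖c‖ := norm_pos_iff.mpr hc0'
  -- the auxiliary functions
  have hvout : ∀ x, R / 2 ≤ ‖x‖ → v x = 0 := by
    intro x hx
    by_contra hne
    have h1 : x ∈ tsupport v := subset_tsupport _ hne
    have h2 := hχin x (hS x h1)
    have h3 := hχout x hx
    rw [h2] at h3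
    exact one_ne_zero h3
  have hvin : ∀ x, v x ≠ 0 → χ x = 1 := fun x hx => hχin x (hS x (subset_tsupport _ hx))
  obtain ⟨h, hh⟩ : ∃ h : F → ℂ, h = fun x => 1 - c⁻¹ * f x := ⟨_, rfl⟩
  have hhs : ContDiff ℝ cinf h := by rw [hh]; exact contDiff_const.sub (contDiff_const.mul hf)
  have hhs1 : ContDiff ℝ 1 h := hhs.of_le (by simp [cinf])
  have hballpos : 0 < (volume (Metric.ball (0:F) R)).toReal := by
    apply ENNReal.toReal_pos
    · exact (Metric.measure_ball_pos volume 0 hRpos).ne'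
    · exact measure_ball_lt_top.ne
  have hfin : IsFiniteMeasure (volume.restrict (Metric.ball (0:F) R)) :=
    ⟨by rw [Measure.restrict_apply_univ]; exact measure_ball_lt_top⟩
  have hfint : Integrable f (volume.restrict (Metric.ball (0:F) R)) := by
    have : IntegrableOn f (Metric.closedBall (0:F) R) volume :=
      hf.continuous.continuousOn.integrableOn_compact (isCompact_closedBall 0 R)
    exact this.mono_set Metric.ball_subset_closedBall
  have havg : avg volume (Metric.ball (0:F) R) h = 0 := by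
    have h1 : ∫ x in Metric.ball (0:F) R, h x = ((volume (Metric.ball (0:F) R)).toReal : ℂ) -
        c⁻¹ * ∫ x in Metric.ball (0:F) R, f x := by
      rw [hh]
      rw [integral_sub (integrable_const _) (hfint.const_mul _), integral_const_mul, integral_const]
      simp [Measure.real]
    have h2 : ∫ x in Metric.ball (0:F) R, f x = ((volume (Metric.ball (0:F) R)).toReal : ℂ) * c := by
      rw [hc]
      unfold avg
      rw [Complex.real_smul, ← mul_assoc, ← Complex.ofReal_mul, mul_inv_cancel₀ hballpos.ne']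
      simp
    unfold avg
    rw [h1, h2]
    have : ((volume (Metric.ball (0:F) R)).toReal : ℂ) - c⁻¹ *
        (((volume (Metric.ball (0:F) R)).toReal : ℂ) * c) = 0 := by
      field_simp
      ring
    rw [this, smul_zero]
  have hofR : ContDiff ℝ cinf (fun x => (χ x : ℂ)) := by
    have : ContDiff ℝ cinf (fun y : ℝ => (y : ℂ)) := Complex.ofRealCLM.contDiff
    exact this.comp hχs
  have hφs : ContDiff ℝ cinf (fun x => (χ x : ℂ) * h x) := hofR.mul hhs
  have hφc : HasCompactSupport (fun x => (χ x : ℂ) * h x) := by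
    refine hχc.mono (fun x hx => ?_)
    simp only [Function.mem_support, ne_eq] at hx ⊢
    intro h0
    apply hx
    simp [h0]
  have key := bcap_le_lintegral w hvm hv0 hvb hvs hφs hφc
  -- pointwise bound
  have hformh : ∀ r, formw w h r = ‖c⁻¹‖ ^ 2 * formw w f r := fun r => by
    rw [hh]
    exact formw_smul w f (hf1.differentiable (by norm_num)) _ r
  have hptw : ∀ r, ENNReal.ofReal (formw w (fun x => (χ x : ℂ) * h x) r +
        v r * ‖1 - (χ r : ℂ) * h r‖ ^ 2) ≤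
      (Metric.ball (0:F) R).indicator (fun r => ENNReal.ofReal ((1 + θ) * ‖c⁻¹‖ ^ 2) *
        ENNReal.ofReal (formw w f r + v r * ‖f r‖ ^ 2)) r +
      (Metric.ball (0:F) (R / 2)).indicator (fun r => ENNReal.ofReal ((1 + θ⁻¹) * cw w * η) *
        ENNReal.ofReal (‖h r‖ ^ 2 / (qf r + 1))) r := by
    intro r
    have hcut1 := formw_cut_le w (hχs1.differentiable (by norm_num))
      (hhs1.differentiable (by norm_num)) hθ r
    have hfn := formw_nonneg w f r
    have hv0r := hv0 r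
    by_cases hr : ‖r‖ < R / 2
    · have hr1 : r ∈ Metric.ball (0:F) R := by
        rw [Metric.mem_ball, dist_zero_right]; linarith
      have hr2 : r ∈ Metric.ball (0:F) (R / 2) := by
        rw [Metric.mem_ball, dist_zero_right]; exact hr
      rw [Set.indicator_of_mem hr1, Set.indicator_of_mem hr2,
        ← ENNReal.ofReal_mul (by positivity), ← ENNReal.ofReal_mul (by positivity),
        ← ENNReal.ofReal_add (by positivity) (by have := qf_nonneg r; positivity)]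
      apply ENNReal.ofReal_le_ofReal
      have hA : (1 + θ) * χ r ^ 2 * formw w h r ≤ (1 + θ) * (‖c⁻¹‖ ^ 2 * formw w f r) := by
        rw [hformh, mul_assoc]
        have : χ r ^ 2 ≤ 1 := by
          have := hχ0 r
          have := hχ1 r
          nlinarith
        have h2 : 0 ≤ ‖c⁻¹‖ ^ 2 * formw w f r := by positivity
        have h3 : χ r ^ 2 * (‖c⁻¹‖ ^ 2 * formw w f r) ≤ 1 * (‖c⁻¹‖ ^ 2 * formw w f r) :=
          mul_le_mul_of_nonneg_right this h2
        rw [one_mul] at h3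
        gcongr
      have hB : (1 + θ⁻¹) * cw w * ‖fderiv ℝ χ r‖ ^ 2 * ‖h r‖ ^ 2 ≤
          (1 + θ⁻¹) * cw w * η * (‖h r‖ ^ 2 / (qf r + 1)) := by
        have := hχb r
        have hq := qf_nonneg r
        calc (1 + θ⁻¹) * cw w * ‖fderiv ℝ χ r‖ ^ 2 * ‖h r‖ ^ 2 ≤
            (1 + θ⁻¹) * cw w * (η / (1 + qf r)) * ‖h r‖ ^ 2 := by gcongr
          _ = _ := by rw [add_comm (qf r) 1]; ring
      have hC : v r * ‖1 - (χ r : ℂ) * h r‖ ^ 2 ≤ (1 + θ) * ‖c⁻¹‖ ^ 2 * (v r * ‖f r‖ ^ 2) := by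
        by_cases hvr : v r = 0
        · rw [hvr]; simp
        · rw [hvin r hvr]
          have e : (1 : ℂ) - ((1 : ℝ) : ℂ) * h r = c⁻¹ * f r := by
            rw [hh]; push_cast; ring
          rw [e, norm_mul, mul_pow]
          have : 0 ≤ θ * (v r * (‖c⁻¹‖ ^ 2 * ‖f r‖ ^ 2)) := by positivity
          linarith
      linarith
    · rw [not_lt] at hr
      have e1 : χ r = 0 := hχout r hr
      have e2 : fderiv ℝ χ r = 0 := hχd r hr
      have e3 : v r = 0 := hvout r hr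
      have e4 : formw w (fun x => (χ x : ℂ) * h x) r + v r * ‖1 - (χ r : ℂ) * h r‖ ^ 2 ≤ 0 := by
        rw [e1, e2] at hcut1
        simp only [norm_zero] at hcut1
        rw [e3]
        linarith
      rw [ENNReal.ofReal_of_nonpos e4]
      exact zero_le
  have hJm : Measurable (fun r => ENNReal.ofReal (formw w f r + v r * ‖f r‖ ^ 2)) := by
    apply Measurable.ennreal_ofReal
    exact (continuous_formw w hf1).measurable.add (hvm.mul (hf.continuous.norm.pow 2).measurable)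
  have hint := key.trans (lintegral_mono hptw)
  rw [lintegral_add_left ((hJm.const_mul _).indicator Metric.isOpen_ball.measurableSet),
    lintegral_indicator Metric.isOpen_ball.measurableSet,
    lintegral_indicator Metric.isOpen_ball.measurableSet,
    lintegral_const_mul' _ _ ENNReal.ofReal_ne_top, lintegral_const_mul' _ _ ENNReal.ofReal_ne_top] at hint
  obtain ⟨J, hJ⟩ : ∃ J, J = ∫⁻ r in Metric.ball (0:F) R, ENNReal.ofReal (formw w f r + v r * ‖f r‖ ^ 2) := ⟨_, rfl⟩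
  rw [← hJ] at hint ⊢
  have hHP' := hHP R hRpos h hhs1 havg
  have hDh : ∫⁻ x in Metric.ball 0 R, ‖fderiv ℝ h x‖ₑ ^ 2 ≤
      ENNReal.ofReal (c0⁻¹ * ‖c⁻¹‖ ^ 2) * J := by
    rw [hJ, ← lintegral_const_mul' _ _ ENNReal.ofReal_ne_top]
    apply lintegral_mono
    intro r
    simp only
    rw [enorm_sq_eq, ← ENNReal.ofReal_mul (by positivity)]
    apply ENNReal.ofReal_le_ofReal
    have h1 := hw (fderiv ℝ h r)
    have h2 : c0 * ‖fderiv ℝ h r‖ ^ 2 ≤ ‖c⁻¹‖ ^ 2 * formw w f r := by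
      rw [← hformh]; exact h1
    have h3 : ‖fderiv ℝ h r‖ ^ 2 ≤ c0⁻¹ * (‖c⁻¹‖ ^ 2 * formw w f r) := by
      rw [← mul_le_mul_iff_of_pos_left hc0]
      rw [← mul_assoc, mul_inv_cancel₀ hc0.ne', one_mul]
      exact h2
    have h4 : 0 ≤ c0⁻¹ * (‖c⁻¹‖ ^ 2 * (v r * ‖f r‖ ^ 2)) := by
      have := hv0 r
      positivity
    calc ‖fderiv ℝ h r‖ ^ 2 ≤ c0⁻¹ * (‖c⁻¹‖ ^ 2 * formw w f r) := h3
      _ ≤ _ := by nlinarith
  have hfinal : ENNReal.ofReal (bcap w v) ≤ ENNReal.ofReal ((1 + ε) * ‖c⁻¹‖ ^ 2) * J := by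
    calc ENNReal.ofReal (bcap w v) ≤ _ := hint
      _ ≤ ENNReal.ofReal ((1 + θ) * ‖c⁻¹‖ ^ 2) * J + ENNReal.ofReal ((1 + θ⁻¹) * cw w * η) *
          (ENNReal.ofReal CH * (ENNReal.ofReal (c0⁻¹ * ‖c⁻¹‖ ^ 2) * J)) := by
          gcongr
          exact hHP'.trans (by gcongr)
      _ = ENNReal.ofReal ((1 + θ) * ‖c⁻¹‖ ^ 2 + (1 + θ⁻¹) * cw w * η * (CH * (c0⁻¹ * ‖c⁻¹‖ ^ 2))) * J := by
          rw [← mul_assoc (ENNReal.ofReal CH), ← ENNReal.ofReal_mul (by positivity), ← mul_assoc,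
            ← ENNReal.ofReal_mul (by positivity), ← add_mul,
            ← ENNReal.ofReal_add (by positivity) (by positivity)]
      _ ≤ _ := by
          gcongr
          have h1 : (1 + θ⁻¹) * cw w * η * (CH * c0⁻¹) ≤ θ := by
            rw [hηdef]
            have h2 : (1 + θ⁻¹) * cw w * (θ * c0 / ((1 + θ⁻¹) * (cw w + 1) * CH)) * (CH * c0⁻¹) =
              θ * (cw w / (cw w + 1)) := by
              field_simp
            rw [h2]
            have h3 : cw w / (cw w + 1) ≤ 1 := by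
              rw [div_le_one (by linarith)]; linarith
            nlinarith
          have h2 : 0 ≤ ‖c⁻¹‖ ^ 2 := by positivity
          have h3 : (1 + θ⁻¹) * cw w * η * (CH * (c0⁻¹ * ‖c⁻¹‖ ^ 2)) ≤ θ * ‖c⁻¹‖ ^ 2 := by
            calc _ = (1 + θ⁻¹) * cw w * η * (CH * c0⁻¹) * ‖c⁻¹‖ ^ 2 := by ring
              _ ≤ _ := by gcongr
          rw [hθdef] at h3 ⊢
          linarith
  calc ENNReal.ofReal ((1 - ε) * bcap w v * ‖c‖ ^ 2)
      = ENNReal.ofReal ((1 - ε) * ‖c‖ ^ 2) * ENNReal.ofReal (bcap w v) := by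
        rw [← ENNReal.ofReal_mul (by have : 0 ≤ 1 - ε := by linarith
                                     positivity)]
        congr 1; ring
    _ ≤ ENNReal.ofReal ((1 - ε) * ‖c‖ ^ 2) * (ENNReal.ofReal ((1 + ε) * ‖c⁻¹‖ ^ 2) * J) := by gcongr
    _ = ENNReal.ofReal ((1 - ε) * (1 + ε)) * J := by
        rw [← mul_assoc, ← ENNReal.ofReal_mul (by have : 0 ≤ 1 - ε := by linarith
                                                  positivity)]
        congr 2
        rw [norm_inv]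
        field_simp
    _ ≤ 1 * J := by
        gcongr
        rw [← ENNReal.ofReal_one]
        apply ENNReal.ofReal_le_ofReal
        nlinarith
    _ = J := one_mul J

end Cap

end Pool.Agent.Helper23.Bose
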