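import Mathlib
import Pool.Agent.Helper23.Bose.Defs
import Pool.Agent.Helper23.Bose.Gen
import Pool.Agent.Helper23.Bose.Cap

set_option autoImplicit false
open MeasureTheory Module
open scoped Pointwise

namespace Pool.Agent.Helper23.Bose

section Avg

variable {E : Type*} [NormedAddCommGroup E] [NormedSpace ℝ E] [FiniteDimensional ℝ E]
  [MeasurableSpace E] [BorelSpace E] (μ : Measure E) [μ.IsAddHaarMeasure]

theorem enorm_avg_sq_le {K : Set E} (hKm : MeasurableSet K) (hKb : Bornology.IsBounded K)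
    (h0 : μ K ≠ 0) {g : E → ℂ} (hg : Continuous g) :
    ‖avg μ K g‖ₑ ^ 2 ≤ (μ K)⁻¹ * ∫⁻ x in K, ‖g x‖ₑ ^ 2 ∂μ := by
  have hfin : μ K < ⊤ := hKb.measure_lt_top
  have : IsFiniteMeasure (μ.restrict K) := ⟨by rwa [Measure.restrict_apply_univ]⟩
  obtain ⟨M, hM⟩ : ∃ M, ∀ x ∈ K, ‖g x‖ ≤ M := by
    have hcomp : IsCompact (closure K) := hKb.isCompact_closure
    obtain ⟨M, hM⟩ := hcomp.exists_bound_of_continuousOn hg.continuousOn
    exact ⟨M, fun x hx => hM x (subset_closure hx)⟩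
  have hgm : AEStronglyMeasurable g (μ.restrict K) := hg.aestronglyMeasurable
  have hint : Integrable g (μ.restrict K) := by
    refine Integrable.of_bound hgm M ?_
    rw [ae_restrict_iff' hKm]
    exact Filter.Eventually.of_forall hM
  have hi2 : Integrable (fun q => ‖g q‖ ^ 2) (μ.restrict K) := by
    refine Integrable.of_bound ((hgm.norm).pow 2) (M ^ 2) ?_
    rw [ae_restrict_iff' hKm]
    refine Filter.Eventually.of_forall (fun q hq => ?_)
    rw [Real.norm_eq_abs, abs_of_nonneg (by positivity)]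
    have := hM q hq
    gcongr
  have hK0 : 0 < (μ K).toReal := ENNReal.toReal_pos h0 hfin.ne
  have h1 := norm_integral_sq_le (μ.restrict K) hint hi2
  have hr : (μ.restrict K).real Set.univ = (μ K).toReal := by
    simp [Measure.real]
  rw [hr] at h1
  have h3 : ‖avg μ K g‖ ^ 2 ≤ (μ K).toReal⁻¹ * ∫ q in K, ‖g q‖ ^ 2 ∂μ := by
    unfold avg
    rw [norm_smul, mul_pow, Real.norm_eq_abs, abs_of_pos (inv_pos.mpr hK0)]
    calc (μ K).toReal⁻¹ ^ 2 * ‖∫ q in K, g q ∂μ‖ ^ 2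
        ≤ (μ K).toReal⁻¹ ^ 2 * ((μ K).toReal * ∫ q in K, ‖g q‖ ^ 2 ∂μ) := by gcongr
      _ = _ := by field_simp
  rw [enorm_sq_eq]
  calc ENNReal.ofReal (‖avg μ K g‖ ^ 2)
      ≤ ENNReal.ofReal ((μ K).toReal⁻¹ * ∫ q in K, ‖g q‖ ^ 2 ∂μ) := ENNReal.ofReal_le_ofReal h3
    _ = (μ K)⁻¹ * ∫⁻ q in K, ‖g q‖ₑ ^ 2 ∂μ := by
      rw [ENNReal.ofReal_mul (by positivity),
        ofReal_integral_eq_lintegral_ofReal hi2 (Filter.Eventually.of_forall fun q => by
          simp only [Pi.zero_apply]; positivity),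
        ENNReal.ofReal_inv_of_pos hK0, ENNReal.ofReal_toReal hfin.ne]
      simp only [enorm_sq_eq]

theorem smul_ball0 {s : ℝ} (hs : 0 < s) (R : ℝ) :
    s⁻¹ • Metric.ball (0 : E) (s * R) = Metric.ball (0 : E) R := by
  rw [smul_ball (inv_ne_zero hs.ne'), smul_zero, Real.norm_eq_abs, abs_of_pos (inv_pos.mpr hs)]
  congr 1
  field_simp

theorem avg_scale {s R : ℝ} (hs : 0 < s) (φ : E → ℂ) :
    avg μ (Metric.ball 0 (s * R)) (fun r => φ (s⁻¹ • r)) = avg μ (Metric.ball 0 R) φ := by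
  unfold avg
  rw [Measure.setIntegral_comp_smul_of_pos μ φ _ (inv_pos.mpr hs), smul_ball0 hs, ← smul_assoc]
  congr 1
  rw [smul_eq_mul]
  have h1 : μ (Metric.ball (0:E) (s * R)) = ENNReal.ofReal (s ^ finrank ℝ E) * μ (Metric.ball (0:E) R) := by
    have := Measure.addHaar_smul μ s (Metric.ball (0:E) R)
    rw [smul_ball hs.ne', smul_zero, Real.norm_eq_abs, abs_of_pos hs, abs_of_pos (by positivity)] at this
    exact this
  rw [h1, ENNReal.toReal_mul, ENNReal.toReal_ofReal (by positivity)]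
  rw [inv_pow, inv_inv, mul_inv]
  have : s ^ finrank ℝ E ≠ 0 := by positivity
  field_simp

theorem lintegral_ball_scale {s R : ℝ} (hs : 0 < s) (Φ : E → ENNReal) :
    ∫⁻ x in Metric.ball (0:E) (s * R), Φ x ∂μ =
      ENNReal.ofReal (s ^ finrank ℝ E) * ∫⁻ x in Metric.ball (0:E) R, Φ (s • x) ∂μ := by
  have h1 := lintegral_affine μ ((Metric.ball (0:E) (s * R)).indicator Φ) hs 0
  simp only [add_zero] at h1
  rw [lintegral_indicator Metric.isOpen_ball.measurableSet] at h1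
  have h2 : ∫⁻ x, (Metric.ball (0:E) (s * R)).indicator Φ (s • x) ∂μ =
      ∫⁻ x in Metric.ball (0:E) R, Φ (s • x) ∂μ := by
    rw [← lintegral_indicator Metric.isOpen_ball.measurableSet]
    congr 1
    ext x
    have hiff : s • x ∈ Metric.ball (0:E) (s * R) ↔ x ∈ Metric.ball (0:E) R := by
      simp only [Metric.mem_ball, dist_zero_right, norm_smul, Real.norm_eq_abs, abs_of_pos hs]
      exact mul_lt_mul_iff_right₀ hs
    by_cases hx : x ∈ Metric.ball (0:E) R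
    · rw [Set.indicator_of_mem hx, Set.indicator_of_mem (hiff.mpr hx)]
    · rw [Set.indicator_of_notMem hx, Set.indicator_of_notMem (fun h => hx (hiff.mp h))]
  rw [h2] at h1
  rw [h1, ← mul_assoc, ← ENNReal.ofReal_mul (by positivity), mul_inv_cancel₀ (by positivity)]
  simp

end Avg

section Local

variable {F ι : Type} [NormedAddCommGroup F] [NormedSpace ℝ F] [FiniteDimensional ℝ F]
    [MeasureSpace F] [BorelSpace F] [(volume : Measure F).IsAddHaarMeasure] [Fintype ι]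

/-- scaled capacity lemma -/
theorem cap_scaled (w : ι → F) (d : ℕ) (hd : finrank ℝ F = d) (hd3 : 3 ≤ d)
    {c0 : ℝ} (hc0 : 0 < c0) (hw : ∀ A : F →L[ℝ] ℂ, c0 * ‖A‖ ^ 2 ≤ ∑ a, ‖A (w a)‖ ^ 2)
    {v : F → ℝ} (hvm : Measurable v) (hv0 : ∀ r, 0 ≤ v r) (hvb : ∃ M, ∀ r, v r ≤ M)
    (hvs : HasCompactSupport v) {ε : ℝ} (hε : 0 < ε) (hε1 : ε < 1) :
    ∃ R0 : ℝ, 0 < R0 ∧ ∀ s R : ℝ, 0 < s → R0 ≤ s * R → ∀ φ : F → ℂ, ContDiff ℝ cinf φ →
      ENNReal.ofReal ((1 - ε) * bcap w v / s ^ (d - 2)) * ‖avg volume (Metric.ball 0 R) φ‖ₑ ^ 2 ≤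
        ∫⁻ r in Metric.ball 0 R, ENNReal.ofReal (formw w φ r + s ^ 2 * v (s • r) * ‖φ r‖ ^ 2) := by
  obtain ⟨R0, hR0, hcap⟩ := cap_lemma w (by omega) hc0 hw hvm hv0 hvb hvs hε hε1
  refine ⟨R0, hR0, fun s R hs hsR φ hφ => ?_⟩
  have hφ1 : ContDiff ℝ 1 φ := hφ.of_le (by simp [cinf])
  have hb := bcap_nonneg w hv0
  have hf : ContDiff ℝ cinf (fun r => φ (s⁻¹ • r)) := hφ.comp (contDiff_const.smul contDiff_id)
  have h1 := hcap (s * R) hsR (fun r => φ (s⁻¹ • r)) hf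
  rw [avg_scale volume hs, lintegral_ball_scale volume hs, hd] at h1
  have h2 : ∀ x, formw w (fun r => φ (s⁻¹ • r)) (s • x) = s⁻¹ ^ 2 * formw w φ x := by
    intro x
    unfold formw
    rw [Finset.mul_sum]
    refine Finset.sum_congr rfl fun a _ => ?_
    have e : HasFDerivAt (fun r => φ (s⁻¹ • r)) ((fderiv ℝ φ (s⁻¹ • (s • x))).comp
        (s⁻¹ • ContinuousLinearMap.id ℝ F)) (s • x) := by
      have a1 : HasFDerivAt φ (fderiv ℝ φ (s⁻¹ • (s • x))) (s⁻¹ • (s • x)) :=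
        ((hφ1.differentiable (by norm_num)) _).hasFDerivAt
      have a2 : HasFDerivAt (fun r : F => s⁻¹ • r) (s⁻¹ • ContinuousLinearMap.id ℝ F) (s • x) :=
        (hasFDerivAt_id _).const_smul s⁻¹
      exact a1.comp (s • x) a2
    rw [e.fderiv, smul_smul, inv_mul_cancel₀ hs.ne', one_smul]
    simp [mul_pow]
  have h3 : ∀ x, ENNReal.ofReal (formw w (fun r => φ (s⁻¹ • r)) (s • x) +
      v (s • x) * ‖φ (s⁻¹ • s • x)‖ ^ 2) =
      ENNReal.ofReal (s⁻¹ ^ 2) * ENNReal.ofReal (formw w φ x + s ^ 2 * v (s • x) * ‖φ x‖ ^ 2) := by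
    intro x
    rw [h2, smul_smul, inv_mul_cancel₀ hs.ne', one_smul, ← ENNReal.ofReal_mul (by positivity)]
    congr 1
    field_simp
  simp_rw [h3] at h1
  rw [lintegral_const_mul' _ _ ENNReal.ofReal_ne_top, ← mul_assoc, ← ENNReal.ofReal_mul (by positivity)] at h1
  have h4 : s ^ d * s⁻¹ ^ 2 = s ^ (d - 2) := by
    have : s ^ d = s ^ (d - 2) * s ^ 2 := by rw [← pow_add]; congr 1; omega
    rw [this]; field_simp
  rw [h4] at h1
  obtain ⟨J, hJ⟩ : ∃ J, J = ∫⁻ r in Metric.ball (0:F) R, ENNReal.ofReal (formw w φ r +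
    s ^ 2 * v (s • r) * ‖φ r‖ ^ 2) := ⟨_, rfl⟩
  rw [← hJ] at h1 ⊢
  rw [enorm_sq_eq, ← ENNReal.ofReal_mul (by
    have : 0 ≤ 1 - ε := by linarith
    positivity)]
  have hsp : 0 < s ^ (d - 2) := by positivity
  have h5 : (1 - ε) * bcap w v / s ^ (d - 2) * ‖avg volume (Metric.ball (0:F) R) φ‖ ^ 2 =
      (s ^ (d - 2))⁻¹ * ((1 - ε) * bcap w v * ‖avg volume (Metric.ball (0:F) R) φ‖ ^ 2) := by
    field_simp
  rw [h5, ENNReal.ofReal_mul (by positivity)]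
  calc ENNReal.ofReal (s ^ (d - 2))⁻¹ * ENNReal.ofReal ((1 - ε) * bcap w v *
        ‖avg volume (Metric.ball (0:F) R) φ‖ ^ 2)
      ≤ ENNReal.ofReal (s ^ (d - 2))⁻¹ * (ENNReal.ofReal (s ^ (d - 2)) * J) := by gcongr
    _ = J := by
      rw [← mul_assoc, ← ENNReal.ofReal_mul (by positivity), inv_mul_cancel₀ hsp.ne']
      simp

theorem young_split {a b : ℂ} {ε : ℝ} (hε : 0 < ε) (hε1 : ε < 1) :
    (1 - ε) * ‖a + b‖ ^ 2 ≤ ‖a‖ ^ 2 + ε⁻¹ * ‖b‖ ^ 2 := by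
  have h1 : ‖a + b‖ ≤ ‖a‖ + ‖b‖ := norm_add_le _ _
  have h2 : ‖a + b‖ ^ 2 ≤ (‖a‖ + ‖b‖) ^ 2 := by gcongr
  have h3 : (1 - ε) * (‖a‖ + ‖b‖) ^ 2 ≤ ‖a‖ ^ 2 + ε⁻¹ * ‖b‖ ^ 2 := by
    have h4 : ε * (‖a‖ ^ 2 + ε⁻¹ * ‖b‖ ^ 2 - (1 - ε) * (‖a‖ + ‖b‖) ^ 2) =
        (ε * ‖a‖ - (1 - ε) * ‖b‖) ^ 2 + ε * ‖b‖ ^ 2 := by
      field_simp
      ring
    have h5 : 0 ≤ ε * (‖a‖ ^ 2 + ε⁻¹ * ‖b‖ ^ 2 - (1 - ε) * (‖a‖ + ‖b‖) ^ 2) := by
      rw [h4]; positivity
    have := nonneg_of_mul_nonneg_right h5 hε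
    linarith
  calc (1 - ε) * ‖a + b‖ ^ 2 ≤ (1 - ε) * (‖a‖ + ‖b‖) ^ 2 := by
        have : 0 ≤ 1 - ε := by linarith
        gcongr
    _ ≤ _ := h3

theorem young_split_enorm {a b : ℂ} {ε : ℝ} (hε : 0 < ε) (hε1 : ε < 1) :
    ENNReal.ofReal (1 - ε) * ‖a + b‖ₑ ^ 2 ≤ ‖a‖ₑ ^ 2 + ENNReal.ofReal ε⁻¹ * ‖b‖ₑ ^ 2 := by
  rw [enorm_sq_eq, enorm_sq_eq, enorm_sq_eq, ← ENNReal.ofReal_mul (by linarith),
    ← ENNReal.ofReal_mul (by positivity), ← ENNReal.ofReal_add (by positivity) (by positivity)]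
  exact ENNReal.ofReal_le_ofReal (young_split hε hε1)

/-- The generic local lemma (pair: `F = E3`, triple: `F = E3 × E3`). -/
theorem local_lemma (w : ι → F) (d : ℕ) (hd : finrank ℝ F = d) (hd3 : 3 ≤ d)
    {c0 : ℝ} (hc0 : 0 < c0) (hw : ∀ A : F →L[ℝ] ℂ, c0 * ‖A‖ ^ 2 ≤ ∑ a, ‖A (w a)‖ ^ 2)
    {v : F → ℝ} (hvm : Measurable v) (hv0 : ∀ r, 0 ≤ v r) (hvb : ∃ M, ∀ r, v r ≤ M)
    (hvs : HasCompactSupport v)
    {ε : ℝ} (hε : 0 < ε) (hε1 : ε < 1) (D : ℝ) :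
    ∃ R0 C : ℝ, 0 < R0 ∧ 0 < C ∧ ∀ s R l : ℝ, 0 < s → 0 < R → R0 ≤ s * R → 2 * R ≤ ε * l →
      ∀ (K : Set (E3 × F)) (G : Set E3), Convex ℝ K → MeasurableSet K →
        (∀ p ∈ K, ∀ q ∈ K, ‖p - q‖ ≤ D * l) → MeasurableSet G →
        G ×ˢ Metric.ball (0 : F) (ε * l) ⊆ K →
        ∀ g : E3 × F → ℂ, ContDiff ℝ cinf g →
          ENNReal.ofReal ((1 - ε) ^ 3 * bcap w v / s ^ (d - 2)) * (volume G / volume K)
              * ∫⁻ p in K, ‖g p‖ₑ ^ 2
            ≤ (∫⁻ X in G, ∫⁻ r in Metric.ball (0 : F) R,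
                  ENNReal.ofReal (formw w (fun r' => g (X, r')) r
                    + s ^ 2 * v (s • r) * ‖g (X, r)‖ ^ 2))
              + ENNReal.ofReal (C / (s * R) ^ (d - 2)) * ∫⁻ p in K, ‖fderiv ℝ g p‖ₑ ^ 2 := by
  obtain ⟨R0, hR0, hcap⟩ := cap_scaled w d hd hd3 hc0 hw hvm hv0 hvb hvs hε hε1
  obtain ⟨CB, hCB, hHB⟩ := hardy_ball' (volume : Measure F) (by omega : 3 ≤ finrank ℝ F)
  obtain ⟨b, hbdef⟩ : ∃ b, b = bcap w v := ⟨_, rfl⟩
  have hb : 0 ≤ b := hbdef ▸ bcap_nonneg w hv0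
  obtain ⟨κ, hκdef⟩ : ∃ κ, κ = (volume (Metric.ball (0:F) 1)).toReal := ⟨_, rfl⟩
  have hκ : 0 < κ := by
    rw [hκdef]
    exact ENNReal.toReal_pos (Metric.measure_ball_pos volume 0 one_pos).ne' measure_ball_lt_top.ne
  obtain ⟨CP, hCPdef⟩ : ∃ CP : ℝ, CP = 2 ^ finrank ℝ (E3 × F) := ⟨_, rfl⟩
  have hCP : 0 < CP := by rw [hCPdef]; positivity
  refine ⟨R0, b * ε⁻¹ * κ⁻¹ * (CB * (1 + (ε ^ 2)⁻¹ * (CP * D ^ 2))) +
    b * ε⁻¹ * κ⁻¹ * (ε ^ d)⁻¹ * (CP * D ^ 2) + 1, hR0, by positivity, ?_⟩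
  intro s R l hs hR hsR hRl K G hK hKm hKD hG hGK g hg
  have hl : 0 < l := by
    by_contra h
    rw [not_lt] at h
    nlinarith
  have hRl' : R ≤ l := by nlinarith
  have hg1 : ContDiff ℝ 1 g := hg.of_le (by simp [cinf])
  -- boundedness of K
  have hKb : Bornology.IsBounded K := by
    by_cases hne : K.Nonempty
    · obtain ⟨p0, hp0⟩ := hne
      refine (Metric.isBounded_iff_subset_closedBall p0).mpr ⟨D * l, fun p hp => ?_⟩
      rw [Metric.mem_closedBall, dist_eq_norm]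
      exact hKD p hp p0 hp0
    · rw [Set.not_nonempty_iff_eq_empty] at hne
      rw [hne]; exact Bornology.isBounded_empty
  have hKfin : volume K ≠ ⊤ := hKb.measure_lt_top.ne
  by_cases hK0 : volume K = 0
  · have : ∫⁻ p in K, ‖g p‖ₑ ^ 2 = 0 := by
      rw [Measure.restrict_eq_zero.mpr hK0]; simp
    rw [this]; simp
  obtain ⟨m, hm⟩ : ∃ m, m = avg volume K g := ⟨_, rfl⟩
  obtain ⟨A, hA⟩ : ∃ A, A = ∫⁻ p in K, ‖fderiv ℝ g p‖ₑ ^ 2 := ⟨_, rfl⟩
  -- the Haar instance on the product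
  have hPoin : ∫⁻ p in K, ‖g p - m‖ₑ ^ 2 ≤ ENNReal.ofReal (CP * (D * l) ^ 2) * A := by
    rw [hm, hA, hCPdef]
    have hinst : (volume : Measure (E3 × F)).IsAddHaarMeasure :=
      inferInstanceAs ((volume : Measure E3).prod (volume : Measure F)).IsAddHaarMeasure
    exact poincare (volume : Measure (E3 × F)) hK hKm hKb hKD hg1
  -- ball measures
  have hball : ∀ t : ℝ, 0 < t → volume (Metric.ball (0:F) t) = ENNReal.ofReal (t ^ d * κ) := by
    intro t ht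
    rw [Measure.addHaar_ball_of_pos _ _ ht, hd, ENNReal.ofReal_mul (by positivity), hκdef,
      ENNReal.ofReal_toReal measure_ball_lt_top.ne]
  -- volume ratio
  have hratio : volume G / volume K ≤ ENNReal.ofReal (((ε * l) ^ d * κ)⁻¹) := by
    have h1 : volume G * ENNReal.ofReal ((ε * l) ^ d * κ) ≤ volume K := by
      rw [← hball (ε * l) (by positivity)]
      have h2 : volume (G ×ˢ Metric.ball (0:F) (ε * l)) = volume G * volume (Metric.ball (0:F) (ε * l)) :=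
        Measure.prod_prod _ _
      rw [← h2]
      exact measure_mono hGK
    rw [ENNReal.ofReal_inv_of_pos (by positivity)]
    rw [ENNReal.div_le_iff hK0 hKfin]
    calc volume G = (ENNReal.ofReal ((ε * l) ^ d * κ))⁻¹ * (volume G * ENNReal.ofReal ((ε * l) ^ d * κ)) := by
          rw [mul_comm (volume G), ← mul_assoc, ENNReal.inv_mul_cancel, one_mul]
          · simp only [ne_eq, ENNReal.ofReal_eq_zero, not_le]; positivity
          · exact ENNReal.ofReal_ne_top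
      _ ≤ _ := by gcongr
  -- Hardy part
  have hTon : ∀ Φ : E3 × F → ENNReal, Measurable Φ →
      ∫⁻ X in G, ∫⁻ r in Metric.ball (0:F) (ε * l), Φ (X, r) ≤ ∫⁻ p in K, Φ p := by
    intro Φ hΦ
    have h1 : ∫⁻ p in G ×ˢ Metric.ball (0:F) (ε * l), Φ p =
        ∫⁻ X in G, ∫⁻ r in Metric.ball (0:F) (ε * l), Φ (X, r) := by
      have e : (volume : Measure (E3 × F)) = (volume : Measure E3).prod volume := rfl
      rw [e, ← Measure.prod_restrict, lintegral_prod _ hΦ.aemeasurable]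
    rw [← h1]
    exact lintegral_mono_set hGK
  have hslice : ∀ X : E3, ContDiff ℝ 1 (fun r : F => g (X, r) - m) := fun X =>
    (hg1.comp (contDiff_const.prodMk contDiff_id)).sub contDiff_const
  have hslice' : ∀ X : E3, ContDiff ℝ cinf (fun r : F => g (X, r)) := fun X =>
    hg.comp (contDiff_const.prodMk contDiff_id)
  have hsd : ∀ (X : E3) (r : F), ‖fderiv ℝ (fun r : F => g (X, r) - m) r‖ₑ ^ 2 ≤ ‖fderiv ℝ g (X, r)‖ₑ ^ 2 := by
    intro X r
    have h1 : HasFDerivAt (fun r : F => g (X, r) - m)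
        ((fderiv ℝ g (X, r)).comp (ContinuousLinearMap.inr ℝ E3 F)) r := by
      have a1 : HasFDerivAt g (fderiv ℝ g (X, r)) (X, r) :=
        ((hg1.differentiable (by norm_num)) _).hasFDerivAt
      have a2 : HasFDerivAt (fun r : F => ((X, r) : E3 × F)) (ContinuousLinearMap.inr ℝ E3 F) r :=
        hasFDerivAt_prodMk_right X r
      exact (a1.comp r a2).sub_const m
    rw [h1.fderiv, enorm_sq_eq, enorm_sq_eq]
    apply ENNReal.ofReal_le_ofReal
    have h2 : ‖(fderiv ℝ g (X, r)).comp (ContinuousLinearMap.inr ℝ E3 F)‖ ≤ ‖fderiv ℝ g (X, r)‖ := by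
      refine (ContinuousLinearMap.opNorm_comp_le _ _).trans ?_
      have : ‖ContinuousLinearMap.inr ℝ E3 F‖ ≤ 1 := ContinuousLinearMap.norm_inr_le_one ℝ E3 F
      exact mul_le_of_le_one_right (norm_nonneg _) this
    gcongr
  have hHardy : ∫⁻ X in G, ∫⁻ r in Metric.ball (0:F) R, ‖g (X, r) - m‖ₑ ^ 2 ≤
      ENNReal.ofReal (CB * R ^ 2 * (1 + (ε ^ 2)⁻¹ * (CP * D ^ 2))) * A := by
    have h1 : ∀ X : E3, ∫⁻ r in Metric.ball (0:F) R, ‖g (X, r) - m‖ₑ ^ 2 ≤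
        ENNReal.ofReal (CB * R ^ 2) * ((∫⁻ r in Metric.ball (0:F) (ε * l), ‖fderiv ℝ g (X, r)‖ₑ ^ 2)
          + ENNReal.ofReal (((ε * l) ^ 2)⁻¹) * ∫⁻ r in Metric.ball (0:F) (ε * l), ‖g (X, r) - m‖ₑ ^ 2) := by
      intro X
      refine (hHB 0 R (ε * l) hR hRl _ (hslice X)).trans ?_
      gcongr ENNReal.ofReal (CB * R ^ 2) * (?_ + _)
      exact lintegral_mono (hsd X)
    have hm1 : Measurable (fun p : E3 × F => ‖fderiv ℝ g p‖ₑ ^ 2) :=
      ((hg1.continuous_fderiv (by norm_num)).enorm.measurable.pow_const 2)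
    have hm2 : Measurable (fun p : E3 × F => ‖g p - m‖ₑ ^ 2) :=
      ((hg1.continuous.sub continuous_const).enorm.measurable.pow_const 2)
    calc ∫⁻ X in G, ∫⁻ r in Metric.ball (0:F) R, ‖g (X, r) - m‖ₑ ^ 2
        ≤ ∫⁻ X in G, ENNReal.ofReal (CB * R ^ 2) * ((∫⁻ r in Metric.ball (0:F) (ε * l), ‖fderiv ℝ g (X, r)‖ₑ ^ 2)
          + ENNReal.ofReal (((ε * l) ^ 2)⁻¹) * ∫⁻ r in Metric.ball (0:F) (ε * l), ‖g (X, r) - m‖ₑ ^ 2) :=
          lintegral_mono h1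
      _ = ENNReal.ofReal (CB * R ^ 2) * ((∫⁻ X in G, ∫⁻ r in Metric.ball (0:F) (ε * l), ‖fderiv ℝ g (X, r)‖ₑ ^ 2)
          + ENNReal.ofReal (((ε * l) ^ 2)⁻¹) * ∫⁻ X in G, ∫⁻ r in Metric.ball (0:F) (ε * l), ‖g (X, r) - m‖ₑ ^ 2) := by
          rw [lintegral_const_mul' _ _ ENNReal.ofReal_ne_top, lintegral_add_left,
            lintegral_const_mul' _ _ ENNReal.ofReal_ne_top]
          exact hm1.lintegral_prod_right'
      _ ≤ ENNReal.ofReal (CB * R ^ 2) * (A + ENNReal.ofReal (((ε * l) ^ 2)⁻¹) *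
          (ENNReal.ofReal (CP * (D * l) ^ 2) * A)) := by
          gcongr
          · rw [hA]; exact hTon _ hm1
          · exact (hTon _ hm2).trans hPoin
      _ = _ := by
          rw [← mul_assoc (ENNReal.ofReal (((ε * l) ^ 2)⁻¹)), ← ENNReal.ofReal_mul (by positivity)]
          have e1 : A + ENNReal.ofReal (((ε * l) ^ 2)⁻¹ * (CP * (D * l) ^ 2)) * A =
              ENNReal.ofReal (1 + ((ε * l) ^ 2)⁻¹ * (CP * (D * l) ^ 2)) * A := by
            rw [ENNReal.ofReal_add (by norm_num) (by positivity), add_mul]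
            simp
          rw [e1, ← mul_assoc, ← ENNReal.ofReal_mul (by positivity)]
          congr 3
          field_simp
  -- Step A & B
  obtain ⟨I, hI⟩ : ∃ I : E3 → ENNReal, I = fun X => ∫⁻ r in Metric.ball (0 : F) R,
      ENNReal.ofReal (formw w (fun r' => g (X, r')) r + s ^ 2 * v (s • r) * ‖g (X, r)‖ ^ 2) := ⟨_, rfl⟩
  have hAB : ∀ X : E3, ENNReal.ofReal ((1 - ε) ^ 2 * b / s ^ (d - 2)) * ‖m‖ₑ ^ 2 ≤
      I X + ENNReal.ofReal (b * ε⁻¹ / s ^ (d - 2) * (R ^ d * κ)⁻¹) *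
        ∫⁻ r in Metric.ball (0:F) R, ‖g (X, r) - m‖ₑ ^ 2 := by
    intro X
    have h1 := hcap s R hs hsR (fun r => g (X, r)) (hslice' X)
    rw [← hbdef] at h1
    have hballne : volume (Metric.ball (0:F) R) ≠ 0 := (Metric.measure_ball_pos volume 0 hR).ne'
    have havg : avg volume (Metric.ball (0:F) R) (fun r => g (X, r)) +
        (- avg volume (Metric.ball (0:F) R) (fun r => g (X, r) - m)) = m := by
      have hfinb : IsFiniteMeasure (volume.restrict (Metric.ball (0:F) R)) :=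
        ⟨by rw [Measure.restrict_apply_univ]; exact measure_ball_lt_top⟩
      have hgi : Integrable (fun r => g (X, r)) (volume.restrict (Metric.ball (0:F) R)) := by
        have : IntegrableOn (fun r => g (X, r)) (Metric.closedBall (0:F) R) volume :=
          (hslice' X).continuous.continuousOn.integrableOn_compact (isCompact_closedBall 0 R)
        exact this.mono_set Metric.ball_subset_closedBall
      unfold avg
      rw [integral_sub hgi (integrable_const _), integral_const, smul_sub]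
      have hpos : 0 < (volume (Metric.ball (0:F) R)).toReal :=
        ENNReal.toReal_pos hballne measure_ball_lt_top.ne
      simp only [Measure.real, Measure.restrict_apply_univ]
      rw [← smul_assoc, smul_eq_mul, inv_mul_cancel₀ hpos.ne', one_smul]
      ring
    have h2 := young_split_enorm (a := avg volume (Metric.ball (0:F) R) (fun r => g (X, r)))
      (b := - avg volume (Metric.ball (0:F) R) (fun r => g (X, r) - m)) hε hε1
    rw [havg, enorm_neg] at h2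
    have h3 := enorm_avg_sq_le (volume : Measure F) (K := Metric.ball (0:F) R)
      Metric.isOpen_ball.measurableSet Metric.isBounded_ball hballne (hslice X).continuous
    rw [hball R hR] at h3
    have hsp : 0 < s ^ (d - 2) := by positivity
    have h1ε : 0 ≤ 1 - ε := by linarith
    calc ENNReal.ofReal ((1 - ε) ^ 2 * b / s ^ (d - 2)) * ‖m‖ₑ ^ 2
        = ENNReal.ofReal ((1 - ε) * b / s ^ (d - 2)) * (ENNReal.ofReal (1 - ε) * ‖m‖ₑ ^ 2) := by
          rw [← mul_assoc, ← ENNReal.ofReal_mul (by positivity)]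
          congr 2; ring
      _ ≤ ENNReal.ofReal ((1 - ε) * b / s ^ (d - 2)) *
          (‖avg volume (Metric.ball (0:F) R) (fun r => g (X, r))‖ₑ ^ 2 + ENNReal.ofReal ε⁻¹ *
            ((ENNReal.ofReal (R ^ d * κ))⁻¹ * ∫⁻ r in Metric.ball (0:F) R, ‖g (X, r) - m‖ₑ ^ 2)) := by
          gcongr
          exact h2.trans (by gcongr)
      _ ≤ I X + ENNReal.ofReal ((1 - ε) * b / s ^ (d - 2)) * (ENNReal.ofReal ε⁻¹ *
            ((ENNReal.ofReal (R ^ d * κ))⁻¹ * ∫⁻ r in Metric.ball (0:F) R, ‖g (X, r) - m‖ₑ ^ 2)) := by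
          rw [mul_add, hI]
          gcongr
      _ ≤ _ := by
          refine add_le_add le_rfl ?_
          rw [← ENNReal.ofReal_inv_of_pos (by positivity), ← mul_assoc, ← mul_assoc,
            ← ENNReal.ofReal_mul (by positivity), ← ENNReal.ofReal_mul (by positivity)]
          gcongr
          have : (1 - ε) * b ≤ b := by nlinarith
          calc (1 - ε) * b / s ^ (d - 2) * ε⁻¹ ≤ b / s ^ (d - 2) * ε⁻¹ := by gcongr
            _ = b * ε⁻¹ / s ^ (d - 2) := by ring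
  -- integrate over G
  have hC : ENNReal.ofReal ((1 - ε) ^ 2 * b / s ^ (d - 2)) * ‖m‖ₑ ^ 2 * volume G ≤
      (∫⁻ X in G, I X) + ENNReal.ofReal (b * ε⁻¹ / s ^ (d - 2) * (R ^ d * κ)⁻¹) *
        (ENNReal.ofReal (CB * R ^ 2 * (1 + (ε ^ 2)⁻¹ * (CP * D ^ 2))) * A) := by
    calc ENNReal.ofReal ((1 - ε) ^ 2 * b / s ^ (d - 2)) * ‖m‖ₑ ^ 2 * volume G
        = ∫⁻ X in G, ENNReal.ofReal ((1 - ε) ^ 2 * b / s ^ (d - 2)) * ‖m‖ₑ ^ 2 := by
          rw [setLIntegral_const]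
      _ ≤ ∫⁻ X in G, (I X + ENNReal.ofReal (b * ε⁻¹ / s ^ (d - 2) * (R ^ d * κ)⁻¹) *
        ∫⁻ r in Metric.ball (0:F) R, ‖g (X, r) - m‖ₑ ^ 2) := lintegral_mono hAB
      _ = (∫⁻ X in G, I X) + ∫⁻ X in G, ENNReal.ofReal (b * ε⁻¹ / s ^ (d - 2) * (R ^ d * κ)⁻¹) *
        ∫⁻ r in Metric.ball (0:F) R, ‖g (X, r) - m‖ₑ ^ 2 := by
          apply lintegral_add_right
          apply Measurable.const_mul
          have hm2 : Measurable (fun p : E3 × F => ‖g p - m‖ₑ ^ 2) :=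
            ((hg1.continuous.sub continuous_const).enorm.measurable.pow_const 2)
          exact hm2.lintegral_prod_right'
      _ ≤ _ := by
          rw [lintegral_const_mul' _ _ ENNReal.ofReal_ne_top]
          gcongr
  -- Step D
  have hD : ENNReal.ofReal (1 - ε) * ∫⁻ p in K, ‖g p‖ₑ ^ 2 ≤
      ‖m‖ₑ ^ 2 * volume K + ENNReal.ofReal ε⁻¹ * (ENNReal.ofReal (CP * (D * l) ^ 2) * A) := by
    calc ENNReal.ofReal (1 - ε) * ∫⁻ p in K, ‖g p‖ₑ ^ 2
        = ∫⁻ p in K, ENNReal.ofReal (1 - ε) * ‖g p‖ₑ ^ 2 := by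
          rw [lintegral_const_mul' _ _ ENNReal.ofReal_ne_top]
      _ ≤ ∫⁻ p in K, (‖m‖ₑ ^ 2 + ENNReal.ofReal ε⁻¹ * ‖g p - m‖ₑ ^ 2) := by
          apply lintegral_mono
          intro p
          have := young_split_enorm (a := m) (b := g p - m) hε hε1
          simpa using this
      _ = ‖m‖ₑ ^ 2 * volume K + ENNReal.ofReal ε⁻¹ * ∫⁻ p in K, ‖g p - m‖ₑ ^ 2 := by
          rw [lintegral_add_left measurable_const, setLIntegral_const,
            lintegral_const_mul' _ _ ENNReal.ofReal_ne_top]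
      _ ≤ _ := by gcongr
  have h1ε : 0 ≤ 1 - ε := by linarith
  have hsp : 0 < s ^ (d - 2) := by positivity
  rw [← hbdef, ← hA]
  calc ENNReal.ofReal ((1 - ε) ^ 3 * b / s ^ (d - 2)) * (volume G / volume K) * ∫⁻ p in K, ‖g p‖ₑ ^ 2
      = ENNReal.ofReal ((1 - ε) ^ 2 * b / s ^ (d - 2)) * (volume G / volume K) *
          (ENNReal.ofReal (1 - ε) * ∫⁻ p in K, ‖g p‖ₑ ^ 2) := by
        have : (1 - ε) ^ 3 * b / s ^ (d - 2) = (1 - ε) ^ 2 * b / s ^ (d - 2) * (1 - ε) := by ring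
        rw [this, ENNReal.ofReal_mul (by positivity)]
        ring
    _ ≤ ENNReal.ofReal ((1 - ε) ^ 2 * b / s ^ (d - 2)) * (volume G / volume K) *
          (‖m‖ₑ ^ 2 * volume K + ENNReal.ofReal ε⁻¹ * (ENNReal.ofReal (CP * (D * l) ^ 2) * A)) := by
        gcongr
    _ = ENNReal.ofReal ((1 - ε) ^ 2 * b / s ^ (d - 2)) * ‖m‖ₑ ^ 2 * volume G +
        (volume G / volume K) * (ENNReal.ofReal ((1 - ε) ^ 2 * b / s ^ (d - 2)) *
          (ENNReal.ofReal ε⁻¹ * (ENNReal.ofReal (CP * (D * l) ^ 2) * A))) := by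
        rw [mul_add]
        congr 1
        · have : volume G / volume K * volume K = volume G := ENNReal.div_mul_cancel hK0 hKfin
          calc _ = ENNReal.ofReal ((1 - ε) ^ 2 * b / s ^ (d - 2)) * ‖m‖ₑ ^ 2 *
                (volume G / volume K * volume K) := by ring
            _ = _ := by rw [this]
        · ring
    _ ≤ ((∫⁻ X in G, I X) + ENNReal.ofReal (b * ε⁻¹ / s ^ (d - 2) * (R ^ d * κ)⁻¹) *
        (ENNReal.ofReal (CB * R ^ 2 * (1 + (ε ^ 2)⁻¹ * (CP * D ^ 2))) * A)) +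
        ENNReal.ofReal (((ε * l) ^ d * κ)⁻¹) * (ENNReal.ofReal (b / s ^ (d - 2)) *
          (ENNReal.ofReal ε⁻¹ * (ENNReal.ofReal (CP * (D * l) ^ 2) * A))) := by
        gcongr
        have : (1 - ε) ^ 2 ≤ 1 := by nlinarith
        nlinarith
    _ = (∫⁻ X in G, I X) + ENNReal.ofReal (b * ε⁻¹ / s ^ (d - 2) * (R ^ d * κ)⁻¹ *
          (CB * R ^ 2 * (1 + (ε ^ 2)⁻¹ * (CP * D ^ 2))) +
          ((ε * l) ^ d * κ)⁻¹ * (b / s ^ (d - 2) * (ε⁻¹ * (CP * (D * l) ^ 2)))) * A := by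
        rw [← mul_assoc, ← ENNReal.ofReal_mul (by positivity), ← mul_assoc (ENNReal.ofReal ε⁻¹),
          ← ENNReal.ofReal_mul (by positivity), ← mul_assoc (ENNReal.ofReal (b / s ^ (d - 2))),
          ← ENNReal.ofReal_mul (by positivity), ← mul_assoc (ENNReal.ofReal (((ε * l) ^ d * κ)⁻¹)),
          ← ENNReal.ofReal_mul (by positivity), ENNReal.ofReal_add (by positivity) (by positivity),
          add_mul, add_assoc]
    _ ≤ _ := by
        rw [hI]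
        refine add_le_add le_rfl (mul_le_mul' (ENNReal.ofReal_le_ofReal ?_) le_rfl)
        have hd2 : d = (d - 2) + 2 := by omega
        have e1 : b * ε⁻¹ / s ^ (d - 2) * (R ^ d * κ)⁻¹ * (CB * R ^ 2 * (1 + (ε ^ 2)⁻¹ * (CP * D ^ 2))) =
            b * ε⁻¹ * κ⁻¹ * (CB * (1 + (ε ^ 2)⁻¹ * (CP * D ^ 2))) / (s * R) ^ (d - 2) := by
          have : R ^ d = R ^ (d - 2) * R ^ 2 := by rw [← pow_add]; congr 1
          rw [this, mul_pow]
          field_simp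
        have e2 : ((ε * l) ^ d * κ)⁻¹ * (b / s ^ (d - 2) * (ε⁻¹ * (CP * (D * l) ^ 2))) =
            b * ε⁻¹ * κ⁻¹ * (ε ^ d)⁻¹ * (CP * D ^ 2) / (s * l) ^ (d - 2) := by
          have : l ^ d = l ^ (d - 2) * l ^ 2 := by rw [← pow_add]; congr 1
          rw [mul_pow ε l, this, mul_pow s l]
          field_simp
        rw [e1, e2]
        have e3 : b * ε⁻¹ * κ⁻¹ * (ε ^ d)⁻¹ * (CP * D ^ 2) / (s * l) ^ (d - 2) ≤
            b * ε⁻¹ * κ⁻¹ * (ε ^ d)⁻¹ * (CP * D ^ 2) / (s * R) ^ (d - 2) := by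
          gcongr
        have e4 : 0 ≤ 1 / (s * R) ^ (d - 2) := by positivity
        rw [add_div, add_div]
        linarith

end Local

end Pool.Agent.Helper23.Bose
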