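import Mathlib
import Pool.Agent.Helper23.Bose.Defs
import Pool.Agent.Helper23.Bose.Gen
import Pool.Agent.Helper23.Bose.Boxes
import Pool.Agent.Helper23.Bose.Local

set_option autoImplicit false
open MeasureTheory Module

namespace Pool.Agent.Helper23.Bose

/-- the configuration with the coordinates in `S` replaced by `a t p` -/
def Amap {N : ℕ} {F : Type} [NormedAddCommGroup F] [NormedSpace ℝ F] (S : Finset (Fin N))
    (a : Fin N → (E3 × F →L[ℝ] E3)) (x : Fin N → E3) (p : E3 × F) : Fin N → E3 :=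
  fun t => if t ∈ S then a t p else x t

/-- data of a chart for a cluster `S` -/
structure Chart {N : ℕ} {F ι : Type} [NormedAddCommGroup F] [NormedSpace ℝ F]
    [MeasureSpace F] [Fintype ι] (S : Finset (Fin N)) (a : Fin N → (E3 × F →L[ℝ] E3))
    (w : ι → F) (V : F → ℝ) (s : ℝ) (d : ℕ) (pot : (Fin N → E3) → ℝ) : Prop where
  card_le : S.card ≤ 3
  card_eq : 3 * S.card = 3 + d
  bound : ∀ t ∈ S, ∀ p, ‖a t p‖ ≤ 2 * ‖p‖
  inv : ∀ p c, (∀ t ∈ S, ‖a t p‖ ≤ c) → ‖p‖ ≤ 2 * c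
  dist : ∀ p : E3 × F, ∀ t ∈ S, ∀ t' ∈ S, ‖a t p - a t' p‖ ≤ 2 * ‖p.2‖
  center : ∀ p : E3 × F, (S.card : ℝ)⁻¹ • ∑ t ∈ S, a t p = p.1
  center_dist : ∀ p : E3 × F, ∀ t ∈ S, ‖a t p - p.1‖ ≤ ‖p.2‖
  form : ∀ B : (Fin N → E3) →L[ℝ] ℂ,
    ∑ c, ‖B (fun t => if t ∈ S then a t (0, w c) else 0)‖ ^ 2 ≤
      ∑ t ∈ S, ∑ k : Fin 3, ‖B (Pi.single t (ek k))‖ ^ 2
  cv : ∀ (x : Fin N → E3) (B : Set E3) (μ : Fin N → Measure E3) (f : (Fin N → E3) → ENNReal),
    (∀ t, SigmaFinite (μ t)) → MeasurableSet B → (∀ t ∈ S, μ t = volume.restrict B) →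
      Measurable f →
      (∫⋯∫⁻_S, f ∂μ) x = ∫⁻ p in {p : E3 × F | ∀ t ∈ S, a t p ∈ B}, f (Amap S a x p)
  pot_eq : ∀ (x : Fin N → E3) (p : E3 × F), pot (Amap S a x p) = s ^ 2 * V (s • p.2)
  pot_meas : Measurable pot
  pot_nonneg : ∀ x, 0 ≤ pot x

section Lin

/-- Cauchy–Schwarz for a linear form on configuration space -/
theorem clm_single_le {N : ℕ} (B : (Fin N → E3) →L[ℝ] ℂ) (t : Fin N) (y : E3) :
    ‖B (Pi.single t y)‖ ≤ ‖y‖ * Real.sqrt (∑ k : Fin 3, ‖B (Pi.single t (ek k))‖ ^ 2) := by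
  have h1 : y = ∑ k : Fin 3, y k • ek k := by
    ext j
    simp [Fin.sum_univ_three, ek]
    fin_cases j <;> simp
  have h2 : (Pi.single t y : Fin N → E3) = ∑ k : Fin 3, y k • (Pi.single t (ek k) : Fin N → E3) := by
    ext s j
    by_cases hs : s = t
    · subst hs
      simp [Fin.sum_univ_three, ek]
      fin_cases j <;> simp
    · simp [Pi.single_eq_of_ne hs]
  rw [h2, map_sum]
  simp only [map_smul]
  calc ‖∑ k : Fin 3, y k • B (Pi.single t (ek k))‖ ≤ ∑ k : Fin 3, ‖y k • B (Pi.single t (ek k))‖ :=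
        norm_sum_le _ _
    _ = ∑ k : Fin 3, |y k| * ‖B (Pi.single t (ek k))‖ := by
        refine Finset.sum_congr rfl fun k _ => ?_
        rw [norm_smul, Real.norm_eq_abs]
    _ ≤ Real.sqrt (∑ k : Fin 3, |y k| ^ 2) * Real.sqrt (∑ k : Fin 3, ‖B (Pi.single t (ek k))‖ ^ 2) :=
        Real.sum_mul_le_sqrt_mul_sqrt _ _ _
    _ = _ := by
        rw [EuclideanSpace.norm_eq]
        simp [Real.norm_eq_abs]

theorem pi_sum_single {N : ℕ} (S : Finset (Fin N)) (z : Fin N → E3) :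
    (fun t => if t ∈ S then z t else 0) = ∑ t ∈ S, (Pi.single t (z t) : Fin N → E3) := by
  ext s j
  by_cases hs : s ∈ S
  · simp only [hs, if_true, Finset.sum_apply]
    rw [Finset.sum_eq_single s]
    · simp
    · intro b _ hb
      rw [Pi.single_eq_of_ne (Ne.symm hb)]
    · intro h; exact absurd hs h
  · simp only [hs, if_false, Finset.sum_apply]
    rw [Finset.sum_eq_zero]
    intro b hb
    rw [Pi.single_eq_of_ne]
    rintro rfl
    exact hs hb

variable {N : ℕ} {F ι : Type} [NormedAddCommGroup F] [NormedSpace ℝ F]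

/-- derivative of the chart map -/
noncomputable def dA (S : Finset (Fin N)) (a : Fin N → (E3 × F →L[ℝ] E3)) :
    E3 × F →L[ℝ] (Fin N → E3) :=
  ContinuousLinearMap.pi (fun t => if t ∈ S then a t else 0)

theorem dA_apply (S : Finset (Fin N)) (a : Fin N → (E3 × F →L[ℝ] E3)) (p : E3 × F) :
    dA S a p = fun t => if t ∈ S then a t p else 0 := by
  ext t
  simp only [dA, ContinuousLinearMap.coe_pi']
  by_cases ht : t ∈ S <;> simp [ht]

theorem Amap_eq (S : Finset (Fin N)) (a : Fin N → (E3 × F →L[ℝ] E3)) (x : Fin N → E3) (p : E3 × F) :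
    Amap S a x p = (fun t => if t ∈ S then 0 else x t) + dA S a p := by
  ext t
  rw [dA_apply]
  by_cases ht : t ∈ S <;> simp [Amap, ht]

theorem Amap_hasFDerivAt (S : Finset (Fin N)) (a : Fin N → (E3 × F →L[ℝ] E3)) (x : Fin N → E3)
    (p : E3 × F) : HasFDerivAt (Amap S a x) (dA S a) p := by
  have h1 : Amap S a x = fun p => (fun t => if t ∈ S then 0 else x t) + dA S a p := by
    ext1 p; exact Amap_eq S a x p
  rw [h1]
  exact (dA S a).hasFDerivAt.const_add _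

theorem Amap_contDiff (S : Finset (Fin N)) (a : Fin N → (E3 × F →L[ℝ] E3)) (x : Fin N → E3)
    {n : WithTop ℕ∞} : ContDiff ℝ n (Amap S a x) := by
  have h1 : Amap S a x = fun p => (fun t => if t ∈ S then 0 else x t) + dA S a p := by
    ext1 p; exact Amap_eq S a x p
  rw [h1]
  exact contDiff_const.add (dA S a).contDiff

theorem fderiv_comp_Amap (S : Finset (Fin N)) (a : Fin N → (E3 × F →L[ℝ] E3)) (x : Fin N → E3)
    {ψ : (Fin N → E3) → ℂ} (hψ : Differentiable ℝ ψ) (p : E3 × F) :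
    fderiv ℝ (fun p => ψ (Amap S a x p)) p = (fderiv ℝ ψ (Amap S a x p)).comp (dA S a) :=
  ((hψ _).hasFDerivAt.comp p (Amap_hasFDerivAt S a x p)).fderiv

/-- bound of the gradient in the chart -/
theorem norm_fderiv_comp_Amap_sq_le (S : Finset (Fin N)) (hS : S.card ≤ 3)
    (a : Fin N → (E3 × F →L[ℝ] E3)) (ha : ∀ t ∈ S, ∀ p, ‖a t p‖ ≤ 2 * ‖p‖) (x : Fin N → E3)
    {ψ : (Fin N → E3) → ℂ} (hψ : Differentiable ℝ ψ) (p : E3 × F) :
    ‖fderiv ℝ (fun p => ψ (Amap S a x p)) p‖ ^ 2 ≤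
      12 * ∑ t ∈ S, gradi ψ t (Amap S a x p) := by
  rw [fderiv_comp_Amap S a x hψ p]
  set B := fderiv ℝ ψ (Amap S a x p) with hB
  have hg : ∀ t, gradi ψ t (Amap S a x p) = ∑ k : Fin 3, ‖B (Pi.single t (ek k))‖ ^ 2 := fun t => rfl
  have hn : ‖B.comp (dA S a)‖ ≤ 2 * ∑ t ∈ S, Real.sqrt (gradi ψ t (Amap S a x p)) := by
    refine ContinuousLinearMap.opNorm_le_bound _ (by positivity) (fun q => ?_)
    rw [ContinuousLinearMap.comp_apply, dA_apply, pi_sum_single S (fun t => a t q), map_sum]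
    calc ‖∑ t ∈ S, B (Pi.single t (a t q))‖ ≤ ∑ t ∈ S, ‖B (Pi.single t (a t q))‖ := norm_sum_le _ _
      _ ≤ ∑ t ∈ S, (2 * ‖q‖) * Real.sqrt (gradi ψ t (Amap S a x p)) := by
          refine Finset.sum_le_sum fun t ht => ?_
          refine (clm_single_le B t (a t q)).trans ?_
          rw [hg]
          gcongr
          exact ha t ht q
      _ = _ := by rw [← Finset.mul_sum]; ring
  have hsq : (∑ t ∈ S, Real.sqrt (gradi ψ t (Amap S a x p))) ^ 2 ≤
      3 * ∑ t ∈ S, gradi ψ t (Amap S a x p) := by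
    have h1 := sq_sum_le_card_mul_sum_sq (s := S) (f := fun t => Real.sqrt (gradi ψ t (Amap S a x p)))
    refine h1.trans ?_
    have h2 : ∀ t ∈ S, Real.sqrt (gradi ψ t (Amap S a x p)) ^ 2 = gradi ψ t (Amap S a x p) := by
      intro t _
      apply Real.sq_sqrt
      rw [hg]; positivity
    rw [Finset.sum_congr rfl h2]
    have h3 : 0 ≤ ∑ t ∈ S, gradi ψ t (Amap S a x p) :=
      Finset.sum_nonneg fun t _ => by rw [hg]; positivity
    gcongr
    exact_mod_cast hS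
  calc ‖B.comp (dA S a)‖ ^ 2 ≤ (2 * ∑ t ∈ S, Real.sqrt (gradi ψ t (Amap S a x p))) ^ 2 := by gcongr
    _ = 4 * (∑ t ∈ S, Real.sqrt (gradi ψ t (Amap S a x p))) ^ 2 := by ring
    _ ≤ 4 * (3 * ∑ t ∈ S, gradi ψ t (Amap S a x p)) := by gcongr
    _ = _ := by ring

/-- the relative form in the chart -/
theorem formw_comp_Amap [Fintype ι] (S : Finset (Fin N)) (a : Fin N → (E3 × F →L[ℝ] E3))
    (w : ι → F) (x : Fin N → E3) {ψ : (Fin N → E3) → ℂ} (hψ : Differentiable ℝ ψ)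
    (hform : ∀ B : (Fin N → E3) →L[ℝ] ℂ,
      ∑ c, ‖B (fun t => if t ∈ S then a t (0, w c) else 0)‖ ^ 2 ≤
        ∑ t ∈ S, ∑ k : Fin 3, ‖B (Pi.single t (ek k))‖ ^ 2) (X : E3) (r : F) :
    formw w (fun r' => ψ (Amap S a x (X, r'))) r ≤ ∑ t ∈ S, gradi ψ t (Amap S a x (X, r)) := by
  have h1 : HasFDerivAt (fun r' => ψ (Amap S a x (X, r')))
      (((fderiv ℝ ψ (Amap S a x (X, r))).comp (dA S a)).comp (ContinuousLinearMap.inr ℝ E3 F)) r := by
    have a1 : HasFDerivAt (fun p => ψ (Amap S a x p))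
        ((fderiv ℝ ψ (Amap S a x (X, r))).comp (dA S a)) (X, r) :=
      (hψ _).hasFDerivAt.comp _ (Amap_hasFDerivAt S a x _)
    have a2 : HasFDerivAt (fun r : F => ((X, r) : E3 × F)) (ContinuousLinearMap.inr ℝ E3 F) r :=
      hasFDerivAt_prodMk_right X r
    exact a1.comp r a2
  unfold formw
  rw [h1.fderiv]
  refine le_trans (le_of_eq ?_) (hform (fderiv ℝ ψ (Amap S a x (X, r))))
  refine Finset.sum_congr rfl fun c _ => ?_
  rw [ContinuousLinearMap.comp_apply, ContinuousLinearMap.comp_apply, dA_apply]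
  simp

end Lin

end Pool.Agent.Helper23.Bose
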