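import Mathlib
import Pool.Agent.Helper23.Bose.Defs
import Pool.Agent.Helper23.Bose.Gen
import Pool.Agent.Helper23.Bose.Boxes
import Pool.Agent.Helper23.Bose.Chart

set_option autoImplicit false
open MeasureTheory Module

namespace Pool.Agent.Helper23.Bose

/-- centre of a cluster -/
noncomputable def ctr {N : ℕ} (S : Finset (Fin N)) (x : Fin N → E3) : E3 :=
  (S.card : ℝ)⁻¹ • ∑ t ∈ S, x t

/-- activity of a cluster -/
def Act {N : ℕ} (l η R : ℝ) (b : Fin 3 → ℤ) (S O : Finset (Fin N)) : Set (Fin N → E3) :=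
  {x | (∀ t ∈ S, ∀ t' ∈ S, ‖x t - x t'‖ < 2 * R) ∧ ctr S x ∈ SBox l η b ∧
     ∀ t ∈ O, 4 * R ≤ ‖x t - ctr S x‖}

theorem measurable_ctr {N : ℕ} (S : Finset (Fin N)) : Measurable (ctr S) := by
  unfold ctr
  fun_prop

theorem measurableSet_Act {N : ℕ} (l η R : ℝ) (b : Fin 3 → ℤ) (S O : Finset (Fin N)) :
    MeasurableSet (Act l η R b S O) := by
  have h : Act l η R b S O = (⋂ t ∈ S, ⋂ t' ∈ S, {x : Fin N → E3 | ‖x t - x t'‖ < 2 * R}) ∩
      ((ctr S) ⁻¹' (SBox l η b) ∩ ⋂ t ∈ O, {x : Fin N → E3 | 4 * R ≤ ‖x t - ctr S x‖}) := by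
    ext x
    simp [Act]
  rw [h]
  refine MeasurableSet.inter ?_ (MeasurableSet.inter ?_ ?_)
  · refine Finset.measurableSet_biInter _ fun t _ => Finset.measurableSet_biInter _ fun t' _ => ?_
    exact measurableSet_lt (by fun_prop) measurable_const
  · exact measurable_ctr S (measurableSet_SBox l η b)
  · refine Finset.measurableSet_biInter _ fun t _ => ?_
    have := measurable_ctr S
    exact measurableSet_le measurable_const (by fun_prop)

/-- good centres -/
def good {N : ℕ} (l η R : ℝ) (b : Fin 3 → ℤ) (O : Finset (Fin N)) (x : Fin N → E3) : Set E3 :=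
  {X | X ∈ SBox l η b ∧ ∀ t ∈ O, 4 * R ≤ ‖x t - X‖}

theorem good_eq {N : ℕ} (l η R : ℝ) (b : Fin 3 → ℤ) (O : Finset (Fin N)) (x : Fin N → E3) :
    good l η R b O x = SBox l η b \ ⋃ t ∈ O, Metric.ball (x t) (4 * R) := by
  ext X
  simp [good, dist_eq_norm, norm_sub_rev]

theorem measurableSet_good {N : ℕ} (l η R : ℝ) (b : Fin 3 → ℤ) (O : Finset (Fin N))
    (x : Fin N → E3) : MeasurableSet (good l η R b O x) := by
  rw [good_eq]
  exact (measurableSet_SBox l η b).diff
    (Finset.measurableSet_biUnion _ fun t _ => Metric.isOpen_ball.measurableSet)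

/-- volume of the unit ball of `E3` -/
noncomputable def κ3 : ℝ := (volume (Metric.ball (0 : E3) 1)).toReal

theorem κ3_nonneg : 0 ≤ κ3 := ENNReal.toReal_nonneg

theorem volume_ball3 {t : ℝ} (ht : 0 < t) (z : E3) :
    volume (Metric.ball z t) = ENNReal.ofReal (t ^ 3 * κ3) := by
  rw [Measure.addHaar_ball_of_pos _ _ ht, ENNReal.ofReal_mul (by positivity)]
  simp only [κ3, finrank_euclideanSpace, Fintype.card_fin]
  rw [ENNReal.ofReal_toReal measure_ball_lt_top.ne]

theorem volume_good_ge {N : ℕ} {l ε R : ℝ} (hl : 0 < l) (hε : 0 < ε) (hε1 : 2 * ε ≤ 1) (hR : 0 < R)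
    (b : Fin 3 → ℤ) (O : Finset (Fin N)) (x : Fin N → E3)
    (hsmall : O.card * ((4 * R) ^ 3 * κ3) ≤ ε * l ^ 3) :
    ENNReal.ofReal ((1 - 7 * ε) * l ^ 3) ≤ volume (good l (ε * l) R b O x) := by
  rw [good_eq]
  have h1 : volume (⋃ t ∈ O, Metric.ball (x t) (4 * R)) ≤ ENNReal.ofReal (ε * l ^ 3) := by
    calc volume (⋃ t ∈ O, Metric.ball (x t) (4 * R)) ≤ ∑ t ∈ O, volume (Metric.ball (x t) (4 * R)) :=
          measure_biUnion_finset_le _ _
      _ = ∑ t ∈ O, ENNReal.ofReal ((4 * R) ^ 3 * κ3) := by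
          refine Finset.sum_congr rfl fun t _ => ?_
          exact volume_ball3 (by linarith) _
      _ = ENNReal.ofReal (O.card * ((4 * R) ^ 3 * κ3)) := by
          rw [Finset.sum_const, nsmul_eq_mul, ENNReal.ofReal_mul (Nat.cast_nonneg _),
            ENNReal.ofReal_natCast]
      _ ≤ _ := ENNReal.ofReal_le_ofReal hsmall
  have h2 : volume (SBox l (ε * l) b) = ENNReal.ofReal ((l - 2 * (ε * l)) ^ 3) :=
    volume_SBox (by nlinarith) b
  have h3 : volume (SBox l (ε * l) b) - volume (⋃ t ∈ O, Metric.ball (x t) (4 * R)) ≤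
      volume (SBox l (ε * l) b \ ⋃ t ∈ O, Metric.ball (x t) (4 * R)) := le_measure_sdiff
  refine le_trans ?_ h3
  rw [h2]
  refine le_trans ?_ (tsub_le_tsub_left h1 _)
  rw [← ENNReal.ofReal_sub _ (by positivity)]
  apply ENNReal.ofReal_le_ofReal
  have e : (l - 2 * (ε * l)) ^ 3 = (1 - 2 * ε) ^ 3 * l ^ 3 := by ring
  rw [e]
  have h4 : 1 - 6 * ε ≤ (1 - 2 * ε) ^ 3 := by
    nlinarith [sq_nonneg ε, mul_nonneg hε.le (mul_nonneg hε.le (sub_nonneg.mpr hε1))]
  have h5 : 0 < l ^ 3 := by positivity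
  nlinarith

theorem gradi_nonneg {N : ℕ} (ψ : (Fin N → E3) → ℂ) (i : Fin N) (x : Fin N → E3) :
    0 ≤ gradi ψ i x := by
  unfold gradi
  positivity

theorem continuous_gradi {N : ℕ} {ψ : (Fin N → E3) → ℂ} (hψ : ContDiff ℝ 1 ψ) (i : Fin N) :
    Continuous (gradi ψ i) := by
  have hd : Continuous (fderiv ℝ ψ) := hψ.continuous_fderiv (by norm_num)
  unfold gradi
  exact continuous_finsetSum _ fun a _ => (hd.clm_apply continuous_const).norm.pow 2

section Cluster

variable {N : ℕ} {F ι : Type} [NormedAddCommGroup F] [NormedSpace ℝ F] [FiniteDimensional ℝ F]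
    [MeasureSpace F] [BorelSpace F] [(volume : Measure F).IsAddHaarMeasure] [Fintype ι]

/-- the inequality of the local lemma, with fixed constants -/
def LL (F ι : Type) [NormedAddCommGroup F] [NormedSpace ℝ F] [MeasureSpace F] [Fintype ι]
    (w : ι → F) (V : F → ℝ) (s l R ε cm Cst : ℝ) : Prop :=
  ∀ (K : Set (E3 × F)) (G : Set E3), Convex ℝ K → MeasurableSet K →
    (∀ p ∈ K, ∀ q ∈ K, ‖p - q‖ ≤ 4 * l) → MeasurableSet G →
    G ×ˢ Metric.ball (0 : F) (ε * l) ⊆ K →
    ∀ g : E3 × F → ℂ, ContDiff ℝ cinf g →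
      ENNReal.ofReal cm * (volume G / volume K) * ∫⁻ p in K, ‖g p‖ₑ ^ 2
        ≤ (∫⁻ X in G, ∫⁻ r in Metric.ball (0 : F) R,
              ENNReal.ofReal (formw w (fun r' => g (X, r')) r
                + s ^ 2 * V (s • r) * ‖g (X, r)‖ ^ 2))
          + ENNReal.ofReal Cst * ∫⁻ p in K, ‖fderiv ℝ g p‖ₑ ^ 2

theorem cluster_ineq {S : Finset (Fin N)} {a : Fin N → (E3 × F →L[ℝ] E3)} {w : ι → F} {V : F → ℝ}
    {s : ℝ} {d : ℕ} {pot : (Fin N → E3) → ℝ} (hch : Chart S a w V s d pot)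
    {ε l R cm Cst : ℝ} (hl : 0 < l) (hRl : R ≤ ε * l)
    (hcm : 0 ≤ cm) (hLL : LL F ι w V s l R ε cm Cst)
    (b : Fin 3 → ℤ) (O : Finset (Fin N)) (hO : Disjoint S O)
    (hgood : ∀ x, ENNReal.ofReal ((1 - 7 * ε) * l ^ 3) ≤ volume (good l (ε * l) R b O x))
    (μ : Fin N → Measure E3) [hσ : ∀ t, SigmaFinite (μ t)]
    (hμ : ∀ t ∈ S, μ t = volume.restrict (Box l b))
    {ψ : (Fin N → E3) → ℂ} (hψ : ContDiff ℝ cinf ψ) :
    ENNReal.ofReal (cm * (1 - 7 * ε) / l ^ d) * ∫⁻ x, ‖ψ x‖ₑ ^ 2 ∂(Measure.pi μ) ≤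
      (∫⁻ x, (Act l (ε * l) R b S O).indicator (fun x => ENNReal.ofReal
        (∑ t ∈ S, gradi ψ t x + pot x * ‖ψ x‖ ^ 2)) x ∂(Measure.pi μ)) +
      ENNReal.ofReal Cst * (12 * ∫⁻ x, ENNReal.ofReal (∑ t ∈ S, gradi ψ t x) ∂(Measure.pi μ)) := by
  have hψ1 : ContDiff ℝ 1 ψ := hψ.of_le (by simp [cinf])
  have hψd : Differentiable ℝ ψ := hψ1.differentiable (by norm_num)
  have hSpos : 0 < S.card := by
    have := hch.card_eq
    omega
  have hm1 : Measurable (fun x => ‖ψ x‖ₑ ^ 2) := hψ.continuous.enorm.measurable.pow_const 2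
  have hgm : ∀ t, Measurable (gradi ψ t) := fun t => (continuous_gradi hψ1 t).measurable
  have hm2 : Measurable (fun x => ENNReal.ofReal (∑ t ∈ S, gradi ψ t x)) := by
    apply Measurable.ennreal_ofReal
    exact Finset.measurable_fun_sum _ fun t _ => hgm t
  have hm3' : Measurable (fun x => ENNReal.ofReal
        (∑ t ∈ S, gradi ψ t x + pot x * ‖ψ x‖ ^ 2)) := by
    apply Measurable.ennreal_ofReal
    exact (Finset.measurable_fun_sum _ fun t _ => hgm t).add
      (hch.pot_meas.mul (hψ.continuous.norm.pow 2).measurable)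
  have hm3 : Measurable ((Act l (ε * l) R b S O).indicator (fun x => ENNReal.ofReal
        (∑ t ∈ S, gradi ψ t x + pot x * ‖ψ x‖ ^ 2))) :=
    hm3'.indicator (measurableSet_Act _ _ _ _ _ _)
  rw [← lintegral_const_mul _ hm1, ← lintegral_const_mul _ hm2,
    ← lintegral_const_mul _ (hm2.const_mul _), ← lintegral_add_left hm3]
  apply lintegral_le_of_lmarginal_le S (hm1.const_mul _) (hm3.add ((hm2.const_mul _).const_mul _))
  intro x
  rw [hch.cv x (Box l b) μ _ hσ (measurableSet_Box l b) hμ (hm1.const_mul _),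
    hch.cv x (Box l b) μ _ hσ (measurableSet_Box l b) hμ (hm3.add ((hm2.const_mul _).const_mul _))]
  obtain ⟨K, hK⟩ : ∃ K, K = {p : E3 × F | ∀ t ∈ S, a t p ∈ Box l b} := ⟨_, rfl⟩
  rw [← hK]
  have hAc : Continuous (Amap S a x) := (Amap_contDiff S a x (n := 0)).continuous
  have hKm : MeasurableSet K := by
    have : K = ⋂ t ∈ S, (a t) ⁻¹' (Box l b) := by rw [hK]; ext p; simp
    rw [this]
    exact Finset.measurableSet_biInter _ fun t _ => (a t).continuous.measurable (measurableSet_Box l b)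
  have hKc : Convex ℝ K := by
    rw [hK]
    intro p hp q hq u v hu hv huv t ht
    have := convex_Box l b (hp t ht) (hq t ht) hu hv huv
    simpa using this
  have hKd : ∀ p ∈ K, ∀ q ∈ K, ‖p - q‖ ≤ 4 * l := by
    intro p hp q hq
    rw [hK] at hp hq
    have := hch.inv (p - q) (2 * l) (fun t ht => by
      rw [map_sub]
      exact Box_dist hl (hp t ht) (hq t ht))
    linarith
  obtain ⟨G, hG⟩ : ∃ G, G = good l (ε * l) R b O x := ⟨_, rfl⟩
  have hGm : MeasurableSet G := hG ▸ measurableSet_good _ _ _ _ _ _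
  have hGK : G ×ˢ Metric.ball (0 : F) (ε * l) ⊆ K := by
    rintro ⟨X, r⟩ ⟨hX, hr⟩
    rw [hK]
    intro t ht
    rw [hG] at hX
    have h1 := hch.center_dist (X, r) t ht
    have h2 : a t (X, r) = X + (a t (X, r) - X) := by abel
    rw [h2]
    apply SBox_add_mem hX.1
    refine lt_of_le_of_lt h1 ?_
    simpa using hr
  have hg : ContDiff ℝ cinf (fun p => ψ (Amap S a x p)) := hψ.comp (Amap_contDiff S a x)
  have hmain := hLL K G hKc hKm hKd hGm hGK _ hg
  -- volume of K
  have hKvol : volume K = ENNReal.ofReal (l ^ (3 + d)) := by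
    have h1 := hch.cv x (Box l b) μ (fun _ => 1) hσ (measurableSet_Box l b) hμ measurable_const
    rw [← hK] at h1
    have h2 : (∫⋯∫⁻_S, (fun _ => (1 : ENNReal)) ∂μ) x = ∏ t ∈ S, μ t Set.univ := by
      simp only [lmarginal, lintegral_const, one_mul, Measure.pi_univ]
      exact Finset.prod_coe_sort S (fun t => μ t Set.univ)
    rw [h2] at h1
    have h3 : ∏ t ∈ S, μ t Set.univ = ENNReal.ofReal (l ^ (3 + d)) := by
      rw [← hch.card_eq, pow_mul, ENNReal.ofReal_pow (by positivity), ← Finset.prod_const]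
      refine Finset.prod_congr rfl fun t ht => ?_
      rw [hμ t ht, Measure.restrict_apply_univ, volume_Box hl]
    rw [h3] at h1
    simpa using h1.symm
  have hratio : ENNReal.ofReal (cm * (1 - 7 * ε) / l ^ d) ≤ ENNReal.ofReal cm * (volume G / volume K) := by
    rw [mul_div_assoc, ENNReal.ofReal_mul hcm]
    gcongr
    rw [hKvol]
    have h1 : ENNReal.ofReal ((1 - 7 * ε) / l ^ d) =
        ENNReal.ofReal ((1 - 7 * ε) * l ^ 3) / ENNReal.ofReal (l ^ (3 + d)) := by
      rw [← ENNReal.ofReal_div_of_pos (by positivity)]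
      congr 1
      rw [pow_add]
      field_simp
    rw [h1]
    gcongr
    rw [hG]
    exact hgood x
  -- the active region
  have hstep2 : (∫⁻ X in G, ∫⁻ r in Metric.ball (0 : F) R,
        ENNReal.ofReal (formw w (fun r' => ψ (Amap S a x (X, r'))) r
          + s ^ 2 * V (s • r) * ‖ψ (Amap S a x (X, r))‖ ^ 2)) ≤
      ∫⁻ p in K, (Act l (ε * l) R b S O).indicator (fun x => ENNReal.ofReal
        (∑ t ∈ S, gradi ψ t x + pot x * ‖ψ x‖ ^ 2)) (Amap S a x p) := by
    have h1 : (∫⁻ X in G, ∫⁻ r in Metric.ball (0 : F) R,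
        ENNReal.ofReal (formw w (fun r' => ψ (Amap S a x (X, r'))) r
          + s ^ 2 * V (s • r) * ‖ψ (Amap S a x (X, r))‖ ^ 2)) ≤
        ∫⁻ X in G, ∫⁻ r in Metric.ball (0 : F) R, (Act l (ε * l) R b S O).indicator
          (fun x => ENNReal.ofReal (∑ t ∈ S, gradi ψ t x + pot x * ‖ψ x‖ ^ 2)) (Amap S a x (X, r)) := by
      apply lintegral_mono_ae
      rw [ae_restrict_iff' hGm]
      refine Filter.Eventually.of_forall fun X hX => ?_
      apply lintegral_mono_ae
      rw [ae_restrict_iff' Metric.isOpen_ball.measurableSet]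
      refine Filter.Eventually.of_forall fun r hr => ?_
      have hr' : ‖r‖ < R := by simpa using hr
      have hAS : ∀ t ∈ S, Amap S a x (X, r) t = a t (X, r) := fun t ht => by simp [Amap, ht]
      have hAO : ∀ t ∈ O, Amap S a x (X, r) t = x t := fun t ht => by
        have : t ∉ S := fun h => Finset.disjoint_left.mp hO h ht
        simp [Amap, this]
      have hctr : ctr S (Amap S a x (X, r)) = X := by
        unfold ctr
        rw [Finset.sum_congr rfl hAS]
        exact hch.center (X, r)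
      have hmem : Amap S a x (X, r) ∈ Act l (ε * l) R b S O := by
        rw [hG] at hX
        refine ⟨fun t ht t' ht' => ?_, ?_, fun t ht => ?_⟩
        · rw [hAS t ht, hAS t' ht']
          refine lt_of_le_of_lt (hch.dist (X, r) t ht t' ht') ?_
          simp only
          linarith
        · rw [hctr]; exact hX.1
        · rw [hctr, hAO t ht]; exact hX.2 t ht
      rw [Set.indicator_of_mem hmem]
      apply ENNReal.ofReal_le_ofReal
      have h2 := formw_comp_Amap S a w x hψd hch.form X r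
      have h3 := hch.pot_eq x (X, r)
      rw [h3]
      simp only
      linarith
    refine h1.trans ?_
    have h2 : ∫⁻ p in G ×ˢ Metric.ball (0:F) R, (Act l (ε * l) R b S O).indicator
          (fun x => ENNReal.ofReal (∑ t ∈ S, gradi ψ t x + pot x * ‖ψ x‖ ^ 2)) (Amap S a x p) =
        ∫⁻ X in G, ∫⁻ r in Metric.ball (0:F) R, (Act l (ε * l) R b S O).indicator
          (fun x => ENNReal.ofReal (∑ t ∈ S, gradi ψ t x + pot x * ‖ψ x‖ ^ 2)) (Amap S a x (X, r)) := by
      have e : (volume : Measure (E3 × F)) = (volume : Measure E3).prod volume := rfl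
      have hm4 : Measurable (fun p : E3 × F => (Act l (ε * l) R b S O).indicator
          (fun x => ENNReal.ofReal (∑ t ∈ S, gradi ψ t x + pot x * ‖ψ x‖ ^ 2)) (Amap S a x p)) :=
        hm3.comp hAc.measurable
      rw [e, ← Measure.prod_restrict, lintegral_prod _ hm4.aemeasurable]
    rw [← h2]
    apply lintegral_mono_set
    refine (Set.prod_mono_right ?_).trans hGK
    exact Metric.ball_subset_ball hRl
  have hstep3 : ∫⁻ p in K, ‖fderiv ℝ (fun p => ψ (Amap S a x p)) p‖ₑ ^ 2 ≤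
      ∫⁻ p in K, 12 * ENNReal.ofReal (∑ t ∈ S, gradi ψ t (Amap S a x p)) := by
    apply lintegral_mono
    intro p
    simp only
    rw [enorm_sq_eq]
    have h12 : (12 : ENNReal) = ENNReal.ofReal 12 := by simp
    rw [h12, ← ENNReal.ofReal_mul (by norm_num)]
    exact ENNReal.ofReal_le_ofReal
      (norm_fderiv_comp_Amap_sq_le S hch.card_le a hch.bound x hψd p)
  calc ∫⁻ p in K, ENNReal.ofReal (cm * (1 - 7 * ε) / l ^ d) * ‖ψ (Amap S a x p)‖ₑ ^ 2
      = ENNReal.ofReal (cm * (1 - 7 * ε) / l ^ d) * ∫⁻ p in K, ‖ψ (Amap S a x p)‖ₑ ^ 2 := by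
        rw [lintegral_const_mul' _ _ ENNReal.ofReal_ne_top]
    _ ≤ ENNReal.ofReal cm * (volume G / volume K) * ∫⁻ p in K, ‖ψ (Amap S a x p)‖ₑ ^ 2 := by
        gcongr
    _ ≤ _ := hmain
    _ ≤ (∫⁻ p in K, (Act l (ε * l) R b S O).indicator (fun x => ENNReal.ofReal
        (∑ t ∈ S, gradi ψ t x + pot x * ‖ψ x‖ ^ 2)) (Amap S a x p)) +
        ENNReal.ofReal Cst * ∫⁻ p in K, 12 * ENNReal.ofReal (∑ t ∈ S, gradi ψ t (Amap S a x p)) := by
        gcongr
    _ = _ := by
        rw [← lintegral_const_mul' _ _ ENNReal.ofReal_ne_top, ← lintegral_add_left]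
        · rfl
        · exact hm3.comp hAc.measurable

end Cluster

end Pool.Agent.Helper23.Bose
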