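import Mathlib

set_option autoImplicit false

namespace Pool.Agent.Helper23.Bose

section Count

variable {N : ℕ}

/-- increasing pairs in `A` -/
def P2set (A : Finset (Fin N)) : Finset (Fin N × Fin N) :=
  (A ×ˢ A).filter (fun p => p.1 < p.2)

/-- increasing triples in `A` -/
def P3set (A : Finset (Fin N)) : Finset (Fin N × Fin N × Fin N) :=
  (A ×ˢ A ×ˢ A).filter (fun p => p.1 < p.2.1 ∧ p.2.1 < p.2.2)

theorem mem_P2set {A : Finset (Fin N)} {p : Fin N × Fin N} :
    p ∈ P2set A ↔ p.1 ∈ A ∧ p.2 ∈ A ∧ p.1 < p.2 := by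
  simp [P2set, and_assoc]

theorem mem_P3set {A : Finset (Fin N)} {p : Fin N × Fin N × Fin N} :
    p ∈ P3set A ↔ p.1 ∈ A ∧ p.2.1 ∈ A ∧ p.2.2 ∈ A ∧ p.1 < p.2.1 ∧ p.2.1 < p.2.2 := by
  simp [P3set, and_assoc]

theorem card_P2set (A : Finset (Fin N)) : (P2set A).card = A.card.choose 2 := by
  induction A using Finset.induction_on_max with
  | empty => rfl
  | insert a s hs ih =>
    have ha : a ∉ s := fun h => lt_irrefl _ (hs a h)
    have h1 : P2set (insert a s) = P2set s ∪ s.image (fun x => (x, a)) := by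
      ext ⟨x, y⟩
      simp only [mem_P2set, Finset.mem_union, Finset.mem_image, Finset.mem_insert, Prod.mk.injEq]
      constructor
      · rintro ⟨hx | hx, hy | hy, hxy⟩
        · subst hx; subst hy; exact absurd hxy (lt_irrefl _)
        · subst hx; exact absurd (hs y hy) (not_lt.mpr hxy.le)
        · subst hy; right; exact ⟨x, hx, rfl, rfl⟩
        · left; exact ⟨hx, hy, hxy⟩
      · rintro (⟨hx, hy, hxy⟩ | ⟨z, hz, rfl, rfl⟩)
        · exact ⟨Or.inr hx, Or.inr hy, hxy⟩
        · exact ⟨Or.inr hz, Or.inl rfl, hs _ hz⟩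
    have h2 : Disjoint (P2set s) (s.image (fun x => (x, a))) := by
      rw [Finset.disjoint_left]
      rintro ⟨x, y⟩ hx hy
      simp only [mem_P2set, Finset.mem_image, Prod.mk.injEq] at hx hy
      obtain ⟨z, _, _, rfl⟩ := hy
      exact ha hx.2.1
    rw [h1, Finset.card_union_of_disjoint h2, ih, Finset.card_image_of_injective _ (by
      intro x y hxy; simpa using hxy), Finset.card_insert_of_notMem ha, Nat.choose_succ_succ' _ 1,
      Nat.choose_one_right]
    ring

theorem card_P3set (A : Finset (Fin N)) : (P3set A).card = A.card.choose 3 := by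
  induction A using Finset.induction_on_max with
  | empty => rfl
  | insert a s hs ih =>
    have ha : a ∉ s := fun h => lt_irrefl _ (hs a h)
    have h1 : P3set (insert a s) = P3set s ∪ (P2set s).image (fun x => (x.1, x.2, a)) := by
      ext ⟨x, y, z⟩
      simp only [mem_P3set, mem_P2set, Finset.mem_union, Finset.mem_image, Finset.mem_insert,
        Prod.mk.injEq, Prod.exists]
      constructor
      · rintro ⟨hx, hy, hz, hxy, hyz⟩
        have hz' : z ≤ a := by
          rcases hz with rfl | hz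
          · exact le_rfl
          · exact (hs z hz).le
        have hy' : y ∈ s := by
          rcases hy with rfl | hy
          · exact absurd (lt_of_lt_of_le hyz hz') (lt_irrefl _)
          · exact hy
        have hx' : x ∈ s := by
          rcases hx with rfl | hx
          · exact absurd (lt_of_lt_of_le (hxy.trans hyz) hz') (lt_irrefl _)
          · exact hx
        rcases hz with rfl | hz
        · right; exact ⟨x, y, ⟨hx', hy', hxy⟩, rfl, rfl, rfl⟩
        · left; exact ⟨hx', hy', hz, hxy, hyz⟩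
      · rintro (⟨hx, hy, hz, hxy, hyz⟩ | ⟨u, v, ⟨hu, hv, huv⟩, rfl, rfl, rfl⟩)
        · exact ⟨Or.inr hx, Or.inr hy, Or.inr hz, hxy, hyz⟩
        · exact ⟨Or.inr hu, Or.inr hv, Or.inl rfl, huv, hs _ hv⟩
    have h2 : Disjoint (P3set s) ((P2set s).image (fun x => (x.1, x.2, a))) := by
      rw [Finset.disjoint_left]
      rintro ⟨x, y, z⟩ hx hy
      simp only [mem_P3set, Finset.mem_image, Prod.mk.injEq, Prod.exists] at hx hy
      obtain ⟨u, v, _, _, _, rfl⟩ := hy
      exact ha hx.2.2.1
    rw [h1, Finset.card_union_of_disjoint h2, ih, Finset.card_image_of_injective _ (by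
      rintro ⟨x1, x2⟩ ⟨y1, y2⟩ hxy; simpa using hxy), Finset.card_insert_of_notMem ha,
      Nat.choose_succ_succ' _ 2, card_P2set]
    ring

/-- the group energy -/
noncomputable def hgr (a2 a3 : ℝ) (m : ℕ) : ℝ := a2 * (m.choose 2 : ℝ) + a3 * (m.choose 3 : ℝ)

/-- labelled pairs -/
def P2lab {κ : Type*} [DecidableEq κ] (A : Finset (Fin N)) (c : Fin N → κ) : Finset (Fin N × Fin N) :=
  (P2set A).filter (fun p => c p.1 = c p.2)

/-- labelled triples -/
def P3lab {κ : Type*} [DecidableEq κ] (A : Finset (Fin N)) (c : Fin N → κ) :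
    Finset (Fin N × Fin N × Fin N) :=
  (P3set A).filter (fun p => c p.1 = c p.2.1 ∧ c p.2.1 = c p.2.2)

theorem exists_label (a2 a3 : ℝ) (ha2 : 0 ≤ a2) (ha3 : 0 ≤ a3) (p : ℕ) (hp : 1 ≤ p) (lam κ : ℝ)
    (hp1 : lam * p ≤ hgr a2 a3 p) (hm : ∀ m : ℕ, lam * m - κ ≤ hgr a2 a3 m) :
    ∀ (n : ℕ) (A : Finset (Fin N)), A.card = n → ∃ c : Fin N → ℕ,
      (∀ q, (A.filter (fun t => c t = q)).card ≤ p) ∧
      lam * A.card - κ ≤ a2 * (P2lab A c).card + a3 * (P3lab A c).card := by
  intro n
  induction n using Nat.strong_induction_on with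
  | _ n ih =>
    intro A hA
    by_cases hlt : A.card < p
    · refine ⟨fun _ => 0, fun q => (Finset.card_filter_le _ _).trans hlt.le, ?_⟩
      have h2 : P2lab A (fun _ => 0) = P2set A := by simp [P2lab]
      have h3 : P3lab A (fun _ => 0) = P3set A := by simp [P3lab]
      rw [h2, h3, card_P2set, card_P3set]
      exact hm A.card
    · rw [not_lt] at hlt
      obtain ⟨T, hTA, hTc⟩ := Finset.exists_subset_card_eq hlt
      have hA' : (A \ T).card = n - p := by
        rw [Finset.card_sdiff_of_subset hTA, hA, hTc]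
      obtain ⟨c', hc1, hc2⟩ := ih (n - p) (by omega) (A \ T) hA'
      refine ⟨fun t => if t ∈ T then 0 else c' t + 1, fun q => ?_, ?_⟩
      · rcases Nat.eq_zero_or_pos q with rfl | hq
        · have : A.filter (fun t => (if t ∈ T then 0 else c' t + 1) = 0) ⊆ T := by
            intro t ht
            rw [Finset.mem_filter] at ht
            by_contra h
            simp [h] at ht
          exact (Finset.card_le_card this).trans hTc.le
        · have : A.filter (fun t => (if t ∈ T then 0 else c' t + 1) = q) ⊆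
              (A \ T).filter (fun t => c' t = q - 1) := by
            intro t ht
            rw [Finset.mem_filter] at ht ⊢
            by_cases h : t ∈ T
            · simp only [h, if_true] at ht; omega
            · simp only [h, if_false] at ht
              exact ⟨Finset.mem_sdiff.mpr ⟨ht.1, h⟩, by omega⟩
          exact (Finset.card_le_card this).trans (hc1 _)
      · set c : Fin N → ℕ := fun t => if t ∈ T then 0 else c' t + 1 with hc
        have h2 : (P2set T).card + (P2lab (A \ T) c').card ≤ (P2lab A c).card := by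
          rw [← Finset.card_union_of_disjoint]
          · apply Finset.card_le_card
            rintro ⟨x, y⟩ hxy
            rw [Finset.mem_union] at hxy
            rcases hxy with hxy | hxy
            · rw [mem_P2set] at hxy
              simp only [P2lab, Finset.mem_filter, mem_P2set, hc]
              refine ⟨⟨hTA hxy.1, hTA hxy.2.1, hxy.2.2⟩, ?_⟩
              simp only at hxy
              simp [hxy.1, hxy.2.1]
            · simp only [P2lab, Finset.mem_filter, mem_P2set, Finset.mem_sdiff] at hxy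
              simp only [P2lab, Finset.mem_filter, mem_P2set, hc]
              refine ⟨⟨hxy.1.1.1, hxy.1.2.1.1, hxy.1.2.2⟩, ?_⟩
              simp [hxy.1.1.2, hxy.1.2.1.2, hxy.2]
          · rw [Finset.disjoint_left]
            rintro ⟨x, y⟩ h1 h2
            simp only [P2lab, Finset.mem_filter, mem_P2set, Finset.mem_sdiff] at h1 h2
            exact h2.1.1.2 h1.1
        have h3 : (P3set T).card + (P3lab (A \ T) c').card ≤ (P3lab A c).card := by
          rw [← Finset.card_union_of_disjoint]
          · apply Finset.card_le_card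
            rintro ⟨x, y, z⟩ hxy
            rw [Finset.mem_union] at hxy
            rcases hxy with hxy | hxy
            · rw [mem_P3set] at hxy
              simp only [P3lab, Finset.mem_filter, mem_P3set, hc]
              simp only at hxy
              refine ⟨⟨hTA hxy.1, hTA hxy.2.1, hTA hxy.2.2.1, hxy.2.2.2⟩, ?_⟩
              simp [hxy.1, hxy.2.1, hxy.2.2.1]
            · simp only [P3lab, Finset.mem_filter, mem_P3set, Finset.mem_sdiff] at hxy
              simp only [P3lab, Finset.mem_filter, mem_P3set, hc]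
              refine ⟨⟨hxy.1.1.1, hxy.1.2.1.1, hxy.1.2.2.1.1, hxy.1.2.2.2⟩, ?_⟩
              simp [hxy.1.1.2, hxy.1.2.1.2, hxy.1.2.2.1.2, hxy.2.1, hxy.2.2]
          · rw [Finset.disjoint_left]
            rintro ⟨x, y, z⟩ h1 h2
            simp only [P3lab, Finset.mem_filter, mem_P3set, Finset.mem_sdiff] at h1 h2
            exact h2.1.1.2 h1.1
        rw [card_P2set, hTc] at h2
        rw [card_P3set, hTc] at h3
        have h2' : ((p.choose 2 : ℕ) : ℝ) + ((P2lab (A \ T) c').card : ℝ) ≤ ((P2lab A c).card : ℝ) := by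
          exact_mod_cast h2
        have h3' : ((p.choose 3 : ℕ) : ℝ) + ((P3lab (A \ T) c').card : ℝ) ≤ ((P3lab A c).card : ℝ) := by
          exact_mod_cast h3
        have h4 : ((A \ T).card : ℝ) = A.card - p := by
          rw [Finset.card_sdiff_of_subset hTA, Nat.cast_sub (Finset.card_le_card hTA), hTc]
        rw [h4] at hc2
        unfold hgr at hp1
        have h5 := mul_le_mul_of_nonneg_left h2' ha2
        have h6 := mul_le_mul_of_nonneg_left h3' ha3
        linarith

theorem exists_grouping {β : Type*} [DecidableEq β] (α : Fin N → β) (a2 a3 : ℝ) (ha2 : 0 ≤ a2)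
    (ha3 : 0 ≤ a3) (p : ℕ) (hp : 1 ≤ p) (lam κ : β → ℝ)
    (hp1 : ∀ b, lam b * p ≤ hgr a2 a3 p) (hm : ∀ b, ∀ m : ℕ, lam b * m - κ b ≤ hgr a2 a3 m) :
    ∃ c : Fin N → ℕ,
      (∀ i, (Finset.univ.filter (fun t => α t = α i ∧ c t = c i)).card ≤ p) ∧
      ∑ i, lam (α i) - ∑ b ∈ Finset.univ.image α, κ b ≤
        a2 * (P2lab Finset.univ (fun t => (α t, c t))).card +
        a3 * (P3lab Finset.univ (fun t => (α t, c t))).card := by
  have H := fun b => exists_label a2 a3 ha2 ha3 p hp (lam b) (κ b) (hp1 b) (hm b) _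
    (Finset.univ.filter (fun t => α t = b)) rfl
  choose C hC1 hC2 using H
  refine ⟨fun t => C (α t) t, fun i => ?_, ?_⟩
  · have h1 : Finset.univ.filter (fun t => α t = α i ∧ C (α t) t = C (α i) i) ⊆
        (Finset.univ.filter (fun t => α t = α i)).filter (fun t => C (α i) t = C (α i) i) := by
      intro t ht
      simp only [Finset.mem_filter, Finset.mem_univ, true_and] at ht ⊢
      refine ⟨ht.1, ?_⟩
      rw [← ht.2, ht.1]
    exact (Finset.card_le_card h1).trans (hC1 _ _)
  · have h1 : ∑ i, lam (α i) = ∑ b ∈ Finset.univ.image α,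
        lam b * (Finset.univ.filter (fun t => α t = b)).card := by
      rw [← Finset.sum_fiberwise_of_maps_to (s := Finset.univ) (t := Finset.univ.image α) (g := α)
        (fun i _ => Finset.mem_image_of_mem _ (Finset.mem_univ i))]
      refine Finset.sum_congr rfl fun b _ => ?_
      rw [Finset.sum_congr rfl (g := fun _ => lam b) (fun i hi => by
        rw [Finset.mem_filter] at hi; rw [hi.2]), Finset.sum_const, nsmul_eq_mul, mul_comm]
    rw [h1, ← Finset.sum_sub_distrib]
    have h2 : ∑ b ∈ Finset.univ.image α, (P2lab (Finset.univ.filter (fun t => α t = b)) (C b)).card ≤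
        (P2lab Finset.univ (fun t => (α t, C (α t) t))).card := by
      rw [← Finset.card_biUnion]
      · apply Finset.card_le_card
        rintro ⟨x, y⟩ hxy
        simp only [Finset.mem_biUnion, Finset.mem_image, Finset.mem_univ, true_and, P2lab,
          Finset.mem_filter, mem_P2set] at hxy ⊢
        obtain ⟨b, _, ⟨h3, h4, h5⟩, h6⟩ := hxy
        refine ⟨h5, ?_⟩
        rw [h3, h4, h6]
      · intro b _ b' _ hbb
        change Disjoint _ _
        rw [Finset.disjoint_left]
        rintro ⟨x, y⟩ h3 h4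
        simp only [P2lab, Finset.mem_filter, mem_P2set, Finset.mem_univ, true_and] at h3 h4
        exact hbb (h3.1.1.symm.trans h4.1.1)
    have h3 : ∑ b ∈ Finset.univ.image α, (P3lab (Finset.univ.filter (fun t => α t = b)) (C b)).card ≤
        (P3lab Finset.univ (fun t => (α t, C (α t) t))).card := by
      rw [← Finset.card_biUnion]
      · apply Finset.card_le_card
        rintro ⟨x, y, z⟩ hxy
        simp only [Finset.mem_biUnion, Finset.mem_image, Finset.mem_univ, true_and, P3lab,
          Finset.mem_filter, mem_P3set] at hxy ⊢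
        obtain ⟨b, _, ⟨h3, h4, h5, h5'⟩, h6, h7⟩ := hxy
        refine ⟨h5', ?_, ?_⟩
        · rw [h3, h4, h6]
        · rw [h4, h5, h7]
      · intro b _ b' _ hbb
        change Disjoint _ _
        rw [Finset.disjoint_left]
        rintro ⟨x, y, z⟩ h3 h4
        simp only [P3lab, Finset.mem_filter, mem_P3set, Finset.mem_univ, true_and] at h3 h4
        exact hbb (h3.1.1.symm.trans h4.1.1)
    have h2' : ∑ b ∈ Finset.univ.image α, ((P2lab (Finset.univ.filter (fun t => α t = b)) (C b)).card : ℝ) ≤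
        ((P2lab Finset.univ (fun t => (α t, C (α t) t))).card : ℝ) := by exact_mod_cast h2
    have h3' : ∑ b ∈ Finset.univ.image α, ((P3lab (Finset.univ.filter (fun t => α t = b)) (C b)).card : ℝ) ≤
        ((P3lab Finset.univ (fun t => (α t, C (α t) t))).card : ℝ) := by exact_mod_cast h3
    calc ∑ b ∈ Finset.univ.image α, (lam b * (Finset.univ.filter (fun t => α t = b)).card - κ b)
        ≤ ∑ b ∈ Finset.univ.image α, (a2 * (P2lab (Finset.univ.filter (fun t => α t = b)) (C b)).card +
          a3 * (P3lab (Finset.univ.filter (fun t => α t = b)) (C b)).card) :=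
          Finset.sum_le_sum fun b _ => hC2 b
      _ = a2 * ∑ b ∈ Finset.univ.image α, ((P2lab (Finset.univ.filter (fun t => α t = b)) (C b)).card : ℝ) +
          a3 * ∑ b ∈ Finset.univ.image α, ((P3lab (Finset.univ.filter (fun t => α t = b)) (C b)).card : ℝ) := by
          rw [Finset.sum_add_distrib, ← Finset.mul_sum, ← Finset.mul_sum]
      _ ≤ _ := by gcongr

theorem cast_choose_three (m : ℕ) : ((m.choose 3 : ℕ) : ℝ) = m * (m - 1) * (m - 2) / 6 := by
  induction m with
  | zero => simp
  | succ n ih =>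
    rw [Nat.choose_succ_succ' n 2, Nat.cast_add, ih, Nat.cast_choose_two]
    push_cast
    ring

theorem hgr_ge {b1 b2 D lam γ : ℝ} (hb1 : 0 ≤ b1) (hb2 : 0 ≤ b2) (hD : 0 < D) (hlam : 0 ≤ lam)
    (h : ∀ t : ℝ, 0 ≤ t → lam * t ≤ b1 / 2 * t ^ 2 + b2 / 6 * t ^ 3 + γ) (m : ℕ) :
    lam * m - (2 * lam + D * γ) ≤ hgr (b1 / D) (b2 / D ^ 2) m := by
  have hγ : 0 ≤ γ := by simpa using h 0 le_rfl
  unfold hgr
  rw [Nat.cast_choose_two, cast_choose_three]
  by_cases hm : 2 ≤ m
  · have hm' : (2 : ℝ) ≤ m := by exact_mod_cast hm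
    have h1 := h ((m - 2) / D) (by apply div_nonneg <;> linarith)
    have h2 : lam * (m - 2) ≤ b1 * (m - 2) ^ 2 / (2 * D) + b2 * (m - 2) ^ 3 / (6 * D ^ 2) + D * γ := by
      have h3 := mul_le_mul_of_nonneg_left h1 hD.le
      have e1 : D * (lam * ((m - 2) / D)) = lam * (m - 2) := by field_simp
      have e2 : D * (b1 / 2 * ((m - 2) / D) ^ 2 + b2 / 6 * ((m - 2) / D) ^ 3 + γ) =
          b1 * (m - 2) ^ 2 / (2 * D) + b2 * (m - 2) ^ 3 / (6 * D ^ 2) + D * γ := by
        field_simp
      rw [e1, e2] at h3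
      exact h3
    have h4 : b1 * (m - 2) ^ 2 / (2 * D) ≤ b1 / D * (m * (m - 1) / 2) := by
      have e : b1 / D * (m * (m - 1) / 2) = b1 * (m * (m - 1)) / (2 * D) := by field_simp
      rw [e]
      gcongr
      nlinarith
    have h5 : b2 * (m - 2) ^ 3 / (6 * D ^ 2) ≤ b2 / D ^ 2 * (m * (m - 1) * (m - 2) / 6) := by
      have e : b2 / D ^ 2 * (m * (m - 1) * (m - 2) / 6) = b2 * (m * (m - 1) * (m - 2)) / (6 * D ^ 2) := by
        field_simp
      rw [e]
      gcongr
      have h6 : ((m : ℝ) - 2) ^ 2 ≤ m * (m - 1) := by nlinarith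
      have h7 : (0 : ℝ) ≤ m - 2 := by linarith
      calc ((m : ℝ) - 2) ^ 3 = ((m : ℝ) - 2) ^ 2 * ((m : ℝ) - 2) := by ring
        _ ≤ (m : ℝ) * ((m : ℝ) - 1) * ((m : ℝ) - 2) := mul_le_mul_of_nonneg_right h6 h7
    linarith
  · have hm2 : m < 2 := not_le.mp hm
    have h1 : 0 ≤ b1 / D * ((m : ℝ) * (m - 1) / 2) := by
      interval_cases m <;> simp
    have h2 : 0 ≤ b2 / D ^ 2 * ((m : ℝ) * (m - 1) * (m - 2) / 6) := by
      interval_cases m <;> simp
    have h3 : (m : ℝ) ≤ 1 := by
      have : m ≤ 1 := by omega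
      exact_mod_cast this
    have h4 : 0 ≤ D * γ := by positivity
    nlinarith

theorem hgr_full {b1 b2 D lam Kc : ℝ} {p : ℕ} (hb1 : 0 ≤ b1) (hb2 : 0 ≤ b2) (hD : 0 < D)
    (hK0 : 0 ≤ Kc) (hK : lam ≤ b1 * Kc / 2 + b2 * Kc ^ 2 / 6) (hp : Kc * D + 2 ≤ p) :
    lam * p ≤ hgr (b1 / D) (b2 / D ^ 2) p := by
  unfold hgr
  rw [Nat.cast_choose_two, cast_choose_three]
  have hKD : 0 ≤ Kc * D := by positivity
  have hp0 : (0 : ℝ) ≤ p := by linarith
  have h1 : Kc * D ≤ (p : ℝ) - 2 := by linarith
  have h2 : Kc * D ≤ (p : ℝ) - 1 := by linarith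
  have h3 : b1 * Kc / 2 * p ≤ b1 / D * (p * (p - 1) / 2) := by
    have e : b1 * Kc / 2 * p = b1 / D * (p * (Kc * D) / 2) := by field_simp
    rw [e]
    gcongr
  have h4 : b2 * Kc ^ 2 / 6 * p ≤ b2 / D ^ 2 * (p * (p - 1) * (p - 2) / 6) := by
    have e : b2 * Kc ^ 2 / 6 * p = b2 / D ^ 2 * (p * (Kc * D) * (Kc * D) / 6) := by field_simp
    rw [e]
    have h6 : (p : ℝ) * (Kc * D) * (Kc * D) ≤ p * (p - 1) * (p - 2) := by
      have h7 : (p : ℝ) * (Kc * D) ≤ p * (p - 1) := by gcongr
      have h8 : (0 : ℝ) ≤ p * (p - 1) := le_trans (by positivity) h7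
      exact mul_le_mul h7 h1 hKD h8
    have h9 : 0 ≤ b2 / D ^ 2 := by positivity
    have h10 : (p : ℝ) * (Kc * D) * (Kc * D) / 6 ≤ p * (p - 1) * (p - 2) / 6 := by linarith
    exact mul_le_mul_of_nonneg_left h10 h9
  have h5 := mul_le_mul_of_nonneg_right hK hp0
  linarith

end Count

end Pool.Agent.Helper23.Bose
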