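import Mathlib
import Pool.Agent.Helper23.Bose.Defs
import Pool.Agent.Helper23.Bose.Gen
import Pool.Agent.Helper23.Bose.Boxes
import Pool.Agent.Helper23.Bose.Cluster
import Pool.Agent.Helper23.Bose.Groups

set_option autoImplicit false
open MeasureTheory Module

namespace Pool.Agent.Helper23.Bose

section Uniq

variable {N : ℕ} {κ : Type} [DecidableEq κ]

/-- the other members of the group of `S` -/
def Oth (Γ : Fin N → κ) (S : Finset (Fin N)) : Finset (Fin N) :=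
  Finset.univ.filter (fun t => t ∉ S ∧ ∃ s ∈ S, Γ t = Γ s)

theorem disjoint_Oth (Γ : Fin N → κ) (S : Finset (Fin N)) : Disjoint S (Oth Γ S) := by
  rw [Finset.disjoint_left]
  intro t ht h
  simp only [Oth, Finset.mem_filter] at h
  exact h.2.1 ht

theorem dist_ctr_lt {S : Finset (Fin N)} {x : Fin N → E3} {R : ℝ}
    (h : ∀ t ∈ S, ∀ t' ∈ S, ‖x t - x t'‖ < 2 * R) {i : Fin N} (hi : i ∈ S) :
    ‖x i - ctr S x‖ < 2 * R := by
  have hc : 0 < S.card := Finset.card_pos.mpr ⟨i, hi⟩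
  have hc' : (0 : ℝ) < S.card := by exact_mod_cast hc
  have e : x i - ctr S x = (S.card : ℝ)⁻¹ • ∑ s ∈ S, (x i - x s) := by
    unfold ctr
    rw [Finset.sum_sub_distrib, Finset.sum_const, smul_sub, ← Nat.cast_smul_eq_nsmul ℝ, smul_smul,
      inv_mul_cancel₀ hc'.ne', one_smul]
  rw [e, norm_smul, norm_inv, Real.norm_natCast]
  have h1 : ‖∑ s ∈ S, (x i - x s)‖ < S.card * (2 * R) := by
    refine lt_of_le_of_lt (norm_sum_le _ _) ?_
    calc ∑ s ∈ S, ‖x i - x s‖ < ∑ s ∈ S, (2 * R) :=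
          Finset.sum_lt_sum_of_nonempty ⟨i, hi⟩ fun s hs => h i hi s hs
      _ = _ := by rw [Finset.sum_const, nsmul_eq_mul]
  calc (S.card : ℝ)⁻¹ * ‖∑ s ∈ S, (x i - x s)‖ < (S.card : ℝ)⁻¹ * (S.card * (2 * R)) := by gcongr
    _ = 2 * R := by field_simp

theorem active_unique {Γ : Fin N → κ} {l η R : ℝ} {b b' : Fin 3 → ℤ} {S S' : Finset (Fin N)}
    {x : Fin N → E3} (hS : ∀ t ∈ S, ∀ t' ∈ S, Γ t = Γ t') (hS' : ∀ t ∈ S', ∀ t' ∈ S', Γ t = Γ t')
    (hx : x ∈ Act l η R b S (Oth Γ S)) (hx' : x ∈ Act l η R b' S' (Oth Γ S')) {i : Fin N}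
    (hi : i ∈ S) (hi' : i ∈ S') : S = S' := by
  have key : ∀ {S S' : Finset (Fin N)} {b b' : Fin 3 → ℤ}, (∀ t ∈ S', ∀ t' ∈ S', Γ t = Γ t') →
      x ∈ Act l η R b S (Oth Γ S) → x ∈ Act l η R b' S' (Oth Γ S') → i ∈ S → i ∈ S' → S' ⊆ S := by
    intro S S' b b' hS' hx hx' hi hi' t ht
    by_contra hts
    have h1 : t ∈ Oth Γ S := by
      simp only [Oth, Finset.mem_filter, Finset.mem_univ, true_and]
      exact ⟨hts, i, hi, hS' t ht i hi'⟩
    have h2 := hx.2.2 t h1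
    have h3 := hx'.1 t ht i hi'
    have h4 := dist_ctr_lt hx.1 hi
    have h5 : ‖x t - ctr S x‖ ≤ ‖x t - x i‖ + ‖x i - ctr S x‖ := by
      have : x t - ctr S x = (x t - x i) + (x i - ctr S x) := by abel
      rw [this]; exact norm_add_le _ _
    linarith
  exact Finset.Subset.antisymm (key hS hx' hx hi' hi) (key hS' hx hx' hi hi')

/-- cluster of a pair -/
def cl2 (p : Fin N × Fin N) : Finset (Fin N) := {p.1, p.2}
/-- cluster of a triple -/
def cl3 (p : Fin N × Fin N × Fin N) : Finset (Fin N) := {p.1, p.2.1, p.2.2}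

theorem cl2_inj {p q : Fin N × Fin N} (hp : p.1 < p.2) (hq : q.1 < q.2) (h : cl2 p = cl2 q) :
    p = q := by
  obtain ⟨i, j⟩ := p
  obtain ⟨i', j'⟩ := q
  simp only [cl2, Finset.ext_iff, Finset.mem_insert, Finset.mem_singleton] at h hp hq
  have h1 := h i
  have h2 := h j
  have h3 := h i'
  have h4 := h j'
  simp only [Fin.ext_iff, Fin.lt_def, true_or, or_true, true_iff, iff_true] at h1 h2 h3 h4 hp hq
  simp only [Prod.mk.injEq, Fin.ext_iff]
  omega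

theorem cl3_inj {p q : Fin N × Fin N × Fin N} (hp : p.1 < p.2.1 ∧ p.2.1 < p.2.2)
    (hq : q.1 < q.2.1 ∧ q.2.1 < q.2.2) (h : cl3 p = cl3 q) : p = q := by
  obtain ⟨i, j, k⟩ := p
  obtain ⟨i', j', k'⟩ := q
  simp only [cl3, Finset.ext_iff, Finset.mem_insert, Finset.mem_singleton] at h hp hq
  have h1 := h i
  have h2 := h j
  have h3 := h k
  have h4 := h i'
  have h5 := h j'
  have h6 := h k'
  simp only [Fin.ext_iff, Fin.lt_def, true_or, or_true, true_iff, iff_true] at h1 h2 h3 h4 h5 h6 hp hq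
  simp only [Prod.mk.injEq, Fin.ext_iff]
  omega

theorem card_cl2 {p : Fin N × Fin N} (hp : p.1 < p.2) : (cl2 p).card = 2 :=
  Finset.card_pair hp.ne

theorem card_cl3 {p : Fin N × Fin N × Fin N} (hp : p.1 < p.2.1 ∧ p.2.1 < p.2.2) :
    (cl3 p).card = 3 :=
  Finset.card_eq_three.mpr ⟨p.1, p.2.1, p.2.2, hp.1.ne, (hp.1.trans hp.2).ne, hp.2.ne, rfl⟩

open Classical in
/-- active pairs -/
noncomputable def act2 (Γ : Fin N → κ) (α : Fin N → (Fin 3 → ℤ)) (l η R : ℝ) (x : Fin N → E3) :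
    Finset (Fin N × Fin N) :=
  (P2lab Finset.univ Γ).filter (fun p => x ∈ Act l η R (α p.1) (cl2 p) (Oth Γ (cl2 p)))

open Classical in
/-- active triples -/
noncomputable def act3 (Γ : Fin N → κ) (α : Fin N → (Fin 3 → ℤ)) (l η R : ℝ) (x : Fin N → E3) :
    Finset (Fin N × Fin N × Fin N) :=
  (P3lab Finset.univ Γ).filter (fun p => x ∈ Act l η R (α p.1) (cl3 p) (Oth Γ (cl3 p)))

/-- active clusters -/
noncomputable def actS (Γ : Fin N → κ) (α : Fin N → (Fin 3 → ℤ)) (l η R : ℝ) (x : Fin N → E3) :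
    Finset (Finset (Fin N)) :=
  (act2 Γ α l η R x).image cl2 ∪ (act3 Γ α l η R x).image cl3

theorem mem_act2 {Γ : Fin N → κ} {α : Fin N → (Fin 3 → ℤ)} {l η R : ℝ} {x : Fin N → E3}
    {p : Fin N × Fin N} : p ∈ act2 Γ α l η R x ↔ p.1 < p.2 ∧ Γ p.1 = Γ p.2 ∧
      x ∈ Act l η R (α p.1) (cl2 p) (Oth Γ (cl2 p)) := by
  simp [act2, P2lab, mem_P2set, and_assoc]

theorem mem_act3 {Γ : Fin N → κ} {α : Fin N → (Fin 3 → ℤ)} {l η R : ℝ} {x : Fin N → E3}
    {p : Fin N × Fin N × Fin N} : p ∈ act3 Γ α l η R x ↔ p.1 < p.2.1 ∧ p.2.1 < p.2.2 ∧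
      Γ p.1 = Γ p.2.1 ∧ Γ p.2.1 = Γ p.2.2 ∧
      x ∈ Act l η R (α p.1) (cl3 p) (Oth Γ (cl3 p)) := by
  simp [act3, P3lab, mem_P3set, and_assoc]

theorem actS_spec {Γ : Fin N → κ} {α : Fin N → (Fin 3 → ℤ)} {l η R : ℝ} {x : Fin N → E3}
    (hαΓ : ∀ t t', Γ t = Γ t' → α t = α t')
    {S : Finset (Fin N)} (hS : S ∈ actS Γ α l η R x) :
    2 ≤ S.card ∧ (∀ t ∈ S, ∀ t' ∈ S, Γ t = Γ t') ∧
      (∀ t ∈ S, x ∈ Act l η R (α t) S (Oth Γ S)) := by
  simp only [actS, Finset.mem_union, Finset.mem_image] at hS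
  rcases hS with ⟨p, hp, rfl⟩ | ⟨p, hp, rfl⟩
  · rw [mem_act2] at hp
    obtain ⟨h1, h2, h3⟩ := hp
    have hΓ : ∀ t ∈ cl2 p, Γ t = Γ p.1 := by
      intro t ht
      simp only [cl2, Finset.mem_insert, Finset.mem_singleton] at ht
      rcases ht with rfl | rfl
      · rfl
      · exact h2.symm
    refine ⟨by rw [card_cl2 h1], fun t ht t' ht' => (hΓ t ht).trans (hΓ t' ht').symm, fun t ht => ?_⟩
    rw [hαΓ t p.1 (hΓ t ht)]
    exact h3
  · rw [mem_act3] at hp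
    obtain ⟨h1, h2, h3, h4, h5⟩ := hp
    have hΓ : ∀ t ∈ cl3 p, Γ t = Γ p.1 := by
      intro t ht
      simp only [cl3, Finset.mem_insert, Finset.mem_singleton] at ht
      rcases ht with rfl | rfl | rfl
      · rfl
      · exact h3.symm
      · exact (h3.trans h4).symm
    refine ⟨by rw [card_cl3 ⟨h1, h2⟩]; norm_num, fun t ht t' ht' => (hΓ t ht).trans (hΓ t' ht').symm,
      fun t ht => ?_⟩
    rw [hαΓ t p.1 (hΓ t ht)]
    exact h5

open Classical in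
/-- kinetic energies used by the active clusters -/
theorem act_sum_le {Γ : Fin N → κ} {α : Fin N → (Fin 3 → ℤ)} {l η R : ℝ} {x : Fin N → E3}
    (hαΓ : ∀ t t', Γ t = Γ t' → α t = α t') (K : Fin N → ℝ) (hK : ∀ t, 0 ≤ K t) :
    ∑ p ∈ act2 Γ α l η R x, ∑ t ∈ cl2 p, K t + ∑ p ∈ act3 Γ α l η R x, ∑ t ∈ cl3 p, K t ≤
      ∑ t, (if ∃ S ∈ actS Γ α l η R x, t ∈ S then K t else 0) := by
  have h2 : ∑ p ∈ act2 Γ α l η R x, ∑ t ∈ cl2 p, K t =
      ∑ S ∈ (act2 Γ α l η R x).image cl2, ∑ t ∈ S, K t := by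
    rw [Finset.sum_image]
    intro p hp q hq hpq
    rw [Finset.mem_coe, mem_act2] at hp hq
    exact cl2_inj hp.1 hq.1 hpq
  have h3 : ∑ p ∈ act3 Γ α l η R x, ∑ t ∈ cl3 p, K t =
      ∑ S ∈ (act3 Γ α l η R x).image cl3, ∑ t ∈ S, K t := by
    rw [Finset.sum_image]
    intro p hp q hq hpq
    rw [Finset.mem_coe, mem_act3] at hp hq
    exact cl3_inj ⟨hp.1, hp.2.1⟩ ⟨hq.1, hq.2.1⟩ hpq
  have hd : Disjoint ((act2 Γ α l η R x).image cl2) ((act3 Γ α l η R x).image cl3) := by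
    rw [Finset.disjoint_left]
    intro S hS hS'
    rw [Finset.mem_image] at hS hS'
    obtain ⟨p, hp, rfl⟩ := hS
    obtain ⟨q, hq, hqp⟩ := hS'
    rw [mem_act2] at hp
    rw [mem_act3] at hq
    have c1 := card_cl2 hp.1
    have c2 := card_cl3 ⟨hq.1, hq.2.1⟩
    rw [hqp] at c2
    omega
  rw [h2, h3, ← Finset.sum_union hd]
  change ∑ S ∈ actS Γ α l η R x, ∑ t ∈ S, K t ≤ _
  have h4 : ∑ S ∈ actS Γ α l η R x, ∑ t ∈ S, K t =
      ∑ t, ∑ S ∈ (actS Γ α l η R x).filter (fun S => t ∈ S), K t := by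
    have h5 : ∀ S : Finset (Fin N), ∑ t ∈ S, K t = ∑ t, if t ∈ S then K t else 0 := by
      intro S
      rw [← Finset.sum_filter]
      congr 1
      ext t; simp
    simp_rw [h5]
    rw [Finset.sum_comm]
    refine Finset.sum_congr rfl fun t _ => ?_
    rw [Finset.sum_filter]
  rw [h4]
  refine Finset.sum_le_sum fun t _ => ?_
  rw [Finset.sum_const, nsmul_eq_mul]
  have hcard : ((actS Γ α l η R x).filter (fun S => t ∈ S)).card ≤ 1 := by
    rw [Finset.card_le_one]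
    intro S hS S' hS'
    rw [Finset.mem_filter] at hS hS'
    obtain ⟨_, a2, a3⟩ := actS_spec hαΓ hS.1
    obtain ⟨_, b2, b3⟩ := actS_spec hαΓ hS'.1
    exact active_unique a2 b2 (a3 t hS.2) (b3 t hS'.2) hS.2 hS'.2
  by_cases hex : ∃ S ∈ actS Γ α l η R x, t ∈ S
  · rw [if_pos hex]
    have : (((actS Γ α l η R x).filter (fun S => t ∈ S)).card : ℝ) ≤ 1 := by exact_mod_cast hcard
    have := hK t
    nlinarith
  · rw [if_neg hex]
    have : (actS Γ α l η R x).filter (fun S => t ∈ S) = ∅ := by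
      rw [Finset.filter_eq_empty_iff]
      intro S hS ht
      exact hex ⟨S, hS, ht⟩
    rw [this]
    simp

/-- a particle in an active cluster is close to another member of its group -/
theorem active_near {Γ : Fin N → κ} {α : Fin N → (Fin 3 → ℤ)} {l η R : ℝ} {x : Fin N → E3}
    (hαΓ : ∀ t t', Γ t = Γ t' → α t = α t') {t : Fin N}
    (h : ∃ S ∈ actS Γ α l η R x, t ∈ S) :
    ∃ j, j ≠ t ∧ Γ j = Γ t ∧ ‖x t - x j‖ < 2 * R ∧ x t ∈ SBox l (η - 2 * R) (α t) := by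
  obtain ⟨S, hS, ht⟩ := h
  obtain ⟨h1, h2, h3⟩ := actS_spec hαΓ hS
  have hx := h3 t ht
  obtain ⟨j, hj, hjt⟩ := Finset.exists_mem_ne (by omega : 1 < S.card) t
  refine ⟨j, hjt, h2 j hj t ht, hx.1 t ht j hj, ?_⟩
  have h4 := dist_ctr_lt hx.1 ht
  have h5 : x t = ctr S x + (x t - ctr S x) := by abel
  rw [h5]
  exact SBox_add_mem' hx.2.1 (by linarith)

end Uniq

section HardyOne

variable {N : ℕ}

theorem fderiv_update {ψ : (Fin N → E3) → ℂ} (hψ : Differentiable ℝ ψ) (x : Fin N → E3)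
    (t : Fin N) (y : E3) :
    ‖fderiv ℝ (fun y => ψ (Function.update x t y)) y‖ ^ 2 ≤ gradi ψ t (Function.update x t y) := by
  have h1 : HasFDerivAt (fun y : E3 => Function.update x t y)
      (ContinuousLinearMap.single ℝ (fun _ : Fin N => E3) t) y := by
    have h0 := hasFDerivAt_update (𝕜 := ℝ) x (i := t) y
    have e : ContinuousLinearMap.pi (Pi.single t (ContinuousLinearMap.id ℝ E3)) =
        ContinuousLinearMap.single ℝ (fun _ : Fin N => E3) t := by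
      ext v s k
      by_cases hs : s = t
      · subst hs; simp
      · simp [Pi.single_eq_of_ne hs]
    rw [← e]
    exact h0
  have h2 : HasFDerivAt (fun y => ψ (Function.update x t y))
      ((fderiv ℝ ψ (Function.update x t y)).comp
        (ContinuousLinearMap.single ℝ (fun _ : Fin N => E3) t)) y :=
    (hψ _).hasFDerivAt.comp y h1
  rw [h2.fderiv]
  have h3 : ‖(fderiv ℝ ψ (Function.update x t y)).comp
        (ContinuousLinearMap.single ℝ (fun _ : Fin N => E3) t)‖ ≤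
      Real.sqrt (gradi ψ t (Function.update x t y)) := by
    refine ContinuousLinearMap.opNorm_le_bound _ (Real.sqrt_nonneg _) fun v => ?_
    have := clm_single_le (fderiv ℝ ψ (Function.update x t y)) t v
    rw [mul_comm]
    exact this
  calc _ ≤ Real.sqrt (gradi ψ t (Function.update x t y)) ^ 2 := by gcongr
    _ = _ := Real.sq_sqrt (gradi_nonneg _ _ _)

theorem hardy_one {CB : ℝ}
    (hHB : ∀ (z : E3) (R ρ : ℝ), 0 < R → 2 * R ≤ ρ → ∀ g : E3 → ℂ, ContDiff ℝ 1 g →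
      ∫⁻ r in Metric.ball z R, ‖g r‖ₑ ^ 2 ∂volume ≤
        ENNReal.ofReal (CB * R ^ 2) * (∫⁻ r in Metric.ball z ρ, ‖fderiv ℝ g r‖ₑ ^ 2 ∂volume
          + ENNReal.ofReal ((ρ ^ 2)⁻¹) * ∫⁻ r in Metric.ball z ρ, ‖g r‖ₑ ^ 2 ∂volume))
    {l η R : ℝ} (hR : 0 < R) (hη : 8 * R ≤ η) (b : Fin 3 → ℤ) (y : E3) {g : E3 → ℂ}
    (hg : ContDiff ℝ 1 g) :
    ∫⁻ r in {r | r ∈ SBox l η b ∧ ‖r - y‖ < 2 * R}, ‖g r‖ₑ ^ 2 ≤
      ENNReal.ofReal (CB * (4 * R) ^ 2) * ((∫⁻ r in Box l b, ‖fderiv ℝ g r‖ₑ ^ 2)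
        + ENNReal.ofReal ((η ^ 2)⁻¹) * ∫⁻ r in Box l b, ‖g r‖ₑ ^ 2) := by
  by_cases hne : ({r | r ∈ SBox l η b ∧ ‖r - y‖ < 2 * R} : Set E3).Nonempty
  · obtain ⟨z, hz1, hz2⟩ := hne
    have h1 : ({r | r ∈ SBox l η b ∧ ‖r - y‖ < 2 * R} : Set E3) ⊆ Metric.ball z (4 * R) := by
      rintro r ⟨_, hr⟩
      rw [Metric.mem_ball, dist_eq_norm]
      have : r - z = (r - y) - (z - y) := by abel
      rw [this]
      refine lt_of_le_of_lt (norm_sub_le _ _) ?_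
      linarith
    have h2 : Metric.ball z η ⊆ Box l b := by
      intro r hr
      rw [Metric.mem_ball, dist_eq_norm] at hr
      have : r = z + (r - z) := by abel
      rw [this]
      exact SBox_add_mem hz1 hr
    calc ∫⁻ r in {r | r ∈ SBox l η b ∧ ‖r - y‖ < 2 * R}, ‖g r‖ₑ ^ 2
        ≤ ∫⁻ r in Metric.ball z (4 * R), ‖g r‖ₑ ^ 2 := lintegral_mono_set h1
      _ ≤ ENNReal.ofReal (CB * (4 * R) ^ 2) * (∫⁻ r in Metric.ball z η, ‖fderiv ℝ g r‖ₑ ^ 2 ∂volume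
          + ENNReal.ofReal ((η ^ 2)⁻¹) * ∫⁻ r in Metric.ball z η, ‖g r‖ₑ ^ 2 ∂volume) :=
          hHB z (4 * R) η (by linarith) (by linarith) g hg
      _ ≤ _ := by
          gcongr
  · rw [Set.not_nonempty_iff_eq_empty] at hne
    rw [hne]
    simp

end HardyOne

end Pool.Agent.Helper23.Bose
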