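import Mathlib
import Pool.Agent.Helper23.Bose.Defs
import Pool.Agent.Helper23.Bose.Gen
import Pool.Agent.Helper23.Bose.Boxes
import Pool.Agent.Helper23.Bose.Chart

set_option autoImplicit false
open MeasureTheory Module

namespace Pool.Agent.Helper23.Bose

section CV

theorem cv2 {Φ : E3 × E3 → ENNReal} (hΦ : Measurable Φ) :
    ∫⁻ u : E3, ∫⁻ v : E3, Φ (u, v) =
      ∫⁻ p : E3 × E3, Φ (p.1 + (1 / 2 : ℝ) • p.2, p.1 - (1 / 2 : ℝ) • p.2) := by
  have hm : Measurable (fun p : E3 × E3 => Φ (p.1 + (1 / 2 : ℝ) • p.2, p.1 - (1 / 2 : ℝ) • p.2)) :=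
    hΦ.comp (by fun_prop)
  have h1 : ∫⁻ p : E3 × E3, Φ (p.1 + (1 / 2 : ℝ) • p.2, p.1 - (1 / 2 : ℝ) • p.2) =
      ∫⁻ X : E3, ∫⁻ r : E3, Φ (X + (1 / 2 : ℝ) • r, X - (1 / 2 : ℝ) • r) :=
    lintegral_prod _ hm.aemeasurable
  have h1' : ∫⁻ X : E3, ∫⁻ r : E3, Φ (X + (1 / 2 : ℝ) • r, X - (1 / 2 : ℝ) • r) =
      ∫⁻ r : E3, ∫⁻ X : E3, Φ (X + (1 / 2 : ℝ) • r, X - (1 / 2 : ℝ) • r) :=
    lintegral_lintegral_swap hm.aemeasurable
  have h2 : ∀ r : E3, ∫⁻ X : E3, Φ (X + (1 / 2 : ℝ) • r, X - (1 / 2 : ℝ) • r) =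
      ∫⁻ u : E3, Φ (u, u - r) := by
    intro r
    rw [← lintegral_add_right_eq_self (fun u => Φ (u, u - r)) ((1 / 2 : ℝ) • r)]
    congr 1
    ext X
    have e : X + (1 / 2 : ℝ) • r - r = X - (1 / 2 : ℝ) • r := by module
    rw [e]
  have hm2 : Measurable (fun p : E3 × E3 => Φ (p.2, p.2 - p.1)) := hΦ.comp (by fun_prop)
  have h3 : ∫⁻ r : E3, ∫⁻ u : E3, Φ (u, u - r) = ∫⁻ u : E3, ∫⁻ r : E3, Φ (u, u - r) :=
    lintegral_lintegral_swap hm2.aemeasurable
  rw [h1, h1']
  simp_rw [h2]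
  rw [h3]
  congr 1
  ext u
  rw [lintegral_sub_left_eq_self (fun v => Φ (u, v)) u]

theorem cv3 {Φ : E3 × E3 × E3 → ENNReal} (hΦ : Measurable Φ) :
    ∫⁻ u : E3, ∫⁻ v : E3, ∫⁻ t : E3, Φ (u, v, t) =
      ∫⁻ p : E3 × (E3 × E3), Φ (p.1 + (1 / 3 : ℝ) • (p.2.1 + p.2.2),
        p.1 + (1 / 3 : ℝ) • (p.2.1 + p.2.2) - p.2.1, p.1 + (1 / 3 : ℝ) • (p.2.1 + p.2.2) - p.2.2) := by
  have hm : Measurable (fun p : E3 × (E3 × E3) => Φ (p.1 + (1 / 3 : ℝ) • (p.2.1 + p.2.2),
        p.1 + (1 / 3 : ℝ) • (p.2.1 + p.2.2) - p.2.1, p.1 + (1 / 3 : ℝ) • (p.2.1 + p.2.2) - p.2.2)) :=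
    hΦ.comp (by fun_prop)
  have h1 : ∫⁻ p : E3 × (E3 × E3), Φ (p.1 + (1 / 3 : ℝ) • (p.2.1 + p.2.2),
        p.1 + (1 / 3 : ℝ) • (p.2.1 + p.2.2) - p.2.1, p.1 + (1 / 3 : ℝ) • (p.2.1 + p.2.2) - p.2.2) =
      ∫⁻ X : E3, ∫⁻ r : E3 × E3, Φ (X + (1 / 3 : ℝ) • (r.1 + r.2),
        X + (1 / 3 : ℝ) • (r.1 + r.2) - r.1, X + (1 / 3 : ℝ) • (r.1 + r.2) - r.2) :=
    lintegral_prod _ hm.aemeasurable
  have h1' : ∫⁻ X : E3, ∫⁻ r : E3 × E3, Φ (X + (1 / 3 : ℝ) • (r.1 + r.2),
        X + (1 / 3 : ℝ) • (r.1 + r.2) - r.1, X + (1 / 3 : ℝ) • (r.1 + r.2) - r.2) =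
      ∫⁻ r : E3 × E3, ∫⁻ X : E3, Φ (X + (1 / 3 : ℝ) • (r.1 + r.2),
        X + (1 / 3 : ℝ) • (r.1 + r.2) - r.1, X + (1 / 3 : ℝ) • (r.1 + r.2) - r.2) :=
    lintegral_lintegral_swap hm.aemeasurable
  have h2 : ∀ r : E3 × E3, ∫⁻ X : E3, Φ (X + (1 / 3 : ℝ) • (r.1 + r.2),
        X + (1 / 3 : ℝ) • (r.1 + r.2) - r.1, X + (1 / 3 : ℝ) • (r.1 + r.2) - r.2) =
      ∫⁻ u : E3, Φ (u, u - r.1, u - r.2) := by
    intro r
    rw [← lintegral_add_right_eq_self (fun u => Φ (u, u - r.1, u - r.2)) ((1 / 3 : ℝ) • (r.1 + r.2))]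
  have hm2 : Measurable (fun p : (E3 × E3) × E3 => Φ (p.2, p.2 - p.1.1, p.2 - p.1.2)) :=
    hΦ.comp (by fun_prop)
  have h2' : ∫⁻ r : E3 × E3, ∫⁻ u : E3, Φ (u, u - r.1, u - r.2) =
      ∫⁻ u : E3, ∫⁻ r : E3 × E3, Φ (u, u - r.1, u - r.2) :=
    lintegral_lintegral_swap hm2.aemeasurable
  rw [h1, h1']
  simp_rw [h2]
  rw [h2']
  congr 1
  ext u
  have hm3 : Measurable (fun r : E3 × E3 => Φ (u, u - r.1, u - r.2)) := hΦ.comp (by fun_prop)
  have h3 : ∫⁻ r : E3 × E3, Φ (u, u - r.1, u - r.2) =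
      ∫⁻ r1 : E3, ∫⁻ r2 : E3, Φ (u, u - r1, u - r2) := lintegral_prod _ hm3.aemeasurable
  rw [h3]
  have h4 : ∀ r1 : E3, ∫⁻ r2 : E3, Φ (u, u - r1, u - r2) = ∫⁻ t : E3, Φ (u, u - r1, t) := by
    intro r1
    exact lintegral_sub_left_eq_self (fun t => Φ (u, u - r1, t)) u
  simp_rw [h4]
  exact (lintegral_sub_left_eq_self (fun v => ∫⁻ t : E3, Φ (u, v, t)) u).symm

end CV

section Pair

variable {N : ℕ}

/-- the pair chart -/
noncomputable def apair (i : Fin N) : Fin N → (E3 × E3 →L[ℝ] E3) := fun t =>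
  if t = i then ContinuousLinearMap.fst ℝ E3 E3 + (1 / 2 : ℝ) • ContinuousLinearMap.snd ℝ E3 E3
  else ContinuousLinearMap.fst ℝ E3 E3 - (1 / 2 : ℝ) • ContinuousLinearMap.snd ℝ E3 E3

theorem apair_i (i : Fin N) (p : E3 × E3) : apair i i p = p.1 + (1 / 2 : ℝ) • p.2 := by
  simp [apair]

theorem apair_j {i j : Fin N} (h : i ≠ j) (p : E3 × E3) :
    apair i j p = p.1 - (1 / 2 : ℝ) • p.2 := by
  simp [apair, h.symm]

theorem norm_half_smul (r : E3) : ‖(1 / 2 : ℝ) • r‖ = ‖r‖ / 2 := by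
  rw [norm_smul]; norm_num; ring

theorem chart_pair {i j : Fin N} (h : i ≠ j) (W : E3 → ℝ) (hWm : Measurable W)
    (hW0 : ∀ x, 0 ≤ W x) (s : ℝ) :
    Chart {i, j} (apair i) wpair W s 3 (fun x => s ^ 2 * W (s • (x i - x j))) := by
  have hcard : ({i, j} : Finset (Fin N)).card = 2 := Finset.card_pair h
  have hdiff : ∀ p : E3 × E3, apair i i p - apair i j p = p.2 := by
    intro p
    rw [apair_i, apair_j h]
    module
  refine ⟨by rw [hcard]; norm_num, by rw [hcard], ?_, ?_, ?_, ?_, ?_, ?_, ?_, ?_, ?_, ?_⟩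
  · intro t ht p
    have h1 : ‖p.1‖ ≤ ‖p‖ := norm_fst_le p
    have h2 : ‖p.2‖ ≤ ‖p‖ := norm_snd_le p
    rw [Finset.mem_insert, Finset.mem_singleton] at ht
    rcases ht with rfl | rfl
    · rw [apair_i]
      refine (norm_add_le _ _).trans ?_
      rw [norm_half_smul]
      linarith [norm_nonneg p]
    · rw [apair_j h]
      refine (norm_sub_le _ _).trans ?_
      rw [norm_half_smul]
      linarith [norm_nonneg p]
  · intro p c hc
    have h1 := hc i (by simp)
    have h2 := hc j (by simp)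
    have e1 : p.1 = (1 / 2 : ℝ) • (apair i i p + apair i j p) := by
      rw [apair_i, apair_j h]
      module
    have e2 := hdiff p
    have h3 : ‖p.1‖ ≤ c := by
      rw [e1, norm_smul]
      have := norm_add_le (apair i i p) (apair i j p)
      norm_num
      linarith
    have h4 : ‖p.2‖ ≤ 2 * c := by
      rw [← e2]
      have := norm_sub_le (apair i i p) (apair i j p)
      linarith
    have hc0 : 0 ≤ c := (norm_nonneg _).trans h3
    rw [Prod.norm_def]
    exact max_le (by linarith) h4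
  · intro p t ht t' ht'
    have h0 := norm_nonneg p.2
    rw [Finset.mem_insert, Finset.mem_singleton] at ht ht'
    rcases ht with rfl | rfl <;> rcases ht' with rfl | rfl
    · simp
    · rw [hdiff]; linarith
    · rw [← norm_neg, neg_sub, hdiff]; linarith
    · simp
  · intro p
    rw [hcard, Finset.sum_pair h, apair_i, apair_j h]
    push_cast
    module
  · intro p t ht
    have h0 := norm_nonneg p.2
    rw [Finset.mem_insert, Finset.mem_singleton] at ht
    rcases ht with rfl | rfl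
    · rw [apair_i]
      have e : p.1 + (1 / 2 : ℝ) • p.2 - p.1 = (1 / 2 : ℝ) • p.2 := by abel
      rw [e, norm_half_smul]; linarith
    · rw [apair_j h]
      have e : p.1 - (1 / 2 : ℝ) • p.2 - p.1 = -((1 / 2 : ℝ) • p.2) := by abel
      rw [e, norm_neg, norm_half_smul]; linarith
  · intro B
    have hB : ∀ k : Fin 3, B (fun t => if t ∈ ({i, j} : Finset (Fin N)) then apair i t (0, ek k) else 0) =
        (1 / 2 : ℝ) • (B (Pi.single i (ek k)) - B (Pi.single j (ek k))) := by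
      intro k
      rw [pi_sum_single {i, j} (fun t => apair i t (0, ek k)), Finset.sum_pair h, map_add, apair_i,
        apair_j h]
      have e1 : (Pi.single i ((0 : E3 × E3).1 + (1 / 2 : ℝ) • (((0 : E3), ek k) : E3 × E3).2) : Fin N → E3) =
          (1 / 2 : ℝ) • Pi.single i (ek k) := by
        rw [← Pi.single_smul]; simp
      have e2 : (Pi.single j ((0 : E3 × E3).1 - (1 / 2 : ℝ) • (((0 : E3), ek k) : E3 × E3).2) : Fin N → E3) =
          -((1 / 2 : ℝ) • Pi.single j (ek k)) := by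
        rw [← Pi.single_smul, ← Pi.single_neg]; simp
      have e1' : (Pi.single i ((((0 : E3), ek k) : E3 × E3).1 + (1 / 2 : ℝ) • (((0 : E3), ek k) : E3 × E3).2) : Fin N → E3) =
          (1 / 2 : ℝ) • Pi.single i (ek k) := e1
      have e2' : (Pi.single j ((((0 : E3), ek k) : E3 × E3).1 - (1 / 2 : ℝ) • (((0 : E3), ek k) : E3 × E3).2) : Fin N → E3) =
          -((1 / 2 : ℝ) • Pi.single j (ek k)) := e2
      rw [e1', e2', map_neg, map_smul, map_smul]
      module
    rw [Finset.sum_pair h, Fintype.sum_prod_type]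
    simp only [wpair, hB]
    rw [Finset.sum_const, Finset.card_univ, Fintype.card_fin, nsmul_eq_mul, Finset.mul_sum,
      ← Finset.sum_add_distrib]
    refine Finset.sum_le_sum fun k _ => ?_
    rw [norm_smul, mul_pow]
    have h1 : ‖B (Pi.single i (ek k)) - B (Pi.single j (ek k))‖ ^ 2 ≤
        2 * ‖B (Pi.single i (ek k))‖ ^ 2 + 2 * ‖B (Pi.single j (ek k))‖ ^ 2 := by
      have h2 := norm_sub_le (B (Pi.single i (ek k))) (B (Pi.single j (ek k)))
      have h3 : ‖B (Pi.single i (ek k)) - B (Pi.single j (ek k))‖ ^ 2 ≤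
          (‖B (Pi.single i (ek k))‖ + ‖B (Pi.single j (ek k))‖) ^ 2 := by gcongr
      nlinarith [sq_nonneg (‖B (Pi.single i (ek k))‖ - ‖B (Pi.single j (ek k))‖)]
    have h4 : ‖(1 / 2 : ℝ)‖ ^ 2 = 1 / 4 := by norm_num
    rw [h4]
    push_cast
    linarith
  · intro x B μ f hσ hB hμ hf
    have hi : i ∉ ({j} : Finset (Fin N)) := by simpa using h
    rw [lmarginal_insert f hf hi]
    simp only [lmarginal_singleton]
    rw [hμ i (by simp), hμ j (by simp)]
    have hupd : Measurable (fun q : E3 × E3 => Function.update (Function.update x i q.1) j q.2) := by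
      refine measurable_pi_iff.mpr fun t => ?_
      by_cases h1 : t = j
      · subst h1; simp; exact measurable_snd
      · by_cases h2 : t = i
        · subst h2
          simp [Function.update_of_ne h1]; exact measurable_fst
        · simp [Function.update_of_ne h1, Function.update_of_ne h2]
    obtain ⟨Φ, hΦ⟩ : ∃ Φ : E3 × E3 → ENNReal, Φ = fun q => (B ×ˢ B).indicator
      (fun q => f (Function.update (Function.update x i q.1) j q.2)) q := ⟨_, rfl⟩
    have hΦm : Measurable Φ := by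
      rw [hΦ]
      exact (hf.comp hupd).indicator (hB.prod hB)
    have hL : ∫⁻ u in B, ∫⁻ v in B, f (Function.update (Function.update x i u) j v) =
        ∫⁻ u, ∫⁻ v, Φ (u, v) := by
      rw [← lintegral_indicator hB]
      congr 1
      ext u
      by_cases hu : u ∈ B
      · rw [Set.indicator_of_mem hu, ← lintegral_indicator hB]
        congr 1
        ext v
        rw [hΦ]
        by_cases hv : v ∈ B
        · simp [hu, hv]
        · simp [hu, hv]
      · rw [Set.indicator_of_notMem hu]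
        rw [hΦ]
        simp [hu]
    rw [hL, cv2 hΦm]
    have hset : MeasurableSet {p : E3 × E3 | ∀ t ∈ ({i, j} : Finset (Fin N)), apair i t p ∈ B} := by
      have : {p : E3 × E3 | ∀ t ∈ ({i, j} : Finset (Fin N)), apair i t p ∈ B} =
          ⋂ t ∈ ({i, j} : Finset (Fin N)), (apair i t) ⁻¹' B := by ext p; simp
      rw [this]
      exact Finset.measurableSet_biInter _ fun t _ => (apair i t).continuous.measurable hB
    rw [← lintegral_indicator hset]
    congr 1
    ext p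
    have hA : Function.update (Function.update x i (apair i i p)) j (apair i j p) =
        Amap {i, j} (apair i) x p := by
      ext1 t
      by_cases h1 : t = j
      · subst h1; simp [Amap]
      · by_cases h2 : t = i
        · subst h2
          simp [Amap, Function.update_of_ne h1]
        · simp [Amap, h1, h2]
    rw [hΦ]
    simp only
    rw [← apair_i i p, ← apair_j h p]
    by_cases hp : p ∈ {p : E3 × E3 | ∀ t ∈ ({i, j} : Finset (Fin N)), apair i t p ∈ B}
    · have h1 : apair i i p ∈ B := hp i (by simp)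
      have h2 : apair i j p ∈ B := hp j (by simp)
      rw [Set.indicator_of_mem hp, Set.indicator_of_mem (Set.mk_mem_prod h1 h2), hA]
    · rw [Set.indicator_of_notMem hp, Set.indicator_of_notMem]
      intro h3
      apply hp
      intro t ht
      rw [Finset.mem_insert, Finset.mem_singleton] at ht
      rcases ht with rfl | rfl
      · exact h3.1
      · exact h3.2
  · intro x p
    have h1 : Amap {i, j} (apair i) x p i = apair i i p := by simp [Amap]
    have h2 : Amap {i, j} (apair i) x p j = apair i j p := by simp [Amap]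
    rw [h1, h2, hdiff]
  · exact (hWm.comp (by fun_prop)).const_mul _
  · intro x
    exact mul_nonneg (sq_nonneg _) (hW0 _)

end Pair

end Pool.Agent.Helper23.Bose
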