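import Mathlib
import Pool.Agent.Helper23.Bose.Defs
import Pool.Agent.Helper23.Bose.Gen
import Pool.Agent.Helper23.Bose.Boxes
import Pool.Agent.Helper23.Bose.Chart
import Pool.Agent.Helper23.Bose.Charts

set_option autoImplicit false
open MeasureTheory Module

namespace Pool.Agent.Helper23.Bose

section Trip

variable {N : ℕ}

/-- first relative coordinate -/
noncomputable def r1L : E3 × (E3 × E3) →L[ℝ] E3 :=
  (ContinuousLinearMap.fst ℝ E3 E3).comp (ContinuousLinearMap.snd ℝ E3 (E3 × E3))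
/-- second relative coordinate -/
noncomputable def r2L : E3 × (E3 × E3) →L[ℝ] E3 :=
  (ContinuousLinearMap.snd ℝ E3 E3).comp (ContinuousLinearMap.snd ℝ E3 (E3 × E3))
/-- base particle -/
noncomputable def baseL : E3 × (E3 × E3) →L[ℝ] E3 :=
  ContinuousLinearMap.fst ℝ E3 (E3 × E3) + (1 / 3 : ℝ) • (r1L + r2L)

/-- the triple chart -/
noncomputable def atrip (i j : Fin N) : Fin N → (E3 × (E3 × E3) →L[ℝ] E3) := fun t =>
  if t = i then baseL else if t = j then baseL - r1L else baseL - r2L

theorem baseL_apply (p : E3 × (E3 × E3)) : baseL p = p.1 + (1 / 3 : ℝ) • (p.2.1 + p.2.2) := rfl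
theorem r1L_apply (p : E3 × (E3 × E3)) : r1L p = p.2.1 := rfl
theorem r2L_apply (p : E3 × (E3 × E3)) : r2L p = p.2.2 := rfl

theorem atrip_i (i j : Fin N) (p : E3 × (E3 × E3)) :
    atrip i j i p = p.1 + (1 / 3 : ℝ) • (p.2.1 + p.2.2) := by
  simp [atrip, baseL_apply]

theorem atrip_j {i j : Fin N} (h : i ≠ j) (p : E3 × (E3 × E3)) :
    atrip i j j p = p.1 + (1 / 3 : ℝ) • (p.2.1 + p.2.2) - p.2.1 := by
  simp [atrip, h.symm, baseL_apply, r1L_apply]

theorem atrip_k {i j k : Fin N} (hik : i ≠ k) (hjk : j ≠ k) (p : E3 × (E3 × E3)) :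
    atrip i j k p = p.1 + (1 / 3 : ℝ) • (p.2.1 + p.2.2) - p.2.2 := by
  simp [atrip, hik.symm, hjk.symm, baseL_apply, r2L_apply]

theorem sum_triple {M : Type*} [AddCommMonoid M] {i j k : Fin N} (hij : i ≠ j) (hik : i ≠ k)
    (hjk : j ≠ k) (f : Fin N → M) : ∑ t ∈ ({i, j, k} : Finset (Fin N)), f t = f i + (f j + f k) := by
  rw [Finset.sum_insert (by simp [hij, hik]), Finset.sum_pair hjk]

theorem form_alg (α β γ : ℂ) :
    ‖(1 / 3 : ℝ) • (α - (2 : ℝ) • β + γ)‖ ^ 2 + ‖(1 / 3 : ℝ) • (α + β - (2 : ℝ) • γ)‖ ^ 2 +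
      ‖(1 / 3 : ℝ) • ((2 : ℝ) • α - β - γ)‖ ^ 2 ≤ ‖α‖ ^ 2 + (‖β‖ ^ 2 + ‖γ‖ ^ 2) := by
  have h : ∀ z : ℂ, ‖z‖ ^ 2 = z.re ^ 2 + z.im ^ 2 := fun z => by
    rw [← Complex.normSq_eq_norm_sq, Complex.normSq_apply]; ring
  simp only [h]
  simp only [Complex.smul_re, Complex.smul_im, Complex.add_re, Complex.add_im, Complex.sub_re,
    Complex.sub_im, smul_eq_mul]
  nlinarith [sq_nonneg (α.re + β.re + γ.re), sq_nonneg (α.im + β.im + γ.im)]

theorem chart_triple {i j k : Fin N} (hij : i ≠ j) (hik : i ≠ k) (hjk : j ≠ k)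
    (V : E3 × E3 → ℝ) (hVm : Measurable V)
    (hV0 : ∀ x, 0 ≤ V x) (s : ℝ) :
    Chart {i, j, k} (atrip i j) wtrip V s 6
      (fun x => s ^ 2 * V (s • (x i - x j), s • (x i - x k))) := by
  have hcard : ({i, j, k} : Finset (Fin N)).card = 3 := Finset.card_eq_three.mpr ⟨i, j, k, hij, hik, hjk, rfl⟩
  have hmem : ∀ t ∈ ({i, j, k} : Finset (Fin N)), t = i ∨ t = j ∨ t = k := fun t ht => by simpa using ht
  have hnp : ∀ p : E3 × (E3 × E3), ‖p.1‖ ≤ ‖p‖ ∧ ‖p.2‖ ≤ ‖p‖ ∧ ‖p.2.1‖ ≤ ‖p.2‖ ∧ ‖p.2.2‖ ≤ ‖p.2‖ :=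
    fun p => ⟨norm_fst_le p, norm_snd_le p, norm_fst_le p.2, norm_snd_le p.2⟩
  have ei : ∀ p : E3 × (E3 × E3), atrip i j i p - p.1 = (1 / 3 : ℝ) • (p.2.1 + p.2.2) := fun p => by
    rw [atrip_i]; module
  have ej : ∀ p : E3 × (E3 × E3), atrip i j j p - p.1 = (1 / 3 : ℝ) • (p.2.2 - (2 : ℝ) • p.2.1) := fun p => by
    rw [atrip_j hij]; module
  have ek' : ∀ p : E3 × (E3 × E3), atrip i j k p - p.1 = (1 / 3 : ℝ) • (p.2.1 - (2 : ℝ) • p.2.2) := fun p => by
    rw [atrip_k hik hjk]; module
  have n3 : ‖(1 / 3 : ℝ)‖ = 1 / 3 := by norm_num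
  have n2 : ‖(2 : ℝ)‖ = 2 := by norm_num
  have hcd : ∀ p : E3 × (E3 × E3), ∀ t ∈ ({i, j, k} : Finset (Fin N)), ‖atrip i j t p - p.1‖ ≤ ‖p.2‖ := by
    intro p t ht
    obtain ⟨h1, h2, h3, h4⟩ := hnp p
    rcases hmem t ht with rfl | rfl | rfl
    · rw [ei, norm_smul, n3]
      have := norm_add_le p.2.1 p.2.2
      linarith [norm_nonneg p.2]
    · rw [ej, norm_smul, n3]
      have := norm_sub_le p.2.2 ((2 : ℝ) • p.2.1)
      rw [norm_smul, n2] at this
      linarith
    · rw [ek', norm_smul, n3]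
      have := norm_sub_le p.2.1 ((2 : ℝ) • p.2.2)
      rw [norm_smul, n2] at this
      linarith
  have dij : ∀ p : E3 × (E3 × E3), atrip i j i p - atrip i j j p = p.2.1 := fun p => by
    rw [atrip_i, atrip_j hij]; module
  have dik : ∀ p : E3 × (E3 × E3), atrip i j i p - atrip i j k p = p.2.2 := fun p => by
    rw [atrip_i, atrip_k hik hjk]; module
  refine ⟨by rw [hcard], by rw [hcard], ?_, ?_, ?_, ?_, hcd, ?_, ?_, ?_, ?_, ?_⟩
  · intro t ht p
    have h1 := hcd p t ht
    obtain ⟨h2, h3, _, _⟩ := hnp p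
    have h4 : atrip i j t p = p.1 + (atrip i j t p - p.1) := by abel
    rw [h4]
    refine (norm_add_le _ _).trans ?_
    linarith
  · intro p c hc
    have h1 := hc i (by simp)
    have h2 := hc j (by simp)
    have h3 := hc k (by simp)
    have e1 : p.1 = (1 / 3 : ℝ) • (atrip i j i p + (atrip i j j p + atrip i j k p)) := by
      rw [atrip_i, atrip_j hij, atrip_k hik hjk]
      module
    have h4 : ‖p.1‖ ≤ c := by
      rw [e1, norm_smul, n3]
      have := norm_add_le (atrip i j i p) (atrip i j j p + atrip i j k p)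
      have := norm_add_le (atrip i j j p) (atrip i j k p)
      linarith
    have h5 : ‖p.2.1‖ ≤ 2 * c := by
      rw [← dij]
      have := norm_sub_le (atrip i j i p) (atrip i j j p)
      linarith
    have h6 : ‖p.2.2‖ ≤ 2 * c := by
      rw [← dik]
      have := norm_sub_le (atrip i j i p) (atrip i j k p)
      linarith
    have hc0 : 0 ≤ c := (norm_nonneg _).trans h4
    rw [Prod.norm_def, Prod.norm_def]
    exact max_le (by linarith) (max_le h5 h6)
  · intro p t ht t' ht'
    have h1 := hcd p t ht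
    have h2 := hcd p t' ht'
    have e : atrip i j t p - atrip i j t' p = (atrip i j t p - p.1) - (atrip i j t' p - p.1) := by abel
    rw [e]
    refine (norm_sub_le _ _).trans ?_
    linarith
  · intro p
    rw [hcard, sum_triple hij hik hjk, atrip_i, atrip_j hij, atrip_k hik hjk]
    push_cast
    module
  · intro B
    have hB : ∀ w : E3 × E3, B (fun t => if t ∈ ({i, j, k} : Finset (Fin N)) then atrip i j t (0, w) else 0) =
        B (Pi.single i ((1 / 3 : ℝ) • (w.1 + w.2))) + (B (Pi.single j ((1 / 3 : ℝ) • (w.1 + w.2) - w.1)) +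
          B (Pi.single k ((1 / 3 : ℝ) • (w.1 + w.2) - w.2))) := by
      intro w
      rw [pi_sum_single {i, j, k} (fun t => atrip i j t (0, w)), sum_triple hij hik hjk, map_add,
        map_add, atrip_i, atrip_j hij, atrip_k hik hjk]
      simp
    have hs : ∀ (t : Fin N) (c : ℝ) (m : Fin 3), B (Pi.single t (c • ek m)) = c • B (Pi.single t (ek m)) := by
      intro t c m
      rw [Pi.single_smul, map_smul]
    have h0 : ∀ m : Fin 3, B (fun t => if t ∈ ({i, j, k} : Finset (Fin N)) then atrip i j t (0, wtrip (0, m)) else 0) =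
        (1 / 3 : ℝ) • (B (Pi.single i (ek m)) - (2 : ℝ) • B (Pi.single j (ek m)) + B (Pi.single k (ek m))) := by
      intro m
      rw [hB]
      have e1 : (1 / 3 : ℝ) • ((wtrip (0, m)).1 + (wtrip (0, m)).2) = (1 / 3 : ℝ) • ek m := by
        simp [wtrip]
      have e2 : (1 / 3 : ℝ) • ((wtrip (0, m)).1 + (wtrip (0, m)).2) - (wtrip (0, m)).1 = (-(2 / 3) : ℝ) • ek m := by
        rw [e1]; simp only [wtrip]; module
      have e3 : (1 / 3 : ℝ) • ((wtrip (0, m)).1 + (wtrip (0, m)).2) - (wtrip (0, m)).2 = (1 / 3 : ℝ) • ek m := by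
        rw [e1]; simp [wtrip]
      rw [e2, e3, e1, hs, hs, hs]
      module
    have h1 : ∀ m : Fin 3, B (fun t => if t ∈ ({i, j, k} : Finset (Fin N)) then atrip i j t (0, wtrip (1, m)) else 0) =
        (1 / 3 : ℝ) • (B (Pi.single i (ek m)) + B (Pi.single j (ek m)) - (2 : ℝ) • B (Pi.single k (ek m))) := by
      intro m
      rw [hB]
      have e1 : (1 / 3 : ℝ) • ((wtrip (1, m)).1 + (wtrip (1, m)).2) = (1 / 3 : ℝ) • ek m := by
        simp [wtrip]
      have e2 : (1 / 3 : ℝ) • ((wtrip (1, m)).1 + (wtrip (1, m)).2) - (wtrip (1, m)).1 = (1 / 3 : ℝ) • ek m := by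
        rw [e1]; simp [wtrip]
      have e3 : (1 / 3 : ℝ) • ((wtrip (1, m)).1 + (wtrip (1, m)).2) - (wtrip (1, m)).2 = (-(2 / 3) : ℝ) • ek m := by
        rw [e1]; simp only [wtrip]; module
      rw [e2, e3, e1, hs, hs, hs]
      module
    have h2 : ∀ m : Fin 3, B (fun t => if t ∈ ({i, j, k} : Finset (Fin N)) then atrip i j t (0, wtrip (2, m)) else 0) =
        (1 / 3 : ℝ) • ((2 : ℝ) • B (Pi.single i (ek m)) - B (Pi.single j (ek m)) - B (Pi.single k (ek m))) := by
      intro m
      rw [hB]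
      have e1 : (1 / 3 : ℝ) • ((wtrip (2, m)).1 + (wtrip (2, m)).2) = (2 / 3 : ℝ) • ek m := by
        simp only [wtrip]; module
      have e2 : (1 / 3 : ℝ) • ((wtrip (2, m)).1 + (wtrip (2, m)).2) - (wtrip (2, m)).1 = (-(1 / 3) : ℝ) • ek m := by
        rw [e1]; simp only [wtrip]; module
      have e3 : (1 / 3 : ℝ) • ((wtrip (2, m)).1 + (wtrip (2, m)).2) - (wtrip (2, m)).2 = (-(1 / 3) : ℝ) • ek m := by
        rw [e1]; simp only [wtrip]; module
      rw [e2, e3, e1, hs, hs, hs]
      module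
    rw [sum_triple hij hik hjk, Fintype.sum_prod_type, Fin.sum_univ_three]
    simp only [h0, h1, h2]
    rw [← Finset.sum_add_distrib, ← Finset.sum_add_distrib, ← Finset.sum_add_distrib,
      ← Finset.sum_add_distrib]
    refine Finset.sum_le_sum fun m _ => ?_
    exact form_alg _ _ _
  · intro x B μ f hσ hB hμ hf
    have hi : i ∉ ({j, k} : Finset (Fin N)) := by simp [hij, hik]
    have hj : j ∉ ({k} : Finset (Fin N)) := by simp [hjk]
    rw [lmarginal_insert f hf hi]
    simp only [lmarginal_insert f hf hj, lmarginal_singleton]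
    rw [hμ i (by simp), hμ j (by simp), hμ k (by simp)]
    have hupd : Measurable (fun q : E3 × E3 × E3 =>
        Function.update (Function.update (Function.update x i q.1) j q.2.1) k q.2.2) := by
      refine measurable_pi_iff.mpr fun t => ?_
      by_cases h1 : t = k
      · subst h1; simp; fun_prop
      · by_cases h2 : t = j
        · subst h2
          simp [Function.update_of_ne h1]; fun_prop
        · by_cases h3 : t = i
          · subst h3
            simp [Function.update_of_ne h1, Function.update_of_ne h2]; fun_prop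
          · simp [Function.update_of_ne h1, Function.update_of_ne h2, Function.update_of_ne h3]
    obtain ⟨Φ, hΦ⟩ : ∃ Φ : E3 × E3 × E3 → ENNReal, Φ = fun q => (B ×ˢ (B ×ˢ B)).indicator
      (fun q => f (Function.update (Function.update (Function.update x i q.1) j q.2.1) k q.2.2)) q := ⟨_, rfl⟩
    have hΦm : Measurable Φ := by
      rw [hΦ]
      exact (hf.comp hupd).indicator (hB.prod (hB.prod hB))
    have hL : ∫⁻ u in B, ∫⁻ v in B, ∫⁻ t in B, f (Function.update (Function.update (Function.update x i u) j v) k t) =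
        ∫⁻ u, ∫⁻ v, ∫⁻ t, Φ (u, v, t) := by
      rw [← lintegral_indicator hB]
      congr 1
      ext u
      by_cases hu : u ∈ B
      · rw [Set.indicator_of_mem hu, ← lintegral_indicator hB]
        congr 1
        ext v
        by_cases hv : v ∈ B
        · rw [Set.indicator_of_mem hv, ← lintegral_indicator hB]
          congr 1
          ext t
          rw [hΦ]
          by_cases ht : t ∈ B
          · simp [hu, hv, ht]
          · simp [hu, hv, ht]
        · rw [Set.indicator_of_notMem hv]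
          rw [hΦ]
          simp [hv]
      · rw [Set.indicator_of_notMem hu]
        rw [hΦ]
        simp [hu]
    rw [hL, cv3 hΦm]
    have hset : MeasurableSet {p : E3 × (E3 × E3) | ∀ t ∈ ({i, j, k} : Finset (Fin N)), atrip i j t p ∈ B} := by
      have : {p : E3 × (E3 × E3) | ∀ t ∈ ({i, j, k} : Finset (Fin N)), atrip i j t p ∈ B} =
          ⋂ t ∈ ({i, j, k} : Finset (Fin N)), (atrip i j t) ⁻¹' B := by ext p; simp
      rw [this]
      exact Finset.measurableSet_biInter _ fun t _ => (atrip i j t).continuous.measurable hB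
    rw [← lintegral_indicator hset]
    congr 1
    ext p
    have hA : Function.update (Function.update (Function.update x i (atrip i j i p)) j (atrip i j j p)) k
        (atrip i j k p) = Amap {i, j, k} (atrip i j) x p := by
      ext1 t
      by_cases h1 : t = k
      · subst h1; simp [Amap]
      · by_cases h2 : t = j
        · subst h2
          simp [Amap, Function.update_of_ne h1]
        · by_cases h3 : t = i
          · subst h3
            simp [Amap, Function.update_of_ne h1, Function.update_of_ne h2]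
          · simp [Amap, h1, h2, h3]
    rw [hΦ]
    simp only
    rw [← atrip_j hij p, ← atrip_k hik hjk p, ← atrip_i i j p]
    by_cases hp : p ∈ {p : E3 × (E3 × E3) | ∀ t ∈ ({i, j, k} : Finset (Fin N)), atrip i j t p ∈ B}
    · have h1 : atrip i j i p ∈ B := hp i (by simp)
      have h2 : atrip i j j p ∈ B := hp j (by simp)
      have h3 : atrip i j k p ∈ B := hp k (by simp)
      rw [Set.indicator_of_mem hp, Set.indicator_of_mem (Set.mk_mem_prod h1 (Set.mk_mem_prod h2 h3)), hA]
    · rw [Set.indicator_of_notMem hp, Set.indicator_of_notMem]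
      intro h3
      apply hp
      intro t ht
      rcases hmem t ht with rfl | rfl | rfl
      · exact h3.1
      · exact h3.2.1
      · exact h3.2.2
  · intro x p
    have h1 : Amap {i, j, k} (atrip i j) x p i = atrip i j i p := by simp [Amap]
    have h2 : Amap {i, j, k} (atrip i j) x p j = atrip i j j p := by simp [Amap]
    have h3 : Amap {i, j, k} (atrip i j) x p k = atrip i j k p := by simp [Amap]
    rw [h1, h2, h3, dij, dik]
    rfl
  · exact (hVm.comp (by fun_prop)).const_mul _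
  · intro x
    exact mul_nonneg (sq_nonneg _) (hV0 _)

end Trip

end Pool.Agent.Helper23.Bose
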