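import Mathlib
import Pool.Agent.Helper23.Bose.Defs

set_option autoImplicit false
open MeasureTheory

namespace Pool.Agent.Helper23.Bose

theorem QN_nonneg {Vext W : E3 → ℝ} {V : E3 × E3 → ℝ} (H : Hyp Vext W V) (N : ℕ)
    (ψ : (Fin N → E3) → ℂ) : 0 ≤ QN Vext W V N ψ := by
  have hV : ∀ x, 0 ≤ Vext x := by
    obtain ⟨C, α, hC, hα, h⟩ := H.vgrow
    intro x
    exact le_trans (by positivity) (h x)
  apply integral_nonneg
  intro x
  have h1 : 0 ≤ ∑ i : Fin N, gradi ψ i x :=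
    Finset.sum_nonneg fun i _ => Finset.sum_nonneg fun k _ => by positivity
  have h2 : 0 ≤ (∑ i : Fin N, Vext (x i)) * ‖ψ x‖ ^ 2 :=
    mul_nonneg (Finset.sum_nonneg fun i _ => hV _) (by positivity)
  have h3 : 0 ≤ pot2 W N x * ‖ψ x‖ ^ 2 :=
    mul_nonneg (Finset.sum_nonneg fun i _ => Finset.sum_nonneg fun j _ =>
      mul_nonneg (by positivity) (H.wnn _)) (by positivity)
  have h4 : 0 ≤ pot3 V N x * ‖ψ x‖ ^ 2 :=
    mul_nonneg (Finset.sum_nonneg fun i _ => Finset.sum_nonneg fun j _ =>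
      Finset.sum_nonneg fun k _ => mul_nonneg (by positivity) (H.Vnn _)) (by positivity)
  simp only [Pi.zero_apply]
  linarith

theorem main_limit_of {Vext W : E3 → ℝ} {V : E3 × E3 → ℝ} (H : Hyp Vext W V)
    (lower_bound : ∀ {ε : ℝ}, 0 < ε → ∃ N0 : ℕ, ∀ N : ℕ, N0 ≤ N → ∀ ψ : (Fin N → E3) → ℂ,
      AdmN N ψ → N * (eGP Vext (bW W) (bM V) - ε) ≤ QN Vext W V N ψ)
    (upper_bound : ∀ {ε : ℝ}, 0 < ε → ∃ N0 : ℕ, ∀ N : ℕ, N0 ≤ N → ∃ ψ : (Fin N → E3) → ℂ,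
      AdmN N ψ ∧ QN Vext W V N ψ ≤ N * (eGP Vext (bW W) (bM V) + ε)) :
    Filter.Tendsto (fun N : ℕ => EN Vext W V N / N) Filter.atTop
      (nhds (eGP Vext (bW W) (bM V))) := by
  rw [Metric.tendsto_atTop]
  intro ε hε
  obtain ⟨N1, h1⟩ := lower_bound (half_pos hε)
  obtain ⟨N2, h2⟩ := upper_bound (half_pos hε)
  refine ⟨max (max N1 N2) 1, fun N hN => ?_⟩
  have hN1 : N1 ≤ N := le_trans (le_trans (le_max_left _ _) (le_max_left _ _)) hN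
  have hN2 : N2 ≤ N := le_trans (le_trans (le_max_right _ _) (le_max_left _ _)) hN
  have hN3 : 1 ≤ N := le_trans (le_max_right _ _) hN
  have hNpos : (0 : ℝ) < N := by exact_mod_cast hN3
  obtain ⟨ψ, hψ, hE⟩ := h2 N hN2
  have hbdd : BddBelow {E : ℝ | ∃ ψ : (Fin N → E3) → ℂ, AdmN N ψ ∧ E = QN Vext W V N ψ} :=
    ⟨0, by rintro _ ⟨φ, _, rfl⟩; exact QN_nonneg H N φ⟩
  have hup : EN Vext W V N ≤ N * (eGP Vext (bW W) (bM V) + ε / 2) :=
    le_trans (csInf_le hbdd ⟨ψ, hψ, rfl⟩) hE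
  have hlo : N * (eGP Vext (bW W) (bM V) - ε / 2) ≤ EN Vext W V N := by
    have hne : {E : ℝ | ∃ ψ : (Fin N → E3) → ℂ, AdmN N ψ ∧ E = QN Vext W V N ψ}.Nonempty :=
      ⟨QN Vext W V N ψ, ψ, hψ, rfl⟩
    refine le_csInf hne ?_
    rintro _ ⟨φ, hφ, rfl⟩
    exact h1 N hN1 φ hφ
  have hup' : EN Vext W V N / N ≤ eGP Vext (bW W) (bM V) + ε / 2 := by
    rw [div_le_iff₀ hNpos]; linarith
  have hlo' : eGP Vext (bW W) (bM V) - ε / 2 ≤ EN Vext W V N / N := by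
    rw [le_div_iff₀ hNpos]; linarith
  rw [Real.dist_eq, abs_lt]
  constructor <;> linarith

end Pool.Agent.Helper23.Bose
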