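import Mathlib
import Pool.Agent.Helper23.Bose.Defs
import Pool.Agent.Helper23.Bose.Gen
import Pool.Agent.Helper23.Bose.Boxes
import Pool.Agent.Helper23.Bose.Cluster
import Pool.Agent.Helper23.Bose.Groups
import Pool.Agent.Helper23.Bose.Active
import Pool.Agent.Helper23.Bose.ChartT

set_option autoImplicit false
open MeasureTheory Module

namespace Pool.Agent.Helper23.Bose

section Fixed

variable {N : ℕ} {κ : Type} [DecidableEq κ]

/-- the set where particle `t` is in an active cluster -/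
def Uset (Γ : Fin N → κ) (α : Fin N → (Fin 3 → ℤ)) (l η R : ℝ) (t : Fin N) : Set (Fin N → E3) :=
  {x | ∃ S ∈ actS Γ α l η R x, t ∈ S}

theorem mem_Uset_iff {Γ : Fin N → κ} {α : Fin N → (Fin 3 → ℤ)} {l η R : ℝ} {t : Fin N}
    {x : Fin N → E3} : x ∈ Uset Γ α l η R t ↔
      (∃ p ∈ P2lab Finset.univ Γ, t ∈ cl2 p ∧ x ∈ Act l η R (α p.1) (cl2 p) (Oth Γ (cl2 p))) ∨
      (∃ p ∈ P3lab Finset.univ Γ, t ∈ cl3 p ∧ x ∈ Act l η R (α p.1) (cl3 p) (Oth Γ (cl3 p))) := by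
  simp only [Uset, Set.mem_ofPred_eq, actS, Finset.mem_union, Finset.mem_image, act2, act3,
    Finset.mem_filter]
  constructor
  · rintro ⟨S, ⟨p, ⟨hp1, hp2⟩, rfl⟩ | ⟨p, ⟨hp1, hp2⟩, rfl⟩, ht⟩
    · left; exact ⟨p, hp1, ht, hp2⟩
    · right; exact ⟨p, hp1, ht, hp2⟩
  · rintro (⟨p, hp1, ht, hp2⟩ | ⟨p, hp1, ht, hp2⟩)
    · exact ⟨_, Or.inl ⟨p, ⟨hp1, hp2⟩, rfl⟩, ht⟩
    · exact ⟨_, Or.inr ⟨p, ⟨hp1, hp2⟩, rfl⟩, ht⟩

theorem measurableSet_Uset (Γ : Fin N → κ) (α : Fin N → (Fin 3 → ℤ)) (l η R : ℝ) (t : Fin N) :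
    MeasurableSet (Uset Γ α l η R t) := by
  classical
  have h : Uset Γ α l η R t =
      (⋃ p ∈ (P2lab Finset.univ Γ).filter (fun p => t ∈ cl2 p), Act l η R (α p.1) (cl2 p) (Oth Γ (cl2 p))) ∪
      (⋃ p ∈ (P3lab Finset.univ Γ).filter (fun p => t ∈ cl3 p), Act l η R (α p.1) (cl3 p) (Oth Γ (cl3 p))) := by
    ext x
    rw [mem_Uset_iff]
    simp only [Set.mem_union, Set.mem_iUnion, Finset.mem_filter, exists_prop, and_assoc]
  rw [h]
  exact (Finset.measurableSet_biUnion _ fun p _ => measurableSet_Act _ _ _ _ _ _).union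
    (Finset.measurableSet_biUnion _ fun p _ => measurableSet_Act _ _ _ _ _ _)

/-- the measure of a box configuration -/
noncomputable def μα (l : ℝ) (α : Fin N → (Fin 3 → ℤ)) : Fin N → Measure E3 :=
  fun t => volume.restrict (Box l (α t))

instance sigmaFinite_μα (l : ℝ) (α : Fin N → (Fin 3 → ℤ)) (t : Fin N) : SigmaFinite (μα l α t) := by
  unfold μα; infer_instance

theorem hardy_pair {CB : ℝ}
    (hHB : ∀ (z : E3) (R ρ : ℝ), 0 < R → 2 * R ≤ ρ → ∀ g : E3 → ℂ, ContDiff ℝ 1 g →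
      ∫⁻ r in Metric.ball z R, ‖g r‖ₑ ^ 2 ∂volume ≤
        ENNReal.ofReal (CB * R ^ 2) * (∫⁻ r in Metric.ball z ρ, ‖fderiv ℝ g r‖ₑ ^ 2 ∂volume
          + ENNReal.ofReal ((ρ ^ 2)⁻¹) * ∫⁻ r in Metric.ball z ρ, ‖g r‖ₑ ^ 2 ∂volume))
    {l η R : ℝ} (hR : 0 < R) (hη : 8 * R ≤ η) (α : Fin N → (Fin 3 → ℤ))
    {t j : Fin N} (htj : j ≠ t) {ψ : (Fin N → E3) → ℂ} (hψ : ContDiff ℝ 1 ψ) :
    ∫⁻ x, ({x : Fin N → E3 | x t ∈ SBox l η (α t) ∧ ‖x t - x j‖ < 2 * R}).indicator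
        (fun x => ‖ψ x‖ₑ ^ 2) x ∂(Measure.pi (μα l α)) ≤
      ENNReal.ofReal (CB * (4 * R) ^ 2) * ((∫⁻ x, ENNReal.ofReal (gradi ψ t x) ∂(Measure.pi (μα l α)))
        + ENNReal.ofReal ((η ^ 2)⁻¹) * ∫⁻ x, ‖ψ x‖ₑ ^ 2 ∂(Measure.pi (μα l α))) := by
  have hm1 : Measurable (fun x => ‖ψ x‖ₑ ^ 2) := hψ.continuous.enorm.measurable.pow_const 2
  have hm2 : Measurable (fun x => ENNReal.ofReal (gradi ψ t x)) :=
    (continuous_gradi hψ t).measurable.ennreal_ofReal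
  have hset : MeasurableSet {x : Fin N → E3 | x t ∈ SBox l η (α t) ∧ ‖x t - x j‖ < 2 * R} := by
    have h1 : MeasurableSet ((fun x : Fin N → E3 => x t) ⁻¹' SBox l η (α t)) :=
      (measurable_pi_apply t) (measurableSet_SBox l η (α t))
    have h2 : MeasurableSet {x : Fin N → E3 | ‖x t - x j‖ < 2 * R} :=
      measurableSet_lt (by fun_prop) measurable_const
    exact h1.inter h2
  have hm12 : Measurable (fun x => ENNReal.ofReal (gradi ψ t x) +
      ENNReal.ofReal ((η ^ 2)⁻¹) * ‖ψ x‖ₑ ^ 2) := hm2.add (hm1.const_mul _)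
  rw [← lintegral_const_mul _ hm1, ← lintegral_add_left hm2,
    ← lintegral_const_mul _ hm12]
  apply lintegral_le_of_lmarginal_le {t} (hm1.indicator hset) (hm12.const_mul _)
  intro x
  simp only [lmarginal_singleton]
  unfold μα
  have hg : ContDiff ℝ 1 (fun y : E3 => ψ (Function.update x t y)) := by
    apply hψ.comp
    rw [contDiff_pi]
    intro s
    by_cases hs : s = t
    · subst hs; simp; exact contDiff_id
    · simp [Function.update_of_ne hs]; exact contDiff_const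
  have key := hardy_one hHB (l := l) (η := η) hR hη (α t) (x j) hg
  have hL : ∫⁻ y in Box l (α t), ({x : Fin N → E3 | x t ∈ SBox l η (α t) ∧ ‖x t - x j‖ < 2 * R}).indicator
        (fun x => ‖ψ x‖ₑ ^ 2) (Function.update x t y) ≤
      ∫⁻ r in {r | r ∈ SBox l η (α t) ∧ ‖r - x j‖ < 2 * R}, ‖ψ (Function.update x t r)‖ₑ ^ 2 := by
    have hset2 : MeasurableSet ({r | r ∈ SBox l η (α t) ∧ ‖r - x j‖ < 2 * R} : Set E3) := by
      have h2 : MeasurableSet {r : E3 | ‖r - x j‖ < 2 * R} :=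
        measurableSet_lt (by fun_prop) measurable_const
      exact (measurableSet_SBox l η (α t)).inter h2
    refine (setLIntegral_le_lintegral _ _).trans ?_
    rw [← lintegral_indicator hset2]
    apply lintegral_mono
    intro y
    beta_reduce
    by_cases hy : y ∈ ({r | r ∈ SBox l η (α t) ∧ ‖r - x j‖ < 2 * R} : Set E3)
    · have h1 : Function.update x t y ∈
          {x : Fin N → E3 | x t ∈ SBox l η (α t) ∧ ‖x t - x j‖ < 2 * R} := by
        simp only [Set.mem_ofPred_eq, Function.update_self, Function.update_of_ne htj]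
        exact hy
      rw [Set.indicator_of_mem hy, Set.indicator_of_mem h1]
    · have h1 : Function.update x t y ∉
          {x : Fin N → E3 | x t ∈ SBox l η (α t) ∧ ‖x t - x j‖ < 2 * R} := by
        simp only [Set.mem_ofPred_eq, Function.update_self, Function.update_of_ne htj]
        exact hy
      rw [Set.indicator_of_notMem hy, Set.indicator_of_notMem h1]
  refine hL.trans (key.trans ?_)
  rw [lintegral_const_mul' _ _ ENNReal.ofReal_ne_top, lintegral_add_left, lintegral_const_mul' _ _ ENNReal.ofReal_ne_top]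
  · gcongr
    · rw [enorm_sq_eq]
      exact ENNReal.ofReal_le_ofReal (fderiv_update (hψ.differentiable (by norm_num)) x t _)
  · exact hm2.comp (measurable_update x)

/-- Hardy bound for the used regions -/
theorem hardy_U {CB : ℝ}
    (hHB : ∀ (z : E3) (R ρ : ℝ), 0 < R → 2 * R ≤ ρ → ∀ g : E3 → ℂ, ContDiff ℝ 1 g →
      ∫⁻ r in Metric.ball z R, ‖g r‖ₑ ^ 2 ∂volume ≤
        ENNReal.ofReal (CB * R ^ 2) * (∫⁻ r in Metric.ball z ρ, ‖fderiv ℝ g r‖ₑ ^ 2 ∂volume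
          + ENNReal.ofReal ((ρ ^ 2)⁻¹) * ∫⁻ r in Metric.ball z ρ, ‖g r‖ₑ ^ 2 ∂volume))
    {l η R : ℝ} (hR : 0 < R) (hη : 10 * R ≤ η) (α : Fin N → (Fin 3 → ℤ)) (Γ : Fin N → κ)
    (hαΓ : ∀ t t', Γ t = Γ t' → α t = α t') {p : ℕ}
    (hp : ∀ i, (Finset.univ.filter (fun t => Γ t = Γ i)).card ≤ p)
    (t : Fin N) {ψ : (Fin N → E3) → ℂ} (hψ : ContDiff ℝ 1 ψ) :
    ∫⁻ x, (Uset Γ α l η R t).indicator (fun x => ‖ψ x‖ₑ ^ 2) x ∂(Measure.pi (μα l α)) ≤
      p * (ENNReal.ofReal (CB * (4 * R) ^ 2) * ((∫⁻ x, ENNReal.ofReal (gradi ψ t x) ∂(Measure.pi (μα l α)))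
        + ENNReal.ofReal (((η - 2 * R) ^ 2)⁻¹) * ∫⁻ x, ‖ψ x‖ₑ ^ 2 ∂(Measure.pi (μα l α)))) := by
  classical
  have hm1 : Measurable (fun x => ‖ψ x‖ₑ ^ 2) := hψ.continuous.enorm.measurable.pow_const 2
  obtain ⟨J, hJ⟩ : ∃ J, J = Finset.univ.filter (fun j => j ≠ t ∧ Γ j = Γ t) := ⟨_, rfl⟩
  have hJc : J.card ≤ p := by
    refine le_trans (Finset.card_le_card ?_) (hp t)
    rw [hJ]
    intro j hj
    simp only [Finset.mem_filter, Finset.mem_univ, true_and] at hj ⊢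
    exact hj.2
  have hset : ∀ j, MeasurableSet {x : Fin N → E3 | x t ∈ SBox l (η - 2 * R) (α t) ∧ ‖x t - x j‖ < 2 * R} := by
    intro j
    have h1 : MeasurableSet ((fun x : Fin N → E3 => x t) ⁻¹' SBox l (η - 2 * R) (α t)) :=
      (measurable_pi_apply t) (measurableSet_SBox l _ (α t))
    have h2 : MeasurableSet {x : Fin N → E3 | ‖x t - x j‖ < 2 * R} :=
      measurableSet_lt (by fun_prop) measurable_const
    exact h1.inter h2
  have h1 : ∫⁻ x, (Uset Γ α l η R t).indicator (fun x => ‖ψ x‖ₑ ^ 2) x ∂(Measure.pi (μα l α)) ≤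
      ∫⁻ x, ∑ j ∈ J, ({x : Fin N → E3 | x t ∈ SBox l (η - 2 * R) (α t) ∧ ‖x t - x j‖ < 2 * R}).indicator
        (fun x => ‖ψ x‖ₑ ^ 2) x ∂(Measure.pi (μα l α)) := by
    apply lintegral_mono
    intro x
    by_cases hx : x ∈ Uset Γ α l η R t
    · rw [Set.indicator_of_mem hx]
      obtain ⟨j, hj1, hj2, hj3, hj4⟩ := active_near hαΓ hx
      have hjJ : j ∈ J := by rw [hJ]; simp [hj1, hj2]
      have hmem : x ∈ {x : Fin N → E3 | x t ∈ SBox l (η - 2 * R) (α t) ∧ ‖x t - x j‖ < 2 * R} :=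
        ⟨hj4, hj3⟩
      calc ‖ψ x‖ₑ ^ 2 = ({x : Fin N → E3 | x t ∈ SBox l (η - 2 * R) (α t) ∧ ‖x t - x j‖ < 2 * R}).indicator
            (fun x => ‖ψ x‖ₑ ^ 2) x := by rw [Set.indicator_of_mem hmem]
        _ ≤ _ := Finset.single_le_sum (f := fun j => ({x : Fin N → E3 | x t ∈ SBox l (η - 2 * R) (α t) ∧
            ‖x t - x j‖ < 2 * R}).indicator (fun x => ‖ψ x‖ₑ ^ 2) x) (fun _ _ => zero_le) hjJ
    · rw [Set.indicator_of_notMem hx]
      exact zero_le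
  refine h1.trans ?_
  rw [lintegral_finsetSum _ fun j _ => hm1.indicator (hset j)]
  calc ∑ j ∈ J, ∫⁻ x, ({x : Fin N → E3 | x t ∈ SBox l (η - 2 * R) (α t) ∧ ‖x t - x j‖ < 2 * R}).indicator
        (fun x => ‖ψ x‖ₑ ^ 2) x ∂(Measure.pi (μα l α))
      ≤ ∑ j ∈ J, (ENNReal.ofReal (CB * (4 * R) ^ 2) * ((∫⁻ x, ENNReal.ofReal (gradi ψ t x) ∂(Measure.pi (μα l α)))
        + ENNReal.ofReal (((η - 2 * R) ^ 2)⁻¹) * ∫⁻ x, ‖ψ x‖ₑ ^ 2 ∂(Measure.pi (μα l α)))) := by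
        refine Finset.sum_le_sum fun j hj => ?_
        rw [hJ] at hj
        simp only [Finset.mem_filter, Finset.mem_univ, true_and] at hj
        exact hardy_pair hHB hR (by linarith) α hj.1 hψ
    _ = J.card * (ENNReal.ofReal (CB * (4 * R) ^ 2) * ((∫⁻ x, ENNReal.ofReal (gradi ψ t x) ∂(Measure.pi (μα l α)))
        + ENNReal.ofReal (((η - 2 * R) ^ 2)⁻¹) * ∫⁻ x, ‖ψ x‖ₑ ^ 2 ∂(Measure.pi (μα l α)))) := by
        rw [Finset.sum_const, nsmul_eq_mul]
    _ ≤ _ := by gcongr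

end Fixed

section PotSums

variable {N : ℕ}

theorem sum_P2set {M : Type*} [AddCommMonoid M] (f : Fin N × Fin N → M) :
    ∑ p ∈ P2set Finset.univ, f p = ∑ i : Fin N, ∑ j ∈ Finset.Ioi i, f (i, j) := by
  have h : P2set (Finset.univ : Finset (Fin N)) = Finset.univ.filter (fun p => p.1 < p.2) := by
    ext p; simp [mem_P2set]
  rw [h, Finset.sum_filter, Fintype.sum_prod_type]
  refine Finset.sum_congr rfl fun i _ => ?_
  rw [← Finset.sum_filter]
  congr 1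
  ext j; simp

theorem sum_P3set {M : Type*} [AddCommMonoid M] (f : Fin N × Fin N × Fin N → M) :
    ∑ p ∈ P3set Finset.univ, f p =
      ∑ i : Fin N, ∑ j ∈ Finset.Ioi i, ∑ k ∈ Finset.Ioi j, f (i, j, k) := by
  have h : P3set (Finset.univ : Finset (Fin N)) =
      Finset.univ.filter (fun p => p.1 < p.2.1 ∧ p.2.1 < p.2.2) := by
    ext p; simp [mem_P3set]
  rw [h, Finset.sum_filter, Fintype.sum_prod_type]
  refine Finset.sum_congr rfl fun i _ => ?_
  rw [Fintype.sum_prod_type]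
  have h2 : ∀ j : Fin N, (∑ k, if i < j ∧ j < k then f (i, j, k) else 0) =
      if i < j then ∑ k ∈ Finset.Ioi j, f (i, j, k) else 0 := by
    intro j
    by_cases hij : i < j
    · simp only [hij, true_and, if_true]
      rw [← Finset.sum_filter]
      congr 1
      ext k; simp
    · simp [hij]
  simp_rw [h2]
  rw [← Finset.sum_filter]
  congr 1
  ext j; simp

theorem sum_fiber_le {β : Type*} [DecidableEq β] (T : Finset β) (f : β → Fin N) (g : Fin N → ℝ)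
    (hg : ∀ i, 0 ≤ g i) {q : ℕ} (hq : ∀ i, (T.filter (fun b => f b = i)).card ≤ q) :
    ∑ b ∈ T, g (f b) ≤ q * ∑ i, g i := by
  rw [← Finset.sum_fiberwise_of_maps_to (s := T) (t := Finset.univ) (g := f)
    (fun b _ => Finset.mem_univ _), Finset.mul_sum]
  refine Finset.sum_le_sum fun i _ => ?_
  rw [Finset.sum_congr rfl (g := fun _ => g i) (fun b hb => by
    rw [Finset.mem_filter] at hb; rw [hb.2]), Finset.sum_const, nsmul_eq_mul]
  have : ((T.filter (fun b => f b = i)).card : ℝ) ≤ q := by exact_mod_cast hq i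
  exact mul_le_mul_of_nonneg_right this (hg i)

variable {κ : Type} [DecidableEq κ]

theorem sum_cl2_le {Γ : Fin N → κ} {p : ℕ}
    (hp : ∀ i, (Finset.univ.filter (fun t => Γ t = Γ i)).card ≤ p) (g : Fin N → ℝ)
    (hg : ∀ i, 0 ≤ g i) :
    ∑ q ∈ P2lab Finset.univ Γ, ∑ t ∈ cl2 q, g t ≤ (2 * p : ℕ) * ∑ i, g i := by
  have h1 : ∀ q ∈ P2lab Finset.univ Γ, ∑ t ∈ cl2 q, g t = g q.1 + g q.2 := by
    intro q hq
    simp only [P2lab, Finset.mem_filter, mem_P2set, Finset.mem_univ, true_and] at hq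
    exact Finset.sum_pair hq.1.ne
  rw [Finset.sum_congr rfl h1, Finset.sum_add_distrib]
  have ha : ∑ q ∈ P2lab Finset.univ Γ, g q.1 ≤ p * ∑ i, g i := by
    refine sum_fiber_le _ (fun q : Fin N × Fin N => q.1) g hg fun i => ?_
    refine le_trans ?_ (hp i)
    refine Finset.card_le_card_of_injOn (fun q => q.2) ?_ ?_
    · intro q hq
      simp only [P2lab, Finset.coe_filter, Finset.mem_filter, mem_P2set, Finset.mem_univ, true_and,
        Set.mem_ofPred_eq] at hq ⊢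
      rw [← hq.2]; exact hq.1.2.symm
    · rintro ⟨a1, a2⟩ ha ⟨b1, b2⟩ hb hab
      simp only [Finset.coe_filter, Set.mem_ofPred_eq] at ha hb hab
      rw [Prod.mk.injEq]; exact ⟨ha.2.trans hb.2.symm, hab⟩
  have hb : ∑ q ∈ P2lab Finset.univ Γ, g q.2 ≤ p * ∑ i, g i := by
    refine sum_fiber_le _ (fun q : Fin N × Fin N => q.2) g hg fun i => ?_
    refine le_trans ?_ (hp i)
    refine Finset.card_le_card_of_injOn (fun q => q.1) ?_ ?_
    · intro q hq
      simp only [P2lab, Finset.coe_filter, Finset.mem_filter, mem_P2set, Finset.mem_univ, true_and,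
        Set.mem_ofPred_eq] at hq ⊢
      rw [← hq.2]; exact hq.1.2
    · rintro ⟨a1, a2⟩ ha ⟨b1, b2⟩ hb hab
      simp only [Finset.coe_filter, Set.mem_ofPred_eq] at ha hb hab
      rw [Prod.mk.injEq]; exact ⟨hab, ha.2.trans hb.2.symm⟩
  push_cast
  linarith

theorem sum_cl3_le {Γ : Fin N → κ} {p : ℕ}
    (hp : ∀ i, (Finset.univ.filter (fun t => Γ t = Γ i)).card ≤ p) (g : Fin N → ℝ)
    (hg : ∀ i, 0 ≤ g i) :
    ∑ q ∈ P3lab Finset.univ Γ, ∑ t ∈ cl3 q, g t ≤ (3 * p ^ 2 : ℕ) * ∑ i, g i := by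
  have h1 : ∀ q ∈ P3lab Finset.univ Γ, ∑ t ∈ cl3 q, g t = g q.1 + (g q.2.1 + g q.2.2) := by
    intro q hq
    simp only [P3lab, Finset.mem_filter, mem_P3set, Finset.mem_univ, true_and] at hq
    exact sum_triple hq.1.1.ne (hq.1.1.trans hq.1.2).ne hq.1.2.ne g
  rw [Finset.sum_congr rfl h1, Finset.sum_add_distrib, Finset.sum_add_distrib]
  have hprod : ∀ i, ((Finset.univ.filter (fun t => Γ t = Γ i)) ×ˢ
      (Finset.univ.filter (fun t => Γ t = Γ i))).card ≤ p ^ 2 := by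
    intro i
    rw [Finset.card_product, sq]
    exact Nat.mul_le_mul (hp i) (hp i)
  have ha : ∑ q ∈ P3lab Finset.univ Γ, g q.1 ≤ (p ^ 2 : ℕ) * ∑ i, g i := by
    refine sum_fiber_le _ (fun q : Fin N × Fin N × Fin N => q.1) g hg fun i => ?_
    refine le_trans ?_ (hprod i)
    refine Finset.card_le_card_of_injOn (fun q => q.2) ?_ ?_
    · intro q hq
      simp only [P3lab, Finset.coe_filter, Finset.mem_filter, mem_P3set, Finset.mem_univ, true_and,
        Set.mem_ofPred_eq, Finset.coe_product, Set.mem_prod] at hq ⊢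
      rw [← hq.2]; exact ⟨hq.1.2.1.symm, (hq.1.2.1.trans hq.1.2.2).symm⟩
    · rintro ⟨a1, a2⟩ ha ⟨b1, b2⟩ hb hab
      simp only [Finset.coe_filter, Set.mem_ofPred_eq] at ha hb hab
      rw [Prod.mk.injEq]; exact ⟨ha.2.trans hb.2.symm, hab⟩
  have hb : ∑ q ∈ P3lab Finset.univ Γ, g q.2.1 ≤ (p ^ 2 : ℕ) * ∑ i, g i := by
    refine sum_fiber_le _ (fun q : Fin N × Fin N × Fin N => q.2.1) g hg fun i => ?_
    refine le_trans ?_ (hprod i)
    refine Finset.card_le_card_of_injOn (fun q => (q.1, q.2.2)) ?_ ?_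
    · intro q hq
      simp only [P3lab, Finset.coe_filter, Finset.mem_filter, mem_P3set, Finset.mem_univ, true_and,
        Set.mem_ofPred_eq, Finset.coe_product, Set.mem_prod] at hq ⊢
      rw [← hq.2]; exact ⟨hq.1.2.1, hq.1.2.2.symm⟩
    · rintro ⟨a1, a2, a3⟩ ha ⟨b1, b2, b3⟩ hb hab
      simp only [Finset.coe_filter, Set.mem_ofPred_eq, Prod.mk.injEq] at ha hb hab ⊢
      exact ⟨hab.1, ha.2.trans hb.2.symm, hab.2⟩
  have hc : ∑ q ∈ P3lab Finset.univ Γ, g q.2.2 ≤ (p ^ 2 : ℕ) * ∑ i, g i := by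
    refine sum_fiber_le _ (fun q : Fin N × Fin N × Fin N => q.2.2) g hg fun i => ?_
    refine le_trans ?_ (hprod i)
    refine Finset.card_le_card_of_injOn (fun q => (q.1, q.2.1)) ?_ ?_
    · intro q hq
      simp only [P3lab, Finset.coe_filter, Finset.mem_filter, mem_P3set, Finset.mem_univ, true_and,
        Set.mem_ofPred_eq, Finset.coe_product, Set.mem_prod] at hq ⊢
      rw [← hq.2]; exact ⟨hq.1.2.1.trans hq.1.2.2, hq.1.2.2⟩
    · rintro ⟨a1, a2, a3⟩ ha ⟨b1, b2, b3⟩ hb hab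
      simp only [Finset.coe_filter, Set.mem_ofPred_eq, Prod.mk.injEq] at ha hb hab ⊢
      exact ⟨hab.1, hab.2, ha.2.trans hb.2.symm⟩
  push_cast at ha hb hc ⊢
  linarith

end PotSums

end Pool.Agent.Helper23.Bose
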