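import Mathlib
import Pool.Agent.Helper23.Bose.Defs
import Pool.Agent.Helper23.Bose.Gen
import Pool.Agent.Helper23.Bose.Fixed

set_option autoImplicit false
open MeasureTheory Module

namespace Pool.Agent.Helper23.Bose

section FixedSum

variable {N : ℕ} {κ : Type} [DecidableEq κ]

theorem Oth_card_le {Γ : Fin N → κ} {p : ℕ}
    (hp : ∀ i, (Finset.univ.filter (fun t => Γ t = Γ i)).card ≤ p) {S : Finset (Fin N)} {i : Fin N}
    (hS : ∀ t ∈ S, Γ t = Γ i) : (Oth Γ S).card ≤ p := by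
  refine le_trans (Finset.card_le_card ?_) (hp i)
  intro t ht
  simp only [Oth, Finset.mem_filter, Finset.mem_univ, true_and] at ht ⊢
  obtain ⟨_, s, hs, hts⟩ := ht
  exact hts.trans (hS s hs)

theorem pair_ineq {W : E3 → ℝ} (hWm : Measurable W) (hW0 : ∀ x, 0 ≤ W x)
    {Γ : Fin N → κ} {α : Fin N → (Fin 3 → ℤ)} (hαΓ : ∀ t t', Γ t = Γ t' → α t = α t') {p : ℕ}
    (hp : ∀ i, (Finset.univ.filter (fun t => Γ t = Γ i)).card ≤ p)
    {s ε l R cm Cst : ℝ} (hl : 0 < l) (hε : 0 < ε) (hε1 : 2 * ε ≤ 1) (hR : 0 < R) (hRl : R ≤ ε * l)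
    (hsmall : p * ((4 * R) ^ 3 * κ3) ≤ ε * l ^ 3) (hcm : 0 ≤ cm)
    (hLL : LL E3 (Fin 2 × Fin 3) wpair W s l R ε cm Cst)
    {ψ : (Fin N → E3) → ℂ} (hψ : ContDiff ℝ cinf ψ) {q : Fin N × Fin N}
    (hq : q ∈ P2lab Finset.univ Γ) :
    ENNReal.ofReal (cm * (1 - 7 * ε) / l ^ 3) * ∫⁻ x, ‖ψ x‖ₑ ^ 2 ∂(Measure.pi (μα l α)) ≤
      (∫⁻ x, (Act l (ε * l) R (α q.1) (cl2 q) (Oth Γ (cl2 q))).indicator (fun x => ENNReal.ofReal
        (∑ t ∈ cl2 q, gradi ψ t x + s ^ 2 * W (s • (x q.1 - x q.2)) * ‖ψ x‖ ^ 2)) x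
          ∂(Measure.pi (μα l α))) +
      ENNReal.ofReal Cst * (12 * ∫⁻ x, ENNReal.ofReal (∑ t ∈ cl2 q, gradi ψ t x)
        ∂(Measure.pi (μα l α))) := by
  simp only [P2lab, Finset.mem_filter, mem_P2set, Finset.mem_univ, true_and] at hq
  obtain ⟨hlt, hΓ⟩ := hq
  have hΓ1 : ∀ t ∈ cl2 q, Γ t = Γ q.1 := by
    intro t ht
    simp only [cl2, Finset.mem_insert, Finset.mem_singleton] at ht
    rcases ht with rfl | rfl
    · rfl
    · exact hΓ.symm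
  have hch := chart_pair hlt.ne W hWm hW0 s
  have hO : ((Oth Γ (cl2 q)).card : ℝ) * ((4 * R) ^ 3 * κ3) ≤ ε * l ^ 3 := by
    refine le_trans ?_ hsmall
    have h1 : ((Oth Γ (cl2 q)).card : ℝ) ≤ p := by exact_mod_cast Oth_card_le hp hΓ1
    have h2 := κ3_nonneg
    gcongr
  exact cluster_ineq hch hl hRl hcm hLL (α q.1) (Oth Γ (cl2 q)) (disjoint_Oth Γ (cl2 q))
    (fun x => volume_good_ge hl hε hε1 hR (α q.1) (Oth Γ (cl2 q)) x hO) (μα l α)
    (fun t ht => by unfold μα; rw [hαΓ t q.1 (hΓ1 t ht)]) hψ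

theorem triple_ineq {V : E3 × E3 → ℝ} (hVm : Measurable V) (hV0 : ∀ x, 0 ≤ V x)
    {Γ : Fin N → κ} {α : Fin N → (Fin 3 → ℤ)} (hαΓ : ∀ t t', Γ t = Γ t' → α t = α t') {p : ℕ}
    (hp : ∀ i, (Finset.univ.filter (fun t => Γ t = Γ i)).card ≤ p)
    {s ε l R cm Cst : ℝ} (hl : 0 < l) (hε : 0 < ε) (hε1 : 2 * ε ≤ 1) (hR : 0 < R) (hRl : R ≤ ε * l)
    (hsmall : p * ((4 * R) ^ 3 * κ3) ≤ ε * l ^ 3) (hcm : 0 ≤ cm)
    (hLL : LL (E3 × E3) (Fin 3 × Fin 3) wtrip V s l R ε cm Cst)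
    {ψ : (Fin N → E3) → ℂ} (hψ : ContDiff ℝ cinf ψ) {q : Fin N × Fin N × Fin N}
    (hq : q ∈ P3lab Finset.univ Γ) :
    ENNReal.ofReal (cm * (1 - 7 * ε) / l ^ 6) * ∫⁻ x, ‖ψ x‖ₑ ^ 2 ∂(Measure.pi (μα l α)) ≤
      (∫⁻ x, (Act l (ε * l) R (α q.1) (cl3 q) (Oth Γ (cl3 q))).indicator (fun x => ENNReal.ofReal
        (∑ t ∈ cl3 q, gradi ψ t x + s ^ 2 * V (s • (x q.1 - x q.2.1), s • (x q.1 - x q.2.2)) *
          ‖ψ x‖ ^ 2)) x ∂(Measure.pi (μα l α))) +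
      ENNReal.ofReal Cst * (12 * ∫⁻ x, ENNReal.ofReal (∑ t ∈ cl3 q, gradi ψ t x)
        ∂(Measure.pi (μα l α))) := by
  simp only [P3lab, Finset.mem_filter, mem_P3set, Finset.mem_univ, true_and] at hq
  obtain ⟨⟨hlt1, hlt2⟩, hΓa, hΓb⟩ := hq
  have hΓ1 : ∀ t ∈ cl3 q, Γ t = Γ q.1 := by
    intro t ht
    simp only [cl3, Finset.mem_insert, Finset.mem_singleton] at ht
    rcases ht with rfl | rfl | rfl
    · rfl
    · exact hΓa.symm
    · exact (hΓa.trans hΓb).symm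
  have hch := chart_triple hlt1.ne (hlt1.trans hlt2).ne hlt2.ne V hVm hV0 s
  have hO : ((Oth Γ (cl3 q)).card : ℝ) * ((4 * R) ^ 3 * κ3) ≤ ε * l ^ 3 := by
    refine le_trans ?_ hsmall
    have h1 : ((Oth Γ (cl3 q)).card : ℝ) ≤ p := by exact_mod_cast Oth_card_le hp hΓ1
    have h2 := κ3_nonneg
    gcongr
  have hinst : (volume : Measure (E3 × E3)).IsAddHaarMeasure :=
    inferInstanceAs ((volume : Measure E3).prod (volume : Measure E3)).IsAddHaarMeasure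
  exact cluster_ineq hch hl hRl hcm hLL (α q.1) (Oth Γ (cl3 q)) (disjoint_Oth Γ (cl3 q))
    (fun x => volume_good_ge hl hε hε1 hR (α q.1) (Oth Γ (cl3 q)) x hO) (μα l α)
    (fun t ht => by unfold μα; rw [hαΓ t q.1 (hΓ1 t ht)]) hψ

theorem pot2_eq_sum (W : E3 → ℝ) (x : Fin N → E3) :
    pot2 W N x = ∑ p ∈ P2set Finset.univ, (N : ℝ) ^ 2 * W ((N : ℝ) • (x p.1 - x p.2)) := by
  rw [sum_P2set]; rfl

theorem pot3_eq_sum (V : E3 × E3 → ℝ) (x : Fin N → E3) :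
    pot3 V N x = ∑ p ∈ P3set Finset.univ, (Real.sqrt N) ^ 2 *
      V (Real.sqrt N • (x p.1 - x p.2.1), Real.sqrt N • (x p.1 - x p.2.2)) := by
  rw [sum_P3set, Real.sq_sqrt (Nat.cast_nonneg N)]; rfl

theorem fixed_alpha {W : E3 → ℝ} (hWm : Measurable W) (hW0 : ∀ x, 0 ≤ W x)
    {V : E3 × E3 → ℝ} (hVm : Measurable V) (hV0 : ∀ x, 0 ≤ V x)
    {Γ : Fin N → κ} {α : Fin N → (Fin 3 → ℤ)} (hαΓ : ∀ t t', Γ t = Γ t' → α t = α t') {p : ℕ}
    (hp : ∀ i, (Finset.univ.filter (fun t => Γ t = Γ i)).card ≤ p)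
    {ε l R cm2 C2 cm3 C3 : ℝ} (hl : 0 < l) (hε : 0 < ε) (hε1 : 7 * ε ≤ 1) (hR : 0 < R)
    (hRl : R ≤ ε * l)
    (hsmall : p * ((4 * R) ^ 3 * κ3) ≤ ε * l ^ 3) (hcm2 : 0 ≤ cm2) (hcm3 : 0 ≤ cm3)
    (hC2 : 0 ≤ C2) (hC3 : 0 ≤ C3)
    (hLL2 : LL E3 (Fin 2 × Fin 3) wpair W (N : ℝ) l R ε cm2 C2)
    (hLL3 : LL (E3 × E3) (Fin 3 × Fin 3) wtrip V (Real.sqrt N) l R ε cm3 C3)
    {ψ : (Fin N → E3) → ℂ} (hψ : ContDiff ℝ cinf ψ) :
    ENNReal.ofReal (cm2 * (1 - 7 * ε) / l ^ 3 * (P2lab Finset.univ Γ).card +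
        cm3 * (1 - 7 * ε) / l ^ 6 * (P3lab Finset.univ Γ).card) *
        ∫⁻ x, ‖ψ x‖ₑ ^ 2 ∂(Measure.pi (μα l α)) ≤
      (∫⁻ x, ENNReal.ofReal (∑ t, (Uset Γ α l (ε * l) R t).indicator (gradi ψ t) x +
        (pot2 W N x + pot3 V N x) * ‖ψ x‖ ^ 2) ∂(Measure.pi (μα l α))) +
      ENNReal.ofReal (24 * p * C2 + 36 * p ^ 2 * C3) *
        ∫⁻ x, ENNReal.ofReal (∑ t, gradi ψ t x) ∂(Measure.pi (μα l α)) := by
  classical
  obtain ⟨π, hπ⟩ : ∃ π, π = Measure.pi (μα l α) := ⟨_, rfl⟩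
  rw [← hπ]
  have hψ1 : ContDiff ℝ 1 ψ := hψ.of_le (by simp [cinf])
  have hgm : ∀ t, Measurable (gradi ψ t) := fun t => (continuous_gradi hψ1 t).measurable
  obtain ⟨M, hM⟩ : ∃ M, M = ∫⁻ x, ‖ψ x‖ₑ ^ 2 ∂π := ⟨_, rfl⟩
  rw [← hM]
  have h2 := fun q (hq : q ∈ P2lab Finset.univ Γ) => pair_ineq hWm hW0 hαΓ hp hl hε
    (by linarith) hR hRl hsmall hcm2 hLL2 hψ hq
  have h3 := fun q (hq : q ∈ P3lab Finset.univ Γ) => triple_ineq hVm hV0 hαΓ hp hl hε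
    (by linarith) hR hRl hsmall hcm3 hLL3 hψ hq
  rw [← hπ, ← hM] at h2 h3
  obtain ⟨f2, hf2⟩ : ∃ f2 : (Fin N × Fin N) → (Fin N → E3) → ENNReal, f2 = fun q x =>
      (Act l (ε * l) R (α q.1) (cl2 q) (Oth Γ (cl2 q))).indicator (fun x => ENNReal.ofReal
        (∑ t ∈ cl2 q, gradi ψ t x + (N : ℝ) ^ 2 * W ((N : ℝ) • (x q.1 - x q.2)) * ‖ψ x‖ ^ 2)) x := ⟨_, rfl⟩
  obtain ⟨f3, hf3⟩ : ∃ f3 : (Fin N × Fin N × Fin N) → (Fin N → E3) → ENNReal, f3 = fun q x =>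
      (Act l (ε * l) R (α q.1) (cl3 q) (Oth Γ (cl3 q))).indicator (fun x => ENNReal.ofReal
        (∑ t ∈ cl3 q, gradi ψ t x + (Real.sqrt N) ^ 2 * V (Real.sqrt N • (x q.1 - x q.2.1),
          Real.sqrt N • (x q.1 - x q.2.2)) * ‖ψ x‖ ^ 2)) x := ⟨_, rfl⟩
  have hf2m : ∀ q, Measurable (f2 q) := by
    intro q
    rw [hf2]
    refine Measurable.indicator ?_ (measurableSet_Act _ _ _ _ _ _)
    apply Measurable.ennreal_ofReal
    refine (Finset.measurable_fun_sum _ fun t _ => hgm t).add ?_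
    exact ((hWm.comp (by fun_prop)).const_mul _).mul (hψ.continuous.norm.pow 2).measurable
  have hf3m : ∀ q, Measurable (f3 q) := by
    intro q
    rw [hf3]
    refine Measurable.indicator ?_ (measurableSet_Act _ _ _ _ _ _)
    apply Measurable.ennreal_ofReal
    refine (Finset.measurable_fun_sum _ fun t _ => hgm t).add ?_
    exact ((hVm.comp (by fun_prop)).const_mul _).mul (hψ.continuous.norm.pow 2).measurable
  -- sum of the left-hand sides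
  have hsum : ENNReal.ofReal (cm2 * (1 - 7 * ε) / l ^ 3 * (P2lab Finset.univ Γ).card +
        cm3 * (1 - 7 * ε) / l ^ 6 * (P3lab Finset.univ Γ).card) * M =
      ∑ q ∈ P2lab Finset.univ Γ, ENNReal.ofReal (cm2 * (1 - 7 * ε) / l ^ 3) * M +
      ∑ q ∈ P3lab Finset.univ Γ, ENNReal.ofReal (cm3 * (1 - 7 * ε) / l ^ 6) * M := by
    have e1 : 0 ≤ 1 - 7 * ε := by linarith
    rw [Finset.sum_const, Finset.sum_const, nsmul_eq_mul, nsmul_eq_mul,
      ENNReal.ofReal_add (by positivity) (by positivity), ENNReal.ofReal_mul (by positivity),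
      ENNReal.ofReal_mul (by positivity), ENNReal.ofReal_natCast, ENNReal.ofReal_natCast]
    ring
  rw [hsum]
  -- pointwise bound of the active terms
  have hptw : ∀ x, ∑ q ∈ P2lab Finset.univ Γ, f2 q x + ∑ q ∈ P3lab Finset.univ Γ, f3 q x ≤
      ENNReal.ofReal (∑ t, (Uset Γ α l (ε * l) R t).indicator (gradi ψ t) x +
        (pot2 W N x + pot3 V N x) * ‖ψ x‖ ^ 2) := by
    intro x
    have hK : ∀ t, 0 ≤ gradi ψ t x := fun t => gradi_nonneg ψ t x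
    have ha2 : ∑ q ∈ P2lab Finset.univ Γ, f2 q x = ENNReal.ofReal (∑ q ∈ act2 Γ α l (ε * l) R x,
        (∑ t ∈ cl2 q, gradi ψ t x + (N : ℝ) ^ 2 * W ((N : ℝ) • (x q.1 - x q.2)) * ‖ψ x‖ ^ 2)) := by
      rw [ENNReal.ofReal_sum_of_nonneg (fun q _ => by
        have := hW0 ((N : ℝ) • (x q.1 - x q.2))
        have : 0 ≤ ∑ t ∈ cl2 q, gradi ψ t x := Finset.sum_nonneg fun t _ => hK t
        positivity)]
      unfold act2
      rw [Finset.sum_filter]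
      refine Finset.sum_congr rfl fun q _ => ?_
      rw [hf2]
      by_cases hx : x ∈ Act l (ε * l) R (α q.1) (cl2 q) (Oth Γ (cl2 q))
      · simp only [hx, Set.indicator_of_mem, if_true]
      · simp only [hx, Set.indicator_of_notMem, not_false_eq_true, if_false]
    have ha3 : ∑ q ∈ P3lab Finset.univ Γ, f3 q x = ENNReal.ofReal (∑ q ∈ act3 Γ α l (ε * l) R x,
        (∑ t ∈ cl3 q, gradi ψ t x + (Real.sqrt N) ^ 2 * V (Real.sqrt N • (x q.1 - x q.2.1),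
          Real.sqrt N • (x q.1 - x q.2.2)) * ‖ψ x‖ ^ 2)) := by
      rw [ENNReal.ofReal_sum_of_nonneg (fun q _ => by
        have := hV0 (Real.sqrt N • (x q.1 - x q.2.1), Real.sqrt N • (x q.1 - x q.2.2))
        have : 0 ≤ ∑ t ∈ cl3 q, gradi ψ t x := Finset.sum_nonneg fun t _ => hK t
        positivity)]
      unfold act3
      rw [Finset.sum_filter]
      refine Finset.sum_congr rfl fun q _ => ?_
      rw [hf3]
      by_cases hx : x ∈ Act l (ε * l) R (α q.1) (cl3 q) (Oth Γ (cl3 q))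
      · simp only [hx, Set.indicator_of_mem, if_true]
      · simp only [hx, Set.indicator_of_notMem, not_false_eq_true, if_false]
    rw [ha2, ha3, ← ENNReal.ofReal_add]
    · apply ENNReal.ofReal_le_ofReal
      rw [Finset.sum_add_distrib, Finset.sum_add_distrib]
      have hact := act_sum_le (Γ := Γ) (α := α) (l := l) (η := ε * l) (R := R) (x := x) hαΓ
        (fun t => gradi ψ t x) hK
      have hU : ∀ t, (if ∃ S ∈ actS Γ α l (ε * l) R x, t ∈ S then gradi ψ t x else 0) =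
          (Uset Γ α l (ε * l) R t).indicator (gradi ψ t) x := by
        intro t
        by_cases ht : ∃ S ∈ actS Γ α l (ε * l) R x, t ∈ S
        · rw [if_pos ht, Set.indicator_of_mem (show x ∈ Uset Γ α l (ε * l) R t from ht)]
        · rw [if_neg ht, Set.indicator_of_notMem (show x ∉ Uset Γ α l (ε * l) R t from ht)]
      simp only [hU] at hact
      have hp2 : ∑ q ∈ act2 Γ α l (ε * l) R x, (N : ℝ) ^ 2 * W ((N : ℝ) • (x q.1 - x q.2)) * ‖ψ x‖ ^ 2 ≤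
          pot2 W N x * ‖ψ x‖ ^ 2 := by
        rw [← Finset.sum_mul, pot2_eq_sum]
        refine mul_le_mul_of_nonneg_right ?_ (by positivity)
        apply Finset.sum_le_sum_of_subset_of_nonneg
        · unfold act2 P2lab
          exact (Finset.filter_subset _ _).trans (Finset.filter_subset _ _)
        · intro q _ _
          exact mul_nonneg (sq_nonneg _) (hW0 _)
      have hp3 : ∑ q ∈ act3 Γ α l (ε * l) R x, (Real.sqrt N) ^ 2 * V (Real.sqrt N • (x q.1 - x q.2.1),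
          Real.sqrt N • (x q.1 - x q.2.2)) * ‖ψ x‖ ^ 2 ≤ pot3 V N x * ‖ψ x‖ ^ 2 := by
        rw [← Finset.sum_mul, pot3_eq_sum]
        refine mul_le_mul_of_nonneg_right ?_ (by positivity)
        apply Finset.sum_le_sum_of_subset_of_nonneg
        · unfold act3 P3lab
          exact (Finset.filter_subset _ _).trans (Finset.filter_subset _ _)
        · intro q _ _
          exact mul_nonneg (sq_nonneg _) (hV0 _)
      linarith
    · refine Finset.sum_nonneg fun q _ => ?_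
      have := hW0 ((N : ℝ) • (x q.1 - x q.2))
      have : 0 ≤ ∑ t ∈ cl2 q, gradi ψ t x := Finset.sum_nonneg fun t _ => hK t
      positivity
    · refine Finset.sum_nonneg fun q _ => ?_
      have := hV0 (Real.sqrt N • (x q.1 - x q.2.1), Real.sqrt N • (x q.1 - x q.2.2))
      have : 0 ≤ ∑ t ∈ cl3 q, gradi ψ t x := Finset.sum_nonneg fun t _ => hK t
      positivity
  -- the error terms
  have hg0 : ∀ x, ∀ t, 0 ≤ gradi ψ t x := fun x t => gradi_nonneg ψ t x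
  have herr2 : ∑ q ∈ P2lab Finset.univ Γ, ENNReal.ofReal C2 *
      (12 * ∫⁻ x, ENNReal.ofReal (∑ t ∈ cl2 q, gradi ψ t x) ∂π) ≤
      ENNReal.ofReal (24 * p * C2) * ∫⁻ x, ENNReal.ofReal (∑ t, gradi ψ t x) ∂π := by
    rw [← Finset.mul_sum, ← Finset.mul_sum, ← lintegral_finsetSum _ (fun q _ => by
      apply Measurable.ennreal_ofReal
      exact Finset.measurable_fun_sum _ fun t _ => hgm t)]
    have h1 : ∫⁻ x, ∑ q ∈ P2lab Finset.univ Γ, ENNReal.ofReal (∑ t ∈ cl2 q, gradi ψ t x) ∂π ≤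
        ENNReal.ofReal (2 * p) * ∫⁻ x, ENNReal.ofReal (∑ t, gradi ψ t x) ∂π := by
      rw [← lintegral_const_mul' _ _ ENNReal.ofReal_ne_top]
      apply lintegral_mono
      intro x
      beta_reduce
      rw [← ENNReal.ofReal_sum_of_nonneg (fun q _ => Finset.sum_nonneg fun t _ => hg0 x t),
        ← ENNReal.ofReal_mul (by positivity)]
      apply ENNReal.ofReal_le_ofReal
      have := sum_cl2_le hp (fun t => gradi ψ t x) (hg0 x)
      push_cast at this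
      exact this
    calc ENNReal.ofReal C2 * (12 * ∫⁻ x, ∑ q ∈ P2lab Finset.univ Γ, ENNReal.ofReal (∑ t ∈ cl2 q, gradi ψ t x) ∂π)
        ≤ ENNReal.ofReal C2 * (12 * (ENNReal.ofReal (2 * p) * ∫⁻ x, ENNReal.ofReal (∑ t, gradi ψ t x) ∂π)) := by
          gcongr
      _ = _ := by
          have h12 : (12 : ENNReal) = ENNReal.ofReal 12 := by simp
          rw [h12, ← mul_assoc, ← mul_assoc, ← ENNReal.ofReal_mul hC2,
            ← ENNReal.ofReal_mul (by positivity)]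
          congr 2
          ring
  have herr3 : ∑ q ∈ P3lab Finset.univ Γ, ENNReal.ofReal C3 *
      (12 * ∫⁻ x, ENNReal.ofReal (∑ t ∈ cl3 q, gradi ψ t x) ∂π) ≤
      ENNReal.ofReal (36 * p ^ 2 * C3) * ∫⁻ x, ENNReal.ofReal (∑ t, gradi ψ t x) ∂π := by
    rw [← Finset.mul_sum, ← Finset.mul_sum, ← lintegral_finsetSum _ (fun q _ => by
      apply Measurable.ennreal_ofReal
      exact Finset.measurable_fun_sum _ fun t _ => hgm t)]
    have h1 : ∫⁻ x, ∑ q ∈ P3lab Finset.univ Γ, ENNReal.ofReal (∑ t ∈ cl3 q, gradi ψ t x) ∂π ≤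
        ENNReal.ofReal (3 * p ^ 2) * ∫⁻ x, ENNReal.ofReal (∑ t, gradi ψ t x) ∂π := by
      rw [← lintegral_const_mul' _ _ ENNReal.ofReal_ne_top]
      apply lintegral_mono
      intro x
      beta_reduce
      rw [← ENNReal.ofReal_sum_of_nonneg (fun q _ => Finset.sum_nonneg fun t _ => hg0 x t),
        ← ENNReal.ofReal_mul (by positivity)]
      apply ENNReal.ofReal_le_ofReal
      have := sum_cl3_le hp (fun t => gradi ψ t x) (hg0 x)
      push_cast at this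
      exact this
    calc ENNReal.ofReal C3 * (12 * ∫⁻ x, ∑ q ∈ P3lab Finset.univ Γ, ENNReal.ofReal (∑ t ∈ cl3 q, gradi ψ t x) ∂π)
        ≤ ENNReal.ofReal C3 * (12 * (ENNReal.ofReal (3 * p ^ 2) * ∫⁻ x, ENNReal.ofReal (∑ t, gradi ψ t x) ∂π)) := by
          gcongr
      _ = _ := by
          have h12 : (12 : ENNReal) = ENNReal.ofReal 12 := by simp
          rw [h12, ← mul_assoc, ← mul_assoc, ← ENNReal.ofReal_mul hC3,
            ← ENNReal.ofReal_mul (by positivity)]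
          congr 2
          ring
  calc ∑ q ∈ P2lab Finset.univ Γ, ENNReal.ofReal (cm2 * (1 - 7 * ε) / l ^ 3) * M +
      ∑ q ∈ P3lab Finset.univ Γ, ENNReal.ofReal (cm3 * (1 - 7 * ε) / l ^ 6) * M
      ≤ ∑ q ∈ P2lab Finset.univ Γ, ((∫⁻ x, f2 q x ∂π) + ENNReal.ofReal C2 *
          (12 * ∫⁻ x, ENNReal.ofReal (∑ t ∈ cl2 q, gradi ψ t x) ∂π)) +
        ∑ q ∈ P3lab Finset.univ Γ, ((∫⁻ x, f3 q x ∂π) + ENNReal.ofReal C3 *
          (12 * ∫⁻ x, ENNReal.ofReal (∑ t ∈ cl3 q, gradi ψ t x) ∂π)) := by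
        refine add_le_add (Finset.sum_le_sum fun q hq => ?_) (Finset.sum_le_sum fun q hq => ?_)
        · rw [hf2]; exact h2 q hq
        · rw [hf3]; exact h3 q hq
    _ = (∫⁻ x, (∑ q ∈ P2lab Finset.univ Γ, f2 q x + ∑ q ∈ P3lab Finset.univ Γ, f3 q x) ∂π) +
        (∑ q ∈ P2lab Finset.univ Γ, ENNReal.ofReal C2 *
          (12 * ∫⁻ x, ENNReal.ofReal (∑ t ∈ cl2 q, gradi ψ t x) ∂π) +
        ∑ q ∈ P3lab Finset.univ Γ, ENNReal.ofReal C3 *
          (12 * ∫⁻ x, ENNReal.ofReal (∑ t ∈ cl3 q, gradi ψ t x) ∂π)) := by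
        rw [lintegral_add_left (Finset.measurable_fun_sum _ fun q _ => hf2m q),
          lintegral_finsetSum _ (fun q _ => hf2m q), lintegral_finsetSum _ (fun q _ => hf3m q),
          Finset.sum_add_distrib, Finset.sum_add_distrib]
        ring
    _ ≤ (∫⁻ x, ENNReal.ofReal (∑ t, (Uset Γ α l (ε * l) R t).indicator (gradi ψ t) x +
        (pot2 W N x + pot3 V N x) * ‖ψ x‖ ^ 2) ∂π) +
        (ENNReal.ofReal (24 * p * C2) * ∫⁻ x, ENNReal.ofReal (∑ t, gradi ψ t x) ∂π +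
          ENNReal.ofReal (36 * p ^ 2 * C3) * ∫⁻ x, ENNReal.ofReal (∑ t, gradi ψ t x) ∂π) :=
        add_le_add (lintegral_mono hptw) (add_le_add herr2 herr3)
    _ = _ := by
        rw [← add_mul, ← ENNReal.ofReal_add (by positivity) (by positivity)]

end FixedSum

end Pool.Agent.Helper23.Bose
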