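import Mathlib
import Pool.Agent.Helper23.Bose.Defs
import Pool.Agent.Helper23.Bose.Gen
import Pool.Agent.Helper23.Bose.FixedSum

set_option autoImplicit false
open MeasureTheory Module

namespace Pool.Agent.Helper23.Bose

section Cfg

variable {N : ℕ}

/-- box labels of a configuration -/
noncomputable def labs (l : ℝ) (x : Fin N → E3) : Fin N → (Fin 3 → ℤ) := fun t => lab l (x t)

/-- box configuration -/
def Cfg (l : ℝ) (α : Fin N → (Fin 3 → ℤ)) : Set (Fin N → E3) :=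
  Set.pi Set.univ (fun t => Box l (α t))

theorem mem_Cfg_iff {l : ℝ} (hl : 0 < l) {α : Fin N → (Fin 3 → ℤ)} {x : Fin N → E3} :
    x ∈ Cfg l α ↔ labs l x = α := by
  constructor
  · intro h
    funext t
    exact (mem_Box_iff hl).mp (h t (Set.mem_univ t))
  · intro h t _
    rw [← h]
    exact (mem_Box_iff hl).mpr rfl

theorem measurableSet_Cfg (l : ℝ) (α : Fin N → (Fin 3 → ℤ)) : MeasurableSet (Cfg l α) :=
  MeasurableSet.univ_pi fun t => measurableSet_Box l (α t)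

theorem restrict_Cfg (l : ℝ) (α : Fin N → (Fin 3 → ℤ)) :
    (volume : Measure (Fin N → E3)).restrict (Cfg l α) = Measure.pi (μα l α) := by
  unfold Cfg μα
  rw [volume_pi, Measure.restrict_pi_pi]

theorem iUnion_Cfg {l : ℝ} (hl : 0 < l) : ⋃ α : Fin N → (Fin 3 → ℤ), Cfg l α = Set.univ := by
  ext x
  simp only [Set.mem_iUnion, Set.mem_univ, iff_true]
  exact ⟨labs l x, (mem_Cfg_iff hl).mpr rfl⟩

theorem lintegral_eq_tsum_cfg {l : ℝ} (hl : 0 < l) (F : (Fin N → E3) → ENNReal) :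
    ∫⁻ x, F x = ∑' α : Fin N → (Fin 3 → ℤ), ∫⁻ x, F x ∂(Measure.pi (μα l α)) := by
  have h1 : ∫⁻ x, F x = ∫⁻ x in ⋃ α : Fin N → (Fin 3 → ℤ), Cfg l α, F x := by
    rw [iUnion_Cfg hl, Measure.restrict_univ]
  rw [h1, lintegral_iUnion (fun α => measurableSet_Cfg l α)]
  · refine tsum_congr fun α => ?_
    rw [restrict_Cfg]
  · intro α α' hne
    change Disjoint _ _
    rw [Set.disjoint_left]
    intro x hx hx'
    exact hne (((mem_Cfg_iff hl).mp hx).symm.trans ((mem_Cfg_iff hl).mp hx'))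

theorem ae_mem_Cfg (l : ℝ) (α : Fin N → (Fin 3 → ℤ)) :
    ∀ᵐ x ∂(Measure.pi (μα l α)), x ∈ Cfg l α := by
  rw [← restrict_Cfg]
  exact ae_restrict_mem (measurableSet_Cfg l α)

end Cfg

section Avg

/-- average over a box -/
noncomputable def avgB (l : ℝ) (h : E3 → ℝ) (b : Fin 3 → ℤ) : ℝ := (∫ y in Box l b, h y) / l ^ 3

theorem avgB_nonneg {l : ℝ} (hl : 0 < l) {h : E3 → ℝ} (h0 : ∀ x, 0 ≤ h x) (b : Fin 3 → ℤ) :
    0 ≤ avgB l h b :=
  div_nonneg (integral_nonneg h0) (by positivity)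

theorem volReal_Box {l : ℝ} (hl : 0 < l) (b : Fin 3 → ℤ) : volume.real (Box l b) = l ^ 3 := by
  rw [Measure.real, volume_Box hl, ENNReal.toReal_ofReal (by positivity)]

theorem isFiniteMeasure_Box {l : ℝ} (hl : 0 < l) (b : Fin 3 → ℤ) :
    IsFiniteMeasure ((volume : Measure E3).restrict (Box l b)) :=
  ⟨by rw [Measure.restrict_apply_univ, volume_Box hl]; exact ENNReal.ofReal_lt_top⟩

theorem avgB_le {l Λ : ℝ} (hl : 0 < l) {h : E3 → ℝ} (hi : Integrable h) (h1 : ∀ x, h x ≤ Λ)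
    (b : Fin 3 → ℤ) : avgB l h b ≤ Λ := by
  have := isFiniteMeasure_Box hl b
  unfold avgB
  rw [div_le_iff₀ (by positivity)]
  calc ∫ y in Box l b, h y ≤ ∫ y in Box l b, Λ :=
        integral_mono hi.integrableOn (integrable_const _) h1
    _ = Λ * l ^ 3 := by
        rw [integral_const, smul_eq_mul]
        simp only [Measure.real, Measure.restrict_apply_univ]
        rw [volume_Box hl, ENNReal.toReal_ofReal (by positivity), mul_comm]

theorem avgB_conv {l b1 b2 : ℝ} (hl : 0 < l) {lam gam : E3 → ℝ} (hi : Integrable lam)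
    (hg : Integrable gam) (b : Fin 3 → ℤ) {t : ℝ}
    (h : ∀ x, lam x * t ≤ b1 / 2 * t ^ 2 + b2 / 6 * t ^ 3 + gam x) :
    avgB l lam b * t ≤ b1 / 2 * t ^ 2 + b2 / 6 * t ^ 3 + avgB l gam b := by
  have := isFiniteMeasure_Box hl b
  have hl3 : 0 < l ^ 3 := by positivity
  have h1 : ∫ y in Box l b, lam y * t ≤ ∫ y in Box l b, (b1 / 2 * t ^ 2 + b2 / 6 * t ^ 3 + gam y) :=
    integral_mono (hi.integrableOn.mul_const _) ((integrable_const _).add hg.integrableOn) h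
  rw [integral_mul_const, integral_add (integrable_const _) hg.integrableOn, integral_const,
    smul_eq_mul] at h1
  simp only [Measure.real, Measure.restrict_apply_univ] at h1
  rw [volume_Box hl, ENNReal.toReal_ofReal hl3.le] at h1
  unfold avgB
  have e1 : (∫ y in Box l b, lam y) / l ^ 3 * t = ((∫ y in Box l b, lam y) * t) / l ^ 3 := by ring
  have e2 : b1 / 2 * t ^ 2 + b2 / 6 * t ^ 3 + (∫ y in Box l b, gam y) / l ^ 3 =
      (l ^ 3 * (b1 / 2 * t ^ 2 + b2 / 6 * t ^ 3) + ∫ y in Box l b, gam y) / l ^ 3 := by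
    field_simp
  rw [e1, e2]
  gcongr

theorem le_avgB {l Λ : ℝ} (hl : 0 < l) (hΛ : 0 ≤ Λ) {lam : E3 → ℝ} (hi : Integrable lam)
    (h0 : ∀ x, 0 ≤ lam x)
    (hlog : ∀ x y, lam x ≤ Real.exp (Λ * ‖x - y‖) * lam y) {b : Fin 3 → ℤ} {x : E3}
    (hx : x ∈ Box l b) : lam x ≤ Real.exp (2 * Λ * l) * avgB l lam b := by
  have := isFiniteMeasure_Box hl b
  have hl3 : 0 < l ^ 3 := by positivity
  have h1 : ∫ y in Box l b, lam x ≤ ∫ y in Box l b, Real.exp (2 * Λ * l) * lam y := by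
    apply setIntegral_mono_on (integrable_const _) (hi.integrableOn.const_mul _)
      (measurableSet_Box l b)
    intro y hy
    refine (hlog x y).trans ?_
    have hxy := Box_dist hl hx hy
    have h : Λ * ‖x - y‖ ≤ 2 * Λ * l := by nlinarith
    exact mul_le_mul_of_nonneg_right (Real.exp_le_exp.mpr h) (h0 y)
  rw [integral_const, integral_const_mul, smul_eq_mul] at h1
  simp only [Measure.real, Measure.restrict_apply_univ] at h1
  rw [volume_Box hl, ENNReal.toReal_ofReal hl3.le] at h1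
  unfold avgB
  rw [← mul_div_assoc, le_div_iff₀ hl3, mul_comm]
  exact h1

theorem sum_avgB_le {l : ℝ} (hl : 0 < l) {h : E3 → ℝ} (hi : Integrable h) (h0 : ∀ x, 0 ≤ h x)
    (T : Finset (Fin 3 → ℤ)) : ∑ b ∈ T, avgB l h b ≤ (∫ y, h y) / l ^ 3 := by
  unfold avgB
  rw [← Finset.sum_div]
  gcongr
  have h1 : ∫ y in ⋃ b ∈ T, Box l b, h y = ∑ b ∈ T, ∫ y in Box l b, h y := by
    apply integral_biUnion_finset T (fun b _ => measurableSet_Box l b)
    · intro b _ b' _ hbb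
      exact Box_disjoint hl hbb
    · intro b _
      exact hi.integrableOn
  rw [← h1]
  exact setIntegral_le_integral hi (Filter.Eventually.of_forall h0)

end Avg

section Global

variable {N : ℕ}

theorem global_ineq {W : E3 → ℝ} (hWm : Measurable W) (hW0 : ∀ x, 0 ≤ W x)
    {V : E3 × E3 → ℝ} (hVm : Measurable V) (hV0 : ∀ x, 0 ≤ V x) (hN : 0 < N)
    {CB : ℝ} (hHB : ∀ (z : E3) (R ρ : ℝ), 0 < R → 2 * R ≤ ρ → ∀ g : E3 → ℂ, ContDiff ℝ 1 g →
      ∫⁻ r in Metric.ball z R, ‖g r‖ₑ ^ 2 ∂volume ≤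
        ENNReal.ofReal (CB * R ^ 2) * (∫⁻ r in Metric.ball z ρ, ‖fderiv ℝ g r‖ₑ ^ 2 ∂volume
          + ENNReal.ofReal ((ρ ^ 2)⁻¹) * ∫⁻ r in Metric.ball z ρ, ‖g r‖ₑ ^ 2 ∂volume))
    {ε l R C2 C3 b1 b2 Λ Kc : ℝ} {p : ℕ} (hl : 0 < l) (hε : 0 < ε) (hε1 : 7 * ε ≤ 1) (hR : 0 < R)
    (hRl : 10 * R ≤ ε * l) (hsmall : p * ((4 * R) ^ 3 * κ3) ≤ ε * l ^ 3)
    (hC2 : 0 ≤ C2) (hC3 : 0 ≤ C3) (hb1 : 0 ≤ b1) (hb2 : 0 ≤ b2) (hΛ : 0 ≤ Λ) (hKc : 0 ≤ Kc)
    (hK : Λ ≤ b1 * Kc / 2 + b2 * Kc ^ 2 / 6) (hp : Kc * (N * l ^ 3) + 2 ≤ p)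
    (hLL2 : LL E3 (Fin 2 × Fin 3) wpair W (N : ℝ) l R ε ((1 - ε) ^ 3 * b1 / N) C2)
    (hLL3 : LL (E3 × E3) (Fin 3 × Fin 3) wtrip V (Real.sqrt N) l R ε ((1 - ε) ^ 3 * b2 / N ^ 2) C3)
    {ψ : (Fin N → E3) → ℂ} (hψ : ContDiff ℝ cinf ψ)
    {lam gam : E3 → ℝ} (hlc : Continuous lam) (hli : Integrable lam) (hgi : Integrable gam)
    (hl0 : ∀ x, 0 ≤ lam x) (hg0 : ∀ x, 0 ≤ gam x) (hlΛ : ∀ x, lam x ≤ Λ)
    (hconv : ∀ x t, 0 ≤ t → lam x * t ≤ b1 / 2 * t ^ 2 + b2 / 6 * t ^ 3 + gam x)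
    (hlog : ∀ x y, lam x ≤ Real.exp (Λ * ‖x - y‖) * lam y) :
    ∃ UG : Fin N → Set (Fin N → E3), (∀ t, MeasurableSet (UG t)) ∧
      (ENNReal.ofReal ((1 - ε) ^ 3 * (1 - 7 * ε) * Real.exp (-(2 * Λ * l))) *
        ∫⁻ x, ENNReal.ofReal (∑ i, lam (x i) * ‖ψ x‖ ^ 2) ≤
        (∫⁻ x, ENNReal.ofReal (∑ t, (UG t).indicator (gradi ψ t) x +
          (pot2 W N x + pot3 V N x) * ‖ψ x‖ ^ 2)) +
        ENNReal.ofReal (24 * p * C2 + 36 * p ^ 2 * C3) * (∫⁻ x, ENNReal.ofReal (∑ t, gradi ψ t x)) +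
        ENNReal.ofReal ((1 - ε) ^ 3 * (1 - 7 * ε) * (2 * ((∫ y, lam y) / l ^ 3) + N * ∫ y, gam y)) *
          ∫⁻ x, ‖ψ x‖ₑ ^ 2) ∧
      ∀ t, ∫⁻ x, (UG t).indicator (fun x => ‖ψ x‖ₑ ^ 2) x ≤
        p * (ENNReal.ofReal (CB * (4 * R) ^ 2) * ((∫⁻ x, ENNReal.ofReal (gradi ψ t x))
          + ENNReal.ofReal (((ε * l - 2 * R) ^ 2)⁻¹) * ∫⁻ x, ‖ψ x‖ₑ ^ 2)) := by
  have hN' : (0 : ℝ) < N := by exact_mod_cast hN
  have hψ1 : ContDiff ℝ 1 ψ := hψ.of_le (by simp [cinf])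
  obtain ⟨D, hD⟩ : ∃ D : ℝ, D = N * l ^ 3 := ⟨_, rfl⟩
  have hDpos : 0 < D := by rw [hD]; positivity
  obtain ⟨q, hq⟩ : ∃ q : ℝ, q = (1 - ε) ^ 3 * (1 - 7 * ε) := ⟨_, rfl⟩
  have hq0 : 0 ≤ q := by
    rw [hq]
    have : 0 ≤ 1 - 7 * ε := by linarith
    have : 0 ≤ 1 - ε := by linarith
    positivity
  have hp1 : 1 ≤ p := by
    have : (1 : ℝ) ≤ p := by
      have : 0 ≤ Kc * (N * l ^ 3) := by positivity
      linarith
    exact_mod_cast this
  -- grouping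
  have hgrp := fun α : Fin N → (Fin 3 → ℤ) => exists_grouping α (b1 / D) (b2 / D ^ 2)
    (by positivity) (by positivity) p hp1 (fun b => avgB l lam b)
    (fun b => 2 * avgB l lam b + D * avgB l gam b)
    (fun b => hgr_full hb1 hb2 hDpos hKc ((avgB_le hl hli hlΛ b).trans hK) (by rw [hD]; exact hp))
    (fun b m => hgr_ge hb1 hb2 hDpos (avgB_nonneg hl hl0 b)
      (fun t ht => avgB_conv hl hli hgi b (fun x => hconv x t ht)) m)
  choose c hc1 hc2 using hgrp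
  obtain ⟨loss, hloss⟩ : ∃ loss : ℝ, loss = 2 * ((∫ y, lam y) / l ^ 3) + N * ∫ y, gam y := ⟨_, rfl⟩
  have hlossnn : 0 ≤ loss := by
    rw [hloss]
    have i1 : 0 ≤ ∫ y, lam y := integral_nonneg hl0
    have i2 : 0 ≤ ∫ y, gam y := integral_nonneg hg0
    positivity
  have hκ : ∀ α : Fin N → (Fin 3 → ℤ),
      ∑ b ∈ Finset.univ.image α, (2 * avgB l lam b + D * avgB l gam b) ≤ loss := by
    intro α
    rw [Finset.sum_add_distrib, ← Finset.mul_sum, ← Finset.mul_sum]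
    have h1 := sum_avgB_le hl hli hl0 (Finset.univ.image α)
    have h2 := sum_avgB_le hl hgi hg0 (Finset.univ.image α)
    have h3 : D * ((∫ y, gam y) / l ^ 3) = N * ∫ y, gam y := by
      rw [hD]; field_simp
    rw [hloss, ← h3]
    gcongr
  obtain ⟨Γ, hΓ⟩ : ∃ Γ : (Fin N → (Fin 3 → ℤ)) → Fin N → (Fin 3 → ℤ) × ℕ,
    Γ = fun α t => (α t, c α t) := ⟨_, rfl⟩
  have hαΓ : ∀ α t t', Γ α t = Γ α t' → α t = α t' := by
    intro α t t' h
    rw [hΓ] at h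
    exact congrArg Prod.fst h
  have hpΓ : ∀ α i, (Finset.univ.filter (fun t => Γ α t = Γ α i)).card ≤ p := by
    intro α i
    refine le_trans (Finset.card_le_card ?_) (hc1 α i)
    intro t ht
    simp only [Finset.mem_filter, Finset.mem_univ, true_and, hΓ, Prod.mk.injEq] at ht ⊢
    exact ht
  have hc2' : ∀ α, ∑ i, avgB l lam (α i) -
      ∑ b ∈ Finset.univ.image α, (2 * avgB l lam b + D * avgB l gam b) ≤
      b1 / D * (P2lab Finset.univ (Γ α)).card + b2 / D ^ 2 * (P3lab Finset.univ (Γ α)).card := by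
    intro α
    rw [hΓ]
    exact hc2 α
  clear hc2
  -- global used regions
  obtain ⟨UG, hUGd⟩ : ∃ UG : Fin N → Set (Fin N → E3), UG = fun t =>
    {x | x ∈ Uset (Γ (labs l x)) (labs l x) l (ε * l) R t} := ⟨_, rfl⟩
  have hUGeq : ∀ α t, ∀ x ∈ Cfg l α, (x ∈ UG t ↔ x ∈ Uset (Γ α) α l (ε * l) R t) := by
    intro α t x hx
    have hx' : labs l x = α := (mem_Cfg_iff hl).mp hx
    have h1 : UG t = {x | x ∈ Uset (Γ (labs l x)) (labs l x) l (ε * l) R t} := by rw [hUGd]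
    have h2 : x ∈ UG t ↔ x ∈ Uset (Γ (labs l x)) (labs l x) l (ε * l) R t := by
      rw [h1, Set.mem_setOf_eq]
    rw [h2, hx']
  refine ⟨UG, fun t => ?_, ?_, fun t => ?_⟩
  · have : UG t = ⋃ α : Fin N → (Fin 3 → ℤ), (Cfg l α ∩ Uset (Γ α) α l (ε * l) R t) := by
      ext x
      simp only [Set.mem_iUnion, Set.mem_inter_iff]
      constructor
      · intro hx
        have hxm : x ∈ Cfg l (labs l x) := (mem_Cfg_iff hl).mpr rfl
        exact ⟨labs l x, hxm, (hUGeq _ t x hxm).mp hx⟩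
      · rintro ⟨α, hx1, hx2⟩
        exact (hUGeq α t x hx1).mpr hx2
    rw [this]
    exact MeasurableSet.iUnion fun α => (measurableSet_Cfg l α).inter (measurableSet_Uset _ _ _ _ _ _)
  · -- main inequality
    rw [lintegral_eq_tsum_cfg hl, lintegral_eq_tsum_cfg hl
      (fun x => ENNReal.ofReal (∑ t, (UG t).indicator (gradi ψ t) x +
          (pot2 W N x + pot3 V N x) * ‖ψ x‖ ^ 2)),
      lintegral_eq_tsum_cfg hl (fun x => ENNReal.ofReal (∑ t, gradi ψ t x)),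
      lintegral_eq_tsum_cfg hl (fun x => ‖ψ x‖ₑ ^ 2),
      ← ENNReal.tsum_mul_left, ← ENNReal.tsum_mul_left, ← ENNReal.tsum_mul_left,
      ← ENNReal.tsum_add, ← ENNReal.tsum_add]
    refine ENNReal.tsum_le_tsum fun α => ?_
    have hfix := fixed_alpha hWm hW0 hVm hV0 (hαΓ α) (hpΓ α) hl hε hε1 hR (by linarith) hsmall
      (cm2 := (1 - ε) ^ 3 * b1 / N) (cm3 := (1 - ε) ^ 3 * b2 / N ^ 2)
      (by have : 0 ≤ 1 - ε := by linarith
          positivity)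
      (by have : 0 ≤ 1 - ε := by linarith
          positivity) hC2 hC3 hLL2 hLL3 hψ
    -- replace the regions
    have hreg : ∫⁻ x, ENNReal.ofReal (∑ t, (Uset (Γ α) α l (ε * l) R t).indicator (gradi ψ t) x +
        (pot2 W N x + pot3 V N x) * ‖ψ x‖ ^ 2) ∂(Measure.pi (μα l α)) =
        ∫⁻ x, ENNReal.ofReal (∑ t, (UG t).indicator (gradi ψ t) x +
        (pot2 W N x + pot3 V N x) * ‖ψ x‖ ^ 2) ∂(Measure.pi (μα l α)) := by
      apply lintegral_congr_ae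
      filter_upwards [ae_mem_Cfg l α] with x hx
      congr 2
      refine Finset.sum_congr rfl fun t _ => ?_
      by_cases hxt : x ∈ UG t
      · rw [Set.indicator_of_mem hxt, Set.indicator_of_mem ((hUGeq α t x hx).mp hxt)]
      · rw [Set.indicator_of_notMem hxt,
          Set.indicator_of_notMem (fun h => hxt ((hUGeq α t x hx).mpr h))]
    rw [hreg] at hfix
    -- energies
    obtain ⟨M, hM⟩ : ∃ M, M = ∫⁻ x, ‖ψ x‖ₑ ^ 2 ∂(Measure.pi (μα l α)) := ⟨_, rfl⟩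
    rw [← hM] at hfix ⊢
    have hE : (1 - ε) ^ 3 * b1 / N * (1 - 7 * ε) / l ^ 3 * (P2lab Finset.univ (Γ α)).card +
        (1 - ε) ^ 3 * b2 / N ^ 2 * (1 - 7 * ε) / l ^ 6 * (P3lab Finset.univ (Γ α)).card =
        q * (b1 / D * (P2lab Finset.univ (Γ α)).card + b2 / D ^ 2 * (P3lab Finset.univ (Γ α)).card) := by
      rw [hq, hD]
      field_simp
    rw [hE] at hfix
    have hlow : q * ∑ i, avgB l lam (α i) ≤
        q * (b1 / D * (P2lab Finset.univ (Γ α)).card + b2 / D ^ 2 * (P3lab Finset.univ (Γ α)).card) +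
          q * loss := by
      rw [← mul_add]
      gcongr
      have h1 := hc2' α
      have h2 := hκ α
      linarith
    have hlow' : ENNReal.ofReal (q * ∑ i, avgB l lam (α i)) * M ≤
        ENNReal.ofReal (q * (b1 / D * (P2lab Finset.univ (Γ α)).card +
          b2 / D ^ 2 * (P3lab Finset.univ (Γ α)).card)) * M + ENNReal.ofReal (q * loss) * M := by
      rw [← add_mul, ← ENNReal.ofReal_add (by positivity) (by positivity)]
      gcongr
    have hlam : ENNReal.ofReal (q * Real.exp (-(2 * Λ * l))) *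
        ∫⁻ x, ENNReal.ofReal (∑ i, lam (x i) * ‖ψ x‖ ^ 2) ∂(Measure.pi (μα l α)) ≤
        ENNReal.ofReal (q * ∑ i, avgB l lam (α i)) * M := by
      rw [hM, ← lintegral_const_mul' _ _ ENNReal.ofReal_ne_top,
        ← lintegral_const_mul' _ _ ENNReal.ofReal_ne_top]
      apply lintegral_mono_ae
      filter_upwards [ae_mem_Cfg l α] with x hx
      have hs : 0 ≤ ∑ i, avgB l lam (α i) := Finset.sum_nonneg fun i _ => avgB_nonneg hl hl0 _
      rw [enorm_sq_eq, ← ENNReal.ofReal_mul (by positivity), ← ENNReal.ofReal_mul (by positivity)]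
      apply ENNReal.ofReal_le_ofReal
      rw [← Finset.sum_mul]
      have h1 : ∑ i, lam (x i) ≤ Real.exp (2 * Λ * l) * ∑ i, avgB l lam (α i) := by
        rw [Finset.mul_sum]
        refine Finset.sum_le_sum fun i _ => ?_
        exact le_avgB hl hΛ hli hl0 hlog (hx i (Set.mem_univ i))
      have h2 : Real.exp (-(2 * Λ * l)) * ∑ i, lam (x i) ≤ ∑ i, avgB l lam (α i) := by
        calc Real.exp (-(2 * Λ * l)) * ∑ i, lam (x i) ≤
              Real.exp (-(2 * Λ * l)) * (Real.exp (2 * Λ * l) * ∑ i, avgB l lam (α i)) := by gcongr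
          _ = _ := by rw [← mul_assoc, ← Real.exp_add]; simp
      calc q * Real.exp (-(2 * Λ * l)) * ((∑ i, lam (x i)) * ‖ψ x‖ ^ 2)
          = q * (Real.exp (-(2 * Λ * l)) * ∑ i, lam (x i)) * ‖ψ x‖ ^ 2 := by ring
        _ ≤ q * (∑ i, avgB l lam (α i)) * ‖ψ x‖ ^ 2 := by gcongr
    rw [← hq, ← hloss]
    calc ENNReal.ofReal (q * Real.exp (-(2 * Λ * l))) *
        ∫⁻ x, ENNReal.ofReal (∑ i, lam (x i) * ‖ψ x‖ ^ 2) ∂(Measure.pi (μα l α))
        ≤ _ := hlam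
      _ ≤ _ := hlow'
      _ ≤ _ := add_le_add hfix le_rfl
  · rw [lintegral_eq_tsum_cfg hl, lintegral_eq_tsum_cfg hl (fun x => ENNReal.ofReal (gradi ψ t x)),
      lintegral_eq_tsum_cfg hl (fun x => ‖ψ x‖ₑ ^ 2), ← ENNReal.tsum_mul_left,
      ← ENNReal.tsum_add, ← ENNReal.tsum_mul_left, ← ENNReal.tsum_mul_left]
    refine ENNReal.tsum_le_tsum fun α => ?_
    have h1 := hardy_U (l := l) hHB hR hRl α (Γ α) (hαΓ α) (hpΓ α) t hψ1
    refine le_trans (le_of_eq ?_) h1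
    apply lintegral_congr_ae
    filter_upwards [ae_mem_Cfg l α] with x hx
    by_cases hxt : x ∈ UG t
    · rw [Set.indicator_of_mem hxt, Set.indicator_of_mem ((hUGeq α t x hx).mp hxt)]
    · rw [Set.indicator_of_notMem hxt,
        Set.indicator_of_notMem (fun h => hxt ((hUGeq α t x hx).mpr h))]

end Global

end Pool.Agent.Helper23.Bose
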