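import Mathlib
import Pool.Agent.Helper23.Bose.Cluster

set_option autoImplicit false
open Filter Topology

namespace Pool.Agent.Helper23.Bose

/-- algebra for a fixed small `x` -/
theorem params_fixed {Kc C2 C3 CB M0 L Λ ε δ θ q R02 R03 x : ℝ} (hKc : 0 ≤ Kc) (hC2 : 0 ≤ C2)
    (hC3 : 0 ≤ C3) (hCB : 0 ≤ CB) (hM0 : 0 ≤ M0) (hΛ : 0 ≤ Λ)
    (hδ : 0 < δ) (hθ : 0 < θ) (hq : 1 - ε / 2 ≤ (1 - θ) * q) (hq0 : 0 ≤ (1 - θ) * q)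
    (hq1 : (1 - θ) * q ≤ 1) (hx : 0 < x) (hx1 : x ≤ 1)
    (h1 : 10 * x ≤ δ) (h2 : R02 * x ≤ 1) (h3 : R03 * x ≤ 1)
    (h4 : (Kc + 3) * 64 * κ3 * x ≤ δ) (h5 : 2 * Λ * x ≤ ε / 2) (h6 : 2 * Λ * x ≤ ε / 3)
    (h7 : (24 * (Kc + 3) * C2 * M0 + 36 * (Kc + 3) ^ 2 * C3 * M0) * x ≤ ε / 3)
    (h8 : (L ^ 2 / θ * ((Kc + 3) * (CB * 16 * (M0 + 4 / δ ^ 2)))) * x ≤ ε / 3)
    {n : ℝ} (hn : n = (x ^ 120)⁻¹) :
    ∃ l R : ℝ, ∃ p : ℕ, 0 < l ∧ 0 < R ∧ Kc * (n * l ^ 3) + 2 ≤ p ∧ 10 * R ≤ δ * l ∧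
      R02 ≤ n * R ∧ R03 ≤ Real.sqrt n * R ∧ p * ((4 * R) ^ 3 * κ3) ≤ δ * l ^ 3 ∧
      1 - ε ≤ (1 - θ) * q * Real.exp (-(2 * Λ * l)) ∧ 2 * (Λ / l ^ 3) ≤ ε / 3 * n ∧
      (24 * p * (C2 / (n * R)) + 36 * p ^ 2 * (C3 / (Real.sqrt n * R) ^ 4)) * M0 ≤ ε / 3 ∧
      L ^ 2 / θ * (p * (CB * (4 * R) ^ 2 * (M0 + ((δ * l - 2 * R) ^ 2)⁻¹))) ≤ ε / 3 := by
  have hκ := κ3_nonneg
  have hsq : Real.sqrt n = (x ^ 60)⁻¹ := by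
    rw [hn, Real.sqrt_inv, show x ^ 120 = (x ^ 60) ^ 2 by ring, Real.sqrt_sq (by positivity)]
  have hxk : ∀ k : ℕ, 1 ≤ k → x ^ k ≤ x := fun k hk => by
    calc x ^ k ≤ x ^ 1 := pow_le_pow_of_le_one hx.le hx1 hk
      _ = x := pow_one x
  have hP0 : 0 < Kc + 3 := by linarith
  obtain ⟨p, hp⟩ : ∃ p : ℕ, p = ⌈Kc * (n * (x ^ 35) ^ 3)⌉₊ + 2 := ⟨_, rfl⟩
  have hnl : n * (x ^ 35) ^ 3 = (x ^ 15)⁻¹ := by
    rw [hn]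
    field_simp
  have hp1 : Kc * (n * (x ^ 35) ^ 3) + 2 ≤ p := by
    rw [hp]
    push_cast
    have := Nat.le_ceil (Kc * (n * (x ^ 35) ^ 3))
    linarith
  have hp2 : (p : ℝ) ≤ (Kc + 3) * (x ^ 15)⁻¹ := by
    rw [hp]
    push_cast
    have h := Nat.ceil_lt_add_one (a := Kc * (n * (x ^ 35) ^ 3)) (by rw [hnl]; positivity)
    rw [hnl] at h ⊢
    have h15 : (1 : ℝ) ≤ (x ^ 15)⁻¹ := by
      rw [one_le_inv₀ (by positivity)]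
      exact pow_le_one₀ hx.le hx1
    nlinarith
  have hp0 : (0 : ℝ) ≤ p := Nat.cast_nonneg p
  have hR10 : 10 * x ^ 48 ≤ δ * x ^ 35 := by
    have h : x ^ 48 ≤ x * x ^ 35 := by
      calc x ^ 48 = x ^ 13 * x ^ 35 := by ring
        _ ≤ x * x ^ 35 := by
          gcongr
          exact hxk 13 (by norm_num)
    nlinarith [pow_pos hx 35]
  refine ⟨x ^ 35, x ^ 48, p, by positivity, by positivity, hp1, hR10, ?_, ?_, ?_, ?_, ?_, ?_, ?_⟩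
  · have e : n * x ^ 48 = (x ^ 72)⁻¹ := by
      rw [hn]
      field_simp
    rw [e]
    have h : R02 ≤ x⁻¹ := by
      rw [← one_div, le_div_iff₀ hx]
      exact h2
    refine h.trans ?_
    gcongr
    exact hxk 72 (by norm_num)
  · have e : Real.sqrt n * x ^ 48 = (x ^ 12)⁻¹ := by
      rw [hsq]
      field_simp
    rw [e]
    have h : R03 ≤ x⁻¹ := by
      rw [← one_div, le_div_iff₀ hx]
      exact h3
    refine h.trans ?_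
    gcongr
    exact hxk 12 (by norm_num)
  · calc (p : ℝ) * ((4 * x ^ 48) ^ 3 * κ3) ≤ ((Kc + 3) * (x ^ 15)⁻¹) * ((4 * x ^ 48) ^ 3 * κ3) := by
          gcongr
      _ = ((Kc + 3) * 64 * κ3 * x ^ 24) * (x ^ 35) ^ 3 := by
          field_simp
          ring
      _ ≤ ((Kc + 3) * 64 * κ3 * x) * (x ^ 35) ^ 3 := by
          gcongr
          exact hxk 24 (by norm_num)
      _ ≤ δ * (x ^ 35) ^ 3 := by gcongr
  · have h : 1 - 2 * Λ * x ≤ Real.exp (-(2 * Λ * x ^ 35)) := by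
      have e1 := Real.add_one_le_exp (-(2 * Λ * x ^ 35))
      have e2 : 2 * Λ * x ^ 35 ≤ 2 * Λ * x := by
        gcongr
        exact hxk 35 (by norm_num)
      linarith
    have h' : (1 - θ) * q * (1 - 2 * Λ * x) ≤ (1 - θ) * q * Real.exp (-(2 * Λ * x ^ 35)) := by
      gcongr
    have h'' : (1 - θ) * q * (2 * Λ * x) ≤ 1 * (2 * Λ * x) := by
      gcongr
    nlinarith
  · have e : 2 * (Λ / (x ^ 35) ^ 3) = (2 * Λ * x ^ 15) * n := by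
      rw [hn]
      field_simp
    rw [e]
    have hn0 : 0 ≤ n := by rw [hn]; positivity
    gcongr
    calc 2 * Λ * x ^ 15 ≤ 2 * Λ * x := by
          gcongr
          exact hxk 15 (by norm_num)
      _ ≤ ε / 3 := h6
  · have e1 : n * x ^ 48 = (x ^ 72)⁻¹ := by
      rw [hn]
      field_simp
    have e2 : Real.sqrt n * x ^ 48 = (x ^ 12)⁻¹ := by
      rw [hsq]
      field_simp
    rw [e1, e2]
    calc (24 * (p : ℝ) * (C2 / (x ^ 72)⁻¹) + 36 * (p : ℝ) ^ 2 * (C3 / ((x ^ 12)⁻¹) ^ 4)) * M0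
        ≤ (24 * ((Kc + 3) * (x ^ 15)⁻¹) * (C2 / (x ^ 72)⁻¹) +
          36 * ((Kc + 3) * (x ^ 15)⁻¹) ^ 2 * (C3 / ((x ^ 12)⁻¹) ^ 4)) * M0 := by
          gcongr
      _ = 24 * (Kc + 3) * C2 * M0 * x ^ 57 + 36 * (Kc + 3) ^ 2 * C3 * M0 * x ^ 18 := by
          field_simp
      _ ≤ 24 * (Kc + 3) * C2 * M0 * x + 36 * (Kc + 3) ^ 2 * C3 * M0 * x := by
          gcongr
          · exact hxk 57 (by norm_num)
          · exact hxk 18 (by norm_num)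
      _ = (24 * (Kc + 3) * C2 * M0 + 36 * (Kc + 3) ^ 2 * C3 * M0) * x := by ring
      _ ≤ ε / 3 := h7
  · have hη : δ * x ^ 35 / 2 ≤ δ * x ^ 35 - 2 * x ^ 48 := by
      have := mul_pos hδ (pow_pos hx 35)
      linarith
    have hη0 : 0 < δ * x ^ 35 / 2 := by positivity
    have hinv : ((δ * x ^ 35 - 2 * x ^ 48) ^ 2)⁻¹ ≤ 4 / δ ^ 2 * (x ^ 70)⁻¹ := by
      calc ((δ * x ^ 35 - 2 * x ^ 48) ^ 2)⁻¹ ≤ ((δ * x ^ 35 / 2) ^ 2)⁻¹ := by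
            gcongr
        _ = 4 / δ ^ 2 * (x ^ 70)⁻¹ := by
            field_simp
            norm_num
    have hM : M0 ≤ M0 * (x ^ 70)⁻¹ := by
      have h70 : (1 : ℝ) ≤ (x ^ 70)⁻¹ := by
        rw [one_le_inv₀ (by positivity)]
        exact pow_le_one₀ hx.le hx1
      nlinarith
    calc L ^ 2 / θ * ((p : ℝ) * (CB * (4 * x ^ 48) ^ 2 * (M0 + ((δ * x ^ 35 - 2 * x ^ 48) ^ 2)⁻¹)))
        ≤ L ^ 2 / θ * (((Kc + 3) * (x ^ 15)⁻¹) * (CB * (4 * x ^ 48) ^ 2 *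
          (M0 * (x ^ 70)⁻¹ + 4 / δ ^ 2 * (x ^ 70)⁻¹))) := by
          gcongr
      _ = (L ^ 2 / θ * ((Kc + 3) * (CB * 16 * (M0 + 4 / δ ^ 2)))) * x ^ 11 := by
          field_simp
          ring
      _ ≤ (L ^ 2 / θ * ((Kc + 3) * (CB * 16 * (M0 + 4 / δ ^ 2)))) * x := by
          gcongr
          exact hxk 11 (by norm_num)
      _ ≤ ε / 3 := h8

theorem exists_params {Kc C2 C3 CB M0 L Λ ε δ θ q R02 R03 : ℝ} (hKc : 0 ≤ Kc) (hC2 : 0 ≤ C2)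
    (hC3 : 0 ≤ C3) (hCB : 0 ≤ CB) (hM0 : 0 ≤ M0) (hΛ : 0 ≤ Λ) (hε : 0 < ε)
    (hδ : 0 < δ) (hθ : 0 < θ) (hq : 1 - ε / 2 ≤ (1 - θ) * q) (hq0 : 0 ≤ (1 - θ) * q)
    (hq1 : (1 - θ) * q ≤ 1) :
    ∃ N0 : ℕ, ∀ N : ℕ, N0 ≤ N → 0 < N ∧ ∃ l R : ℝ, ∃ p : ℕ, 0 < l ∧ 0 < R ∧
      Kc * (N * l ^ 3) + 2 ≤ p ∧ 10 * R ≤ δ * l ∧
      R02 ≤ N * R ∧ R03 ≤ Real.sqrt N * R ∧ p * ((4 * R) ^ 3 * κ3) ≤ δ * l ^ 3 ∧
      1 - ε ≤ (1 - θ) * q * Real.exp (-(2 * Λ * l)) ∧ 2 * (Λ / l ^ 3) ≤ ε / 3 * N ∧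
      (24 * p * (C2 / (N * R)) + 36 * p ^ 2 * (C3 / (Real.sqrt N * R) ^ 4)) * M0 ≤ ε / 3 ∧
      L ^ 2 / θ * (p * (CB * (4 * R) ^ 2 * (M0 + ((δ * l - 2 * R) ^ 2)⁻¹))) ≤ ε / 3 := by
  have hx : Tendsto (fun N : ℕ => (N : ℝ) ^ (-(1 / 120 : ℝ))) atTop (𝓝 0) :=
    (tendsto_rpow_neg_atTop (by norm_num)).comp tendsto_natCast_atTop_atTop
  have aux : ∀ C D : ℝ, 0 < D → ∀ᶠ N : ℕ in atTop, C * (N : ℝ) ^ (-(1 / 120 : ℝ)) ≤ D := by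
    intro C D hD
    have h := hx.const_mul C
    rw [mul_zero] at h
    exact (h.eventually_lt_const hD).mono fun _ h => h.le
  have hall := (aux 1 1 one_pos).and ((aux 10 δ hδ).and ((aux R02 1 one_pos).and
    ((aux R03 1 one_pos).and ((aux ((Kc + 3) * 64 * κ3) δ hδ).and
    ((aux (2 * Λ) (ε / 2) (by positivity)).and ((aux (2 * Λ) (ε / 3) (by positivity)).and
    ((aux (24 * (Kc + 3) * C2 * M0 + 36 * (Kc + 3) ^ 2 * C3 * M0) (ε / 3) (by positivity)).and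
    ((aux (L ^ 2 / θ * ((Kc + 3) * (CB * 16 * (M0 + 4 / δ ^ 2)))) (ε / 3) (by positivity)).and
    (eventually_ge_atTop 1)))))))))
  obtain ⟨N0, hN0⟩ := eventually_atTop.mp hall
  refine ⟨N0, fun N hN => ?_⟩
  obtain ⟨hx1, h1, h2, h3, h4, h5, h6, h7, h8, hN1⟩ := hN0 N hN
  have hNpos : (0 : ℝ) < N := by exact_mod_cast hN1
  refine ⟨hN1, ?_⟩
  have hn : (N : ℝ) = (((N : ℝ) ^ (-(1 / 120 : ℝ))) ^ 120)⁻¹ := by
    rw [← Real.rpow_natCast, ← Real.rpow_mul hNpos.le, ← Real.rpow_neg hNpos.le]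
    norm_num
  rw [one_mul] at hx1
  exact params_fixed hKc hC2 hC3 hCB hM0 hΛ hδ hθ hq hq0 hq1 (Real.rpow_pos_of_pos hNpos _) hx1
    h1 h2 h3 h4 h5 h6 h7 h8 hn

end Pool.Agent.Helper23.Bose
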