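import Mathlib
import Pool.Agent.Helper23.Bose.Defs

set_option autoImplicit false
open MeasureTheory

namespace Pool.Agent.Helper23.Bose

/-- The localised lower bound (Proposition LB), as a proposition. -/
def PropLB (W : E3 → ℝ) (V : E3 × E3 → ℝ) : Prop :=
  ∀ ε : ℝ, 0 < ε → ∀ M0 L Λ : ℝ,
    ∃ N0 : ℕ, ∀ N : ℕ, N0 ≤ N → ∀ ψ : (Fin N → E3) → ℂ, AdmN N ψ →
      (∑ i, ∫ x, gradi ψ i x) ≤ M0 * N →
      ∀ (a : E3 → E3) (lam gam : E3 → ℝ), Continuous a → (∀ x, ‖a x‖ ≤ L) →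
        Continuous lam → Continuous gam → (∀ x, 0 ≤ lam x) → (∀ x, lam x ≤ Λ) →
        Integrable lam → (∫ x, lam x) ≤ Λ → (∀ x, 0 ≤ gam x) → Integrable gam →
        (∀ x t, 0 ≤ t → lam x * t ≤ bW W / 2 * t ^ 2 + bM V / 6 * t ^ 3 + gam x) →
        (∀ x y, lam x ≤ Real.exp (Λ * ‖x - y‖) * lam y) →
        (∑ i, ∫ x, (2 * (∑ k : Fin 3, (a (x i)) k *
              ((starRingEnd ℂ) (ψ x) * fderiv ℝ ψ x (Pi.single i (ek k))).re)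
              - ‖a (x i)‖ ^ 2 * ‖ψ x‖ ^ 2))
            + (1 - ε) * (∑ i, ∫ x, lam (x i) * ‖ψ x‖ ^ 2) - N * (∫ x, gam x) - ε * N
          ≤ (∑ i, ∫ x, gradi ψ i x) + ∫ x, (pot2 W N x + pot3 V N x) * ‖ψ x‖ ^ 2

end Pool.Agent.Helper23.Bose
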