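import Mathlib
import Pool.Agent.Helper23.Bose.PropDef
import Pool.Agent.Helper23.Bose.Global
import Pool.Agent.Helper23.Bose.Params
import Pool.Agent.Helper23.Bose.Local

set_option autoImplicit false
open MeasureTheory Module

namespace Pool.Agent.Helper23.Bose

section Frames

theorem norm_clm_E3_sq_le (A : E3 →L[ℝ] ℂ) : ‖A‖ ^ 2 ≤ ∑ k : Fin 3, ‖A (ek k)‖ ^ 2 := by
  have h : ‖A‖ ≤ Real.sqrt (∑ k : Fin 3, ‖A (ek k)‖ ^ 2) := by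
    refine ContinuousLinearMap.opNorm_le_bound _ (Real.sqrt_nonneg _) fun y => ?_
    have h1 : y = ∑ k : Fin 3, y k • ek k := by
      ext j
      simp [Fin.sum_univ_three, ek]
      fin_cases j <;> simp
    rw [mul_comm]
    conv_lhs => rw [h1]
    rw [map_sum]
    simp only [map_smul]
    calc ‖∑ k : Fin 3, y k • A (ek k)‖ ≤ ∑ k : Fin 3, ‖y k • A (ek k)‖ :=
          norm_sum_le _ _
      _ = ∑ k : Fin 3, |y k| * ‖A (ek k)‖ := by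
          refine Finset.sum_congr rfl fun k _ => ?_
          rw [norm_smul, Real.norm_eq_abs]
      _ ≤ Real.sqrt (∑ k : Fin 3, |y k| ^ 2) * Real.sqrt (∑ k : Fin 3, ‖A (ek k)‖ ^ 2) :=
          Real.sum_mul_le_sqrt_mul_sqrt _ _ _
      _ = _ := by
          rw [EuclideanSpace.norm_eq]
          simp [Real.norm_eq_abs]
  have hnn : 0 ≤ ∑ k : Fin 3, ‖A (ek k)‖ ^ 2 := by positivity
  calc ‖A‖ ^ 2 ≤ (Real.sqrt (∑ k : Fin 3, ‖A (ek k)‖ ^ 2)) ^ 2 := by gcongr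
    _ = _ := Real.sq_sqrt hnn

theorem hw_pair (A : E3 →L[ℝ] ℂ) : (1 : ℝ) * ‖A‖ ^ 2 ≤ ∑ a, ‖A (wpair a)‖ ^ 2 := by
  have h := norm_clm_E3_sq_le A
  have hnn : 0 ≤ ∑ k : Fin 3, ‖A (ek k)‖ ^ 2 := by positivity
  have e : ∑ a, ‖A (wpair a)‖ ^ 2 = 2 * ∑ k : Fin 3, ‖A (ek k)‖ ^ 2 := by
    simp [wpair, Fintype.sum_prod_type]
  rw [e]
  linarith

theorem hw_trip (A : E3 × E3 →L[ℝ] ℂ) : (1 / 2 : ℝ) * ‖A‖ ^ 2 ≤ ∑ a, ‖A (wtrip a)‖ ^ 2 := by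
  have h1 := norm_clm_E3_sq_le (A.comp (ContinuousLinearMap.inl ℝ E3 E3))
  have h2 := norm_clm_E3_sq_le (A.comp (ContinuousLinearMap.inr ℝ E3 E3))
  have h : ‖A‖ ≤ ‖A.comp (ContinuousLinearMap.inl ℝ E3 E3)‖ +
      ‖A.comp (ContinuousLinearMap.inr ℝ E3 E3)‖ := by
    refine ContinuousLinearMap.opNorm_le_bound _ (by positivity) fun y => ?_
    have e : A y = A.comp (ContinuousLinearMap.inl ℝ E3 E3) y.1 +
        A.comp (ContinuousLinearMap.inr ℝ E3 E3) y.2 := by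
      simp only [ContinuousLinearMap.comp_apply, ContinuousLinearMap.inl_apply,
        ContinuousLinearMap.inr_apply, ← map_add]
      congr 1
      ext <;> simp
    rw [e, add_mul]
    refine (norm_add_le _ _).trans ?_
    have n1 : ‖y.1‖ ≤ ‖y‖ := norm_fst_le y
    have n2 : ‖y.2‖ ≤ ‖y‖ := norm_snd_le y
    refine add_le_add ?_ ?_
    · exact (ContinuousLinearMap.le_opNorm _ _).trans (by gcongr)
    · exact (ContinuousLinearMap.le_opNorm _ _).trans (by gcongr)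
  have hsq : ‖A‖ ^ 2 ≤ 2 * (‖A.comp (ContinuousLinearMap.inl ℝ E3 E3)‖ ^ 2 +
      ‖A.comp (ContinuousLinearMap.inr ℝ E3 E3)‖ ^ 2) := by
    have h0 := norm_nonneg A
    calc ‖A‖ ^ 2 ≤ (‖A.comp (ContinuousLinearMap.inl ℝ E3 E3)‖ +
      ‖A.comp (ContinuousLinearMap.inr ℝ E3 E3)‖) ^ 2 := by gcongr
      _ ≤ _ := by
        nlinarith [sq_nonneg (‖A.comp (ContinuousLinearMap.inl ℝ E3 E3)‖ -
          ‖A.comp (ContinuousLinearMap.inr ℝ E3 E3)‖)]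
  simp only [ContinuousLinearMap.comp_apply, ContinuousLinearMap.inl_apply,
        ContinuousLinearMap.inr_apply] at h1 h2
  have e : ∑ a, ‖A (wtrip a)‖ ^ 2 = (∑ k : Fin 3, ‖A (ek k, 0)‖ ^ 2) + (∑ k : Fin 3, ‖A (0, ek k)‖ ^ 2) +
      ∑ k : Fin 3, ‖A (ek k, ek k)‖ ^ 2 := by
    rw [Fintype.sum_prod_type, Fin.sum_univ_three (f := fun x => ∑ y, ‖A (wtrip (x, y))‖ ^ 2)]
    rfl
  rw [e]
  have h3 : 0 ≤ ∑ k : Fin 3, ‖A (ek k, ek k)‖ ^ 2 := by positivity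
  linarith

end Frames

section Kinetic

theorem young_re {t θ : ℝ} (hθ : 0 < θ) (w z : ℂ) :
    2 * (t * ((starRingEnd ℂ) w * z).re) ≤ θ * ‖z‖ ^ 2 + θ⁻¹ * (t ^ 2 * ‖w‖ ^ 2) := by
  have h1 : ((starRingEnd ℂ) w * z).re ≤ ‖w‖ * ‖z‖ := by
    refine (Complex.re_le_norm _).trans ?_
    rw [norm_mul, Complex.norm_conj]
  have h1' : -(‖w‖ * ‖z‖) ≤ ((starRingEnd ℂ) w * z).re := by
    have := Complex.abs_re_le_norm ((starRingEnd ℂ) w * z)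
    rw [norm_mul, Complex.norm_conj] at this
    exact (abs_le.mp this).1
  have h2 : t * ((starRingEnd ℂ) w * z).re ≤ |t| * (‖w‖ * ‖z‖) := by
    rcases le_total 0 t with ht | ht
    · rw [abs_of_nonneg ht]
      gcongr
    · rw [abs_of_nonpos ht]
      nlinarith
  have h3 : 2 * (|t| * (‖w‖ * ‖z‖)) ≤ θ * ‖z‖ ^ 2 + θ⁻¹ * (|t| ^ 2 * ‖w‖ ^ 2) := by
    have h4 : 0 ≤ θ⁻¹ * (θ * ‖z‖ - |t| * ‖w‖) ^ 2 := by positivity
    have h5 : θ⁻¹ * (θ * ‖z‖ - |t| * ‖w‖) ^ 2 =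
        θ * ‖z‖ ^ 2 + θ⁻¹ * (|t| ^ 2 * ‖w‖ ^ 2) - 2 * (|t| * (‖w‖ * ‖z‖)) := by
      field_simp
      ring
    linarith
  rw [sq_abs] at h3
  linarith

theorem sum_sq_E3 (a : E3) : ∑ k : Fin 3, (a k) ^ 2 = ‖a‖ ^ 2 := by
  rw [EuclideanSpace.norm_sq_eq]
  simp [Real.norm_eq_abs, sq_abs]

theorem J_le {N : ℕ} (ψ : (Fin N → E3) → ℂ) (i : Fin N) (x : Fin N → E3) (a : E3) {θ : ℝ}
    (hθ : 0 < θ) :
    2 * (∑ k : Fin 3, a k * ((starRingEnd ℂ) (ψ x) * fderiv ℝ ψ x (Pi.single i (ek k))).re) ≤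
      θ * gradi ψ i x + θ⁻¹ * (‖a‖ ^ 2 * ‖ψ x‖ ^ 2) := by
  have h := Finset.sum_le_sum fun k (_ : k ∈ (Finset.univ : Finset (Fin 3))) =>
    young_re (t := a k) hθ (ψ x) (fderiv ℝ ψ x (Pi.single i (ek k)))
  rw [← Finset.mul_sum, Finset.sum_add_distrib, ← Finset.mul_sum, ← Finset.mul_sum,
    ← Finset.sum_mul, sum_sq_E3] at h
  exact h

end Kinetic

section Pot

variable {N : ℕ}

theorem measurable_pot2 {W : E3 → ℝ} (hWm : Measurable W) : Measurable (pot2 W N) := by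
  unfold pot2
  refine Finset.measurable_fun_sum _ fun i _ => Finset.measurable_fun_sum _ fun j _ => ?_
  exact (hWm.comp (by fun_prop)).const_mul _

theorem measurable_pot3 {V : E3 × E3 → ℝ} (hVm : Measurable V) : Measurable (pot3 V N) := by
  unfold pot3
  refine Finset.measurable_fun_sum _ fun i _ => Finset.measurable_fun_sum _ fun j _ =>
    Finset.measurable_fun_sum _ fun k _ => ?_
  exact (hVm.comp (by fun_prop)).const_mul _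

theorem pot2_nonneg {W : E3 → ℝ} (hW0 : ∀ x, 0 ≤ W x) (x : Fin N → E3) : 0 ≤ pot2 W N x :=
  Finset.sum_nonneg fun i _ => Finset.sum_nonneg fun j _ => mul_nonneg (by positivity) (hW0 _)

theorem pot3_nonneg {V : E3 × E3 → ℝ} (hV0 : ∀ x, 0 ≤ V x) (x : Fin N → E3) : 0 ≤ pot3 V N x :=
  Finset.sum_nonneg fun i _ => Finset.sum_nonneg fun j _ => Finset.sum_nonneg fun k _ =>
    mul_nonneg (by positivity) (hV0 _)

theorem pot2_bdd {W : E3 → ℝ} (hWb : ∃ M, ∀ x, W x ≤ M) : ∃ C, ∀ x, pot2 W N x ≤ C := by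
  obtain ⟨M, hM⟩ := hWb
  refine ⟨∑ i : Fin N, ∑ j ∈ Finset.Ioi i, (N : ℝ) ^ 2 * M, fun x => ?_⟩
  unfold pot2
  gcongr
  exact hM _

theorem pot3_bdd {V : E3 × E3 → ℝ} (hVb : ∃ M, ∀ x, V x ≤ M) : ∃ C, ∀ x, pot3 V N x ≤ C := by
  obtain ⟨M, hM⟩ := hVb
  refine ⟨∑ i : Fin N, ∑ j ∈ Finset.Ioi i, ∑ k ∈ Finset.Ioi j, (N : ℝ) * M, fun x => ?_⟩
  unfold pot3
  gcongr
  exact hM _

end Pot

end Pool.Agent.Helper23.Bose
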