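import Mathlib
import Pool.Agent.Helper23.Bose.PropDef
import Pool.Agent.Helper23.Bose.Global
import Pool.Agent.Helper23.Bose.Params
import Pool.Agent.Helper23.Bose.Local
import Pool.Agent.Helper23.Bose.Frames

set_option autoImplicit false
open MeasureTheory Module

namespace Pool.Agent.Helper23.Bose

section Int

variable {N : ℕ} {ψ : (Fin N → E3) → ℂ}

theorem hcs_gradi (hc : HasCompactSupport ψ) (i : Fin N) : HasCompactSupport (gradi ψ i) := by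
  apply hc.fderiv (𝕜 := ℝ) |>.mono
  intro x hx
  rw [Function.mem_support] at hx ⊢
  intro h
  apply hx
  simp [gradi, h]

theorem integrable_gradi (hψ : ContDiff ℝ 1 ψ) (hc : HasCompactSupport ψ) (i : Fin N) :
    Integrable (gradi ψ i) :=
  (continuous_gradi hψ i).integrable_of_hasCompactSupport (hcs_gradi hc i)

theorem integrable_sq (hψ : Continuous ψ) (hc : HasCompactSupport ψ) :
    Integrable (fun x => ‖ψ x‖ ^ 2) :=
  (hψ.norm.pow 2).integrable_of_hasCompactSupport (hcs_norm_sq hc)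

theorem integrable_mul_sq (hψ : Continuous ψ) (hc : HasCompactSupport ψ) {f : (Fin N → E3) → ℝ}
    (hf : Continuous f) : Integrable (fun x => f x * ‖ψ x‖ ^ 2) := by
  apply (hf.mul (hψ.norm.pow 2)).integrable_of_hasCompactSupport
  exact (hcs_norm_sq hc).mul_left

theorem integrable_bdd_mul_sq (hψ : Continuous ψ) (hc : HasCompactSupport ψ) {f : (Fin N → E3) → ℝ}
    (hf : Measurable f) (hf0 : ∀ x, 0 ≤ f x) {C : ℝ} (hfC : ∀ x, f x ≤ C) :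
    Integrable (fun x => f x * ‖ψ x‖ ^ 2) := by
  apply ((integrable_sq hψ hc).const_mul C).mono'
  · exact (hf.mul (hψ.norm.measurable.pow_const 2)).aestronglyMeasurable
  · refine Filter.Eventually.of_forall fun x => ?_
    have h0 := hf0 x
    have h1 := hfC x
    rw [Real.norm_eq_abs, abs_of_nonneg (by positivity)]
    gcongr

theorem integrable_J (hψ : ContDiff ℝ 1 ψ) (hc : HasCompactSupport ψ) {a : E3 → E3}
    (ha : Continuous a) (i : Fin N) :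
    Integrable (fun x => 2 * (∑ k : Fin 3, (a (x i)) k *
        ((starRingEnd ℂ) (ψ x) * fderiv ℝ ψ x (Pi.single i (ek k))).re)
        - ‖a (x i)‖ ^ 2 * ‖ψ x‖ ^ 2) := by
  have hd : Continuous (fderiv ℝ ψ) := hψ.continuous_fderiv (by norm_num)
  have hai : Continuous (fun x : Fin N → E3 => a (x i)) := ha.comp (continuous_apply i)
  apply Continuous.integrable_of_hasCompactSupport
  · refine Continuous.sub (continuous_const.mul (continuous_finsetSum _ fun k _ => ?_))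
      ((hai.norm.pow 2).mul (hψ.continuous.norm.pow 2))
    refine Continuous.mul ((continuous_coord k).comp hai) ?_
    refine Complex.continuous_re.comp ?_
    exact (Complex.continuous_conj.comp hψ.continuous).mul (hd.clm_apply continuous_const)
  · apply hc.mono
    intro x hx
    rw [Function.mem_support] at hx ⊢
    intro h
    apply hx
    simp [h]

end Int

section Main

theorem ineq_real_A {N : ℕ} {ψ : (Fin N → E3) → ℂ} (hψ : ContDiff ℝ 1 ψ)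
    (hc : HasCompactSupport ψ) (hn : ∫ x, ‖ψ x‖ ^ 2 = 1) {W : E3 → ℝ} {V : E3 × E3 → ℝ}
    (hWm : Measurable W) (hW0 : ∀ x, 0 ≤ W x) (hWb : ∃ M, ∀ x, W x ≤ M)
    (hVm : Measurable V) (hV0 : ∀ x, 0 ≤ V x) (hVb : ∃ M, ∀ x, V x ≤ M)
    {lam : E3 → ℝ} (hlc : Continuous lam) (hl0 : ∀ x, 0 ≤ lam x)
    {UG : Fin N → Set (Fin N → E3)} (hUG : ∀ t, MeasurableSet (UG t))
    {c1 c2 c3 : ℝ} (hc1 : 0 ≤ c1) (hc2 : 0 ≤ c2) (hc3 : 0 ≤ c3)
    (hA : ENNReal.ofReal c1 * (∫⁻ x, ENNReal.ofReal (∑ i, lam (x i) * ‖ψ x‖ ^ 2)) ≤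
        (∫⁻ x, ENNReal.ofReal (∑ t, (UG t).indicator (gradi ψ t) x +
          (pot2 W N x + pot3 V N x) * ‖ψ x‖ ^ 2)) +
        ENNReal.ofReal c2 * (∫⁻ x, ENNReal.ofReal (∑ t, gradi ψ t x)) +
        ENNReal.ofReal c3 * ∫⁻ x, ‖ψ x‖ₑ ^ 2) :
    c1 * (∑ i, ∫ x, lam (x i) * ‖ψ x‖ ^ 2) ≤
      (∑ t, ∫ x, (UG t).indicator (gradi ψ t) x) + (∫ x, (pot2 W N x + pot3 V N x) * ‖ψ x‖ ^ 2) +
      c2 * (∑ t, ∫ x, gradi ψ t x) + c3 := by
  have il : ∀ i : Fin N, Integrable (fun x => lam (x i) * ‖ψ x‖ ^ 2) := fun i =>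
    integrable_mul_sq hψ.continuous hc (hlc.comp (continuous_apply i))
  have ig := fun t => integrable_gradi hψ hc t
  have igU : ∀ t, Integrable (fun x => (UG t).indicator (gradi ψ t) x) := fun t =>
    (ig t).indicator (hUG t)
  obtain ⟨C2, hC2⟩ := pot2_bdd (N := N) hWb
  obtain ⟨C3, hC3⟩ := pot3_bdd (N := N) hVb
  have ipot : Integrable (fun x => (pot2 W N x + pot3 V N x) * ‖ψ x‖ ^ 2) :=
    integrable_bdd_mul_sq hψ.continuous hc ((measurable_pot2 hWm).add (measurable_pot3 hVm))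
      (fun x => add_nonneg (pot2_nonneg hW0 x) (pot3_nonneg hV0 x)) (C := C2 + C3)
      (fun x => add_le_add (hC2 x) (hC3 x))
  have n1 : ∀ x, 0 ≤ ∑ i, lam (x i) * ‖ψ x‖ ^ 2 := fun x =>
    Finset.sum_nonneg fun i _ => mul_nonneg (hl0 _) (by positivity)
  have n2 : ∀ x, 0 ≤ ∑ t, (UG t).indicator (gradi ψ t) x := fun x =>
    Finset.sum_nonneg fun t _ => Set.indicator_nonneg (fun y _ => gradi_nonneg ψ t y) x
  have n3 : ∀ x, 0 ≤ (pot2 W N x + pot3 V N x) * ‖ψ x‖ ^ 2 := fun x =>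
    mul_nonneg (add_nonneg (pot2_nonneg hW0 x) (pot3_nonneg hV0 x)) (by positivity)
  have n4 : ∀ x, 0 ≤ ∑ t, gradi ψ t x := fun x => Finset.sum_nonneg fun t _ => gradi_nonneg ψ t x
  have e1 : ∫⁻ x, ENNReal.ofReal (∑ i, lam (x i) * ‖ψ x‖ ^ 2) =
      ENNReal.ofReal (∑ i, ∫ x, lam (x i) * ‖ψ x‖ ^ 2) := by
    rw [← integral_finsetSum _ (fun i _ => il i), ofReal_integral_eq_lintegral_ofReal
      (integrable_finsetSum _ fun i _ => il i) (Filter.Eventually.of_forall n1)]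
  have e2 : ∫⁻ x, ENNReal.ofReal (∑ t, (UG t).indicator (gradi ψ t) x +
          (pot2 W N x + pot3 V N x) * ‖ψ x‖ ^ 2) =
      ENNReal.ofReal ((∑ t, ∫ x, (UG t).indicator (gradi ψ t) x) +
        (∫ x, (pot2 W N x + pot3 V N x) * ‖ψ x‖ ^ 2)) := by
    rw [← integral_finsetSum _ (fun i _ => igU i), ← integral_add
      (integrable_finsetSum _ fun i _ => igU i) ipot]
    exact (ofReal_integral_eq_lintegral_ofReal
      ((integrable_finsetSum _ fun i _ => igU i).add ipot)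
      (Filter.Eventually.of_forall fun x => add_nonneg (n2 x) (n3 x))).symm
  have e3 : ∫⁻ x, ENNReal.ofReal (∑ t, gradi ψ t x) = ENNReal.ofReal (∑ t, ∫ x, gradi ψ t x) := by
    rw [← integral_finsetSum _ (fun i _ => ig i), ofReal_integral_eq_lintegral_ofReal
      (integrable_finsetSum _ fun i _ => ig i) (Filter.Eventually.of_forall n4)]
  have e4 : ∫⁻ x, ‖ψ x‖ₑ ^ 2 = 1 := by
    simp only [enorm_sq_eq]
    rw [← ofReal_integral_eq_lintegral_ofReal (integrable_sq hψ.continuous hc)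
      (Filter.Eventually.of_forall fun x => by positivity), hn, ENNReal.ofReal_one]
  have m1 : 0 ≤ ∑ t, ∫ x, (UG t).indicator (gradi ψ t) x :=
    Finset.sum_nonneg fun t _ => integral_nonneg fun x =>
      Set.indicator_nonneg (fun y _ => gradi_nonneg ψ t y) x
  have m2 : 0 ≤ ∫ x, (pot2 W N x + pot3 V N x) * ‖ψ x‖ ^ 2 := integral_nonneg n3
  have m3 : 0 ≤ ∑ t, ∫ x, gradi ψ t x :=
    Finset.sum_nonneg fun t _ => integral_nonneg fun x => gradi_nonneg ψ t x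
  rw [e1, e2, e3, e4, mul_one, ← ENNReal.ofReal_mul hc1, ← ENNReal.ofReal_mul hc2,
    ← ENNReal.ofReal_add (by positivity) (by positivity),
    ← ENNReal.ofReal_add (by positivity) hc3, ENNReal.ofReal_le_ofReal_iff (by positivity)] at hA
  exact hA

theorem ineq_real_B {N : ℕ} {ψ : (Fin N → E3) → ℂ} (hψ : ContDiff ℝ 1 ψ)
    (hc : HasCompactSupport ψ) (hn : ∫ x, ‖ψ x‖ ^ 2 = 1)
    {U : Set (Fin N → E3)} (hU : MeasurableSet U) (t : Fin N) {p : ℕ} {c1 c2 : ℝ} (hc1 : 0 ≤ c1)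
    (hc2 : 0 ≤ c2)
    (hB : ∫⁻ x, U.indicator (fun x => ‖ψ x‖ₑ ^ 2) x ≤
        p * (ENNReal.ofReal c1 * ((∫⁻ x, ENNReal.ofReal (gradi ψ t x))
          + ENNReal.ofReal c2 * ∫⁻ x, ‖ψ x‖ₑ ^ 2))) :
    ∫ x, U.indicator (fun x => ‖ψ x‖ ^ 2) x ≤ p * (c1 * ((∫ x, gradi ψ t x) + c2)) := by
  have isq := integrable_sq hψ.continuous hc
  have e4 : ∫⁻ x, ‖ψ x‖ₑ ^ 2 = 1 := by
    simp only [enorm_sq_eq]
    rw [← ofReal_integral_eq_lintegral_ofReal isq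
      (Filter.Eventually.of_forall fun x => by positivity), hn, ENNReal.ofReal_one]
  have e3 : ∫⁻ x, ENNReal.ofReal (gradi ψ t x) = ENNReal.ofReal (∫ x, gradi ψ t x) := by
    rw [ofReal_integral_eq_lintegral_ofReal
      (integrable_gradi hψ hc t) (Filter.Eventually.of_forall fun x => gradi_nonneg ψ t x)]
  have e1 : ∫⁻ x, U.indicator (fun x => ‖ψ x‖ₑ ^ 2) x =
      ENNReal.ofReal (∫ x, U.indicator (fun x => ‖ψ x‖ ^ 2) x) := by
    rw [ofReal_integral_eq_lintegral_ofReal (isq.indicator hU)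
      (Filter.Eventually.of_forall fun x => Set.indicator_nonneg (fun y _ => by positivity) x)]
    refine lintegral_congr fun x => ?_
    by_cases hx : x ∈ U
    · rw [Set.indicator_of_mem hx, Set.indicator_of_mem hx, enorm_sq_eq]
    · rw [Set.indicator_of_notMem hx, Set.indicator_of_notMem hx, ENNReal.ofReal_zero]
  have m1 : 0 ≤ ∫ x, gradi ψ t x := integral_nonneg fun x => gradi_nonneg ψ t x
  rw [e1, e3, e4, mul_one, ← ENNReal.ofReal_add m1 hc2, ← ENNReal.ofReal_mul hc1,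
    ← ENNReal.ofReal_natCast, ← ENNReal.ofReal_mul (by positivity),
    ENNReal.ofReal_le_ofReal_iff (by positivity)] at hB
  exact hB

/-- kinetic splitting -/
theorem kin_split {N : ℕ} {ψ : (Fin N → E3) → ℂ} (hψ : ContDiff ℝ 1 ψ)
    (hc : HasCompactSupport ψ) {a : E3 → E3} (ha : Continuous a) {L θ : ℝ}
    (haL : ∀ x, ‖a x‖ ≤ L) (hθ : 0 < θ)
    {U : Set (Fin N → E3)} (hU : MeasurableSet U) (i : Fin N) :
    (∫ x, (2 * (∑ k : Fin 3, (a (x i)) k *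
        ((starRingEnd ℂ) (ψ x) * fderiv ℝ ψ x (Pi.single i (ek k))).re)
        - ‖a (x i)‖ ^ 2 * ‖ψ x‖ ^ 2)) ≤
      (∫ x, gradi ψ i x) - (1 - θ) * (∫ x, U.indicator (gradi ψ i) x) +
        L ^ 2 / θ * ∫ x, U.indicator (fun x => ‖ψ x‖ ^ 2) x := by
  have ig := integrable_gradi hψ hc i
  have igU := ig.indicator hU
  have isq := (integrable_sq hψ.continuous hc).indicator hU
  have e : (∫ x, gradi ψ i x) - (1 - θ) * (∫ x, U.indicator (gradi ψ i) x) +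
        L ^ 2 / θ * (∫ x, U.indicator (fun x => ‖ψ x‖ ^ 2) x) =
      ∫ x, (gradi ψ i x - (1 - θ) * U.indicator (gradi ψ i) x +
        L ^ 2 / θ * U.indicator (fun x => ‖ψ x‖ ^ 2) x) := by
    rw [integral_add (f := fun x => gradi ψ i x - (1 - θ) * U.indicator (gradi ψ i) x)
      (g := fun x => L ^ 2 / θ * U.indicator (fun x => ‖ψ x‖ ^ 2) x)
      (ig.sub (igU.const_mul _)) (isq.const_mul _),
      integral_sub (f := fun x => gradi ψ i x)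
      (g := fun x => (1 - θ) * U.indicator (gradi ψ i) x) ig (igU.const_mul _),
      integral_const_mul, integral_const_mul]
  rw [e]
  apply integral_mono (integrable_J hψ hc ha i)
    ((ig.sub (igU.const_mul _)).add (isq.const_mul _))
  intro x
  have hg0 := gradi_nonneg ψ i x
  simp only [Pi.add_apply, Pi.sub_apply]
  by_cases hx : x ∈ U
  · rw [Set.indicator_of_mem hx, Set.indicator_of_mem hx]
    have h1 := J_le ψ i x (a (x i)) hθ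
    have h2 : θ⁻¹ * (‖a (x i)‖ ^ 2 * ‖ψ x‖ ^ 2) ≤ L ^ 2 / θ * ‖ψ x‖ ^ 2 := by
      have h3 := haL (x i)
      have h4 := norm_nonneg (a (x i))
      calc θ⁻¹ * (‖a (x i)‖ ^ 2 * ‖ψ x‖ ^ 2) ≤ θ⁻¹ * (L ^ 2 * ‖ψ x‖ ^ 2) := by gcongr
        _ = L ^ 2 / θ * ‖ψ x‖ ^ 2 := by ring
    have h5 : 0 ≤ ‖a (x i)‖ ^ 2 * ‖ψ x‖ ^ 2 := by positivity
    linarith
  · rw [Set.indicator_of_notMem hx, Set.indicator_of_notMem hx]
    have h1 := J_le ψ i x (a (x i)) one_pos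
    rw [inv_one, one_mul, one_mul] at h1
    linarith

theorem LL_pair {W : E3 → ℝ} (hWm : Measurable W) (hW0 : ∀ x, 0 ≤ W x)
    (hWb : ∃ M, ∀ x, W x ≤ M) (hWs : HasCompactSupport W) {δ : ℝ} (hδ : 0 < δ) (hδ1 : δ < 1) :
    ∃ R0 C : ℝ, 0 < R0 ∧ 0 < C ∧ ∀ s R l : ℝ, 0 < s → 0 < R → R0 ≤ s * R → 2 * R ≤ δ * l →
      LL E3 (Fin 2 × Fin 3) wpair W s l R δ ((1 - δ) ^ 3 * bW W / s) (C / (s * R)) := by
  obtain ⟨R0, C, hR0, hC, h⟩ := local_lemma wpair 3 (by simp) le_rfl one_pos hw_pair hWm hW0 hWb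
    hWs hδ hδ1 4
  refine ⟨R0, C, hR0, hC, fun s R l hs hR hsR hRl => ?_⟩
  intro K G hK hKm hKD hG hGK g hg
  have h1 := h s R l hs hR hsR hRl K G hK hKm hKD hG hGK g hg
  rw [bcap_wpair, show 3 - 2 = 1 from rfl, pow_one, pow_one] at h1
  exact h1

theorem LL_trip {V : E3 × E3 → ℝ} (hVm : Measurable V) (hV0 : ∀ x, 0 ≤ V x)
    (hVb : ∃ M, ∀ x, V x ≤ M) (hVs : HasCompactSupport V) {δ : ℝ} (hδ : 0 < δ) (hδ1 : δ < 1) :
    ∃ R0 C : ℝ, 0 < R0 ∧ 0 < C ∧ ∀ s R l : ℝ, 0 < s → 0 < R → R0 ≤ s * R → 2 * R ≤ δ * l →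
      LL (E3 × E3) (Fin 3 × Fin 3) wtrip V s l R δ ((1 - δ) ^ 3 * bM V / s ^ 4)
        (C / (s * R) ^ 4) := by
  have hHaar : (volume : Measure (E3 × E3)).IsAddHaarMeasure :=
    inferInstanceAs ((volume : Measure E3).prod (volume : Measure E3)).IsAddHaarMeasure
  obtain ⟨R0, C, hR0, hC, h⟩ := local_lemma wtrip 6 (by simp) (by norm_num)
    (by norm_num : (0 : ℝ) < 1 / 2) hw_trip hVm hV0 hVb hVs hδ hδ1 4
  refine ⟨R0, C, hR0, hC, fun s R l hs hR hsR hRl => ?_⟩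
  intro K G hK hKm hKD hG hGK g hg
  have h1 := h s R l hs hR hsR hRl K G hK hKm hKD hG hGK g hg
  rw [bcap_wtrip, show 6 - 2 = 4 from rfl] at h1
  exact h1

theorem bW_nonneg {W : E3 → ℝ} (hW0 : ∀ x, 0 ≤ W x) : 0 ≤ bW W := by
  rw [← bcap_wpair]
  exact bcap_nonneg wpair hW0

theorem bM_nonneg {V : E3 × E3 → ℝ} (hV0 : ∀ x, 0 ≤ V x) : 0 ≤ bM V := by
  rw [← bcap_wtrip]
  exact bcap_nonneg wtrip hV0

theorem exists_Kc {b1 b2 Λ : ℝ} (hb1 : 0 ≤ b1) (hb2 : 0 ≤ b2) (hb : ¬ (b1 = 0 ∧ b2 = 0))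
    (hΛ : 0 ≤ Λ) : ∃ Kc : ℝ, 0 ≤ Kc ∧ Λ ≤ b1 * Kc / 2 + b2 * Kc ^ 2 / 6 := by
  by_cases h1 : b1 = 0
  · have h2 : 0 < b2 := lt_of_le_of_ne hb2 (fun h => hb ⟨h1, h.symm⟩)
    refine ⟨1 + 6 * Λ / b2, by positivity, ?_⟩
    have h3 : 0 ≤ 6 * Λ / b2 := by positivity
    have h4 : 6 * Λ / b2 ≤ (1 + 6 * Λ / b2) ^ 2 := by nlinarith
    have h5 : b2 * (6 * Λ / b2) / 6 = Λ := by field_simp
    calc Λ = b2 * (6 * Λ / b2) / 6 := h5.symm
      _ ≤ b2 * (1 + 6 * Λ / b2) ^ 2 / 6 := by gcongr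
      _ ≤ _ := by
        rw [h1]
        linarith
  · have h2 : 0 < b1 := lt_of_le_of_ne hb1 (Ne.symm h1)
    refine ⟨2 * Λ / b1, by positivity, ?_⟩
    have h5 : b1 * (2 * Λ / b1) / 2 = Λ := by field_simp
    have h6 : 0 ≤ b2 * (2 * Λ / b1) ^ 2 / 6 := by positivity
    linarith

theorem prop_LB {Vext W : E3 → ℝ} {V : E3 × E3 → ℝ} (H : Hyp Vext W V) : PropLB W V := by
  intro ε0 hε0 M0 L Λ
  by_cases hnn : 0 ≤ M0 ∧ 0 ≤ Λ
  swap
  · -- vacuous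
    refine ⟨1, fun N hN ψ hψ hkin a lam gam _ _ _ _ hl0 hlΛ _ _ _ _ _ _ => ?_⟩
    exfalso
    apply hnn
    have hNpos : (0 : ℝ) < N := by exact_mod_cast hN
    constructor
    · have h : 0 ≤ ∑ i, ∫ x, gradi ψ i x :=
        Finset.sum_nonneg fun t _ => integral_nonneg fun x => gradi_nonneg ψ t x
      by_contra hM
      push Not at hM
      have : M0 * N < 0 := mul_neg_of_neg_of_pos hM hNpos
      linarith
    · exact (hl0 0).trans (hlΛ 0)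
  obtain ⟨hM0, hΛ⟩ := hnn
  -- reduce to ε ≤ 1
  obtain ⟨ε, hεdef⟩ : ∃ ε, ε = min ε0 1 := ⟨_, rfl⟩
  have hε : 0 < ε := by rw [hεdef]; positivity
  have hε1 : ε ≤ 1 := by rw [hεdef]; exact min_le_right _ _
  have hεε0 : ε ≤ ε0 := by rw [hεdef]; exact min_le_left _ _
  have hb1 := bW_nonneg H.wnn
  have hb2 := bM_nonneg H.Vnn
  by_cases hb : bW W = 0 ∧ bM V = 0
  · -- degenerate case
    refine ⟨1, fun N hN ψ hψ hkin a lam gam ha haL hlc hgc hl0 hlΛ hli hlI hg0 hgi hconv hlog => ?_⟩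
    have hNpos : (0 : ℝ) < N := by exact_mod_cast hN
    obtain ⟨hψs, hψc, hψsym, hψn⟩ := hψ
    have hψ1 : ContDiff ℝ 1 ψ := hψs.of_le (by simp [cinf])
    have hlam0 : ∀ x, lam x = 0 := by
      intro x
      by_contra hne
      have hpos : 0 < lam x := lt_of_le_of_ne (hl0 x) (Ne.symm hne)
      have h1 := hconv x ((gam x + 1) / lam x) (by have := hg0 x; positivity)
      rw [hb.1, hb.2, mul_div_cancel₀ _ hpos.ne'] at h1
      linarith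
    have hsum : ∑ i, ∫ x, (2 * (∑ k : Fin 3, (a (x i)) k *
        ((starRingEnd ℂ) (ψ x) * fderiv ℝ ψ x (Pi.single i (ek k))).re)
        - ‖a (x i)‖ ^ 2 * ‖ψ x‖ ^ 2) ≤ ∑ i, ∫ x, gradi ψ i x := by
      refine Finset.sum_le_sum fun i _ => ?_
      have h := kin_split hψ1 hψc ha haL one_pos MeasurableSet.empty i
      simpa using h
    have hl : ∑ i : Fin N, ∫ x, lam (x i) * ‖ψ x‖ ^ 2 = 0 := by
      simp [hlam0]
    have hpot : 0 ≤ ∫ x, (pot2 W N x + pot3 V N x) * ‖ψ x‖ ^ 2 := integral_nonneg fun x =>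
      mul_nonneg (add_nonneg (pot2_nonneg H.wnn x) (pot3_nonneg H.Vnn x)) (by positivity)
    have hgI : 0 ≤ N * ∫ x, gam x := mul_nonneg hNpos.le (integral_nonneg hg0)
    have hεN : 0 ≤ ε0 * N := by positivity
    rw [hl, mul_zero]
    linarith
  -- parameters
  obtain ⟨Kc, hKc, hK⟩ := exists_Kc hb1 hb2 hb hΛ
  obtain ⟨δ, hδdef⟩ : ∃ δ, δ = ε / 100 := ⟨_, rfl⟩
  obtain ⟨θ, hθdef⟩ : ∃ θ, θ = ε / 10 := ⟨_, rfl⟩
  have hδ : 0 < δ := by rw [hδdef]; positivity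
  have hθ : 0 < θ := by rw [hθdef]; positivity
  have hδ1 : 7 * δ ≤ 1 := by rw [hδdef]; linarith
  have hδlt : δ < 1 := by linarith
  have hθ1 : θ ≤ 1 := by rw [hθdef]; linarith
  obtain ⟨q, hqdef⟩ : ∃ q, q = (1 - δ) ^ 3 * (1 - 7 * δ) := ⟨_, rfl⟩
  have hq0 : 0 ≤ q := by
    rw [hqdef]
    have h1 : 0 ≤ 1 - δ := by linarith
    have h2 : 0 ≤ 1 - 7 * δ := by linarith
    positivity
  have hq1 : q ≤ 1 := by
    rw [hqdef]
    have h1 : (1 - δ) ^ 3 ≤ 1 := pow_le_one₀ (by linarith) (by linarith)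
    have h1' : 0 ≤ (1 - δ) ^ 3 := pow_nonneg (by linarith) 3
    nlinarith
  have hq2 : 1 - 10 * δ ≤ q := by
    rw [hqdef]
    have h1 : 1 - 3 * δ ≤ (1 - δ) ^ 3 := by nlinarith [sq_nonneg δ]
    have h2 : (1 - 3 * δ) * (1 - 7 * δ) ≤ (1 - δ) ^ 3 * (1 - 7 * δ) := by
      apply mul_le_mul_of_nonneg_right h1
      linarith
    nlinarith [sq_nonneg δ]
  have hq : 1 - ε / 2 ≤ (1 - θ) * q := by
    have h1 : (1 - θ) * (1 - 10 * δ) ≤ (1 - θ) * q := by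
      apply mul_le_mul_of_nonneg_left hq2
      linarith
    have h2 : 1 - ε / 2 ≤ (1 - θ) * (1 - 10 * δ) := by
      rw [hθdef, hδdef]
      nlinarith [sq_nonneg ε]
    linarith
  have hθq0 : 0 ≤ (1 - θ) * q := mul_nonneg (by linarith) hq0
  have hθq1 : (1 - θ) * q ≤ 1 := by nlinarith
  obtain ⟨R2, C2, hR2, hC2, hLL2⟩ := LL_pair H.wm H.wnn H.wbd H.wsupp hδ hδlt
  obtain ⟨R3, C3, hR3, hC3, hLL3⟩ := LL_trip H.Vm H.Vnn H.Vbd H.Vsupp hδ hδlt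
  obtain ⟨CB, hCB, hHB⟩ := hardy_ball' (volume : Measure E3) (by simp : 3 ≤ finrank ℝ E3)
  obtain ⟨N0, hN0⟩ := exists_params (L := L) (R02 := R2) (R03 := R3) hKc hC2.le hC3.le hCB.le hM0
    hΛ hε hδ hθ hq hθq0 hθq1
  refine ⟨N0, fun N hN ψ hψ hkin a lam gam ha haL hlc hgc hl0 hlΛ hli hlI hg0 hgi hconv hlog => ?_⟩
  obtain ⟨hN1, l, R, p, hl, hR, hp, hRl, hR2N, hR3N, hsmall, hexp, hlN, he1, he2⟩ := hN0 N hN
  have hNpos : (0 : ℝ) < N := by exact_mod_cast hN1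
  have hsqN : 0 < Real.sqrt N := Real.sqrt_pos.mpr hNpos
  obtain ⟨hψs, hψc, hψsym, hψn⟩ := hψ
  have hψ1 : ContDiff ℝ 1 ψ := hψs.of_le (by simp [cinf])
  have hL2 := hLL2 N R l hNpos hR hR2N (by linarith)
  have hL3 := hLL3 (Real.sqrt N) R l hsqN hR hR3N (by linarith)
  have hs4 : (Real.sqrt N) ^ 4 = (N : ℝ) ^ 2 := by
    rw [show (Real.sqrt N) ^ 4 = ((Real.sqrt N) ^ 2) ^ 2 by ring, Real.sq_sqrt hNpos.le]
  rw [hs4] at hL3
  have hC2' : 0 ≤ C2 / (N * R) := by positivity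
  have hC3' : 0 ≤ C3 / (Real.sqrt N * R) ^ 4 := by positivity
  obtain ⟨UG, hUG, hA, hB⟩ := global_ineq H.wm H.wnn H.Vm H.Vnn hN1 hHB hl hδ hδ1 hR hRl hsmall
    hC2' hC3' hb1 hb2 hΛ hKc hK hp hL2 hL3 hψs hlc hli hgi hl0 hg0 hlΛ hconv hlog
  rw [← hqdef] at hA
  have i1 : 0 ≤ ∫ y, lam y := integral_nonneg hl0
  have i2 : 0 ≤ ∫ y, gam y := integral_nonneg hg0
  have hA' := ineq_real_A hψ1 hψc hψn H.wm H.wnn H.wbd H.Vm H.Vnn H.Vbd hlc hl0 hUG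
    (by positivity) (by positivity) (by positivity) hA
  have hB' : ∀ t, ∫ x, (UG t).indicator (fun x => ‖ψ x‖ ^ 2) x ≤
      p * (CB * (4 * R) ^ 2 * ((∫ x, gradi ψ t x) + ((δ * l - 2 * R) ^ 2)⁻¹)) := fun t =>
    ineq_real_B hψ1 hψc hψn (hUG t) t (by positivity) (by positivity) (hB t)
  -- abbreviations
  obtain ⟨Ig, hIg⟩ : ∃ Ig, Ig = ∑ t, ∫ x, gradi ψ t x := ⟨_, rfl⟩
  obtain ⟨IU, hIU⟩ : ∃ IU, IU = ∑ t, ∫ x, (UG t).indicator (gradi ψ t) x := ⟨_, rfl⟩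
  obtain ⟨PU, hPU⟩ : ∃ PU, PU = ∑ t, ∫ x, (UG t).indicator (fun x => ‖ψ x‖ ^ 2) x := ⟨_, rfl⟩
  obtain ⟨Ip, hIp⟩ : ∃ Ip, Ip = ∫ x, (pot2 W N x + pot3 V N x) * ‖ψ x‖ ^ 2 := ⟨_, rfl⟩
  obtain ⟨Il, hIl⟩ : ∃ Il, Il = ∑ i, ∫ x, lam (x i) * ‖ψ x‖ ^ 2 := ⟨_, rfl⟩
  obtain ⟨J, hJ⟩ : ∃ J, J = ∑ i, ∫ x, (2 * (∑ k : Fin 3, (a (x i)) k *
        ((starRingEnd ℂ) (ψ x) * fderiv ℝ ψ x (Pi.single i (ek k))).re)
        - ‖a (x i)‖ ^ 2 * ‖ψ x‖ ^ 2) := ⟨_, rfl⟩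
  rw [← hIg] at hkin
  rw [← hIl, ← hIU, ← hIp, ← hIg] at hA'
  rw [← hJ, ← hIl, ← hIg, ← hIp]
  have hIg0 : 0 ≤ Ig := by
    rw [hIg]
    exact Finset.sum_nonneg fun t _ => integral_nonneg fun x => gradi_nonneg ψ t x
  have hIp0 : 0 ≤ Ip := by
    rw [hIp]
    exact integral_nonneg fun x =>
      mul_nonneg (add_nonneg (pot2_nonneg H.wnn x) (pot3_nonneg H.Vnn x)) (by positivity)
  have hIl0 : 0 ≤ Il := by
    rw [hIl]
    exact Finset.sum_nonneg fun i _ => integral_nonneg fun x =>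
      mul_nonneg (hl0 _) (by positivity)
  -- kinetic split
  have hkinJ : J ≤ Ig - (1 - θ) * IU + L ^ 2 / θ * PU := by
    rw [hJ, hIg, hIU, hPU, Finset.mul_sum, Finset.mul_sum, ← Finset.sum_sub_distrib,
      ← Finset.sum_add_distrib]
    exact Finset.sum_le_sum fun i _ => kin_split hψ1 hψc ha haL hθ (hUG i) i
  -- region mass
  have hPU1 : PU ≤ p * (CB * (4 * R) ^ 2 * (Ig + N * ((δ * l - 2 * R) ^ 2)⁻¹)) := by
    rw [hPU, hIg]
    refine (Finset.sum_le_sum fun t _ => hB' t).trans (le_of_eq ?_)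
    rw [← Finset.mul_sum, ← Finset.mul_sum, Finset.sum_add_distrib]
    simp
  have hPU2 : L ^ 2 / θ * PU ≤ ε / 3 * N := by
    calc L ^ 2 / θ * PU ≤ L ^ 2 / θ * (p * (CB * (4 * R) ^ 2 * (Ig + N * ((δ * l - 2 * R) ^ 2)⁻¹))) := by
          gcongr
      _ ≤ L ^ 2 / θ * (p * (CB * (4 * R) ^ 2 * (M0 * N + N * ((δ * l - 2 * R) ^ 2)⁻¹))) := by
          gcongr
      _ = (L ^ 2 / θ * (p * (CB * (4 * R) ^ 2 * (M0 + ((δ * l - 2 * R) ^ 2)⁻¹)))) * N := by ring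
      _ ≤ ε / 3 * N := by gcongr
  -- error terms
  have herr1 : (24 * p * (C2 / (N * R)) + 36 * p ^ 2 * (C3 / (Real.sqrt N * R) ^ 4)) * Ig ≤
      ε / 3 * N := by
    calc (24 * p * (C2 / (N * R)) + 36 * p ^ 2 * (C3 / (Real.sqrt N * R) ^ 4)) * Ig
        ≤ (24 * p * (C2 / (N * R)) + 36 * p ^ 2 * (C3 / (Real.sqrt N * R) ^ 4)) * (M0 * N) := by
          gcongr
      _ = ((24 * p * (C2 / (N * R)) + 36 * p ^ 2 * (C3 / (Real.sqrt N * R) ^ 4)) * M0) * N := by ring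
      _ ≤ ε / 3 * N := by gcongr
  have hloss : 2 * ((∫ y, lam y) / l ^ 3) + N * ∫ y, gam y ≤ ε / 3 * N + N * ∫ y, gam y := by
    have : 2 * ((∫ y, lam y) / l ^ 3) ≤ 2 * (Λ / l ^ 3) := by gcongr
    linarith
  have hloss0 : 0 ≤ 2 * ((∫ y, lam y) / l ^ 3) + N * ∫ y, gam y := by positivity
  obtain ⟨loss, hlossd⟩ : ∃ loss, loss = 2 * ((∫ y, lam y) / l ^ 3) + N * ∫ y, gam y := ⟨_, rfl⟩
  obtain ⟨e1, he1d⟩ : ∃ e1, e1 = 24 * p * (C2 / (N * R)) + 36 * p ^ 2 * (C3 / (Real.sqrt N * R) ^ 4) :=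
    ⟨_, rfl⟩
  have he10 : 0 ≤ e1 := by rw [he1d]; positivity
  rw [← hlossd] at hloss hloss0 hA'
  rw [← he1d] at herr1 hA'
  have hA2 : (1 - θ) * (q * Real.exp (-(2 * Λ * l)) * Il) ≤
      (1 - θ) * (IU + Ip + e1 * Ig + q * loss) := by
    apply mul_le_mul_of_nonneg_left hA'
    linarith
  have hA3 : (1 - ε) * Il ≤ (1 - θ) * (q * Real.exp (-(2 * Λ * l)) * Il) := by
    calc (1 - ε) * Il ≤ ((1 - θ) * q * Real.exp (-(2 * Λ * l))) * Il := by gcongr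
      _ = _ := by ring
  have hA4 : (1 - θ) * (IU + Ip + e1 * Ig + q * loss) ≤
      (1 - θ) * IU + Ip + e1 * Ig + loss := by
    have t1 : (1 - θ) * Ip ≤ 1 * Ip := by gcongr; linarith
    have t2 : (1 - θ) * (e1 * Ig) ≤ 1 * (e1 * Ig) := by
      have : 0 ≤ e1 * Ig := by positivity
      gcongr
      linarith
    have t3 : (1 - θ) * q * loss ≤ 1 * loss := by gcongr
    linarith
  have hlast : (1 - ε0) * Il ≤ (1 - ε) * Il := by gcongr
  have hlast2 : ε * N ≤ ε0 * N := by gcongr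
  linarith

end Main

end Pool.Agent.Helper23.Bose
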